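import Mathlib

/-! Base definitions for the K_3^+ problem. -/
open MeasureTheory Set
open scoped ENNReal

namespace YU432

/-- the value `a x^3 + b x^2 + c x` -/
noncomputable def Fv (F : ℤ × ℤ × ℤ) (x : ℝ) : ℝ := F.1 * x^3 + F.2.1 * x^2 + F.2.2 * x
/-- its derivative -/
noncomputable def F1 (F : ℤ × ℤ × ℤ) (x : ℝ) : ℝ := 3 * F.1 * x^2 + 2 * F.2.1 * x + F.2.2
/-- its second derivative -/
noncomputable def F2 (F : ℤ × ℤ × ℤ) (x : ℝ) : ℝ := 6 * F.1 * x + 2 * F.2.1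
/-- product of the `max 1 |a_i|` -/
noncomputable def PiF (F : ℤ × ℤ × ℤ) : ℝ :=
  max 1 |(F.1:ℝ)| * max 1 |(F.2.1:ℝ)| * max 1 |(F.2.2:ℝ)|
/-- height of `(a,b,c)` -/
noncomputable def hF (F : ℤ × ℤ × ℤ) : ℝ := max (max |(F.1:ℝ)| |(F.2.1:ℝ)|) |(F.2.2:ℝ)|
/-- discriminant of `a x^3 + b x^2 + c x + d` -/
def disc (a b c d : ℤ) : ℤ := b^2*c^2 - 4*a*c^3 - 4*b^3*d - 27*a^2*d^2 + 18*a*b*c*d

/-- the piece of `{1/M ≤ σ3 x ≤ M}` where `σ1 F'' ≥ 0` and `σ2 F' > 0`; the signs are booleans -/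
noncomputable def sg (b : Bool) : ℝ := if b then 1 else -1

def piece (M : ℝ) (F : ℤ × ℤ × ℤ) (σ : Bool × Bool × Bool) : Set ℝ :=
  {x | 1/M ≤ sg σ.2.2 * x ∧ sg σ.2.2 * x ≤ M ∧ 0 ≤ sg σ.1 * F2 F x ∧ 0 < sg σ.2.1 * F1 F x}

end YU432
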