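import Pool.Agent.Helper432.YU.Base

open MeasureTheory Set
open scoped ENNReal

namespace YU432

/-- Bezout form of the resultant of two cubics -/
def bez {R : Type} [CommRing R] (p3 p2 p1 p0 q3 q2 q1 q0 : R) : R :=
  (p3*q2-p2*q3) * (((p3*q0-p0*q3)+(p2*q1-p1*q2))*(p1*q0-p0*q1) - (p2*q0-p0*q2)*(p2*q0-p0*q2))
  - (p3*q1-p1*q3) * ((p3*q1-p1*q3)*(p1*q0-p0*q1) - (p2*q0-p0*q2)*(p3*q0-p0*q3))
  + (p3*q0-p0*q3) * ((p3*q1-p1*q3)*(p2*q0-p0*q2) - ((p3*q0-p0*q3)+(p2*q1-p1*q2))*(p3*q0-p0*q3))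

open Polynomial in
theorem bez_zero_coeff (α β γ : ℚ) : (C α * X ^ 2 + C β * X + C γ : ℚ[X]).coeff 2 = α ∧
    (C α * X ^ 2 + C β * X + C γ : ℚ[X]).coeff 1 = β ∧
    (C α * X ^ 2 + C β * X + C γ : ℚ[X]).coeff 0 = γ := by
  refine ⟨?_, ?_, ?_⟩ <;> simp [coeff_X, coeff_C]

open Polynomial in
theorem bez_zero_rat (p3 p2 p1 p0 q3 q2 q1 q0 : ℚ) (hp : p3 ≠ 0) (hq : q3 ≠ 0)
    (hroot : ∀ x : ℚ, p3 * x ^ 3 + p2 * x ^ 2 + p1 * x + p0 ≠ 0)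
    (h : bez p3 p2 p1 p0 q3 q2 q1 q0 = 0) :
    ∃ r : ℚ, q3 = r * p3 ∧ q2 = r * p2 ∧ q1 = r * p1 ∧ q0 = r * p0 := by
  obtain ⟨w, hw0, hw⟩ := (Matrix.exists_mulVec_eq_zero_iff
    (M := !![p3*q2-p2*q3, p3*q1-p1*q3, p3*q0-p0*q3;
      p3*q1-p1*q3, (p3*q0-p0*q3)+(p2*q1-p1*q2), p2*q0-p0*q2;
      p3*q0-p0*q3, p2*q0-p0*q2, p1*q0-p0*q1])).2 (by
    rw [Matrix.det_fin_three]
    simp only [Matrix.of_apply, Matrix.cons_val', Matrix.cons_val_zero, Matrix.cons_val_one,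
      Matrix.cons_val]
    unfold bez at h
    linear_combination h)
  have e0 := congrFun hw 0
  have e1 := congrFun hw 1
  have e2 := congrFun hw 2
  simp only [Matrix.mulVec, dotProduct, Fin.sum_univ_three, Matrix.of_apply, Matrix.cons_val',
    Matrix.cons_val_zero, Matrix.cons_val_one, Matrix.cons_val, Pi.zero_apply] at e0 e1 e2
  let P : ℚ[X] := C p3 * X ^ 3 + C p2 * X ^ 2 + C p1 * X + C p0
  let Q : ℚ[X] := C q3 * X ^ 3 + C q2 * X ^ 2 + C q1 * X + C q0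
  let U : ℚ[X] := C (w 2 * q3) * X ^ 2 + C (w 1 * q3 + w 2 * q2) * X +
    C (w 0 * q3 + w 1 * q2 + w 2 * q1)
  let V : ℚ[X] := C (w 2 * p3) * X ^ 2 + C (w 1 * p3 + w 2 * p2) * X +
    C (w 0 * p3 + w 1 * p2 + w 2 * p1)
  have hUV : U * P = V * Q := by
    have hkey : U * P - V * Q = -(C ((p3*q2-p2*q3) * w 0 + (p3*q1-p1*q3) * w 1 +
        (p3*q0-p0*q3) * w 2) * X ^ 2 + C ((p3*q1-p1*q3) * w 0 +
        ((p3*q0-p0*q3)+(p2*q1-p1*q2)) * w 1 + (p2*q0-p0*q2) * w 2) * X +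
        C ((p3*q0-p0*q3) * w 0 + (p2*q0-p0*q2) * w 1 + (p1*q0-p0*q1) * w 2)) := by
      simp only [U, P, V, Q, map_add, map_sub, map_mul]
      ring
    rw [e0, e1, e2] at hkey
    simp only [map_zero, zero_mul, add_zero, neg_zero] at hkey
    exact sub_eq_zero.1 hkey
  have hPdeg : P.natDegree = 3 := natDegree_cubic hp
  have hP0 : P ≠ 0 := by
    intro h0
    rw [h0] at hPdeg
    simp at hPdeg
  have hPirr : Irreducible P := by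
    apply irreducible_of_degree_le_three_of_not_isRoot
    · rw [hPdeg]
      decide
    · intro x hx
      apply hroot x
      have : P.eval x = 0 := hx
      simpa [P] using this
  have hVdeg : V.natDegree ≤ 2 := natDegree_quadratic_le
  have hV0 : V ≠ 0 := by
    intro hV
    apply hw0
    have c2 : V.coeff 2 = 0 := by rw [hV, coeff_zero]
    have c1 : V.coeff 1 = 0 := by rw [hV, coeff_zero]
    have c0 : V.coeff 0 = 0 := by rw [hV, coeff_zero]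
    have c2' : w 2 * p3 = 0 := ((bez_zero_coeff _ _ _).1).symm.trans c2
    have hw2 : w 2 = 0 := (mul_eq_zero.1 c2').resolve_right hp
    have c1' : w 1 * p3 + w 2 * p2 = 0 := ((bez_zero_coeff _ _ _).2.1).symm.trans c1
    rw [hw2, zero_mul, add_zero] at c1'
    have hw1 : w 1 = 0 := (mul_eq_zero.1 c1').resolve_right hp
    have c0' : w 0 * p3 + w 1 * p2 + w 2 * p1 = 0 :=
      ((bez_zero_coeff _ _ _).2.2).symm.trans c0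
    rw [hw2, hw1, zero_mul, zero_mul, add_zero, add_zero] at c0'
    have hw0' : w 0 = 0 := (mul_eq_zero.1 c0').resolve_right hp
    funext i
    fin_cases i
    · exact hw0'
    · exact hw1
    · exact hw2
  have hdvd : P ∣ V * Q := ⟨U, by rw [← hUV, mul_comm]⟩
  rcases hPirr.prime.dvd_or_dvd hdvd with h1 | h1
  · exfalso
    have := natDegree_le_of_dvd h1 hV0
    omega
  · obtain ⟨R, hR⟩ := h1
    have hQdeg : Q.natDegree = 3 := natDegree_cubic hq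
    have hR0 : R ≠ 0 := by
      rintro rfl
      rw [mul_zero] at hR
      rw [hR] at hQdeg
      simp at hQdeg
    have hRdeg : R.natDegree = 0 := by
      have := natDegree_mul hP0 hR0
      rw [← hR] at this
      omega
    obtain ⟨r, hr⟩ : ∃ r : ℚ, R = C r := ⟨R.coeff 0, eq_C_of_natDegree_eq_zero hRdeg⟩
    have hQ : Q = C r * P := by rw [hR, hr, mul_comm]
    have hc : ∀ n, Q.coeff n = r * P.coeff n := fun n => by rw [hQ, coeff_C_mul]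
    refine ⟨r, ?_, ?_, ?_, ?_⟩
    · have := hc 3
      simpa [P, Q, coeff_X, coeff_C] using this
    · have := hc 2
      simpa [P, Q, coeff_X, coeff_C] using this
    · have := hc 1
      simpa [P, Q, coeff_X, coeff_C] using this
    · have := hc 0
      simpa [P, Q, coeff_X, coeff_C] using this

theorem bez_zero (a b c d a' b' c' d' : ℤ) (ha : a ≠ 0) (ha' : a' ≠ 0)
    (hP : ∀ u v : ℤ, u ≠ 0 → a*v^3 + b*v^2*u + c*v*u^2 + d*u^3 ≠ 0)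
    (hQ : ∀ u v : ℤ, u ≠ 0 → a'*v^3 + b'*v^2*u + c'*v*u^2 + d'*u^3 ≠ 0)
    (h : bez a b c d a' b' c' d' = 0) :
    a' * b = a * b' ∧ a' * c = a * c' ∧ a' * d = a * d' := by
  have haq : (a : ℚ) ≠ 0 := by exact_mod_cast ha
  have haq' : (a' : ℚ) ≠ 0 := by exact_mod_cast ha'
  have hroot : ∀ x : ℚ, (a : ℚ) * x ^ 3 + b * x ^ 2 + c * x + d ≠ 0 := by
    intro x hx
    have hx1 : x * x.den = x.num := Rat.mul_den_eq_num x
    apply hP x.den x.num (by exact_mod_cast x.den_nz)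
    have h1 : (a : ℚ) * (x.num : ℚ) ^ 3 + b * (x.num : ℚ) ^ 2 * (x.den : ℚ) +
        c * (x.num : ℚ) * (x.den : ℚ) ^ 2 + d * (x.den : ℚ) ^ 3 = 0 := by
      rw [← hx1]
      linear_combination (x.den : ℚ) ^ 3 * hx
    exact_mod_cast h1
  obtain ⟨r, h1, h2, h3, h4⟩ := bez_zero_rat (a : ℚ) b c d a' b' c' d' haq haq' hroot (by
    unfold bez at h ⊢
    exact_mod_cast h)
  refine ⟨?_, ?_, ?_⟩
  · have : (a' : ℚ) * b = a * b' := by rw [h1, h2]; ring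
    exact_mod_cast this
  · have : (a' : ℚ) * c = a * c' := by rw [h1, h3]; ring
    exact_mod_cast this
  · have : (a' : ℚ) * d = a * d' := by rw [h1, h4]; ring
    exact_mod_cast this

theorem bez_shift (x p3 p2 p1 p0 q3 q2 q1 q0 : ℝ) :
    bez p3 (p2 + 3*p3*x) (3*p3*x^2 + 2*p2*x + p1) (p3*x^3 + p2*x^2 + p1*x + p0)
      q3 (q2 + 3*q3*x) (3*q3*x^2 + 2*q2*x + q1) (q3*x^3 + q2*x^2 + q1*x + q0)
      = bez p3 p2 p1 p0 q3 q2 q1 q0 := by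
  unfold bez
  ring

theorem br_le {a b c d α β γ δ : ℝ} (ha : |a| ≤ α) (hb : |b| ≤ β) (hc : |c| ≤ γ) (hd : |d| ≤ δ) :
    |a*b - c*d| ≤ α*β + γ*δ := by
  have h1 : |a*b| ≤ α*β := by
    rw [abs_mul]; exact mul_le_mul ha hb (abs_nonneg _) ((abs_nonneg _).trans ha)
  have h2 : |c*d| ≤ γ*δ := by
    rw [abs_mul]; exact mul_le_mul hc hd (abs_nonneg _) ((abs_nonneg _).trans hc)
  calc |a*b - c*d| ≤ |a*b| + |c*d| := abs_sub _ _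
    _ ≤ _ := add_le_add h1 h2

theorem m3_le {a b c α β γ : ℝ} (ha : |a| ≤ α) (hb : |b| ≤ β) (hc : |c| ≤ γ) :
    |a*b*c| ≤ α*β*γ := by
  have h0 : 0 ≤ α := (abs_nonneg _).trans ha
  have h1 : 0 ≤ β := (abs_nonneg _).trans hb
  rw [abs_mul, abs_mul]
  exact mul_le_mul (mul_le_mul ha hb (abs_nonneg _) h0) hc (abs_nonneg _) (mul_nonneg h0 h1)

theorem bez_br (A B C D E G L h ρ g : ℝ) (hL : 0 ≤ L) (hh : 1 ≤ h) (hρ : 0 < ρ) (hρ1 : ρ ≤ 1)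
    (hg : h * g = ρ^2) (hg0 : 0 ≤ g)
    (hA : |A| ≤ L*h^2) (hB : |B| ≤ L*(h*ρ)) (hC : |C| ≤ L*ρ^2) (hD : |D| ≤ L*(h*ρ))
    (hE : |E| ≤ L*ρ^2) (hG : |G| ≤ L*(ρ*g)) :
    |A*((C+D)*G - E*E) - B*(B*G - E*C) + C*(B*E - (C+D)*C)| ≤ 8*L^3*(h^2*ρ^4) := by
  have e : A*((C+D)*G - E*E) - B*(B*G - E*C) + C*(B*E - (C+D)*C)
      = A*C*G + A*D*G - A*E*E - B*B*G + B*E*C + C*B*E - C*C*C - C*D*C := by ring
  have hp : ρ^5 * h ≤ h^2*ρ^4 := by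
    have h1 : ρ ≤ h := hρ1.trans hh
    have h2 : 0 ≤ h * ρ^4 := by positivity
    nlinarith [mul_le_mul_of_nonneg_left h1 h2]
  have hp6 : ρ^6 ≤ h^2*ρ^4 := by
    have h1 : ρ^2 ≤ h^2 := by
      apply pow_le_pow_left₀ hρ.le; exact hρ1.trans hh
    have h2 : 0 ≤ ρ^4 := by positivity
    nlinarith [mul_le_mul_of_nonneg_left h1 h2]
  have hL3 : 0 ≤ L^3 := by positivity
  have t1 : |A*C*G| ≤ L^3*(h^2*ρ^4) := by
    refine (m3_le hA hC hG).trans ?_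
    have : L*h^2*(L*ρ^2)*(L*(ρ*g)) = L^3*(ρ^5*h) := by
      have : L*h^2*(L*ρ^2)*(L*(ρ*g)) = L^3*(h*ρ^3*(h*g)) := by ring
      rw [this, hg]; ring
    rw [this]; exact mul_le_mul_of_nonneg_left hp hL3
  have t2 : |A*D*G| ≤ L^3*(h^2*ρ^4) := by
    refine (m3_le hA hD hG).trans (le_of_eq ?_)
    have : L*h^2*(L*(h*ρ))*(L*(ρ*g)) = L^3*(h^2*ρ^2*(h*g)) := by ring
    rw [this, hg]; ring
  have t3 : |A*E*E| ≤ L^3*(h^2*ρ^4) := by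
    refine (m3_le hA hE hE).trans (le_of_eq ?_)
    ring
  have t4 : |B*B*G| ≤ L^3*(h^2*ρ^4) := by
    refine (m3_le hB hB hG).trans ?_
    have : L*(h*ρ)*(L*(h*ρ))*(L*(ρ*g)) = L^3*(ρ^5*h) := by
      have : L*(h*ρ)*(L*(h*ρ))*(L*(ρ*g)) = L^3*(h*ρ^3*(h*g)) := by ring
      rw [this, hg]; ring
    rw [this]; exact mul_le_mul_of_nonneg_left hp hL3
  have t5 : |B*E*C| ≤ L^3*(h^2*ρ^4) := by
    refine (m3_le hB hE hC).trans ?_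
    have : L*(h*ρ)*(L*ρ^2)*(L*ρ^2) = L^3*(ρ^5*h) := by ring
    rw [this]; exact mul_le_mul_of_nonneg_left hp hL3
  have t6 : |C*B*E| ≤ L^3*(h^2*ρ^4) := by
    refine (m3_le hC hB hE).trans ?_
    have : L*ρ^2*(L*(h*ρ))*(L*ρ^2) = L^3*(ρ^5*h) := by ring
    rw [this]; exact mul_le_mul_of_nonneg_left hp hL3
  have t7 : |C*C*C| ≤ L^3*(h^2*ρ^4) := by
    refine (m3_le hC hC hC).trans ?_
    have : L*ρ^2*(L*ρ^2)*(L*ρ^2) = L^3*ρ^6 := by ring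
    rw [this]; exact mul_le_mul_of_nonneg_left hp6 hL3
  have t8 : |C*D*C| ≤ L^3*(h^2*ρ^4) := by
    refine (m3_le hC hD hC).trans ?_
    have : L*ρ^2*(L*(h*ρ))*(L*ρ^2) = L^3*(ρ^5*h) := by ring
    rw [this]; exact mul_le_mul_of_nonneg_left hp hL3
  rw [e]
  rw [abs_le] at t1 t2 t3 t4 t5 t6 t7 t8 ⊢
  constructor <;> linarith [t1.1, t1.2, t2.1, t2.2, t3.1, t3.2, t4.1, t4.2, t5.1, t5.2, t6.1, t6.2,
    t7.1, t7.2, t8.1, t8.2]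

theorem bez_bound (K h ρ g p3 p2 p1 p0 q3 q2 q1 q0 : ℝ) (hK : 0 ≤ K) (hh : 1 ≤ h) (hρ : 0 < ρ)
    (hρ1 : ρ ≤ 1) (hg : h * g = ρ^2) (hg0 : 0 ≤ g)
    (h3 : |p3| ≤ K*h) (h2 : |p2| ≤ K*h) (h1 : |p1| ≤ K*ρ) (h0 : |p0| ≤ K*g)
    (k3 : |q3| ≤ K*h) (k2 : |q2| ≤ K*h) (k1 : |q1| ≤ K*ρ) (k0 : |q0| ≤ K*g) :
    |bez p3 p2 p1 p0 q3 q2 q1 q0| ≤ 64*K^6*(h*ρ^2)^2 := by
  have hA : |p3*q2-p2*q3| ≤ (2*K^2)*h^2 := (br_le h3 k2 h2 k3).trans (le_of_eq (by ring))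
  have hB : |p3*q1-p1*q3| ≤ (2*K^2)*(h*ρ) := (br_le h3 k1 h1 k3).trans (le_of_eq (by ring))
  have hC : |p3*q0-p0*q3| ≤ (2*K^2)*ρ^2 := by
    refine (br_le h3 k0 h0 k3).trans (le_of_eq ?_)
    rw [← hg]; ring
  have hD : |p2*q1-p1*q2| ≤ (2*K^2)*(h*ρ) := (br_le h2 k1 h1 k2).trans (le_of_eq (by ring))
  have hE : |p2*q0-p0*q2| ≤ (2*K^2)*ρ^2 := by
    refine (br_le h2 k0 h0 k2).trans (le_of_eq ?_)
    rw [← hg]; ring
  have hG : |p1*q0-p0*q1| ≤ (2*K^2)*(ρ*g) := (br_le h1 k0 h0 k1).trans (le_of_eq (by ring))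
  have := bez_br _ _ _ _ _ _ (2*K^2) h ρ g (by positivity) hh hρ hρ1 hg hg0 hA hB hC hD hE hG
  unfold bez
  calc _ ≤ 8*(2*K^2)^3*(h^2*ρ^4) := this
    _ = _ := by ring

theorem bez_small (M : ℝ) (hM : 1 ≤ M) : ∃ c : ℝ, 0 < c ∧
    ∀ (P Q : (ℤ × ℤ × ℤ) × ℤ) (h ρ x y : ℝ), 1 ≤ h → 0 < ρ → ρ ≤ 1 → h * ρ^2 ≤ c →
      |x| ≤ M → |y| ≤ M → |x - y| ≤ ρ/h → hF P.1 ≤ h → hF Q.1 ≤ h →
      |Fv P.1 x + P.2| ≤ ρ^2/h → |F1 P.1 x| ≤ ρ → |Fv Q.1 y + Q.2| ≤ ρ^2/h → |F1 Q.1 y| ≤ ρ →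
      bez P.1.1 P.1.2.1 P.1.2.2 P.2 Q.1.1 Q.1.2.1 Q.1.2.2 Q.2 = 0 := by
  have hK : (0:ℝ) < 12*M := by linarith
  refine ⟨1/(16*(12*M)^3), by positivity, ?_⟩
  rintro ⟨⟨p3, p2, p1⟩, p0⟩ ⟨⟨q3, q2, q1⟩, q0⟩ h ρ x y hh hρ hρ1 hc hx hy hxy hP hQ hPx hP1 hQy hQ1
  simp only [hF, Fv, F1] at hP hQ hPx hP1 hQy hQ1 ⊢
  have hh0 : (0:ℝ) < h := by linarith
  have P3 : |(p3:ℝ)| ≤ h := (le_max_left _ _).trans ((le_max_left _ _).trans hP)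
  have P2 : |(p2:ℝ)| ≤ h := (le_max_right _ _).trans ((le_max_left _ _).trans hP)
  have Q3 : |(q3:ℝ)| ≤ h := (le_max_left _ _).trans ((le_max_left _ _).trans hQ)
  have Q2 : |(q2:ℝ)| ≤ h := (le_max_right _ _).trans ((le_max_left _ _).trans hQ)
  set g : ℝ := ρ^2/h with hgdef
  have hg0 : 0 ≤ g := by positivity
  have hg : h * g = ρ^2 := by rw [hgdef]; field_simp
  set δ : ℝ := x - y with hδ
  have hδ1 : |δ| ≤ ρ/h := hxy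
  have hδh : h * |δ| ≤ ρ := by
    have := mul_le_mul_of_nonneg_left hδ1 hh0.le
    have e : h * (ρ/h) = ρ := by field_simp
    linarith
  have hδρ : |δ| ≤ ρ := (le_mul_of_one_le_left (abs_nonneg δ) hh).trans hδh
  have hM0 : 0 ≤ M := by linarith
  have hmh : h ≤ h*M := le_mul_of_one_le_right hh0.le hM
  have hmρ : ρ ≤ ρ*M := le_mul_of_one_le_right hρ.le hM
  have hmg : g ≤ g*M := le_mul_of_one_le_right hg0 hM
  -- second coefficient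
  have key2 : ∀ a b : ℝ, |a| ≤ h → |b| ≤ h → |b + 3*a*x| ≤ (12*M)*h := by
    intro a b ha hb
    have h1 : |a*x| ≤ h*M := by
      rw [abs_mul]; exact mul_le_mul ha hx (abs_nonneg _) hh0.le
    have e : b + 3*a*x = b + 3*(a*x) := by ring
    rw [e]
    rw [abs_le] at h1 hb ⊢
    constructor <;> linarith [h1.1, h1.2, hb.1, hb.2]
  have p3' : |(p3:ℝ)| ≤ (12*M)*h := by linarith
  have q3' : |(q3:ℝ)| ≤ (12*M)*h := by linarith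
  have p2' := key2 p3 p2 P3 P2
  have q2' := key2 q3 q2 Q3 Q2
  have p1' : |3*(p3:ℝ)*x^2 + 2*p2*x + p1| ≤ (12*M)*ρ := hP1.trans (by linarith)
  have p0' : |(p3:ℝ)*x^3 + p2*x^2 + p1*x + p0| ≤ (12*M)*g := hPx.trans (by linarith)
  -- Q at x
  have hxe : x = y + δ := by rw [hδ]; ring
  have n1 : |6*(q3:ℝ)*y + 2*q2| ≤ 8*M*h := by
    have h1 : |(q3:ℝ)*y| ≤ h*M := by
      rw [abs_mul]; exact mul_le_mul Q3 hy (abs_nonneg _) hh0.le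
    have e : 6*(q3:ℝ)*y + 2*q2 = 6*((q3:ℝ)*y) + 2*q2 := by ring
    rw [e]
    rw [abs_le] at h1 ⊢
    have Q2' := abs_le.mp Q2
    constructor <;> linarith [h1.1, h1.2, Q2'.1, Q2'.2]
  have n2 : |(6*(q3:ℝ)*y + 2*q2)*δ| ≤ 8*M*ρ := by
    rw [abs_mul]
    calc |6*(q3:ℝ)*y + 2*q2| * |δ| ≤ (8*M*h)*|δ| := mul_le_mul_of_nonneg_right n1 (abs_nonneg _)
      _ = 8*M*(h*|δ|) := by ring
      _ ≤ 8*M*ρ := mul_le_mul_of_nonneg_left hδh (by linarith)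
  have n3 : |(q3:ℝ)*δ| ≤ ρ := by
    rw [abs_mul]
    exact (mul_le_mul_of_nonneg_right Q3 (abs_nonneg _)).trans hδh
  have n4 : |(q3:ℝ)*δ*δ| ≤ ρ := by
    rw [abs_mul]
    calc |(q3:ℝ)*δ| * |δ| ≤ ρ * 1 := mul_le_mul n3 (hδρ.trans hρ1) (abs_nonneg _) hρ.le
      _ = ρ := mul_one _
  have q1' : |3*(q3:ℝ)*x^2 + 2*q2*x + q1| ≤ (12*M)*ρ := by
    have e : 3*(q3:ℝ)*x^2 + 2*q2*x + q1
        = (3*(q3:ℝ)*y^2 + 2*q2*y + q1) + (6*(q3:ℝ)*y + 2*q2)*δ + 3*((q3:ℝ)*δ*δ) := by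
      rw [hxe]; ring
    rw [e]
    have a1 := abs_le.mp hQ1
    have a2 := abs_le.mp n2
    have a3 := abs_le.mp n4
    rw [abs_le]
    constructor <;> linarith [a1.1, a1.2, a2.1, a2.2, a3.1, a3.2]
  -- |δ| * ρ ≤ g
  have gδ : ρ * |δ| ≤ g := by
    have e : ρ * (ρ/h) = g := by rw [hgdef]; ring
    rw [← e]; exact mul_le_mul_of_nonneg_left hδ1 hρ.le
  have m1 : |(3*(q3:ℝ)*y^2 + 2*q2*y + q1)*δ| ≤ g := by
    rw [abs_mul]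
    exact (mul_le_mul_of_nonneg_right hQ1 (abs_nonneg _)).trans gδ
  have m2 : |(6*(q3:ℝ)*y + 2*q2)*δ*δ| ≤ 8*M*g := by
    rw [abs_mul]
    calc |(6*(q3:ℝ)*y + 2*q2)*δ| * |δ| ≤ (8*M*ρ)*|δ| :=
          mul_le_mul_of_nonneg_right n2 (abs_nonneg _)
      _ = 8*M*(ρ*|δ|) := by ring
      _ ≤ 8*M*g := mul_le_mul_of_nonneg_left gδ (by linarith)
  have m3 : |(q3:ℝ)*δ*δ*δ| ≤ g := by
    rw [abs_mul]
    exact (mul_le_mul_of_nonneg_right n4 (abs_nonneg _)).trans gδ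
  have q0' : |(q3:ℝ)*x^3 + q2*x^2 + q1*x + q0| ≤ (12*M)*g := by
    have e : (q3:ℝ)*x^3 + q2*x^2 + q1*x + q0
        = (q3*y^3 + q2*y^2 + q1*y + q0) + (3*(q3:ℝ)*y^2 + 2*q2*y + q1)*δ
          + (1/2)*((6*(q3:ℝ)*y + 2*q2)*δ*δ) + (q3:ℝ)*δ*δ*δ := by
      rw [hxe]; ring
    rw [e]
    have a0 := abs_le.mp hQy
    have a1 := abs_le.mp m1
    have a2 := abs_le.mp m2
    have a3 := abs_le.mp m3
    rw [abs_le]
    constructor <;> linarith [a0.1, a0.2, a1.1, a1.2, a2.1, a2.2, a3.1, a3.2]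
  have hb := bez_bound (12*M) h ρ g p3 (p2 + 3*p3*x) (3*p3*x^2 + 2*p2*x + p1)
    (p3*x^3 + p2*x^2 + p1*x + p0) q3 (q2 + 3*q3*x) (3*q3*x^2 + 2*q2*x + q1)
    (q3*x^3 + q2*x^2 + q1*x + q0) hK.le hh hρ hρ1 hg hg0 p3' p2' p1' p0' q3' q2' q1' q0'
  rw [bez_shift] at hb
  have hlt : 64*(12*M)^6*(h*ρ^2)^2 < 1 := by
    have h1 : (h*ρ^2)^2 ≤ (1/(16*(12*M)^3))^2 := pow_le_pow_left₀ (by positivity) hc 2
    have h2 : 64*(12*M)^6*(h*ρ^2)^2 ≤ 64*(12*M)^6*(1/(16*(12*M)^3))^2 :=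
      mul_le_mul_of_nonneg_left h1 (by positivity)
    have h3 : 64*(12*M)^6*(1/(16*(12*M)^3))^2 = 1/4 := by
      have : M ≠ 0 := by linarith
      field_simp
      ring
    linarith
  have hcast : ((bez p3 p2 p1 p0 q3 q2 q1 q0 : ℤ) : ℝ)
      = bez (p3:ℝ) p2 p1 p0 q3 q2 q1 q0 := by
    unfold bez; push_cast; ring
  have h1 : |((bez p3 p2 p1 p0 q3 q2 q1 q0 : ℤ) : ℝ)| < 1 := by
    rw [hcast]; exact lt_of_le_of_lt hb hlt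
  have h2 : |bez p3 p2 p1 p0 q3 q2 q1 q0| < 1 := by exact_mod_cast h1
  exact Int.abs_lt_one_iff.mp h2


end YU432
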