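import Pool.Agent.Helper432.YU.Tri
import Pool.Agent.Helper432.YU.Bz

open MeasureTheory Set
open scoped ENNReal

namespace YU432

theorem rc_card (J : Finset ℤ) (c R : ℝ) (hR : 0 ≤ R) (h : ∀ i ∈ J, |(i : ℝ) - c| ≤ R) :
    (J.card : ℝ) ≤ 2 * R + 1 := by
  have h1 : J ⊆ Finset.Icc ⌈c - R⌉ ⌊c + R⌋ := by
    intro i hi
    have h2 := abs_le.1 (h i hi)
    rw [Finset.mem_Icc]
    exact ⟨Int.ceil_le.2 (by linarith [h2.1]), Int.le_floor.2 (by linarith [h2.2])⟩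
  have h2 := Finset.card_le_card h1
  rw [Int.card_Icc] at h2
  have h3 : (J.card : ℤ) ≤ max (⌊c + R⌋ + 1 - ⌈c - R⌉) 0 := by
    rw [← Int.toNat_eq_max]
    exact_mod_cast h2
  have h4 : (J.card : ℝ) ≤ max ((⌊c + R⌋ : ℝ) + 1 - ⌈c - R⌉) 0 := by
    have := (Int.cast_le (R := ℝ)).2 h3
    push_cast at this
    exact this
  refine h4.trans (max_le ?_ (by linarith))
  have h5 := Int.floor_le (c + R)
  have h6 := Int.le_ceil (c - R)
  linarith

/-- the weight -/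
noncomputable def rcb (n : ℤ) : ℝ := |(n : ℝ)| ^ (-(3/2) : ℝ)

noncomputable def rca (n : ℤ) : ℝ := rcb n + if n = 0 then 1 else 0

theorem rcb_nonneg (n : ℤ) : 0 ≤ rcb n := Real.rpow_nonneg (abs_nonneg _) _

theorem rca_nonneg (n : ℤ) : 0 ≤ rca n := by
  unfold rca
  have := rcb_nonneg n
  split_ifs <;> linarith

theorem rcb_le (n : ℤ) : rcb n ≤ rca n := by
  unfold rca
  split_ifs <;> linarith

theorem rca_summable : Summable rca := by
  have h1 : Summable rcb := Real.summable_abs_int_rpow (by norm_num)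
  have h2 : Summable (fun n : ℤ => if n = 0 then (1:ℝ) else 0) := by
    apply summable_of_ne_finset_zero (s := {0})
    intro b hb
    rw [Finset.mem_singleton] at hb
    rw [if_neg hb]
  exact h1.add h2

theorem rcb_le_one (u : ℤ) (hu : u ≠ 0) : rcb u ≤ 1 := by
  unfold rcb
  have h1 : (1:ℝ) ≤ |(u:ℝ)| := by
    have := Int.one_le_abs hu
    exact_mod_cast this
  exact Real.rpow_le_one_of_one_le_of_nonpos h1 (by norm_num)

theorem rcb_uv (K : ℝ) (hK : 1 ≤ K) (u v : ℤ) (hu : u ≠ 0) (h : |(v : ℝ)| ≤ K * |(u : ℝ)|) :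
    rcb u ≤ K ^ (3/2 : ℝ) * rca v := by
  have hK1 : 1 ≤ K ^ (3/2 : ℝ) := Real.one_le_rpow hK (by norm_num)
  by_cases hv : v = 0
  · subst hv
    have : (1:ℝ) ≤ rca 0 := by
      unfold rca
      have := rcb_nonneg 0
      rw [if_pos rfl]
      linarith
    have h1 := rcb_le_one u hu
    nlinarith
  · have hv0 : 0 < |(v:ℝ)| := abs_pos.2 (by exact_mod_cast hv)
    have hu0 : 0 < |(u:ℝ)| := abs_pos.2 (by exact_mod_cast hu)
    have hK0 : 0 < K := by linarith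
    have h1 : |(v:ℝ)| / K ≤ |(u:ℝ)| := by
      rw [div_le_iff₀ hK0]
      linarith
    have h2 : rcb u ≤ (|(v:ℝ)| / K) ^ (-(3/2) : ℝ) :=
      Real.rpow_le_rpow_of_nonpos (by positivity) h1 (by norm_num)
    have h3 : (|(v:ℝ)| / K) ^ (-(3/2) : ℝ) = K ^ (3/2 : ℝ) * rcb v := by
      unfold rcb
      rw [Real.div_rpow hv0.le hK0.le, Real.rpow_neg hK0.le, div_inv_eq_mul, mul_comm]
    rw [h3] at h2
    exact h2.trans (mul_le_mul_of_nonneg_left (rcb_le v) (by linarith))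

theorem rc_al (h : ℝ) (hh : 1 ≤ h) (u w : ℤ) (hu : u ≠ 0) (hw : w ≠ 0) :
    (h / ((u : ℝ)^2 * |(w : ℝ)|)) * Real.sqrt (h / ((u : ℝ)^2 * |(w : ℝ)|)) =
      h ^ (3/2 : ℝ) * (rcb u * rcb u * rcb w) := by
  have hu0 : 0 < |(u:ℝ)| := abs_pos.2 (by exact_mod_cast hu)
  have hw0 : 0 < |(w:ℝ)| := abs_pos.2 (by exact_mod_cast hw)
  have h0 : 0 < h := by linarith
  have hx : 0 < h / ((u : ℝ)^2 * |(w : ℝ)|) := by
    rw [← sq_abs (u:ℝ)]
    positivity
  have e1 : (h / ((u : ℝ)^2 * |(w : ℝ)|)) * Real.sqrt (h / ((u : ℝ)^2 * |(w : ℝ)|)) =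
      (h / ((u : ℝ)^2 * |(w : ℝ)|)) ^ (3/2 : ℝ) := by
    rw [Real.sqrt_eq_rpow]
    nth_rw 1 [← Real.rpow_one (h / ((u : ℝ)^2 * |(w : ℝ)|))]
    rw [← Real.rpow_add hx]
    norm_num
  rw [e1, Real.div_rpow h0.le (by positivity), div_eq_mul_inv, ← Real.rpow_neg (by positivity),
    ← sq_abs (u:ℝ), Real.mul_rpow (by positivity) hw0.le, pow_two,
    Real.mul_rpow hu0.le hu0.le]
  rfl

theorem rich_count (K : ℝ) (hK : 1 ≤ K) : ∃ C : ℝ, 1 ≤ C ∧
    ∀ (h ρ : ℝ) (I : Finset ℤ) (r : ℤ → ℝ) (u v w : ℤ → ℤ), 1 ≤ h → 0 < ρ →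
      (∀ i ∈ I, u i ≠ 0 ∧ w i ≠ 0 ∧ |(v i : ℝ)| ≤ K * |(u i : ℝ)| ∧
        r i ≤ K * h / ((u i : ℝ)^2 * |(w i : ℝ)|) ∧ (u i : ℝ)^2 * |(w i : ℝ)| ≤ K * h ∧
        |(i : ℝ) * (ρ/h) - (v i : ℝ)/(u i : ℝ)| ≤
          K * ρ / Real.sqrt (h * ((u i : ℝ)^2 * |(w i : ℝ)|)) + ρ/h) →
      ∑ i ∈ I, r i ≤ C * h^(3/2 : ℝ) := by
  classical
  have hprod : Summable (fun t : ℤ × ℤ × ℤ => rca t.1 * (rca t.2.1 * rca t.2.2)) :=
    rca_summable.mul_of_nonneg (rca_summable.mul_of_nonneg rca_summable rca_nonneg rca_nonneg)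
      rca_nonneg (fun t => mul_nonneg (rca_nonneg _) (rca_nonneg _))
  set S : ℝ := ∑' t : ℤ × ℤ × ℤ, rca t.1 * (rca t.2.1 * rca t.2.2) with hS
  have hK0 : 0 < K := by linarith
  have hS0 : 0 ≤ S := tsum_nonneg fun t =>
    mul_nonneg (rca_nonneg _) (mul_nonneg (rca_nonneg _) (rca_nonneg _))
  have hK32 : 0 < K ^ (3/2 : ℝ) := Real.rpow_pos_of_pos hK0 _
  refine ⟨1 + 5 * K ^ 2 * K ^ (3/2 : ℝ) * S, by
    have : 0 ≤ 5 * K ^ 2 * K ^ (3/2 : ℝ) * S := by positivity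
    linarith, ?_⟩
  intro h ρ I r u v w hh hρ hI
  have h0 : 0 < h := by linarith
  have hh32 : 0 < h ^ (3/2 : ℝ) := Real.rpow_pos_of_pos h0 _
  set T : ℤ → ℤ × ℤ × ℤ := fun i => (u i, v i, w i) with hT
  rw [← Finset.sum_fiberwise_of_maps_to (s := I) (t := I.image T) (g := T)
    (fun i hi => Finset.mem_image_of_mem T hi)]
  have hin : ∀ t ∈ I.image T, ∑ i ∈ I with T i = t, r i ≤
      5 * K ^ 2 * K ^ (3/2 : ℝ) * h ^ (3/2 : ℝ) * (rca t.1 * (rca t.2.1 * rca t.2.2)) := by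
    intro t ht
    obtain ⟨j, hj, hjt⟩ := Finset.mem_image.1 ht
    obtain ⟨a1, a2, a3, -, a5, -⟩ := hI j hj
    have e1 : t.1 = u j := by rw [← hjt]
    have e2 : t.2.1 = v j := by rw [← hjt]
    have e3 : t.2.2 = w j := by rw [← hjt]
    rw [e1, e2, e3]
    have hu0 : 0 < |(u j:ℝ)| := abs_pos.2 (by exact_mod_cast a1)
    have hw0 : 0 < |(w j:ℝ)| := abs_pos.2 (by exact_mod_cast a2)
    set al : ℝ := (u j : ℝ)^2 * |(w j : ℝ)| with hal
    have hal0 : 0 < al := by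
      rw [hal, ← sq_abs (u j:ℝ)]
      positivity
    have hx : 0 < h / al := by positivity
    have hsx : 1 ≤ K * Real.sqrt (h / al) := by
      have h1 : 1 / K ≤ h / al := by
        rw [div_le_div_iff₀ hK0 hal0]
        linarith
      have h2 : 1 / K ≤ Real.sqrt (h / al) := by
        apply Real.le_sqrt_of_sq_le
        have h3 : (1 / K) ^ 2 ≤ 1 / K := by
          have h4 : 1 / K ≤ 1 := by rw [div_le_one hK0]; exact hK
          have h5 : 0 < 1 / K := by positivity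
          nlinarith
        exact h3.trans h1
      calc (1:ℝ) = K * (1 / K) := by field_simp
        _ ≤ K * Real.sqrt (h / al) := mul_le_mul_of_nonneg_left h2 hK0.le
    have hfib : ∀ i ∈ I.filter (fun i => T i = t), u i = u j ∧ v i = v j ∧ w i = w j := by
      intro i hi
      have h1 := (Finset.mem_filter.1 hi).2
      rw [← hjt] at h1
      have h2 := congrArg Prod.fst h1
      have h3 := congrArg (fun z => z.2.1) h1
      have h4 := congrArg (fun z => z.2.2) h1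
      exact ⟨h2, h3, h4⟩
    have hcard : ((I.filter (fun i => T i = t)).card : ℝ) ≤ 5 * (K * Real.sqrt (h / al)) := by
      have h1 := rc_card (I.filter (fun i => T i = t)) ((v j : ℝ) / (u j : ℝ) * (h / ρ))
        (K * Real.sqrt (h / al) + 1) (by positivity) (by
          intro i hi
          obtain ⟨f1, f2, f3⟩ := hfib i hi
          obtain ⟨-, -, -, -, -, b6⟩ := hI i (Finset.mem_filter.1 hi).1
          rw [f1, f2, f3, ← hal] at b6
          have g1 : (i : ℝ) - (v j : ℝ) / (u j : ℝ) * (h / ρ) =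
              ((i : ℝ) * (ρ/h) - (v j : ℝ)/(u j : ℝ)) * (h / ρ) := by
            field_simp
          rw [g1, abs_mul, abs_of_pos (show 0 < h / ρ by positivity)]
          have g2 := mul_le_mul_of_nonneg_right b6 (show 0 ≤ h / ρ by positivity)
          refine g2.trans (le_of_eq ?_)
          have g3 : Real.sqrt (h / al) = h / Real.sqrt (h * al) := by
            rw [eq_div_iff (by positivity), ← Real.sqrt_mul hx.le]
            have : h / al * (h * al) = h ^ 2 := by field_simp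
            rw [this, Real.sqrt_sq h0.le]
          rw [g3]
          have g4 : 0 < Real.sqrt (h * al) := by positivity
          field_simp)
      linarith
    have hr : ∀ i ∈ I.filter (fun i => T i = t), r i ≤ K * (h / al) := by
      intro i hi
      obtain ⟨f1, f2, f3⟩ := hfib i hi
      obtain ⟨-, -, -, b4, -, -⟩ := hI i (Finset.mem_filter.1 hi).1
      rw [f1, f3, ← hal] at b4
      rw [← mul_div_assoc]
      exact b4
    calc ∑ i ∈ I with T i = t, r i ≤ ((I.filter (fun i => T i = t)).card : ℝ) * (K * (h / al)) := by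
          have := Finset.sum_le_card_nsmul _ _ _ hr
          rwa [nsmul_eq_mul] at this
      _ ≤ 5 * (K * Real.sqrt (h / al)) * (K * (h / al)) :=
          mul_le_mul_of_nonneg_right hcard (by positivity)
      _ = 5 * K ^ 2 * (h / al * Real.sqrt (h / al)) := by ring
      _ = 5 * K ^ 2 * (h ^ (3/2 : ℝ) * (rcb (u j) * rcb (u j) * rcb (w j))) := by
          rw [hal, rc_al h hh (u j) (w j) a1 a2]
      _ ≤ 5 * K ^ 2 * (h ^ (3/2 : ℝ) * (rca (u j) * (K ^ (3/2 : ℝ) * rca (v j)) *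
            rca (w j))) := by
          refine mul_le_mul_of_nonneg_left (mul_le_mul_of_nonneg_left ?_ hh32.le) (by positivity)
          refine mul_le_mul (mul_le_mul (rcb_le _) (rcb_uv K hK _ _ a1 a3) (rcb_nonneg _)
            (rca_nonneg _)) (rcb_le _) (rcb_nonneg _) ?_
          exact mul_nonneg (rca_nonneg _) (mul_nonneg hK32.le (rca_nonneg _))
      _ = 5 * K ^ 2 * K ^ (3/2 : ℝ) * h ^ (3/2 : ℝ) * (rca (u j) * (rca (v j) * rca (w j))) := by
          ring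
  refine (Finset.sum_le_sum hin).trans ?_
  rw [← Finset.mul_sum]
  have h1 : ∑ t ∈ I.image T, rca t.1 * (rca t.2.1 * rca t.2.2) ≤ S :=
    hprod.sum_le_tsum _ (fun t _ =>
      mul_nonneg (rca_nonneg _) (mul_nonneg (rca_nonneg _) (rca_nonneg _)))
  have h2 : 0 ≤ 5 * K ^ 2 * K ^ (3/2 : ℝ) * h ^ (3/2 : ℝ) := by positivity
  have h3 := mul_le_mul_of_nonneg_left h1 h2
  refine h3.trans ?_
  have h4 : 5 * K ^ 2 * K ^ (3/2 : ℝ) * h ^ (3/2 : ℝ) * S =
      (5 * K ^ 2 * K ^ (3/2 : ℝ) * S) * h ^ (3/2 : ℝ) := by ring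
  rw [h4]
  exact mul_le_mul_of_nonneg_right (by linarith) hh32.le

theorem taylor_pair (M : ℝ) (hM : 1 ≤ M) : ∃ K : ℝ, 1 ≤ K ∧
    ∀ (P Q : (ℤ × ℤ × ℤ) × ℤ) (h ρ x y : ℝ), 1 ≤ h → 0 < ρ → ρ ≤ 1 → |x| ≤ M → |y| ≤ M →
      |x - y| ≤ ρ/h → hF P.1 ≤ h → hF Q.1 ≤ h →
      |Fv P.1 x + P.2| ≤ ρ^2/h → |F1 P.1 x| ≤ ρ → |Fv Q.1 y + Q.2| ≤ ρ^2/h → |F1 Q.1 y| ≤ ρ →
      |Fv (P.1 - Q.1) x + ((P.2 - Q.2 : ℤ) : ℝ)| ≤ K*ρ^2/h ∧ |F1 (P.1 - Q.1) x| ≤ K*ρ := by
  refine ⟨20 * M, by linarith, ?_⟩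
  rintro ⟨⟨a, b, c⟩, d⟩ ⟨⟨a', b', c'⟩, d'⟩ h ρ x y hh hρ hρ1 hx hy hxy hP hQ h1 h2 h3 h4
  simp only [hF] at hP hQ
  have ha' : |(a':ℝ)| ≤ h := (le_max_left _ _).trans ((le_max_left _ _).trans hQ)
  have hb' : |(b':ℝ)| ≤ h := (le_max_right _ _).trans ((le_max_left _ _).trans hQ)
  have hh0 : 0 < h := by linarith
  have hM0 : 0 < M := by linarith
  have hρh : ρ / h ≤ 1 := (div_le_one hh0).2 (by linarith)
  have hρh0 : 0 ≤ ρ / h := by positivity
  -- bound on the second derivative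
  have hF2 : |F2 (a', b', c') y| ≤ 8 * M * h := by
    unfold F2
    have e1 : |6 * (a':ℝ) * y| ≤ 6 * h * M := by
      rw [abs_mul, abs_mul, abs_of_pos (by norm_num : (0:ℝ) < 6)]
      have := mul_le_mul ha' hy (abs_nonneg _) hh0.le
      nlinarith
    have e2 : |2 * (b':ℝ)| ≤ 2 * h := by
      rw [abs_mul, abs_of_pos (by norm_num : (0:ℝ) < 2)]
      linarith
    have e3 : 2 * h ≤ 2 * M * h := by nlinarith
    have := abs_add_le (6 * (a':ℝ) * y) (2 * (b':ℝ))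
    linarith
  have hd2 : |x - y| ^ 2 ≤ (ρ / h) ^ 2 := pow_le_pow_left₀ (abs_nonneg _) hxy 2
  have hd3 : |x - y| ^ 3 ≤ (ρ / h) ^ 3 := pow_le_pow_left₀ (abs_nonneg _) hxy 3
  constructor
  · have e : Fv ((a, b, c) - (a', b', c')) x + ((d - d' : ℤ) : ℝ)
        = (Fv (a, b, c) x + d) - (Fv (a', b', c') y + d') - (x - y) * F1 (a', b', c') y
          - (x - y)^2 / 2 * F2 (a', b', c') y - a' * (x - y)^3 := by
      simp only [Fv, F1, F2, Prod.mk_sub_mk]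
      push_cast
      ring
    have t1 : |(x - y) * F1 (a', b', c') y| ≤ ρ^2 / h := by
      rw [abs_mul]
      calc |x - y| * |F1 (a', b', c') y| ≤ (ρ / h) * ρ :=
            mul_le_mul hxy h4 (abs_nonneg _) hρh0
        _ = ρ^2 / h := by ring
    have t2 : |(x - y)^2 / 2 * F2 (a', b', c') y| ≤ 4 * M * (ρ^2 / h) := by
      rw [abs_mul, abs_div, abs_pow, abs_of_pos (by norm_num : (0:ℝ) < 2)]
      calc |x - y| ^ 2 / 2 * |F2 (a', b', c') y| ≤ (ρ / h) ^ 2 / 2 * (8 * M * h) :=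
            mul_le_mul (by linarith) hF2 (abs_nonneg _) (by positivity)
        _ = 4 * M * (ρ^2 / h) := by field_simp; ring
    have t3 : |(a':ℝ) * (x - y)^3| ≤ ρ^2 / h := by
      rw [abs_mul, abs_pow]
      calc |(a':ℝ)| * |x - y| ^ 3 ≤ h * (ρ / h) ^ 3 :=
            mul_le_mul ha' hd3 (by positivity) hh0.le
        _ = (ρ^2 / h) * (ρ / h) := by field_simp
        _ ≤ (ρ^2 / h) * 1 := mul_le_mul_of_nonneg_left hρh (by positivity)
        _ = ρ^2 / h := by ring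
    have e' : |Fv ((a, b, c) - (a', b', c')) x + ((d - d' : ℤ) : ℝ)|
        ≤ ρ^2/h + ρ^2/h + ρ^2/h + 4 * M * (ρ^2/h) + ρ^2/h := by
      rw [e]
      simp only at h1 h3
      have u1 := abs_sub ((Fv (a, b, c) x + (d:ℝ)) - (Fv (a', b', c') y + d') - (x - y) * F1 (a', b', c') y
          - (x - y)^2 / 2 * F2 (a', b', c') y) (a' * (x - y)^3)
      have u2 := abs_sub ((Fv (a, b, c) x + (d:ℝ)) - (Fv (a', b', c') y + d') - (x - y) * F1 (a', b', c') y)
          ((x - y)^2 / 2 * F2 (a', b', c') y)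
      have u3 := abs_sub ((Fv (a, b, c) x + (d:ℝ)) - (Fv (a', b', c') y + d')) ((x - y) * F1 (a', b', c') y)
      have u4 := abs_sub (Fv (a, b, c) x + (d:ℝ)) (Fv (a', b', c') y + d')
      linarith
    refine e'.trans ?_
    have : 20 * M * ρ^2 / h = 20 * M * (ρ^2 / h) := by ring
    show _ ≤ 20 * M * ρ^2 / h
    rw [this]
    have hp : 0 ≤ ρ^2 / h := by positivity
    nlinarith
  · have e : F1 ((a, b, c) - (a', b', c')) x
        = F1 (a, b, c) x - F1 (a', b', c') y - (x - y) * F2 (a', b', c') y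
          - 3 * a' * (x - y)^2 := by
      simp only [F1, F2, Prod.mk_sub_mk]
      push_cast
      ring
    have t1 : |(x - y) * F2 (a', b', c') y| ≤ 8 * M * ρ := by
      rw [abs_mul]
      calc |x - y| * |F2 (a', b', c') y| ≤ (ρ / h) * (8 * M * h) :=
            mul_le_mul hxy hF2 (abs_nonneg _) hρh0
        _ = 8 * M * ρ := by field_simp
    have t2 : |3 * (a':ℝ) * (x - y)^2| ≤ 3 * ρ := by
      rw [abs_mul, abs_mul, abs_pow, abs_of_pos (by norm_num : (0:ℝ) < 3)]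
      calc 3 * |(a':ℝ)| * |x - y| ^ 2 ≤ 3 * h * (ρ / h) ^ 2 :=
            mul_le_mul (by linarith) hd2 (by positivity) (by positivity)
        _ = 3 * ρ * (ρ / h) := by field_simp
        _ ≤ 3 * ρ * 1 := mul_le_mul_of_nonneg_left hρh (by positivity)
        _ = 3 * ρ := by ring
    have e' : |F1 ((a, b, c) - (a', b', c')) x| ≤ ρ + ρ + 8 * M * ρ + 3 * ρ := by
      rw [e]
      simp only at h2 h4
      have u1 := abs_sub (F1 (a, b, c) x - F1 (a', b', c') y - (x - y) * F2 (a', b', c') y)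
          (3 * a' * (x - y)^2)
      have u2 := abs_sub (F1 (a, b, c) x - F1 (a', b', c') y) ((x - y) * F2 (a', b', c') y)
      have u3 := abs_sub (F1 (a, b, c) x) (F1 (a', b', c') y)
      linarith
    refine e'.trans ?_
    show _ ≤ 20 * M * ρ
    nlinarith

theorem pigeon (h : ℝ) (Y : Finset ℤ) (hY : ∀ y ∈ Y, |(y:ℝ)| ≤ h) (hc : 2 ≤ Y.card) :
    ∃ a ∈ Y, ∃ b ∈ Y, a ≠ b ∧ |((a - b : ℤ) : ℝ)| ≤ 4 * h / Y.card := by
  classical
  have hne : ∃ a ∈ Y, ∃ b ∈ Y, a ≠ b := by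
    obtain ⟨a, ha, b, hb, hab⟩ := Finset.one_lt_card.1 (by omega : 1 < Y.card)
    exact ⟨a, ha, b, hb, hab⟩
  have hpos : 0 < h := by
    obtain ⟨a, ha, b, hb, hab⟩ := hne
    by_contra hcon
    push Not at hcon
    have h1 := (hY a ha).trans hcon
    have h2 := (hY b hb).trans hcon
    have h3 : (a:ℝ) = 0 := abs_eq_zero.1 (le_antisymm h1 (abs_nonneg _))
    have h4 : (b:ℝ) = 0 := abs_eq_zero.1 (le_antisymm h2 (abs_nonneg _))
    apply hab
    have h5 : (a:ℝ) = b := by rw [h3, h4]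
    exact_mod_cast h5
  rcases Nat.lt_or_ge 2 Y.card with h3 | h3
  · have hm0 : (0:ℝ) < Y.card := by exact_mod_cast (by omega : 0 < Y.card)
    have hl : 0 < 4 * h / Y.card := by positivity
    have hmaps : ∀ y ∈ Y, ⌊((y:ℝ) + h) / (4 * h / Y.card)⌋₊ ∈ Finset.range (Y.card / 2 + 1) := by
      intro y hy
      have hb := abs_le.1 (hY y hy)
      rw [Finset.mem_range, Nat.floor_lt (div_nonneg (by linarith) hl.le)]
      have e1 : ((y:ℝ) + h) / (4 * h / Y.card) ≤ (Y.card:ℝ) / 2 := by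
        rw [div_le_iff₀ hl]
        have : (Y.card:ℝ) / 2 * (4 * h / Y.card) = 2 * h := by field_simp; ring
        rw [this]; linarith
      have e2 : (Y.card:ℝ) < 2 * ((Y.card / 2 + 1 : ℕ) : ℝ) := by
        have : Y.card < 2 * (Y.card / 2 + 1) := by omega
        exact_mod_cast this
      linarith
    obtain ⟨a, ha, b, hb, hab, he⟩ := Finset.exists_ne_map_eq_of_card_lt_of_maps_to
      (by rw [Finset.card_range]; omega) hmaps
    refine ⟨a, ha, b, hb, hab, ?_⟩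
    have na : 0 ≤ ((a:ℝ) + h) / (4 * h / Y.card) :=
      div_nonneg (by linarith [(abs_le.1 (hY a ha)).1]) hl.le
    have nb : 0 ≤ ((b:ℝ) + h) / (4 * h / Y.card) :=
      div_nonneg (by linarith [(abs_le.1 (hY b hb)).1]) hl.le
    have a1 := Nat.floor_le na
    have a2 := Nat.lt_floor_add_one (((a:ℝ) + h) / (4 * h / Y.card))
    have b1 := Nat.floor_le nb
    have b2 := Nat.lt_floor_add_one (((b:ℝ) + h) / (4 * h / Y.card))
    rw [he] at a1 a2
    have d1 : |((a:ℝ) + h) / (4 * h / Y.card) - ((b:ℝ) + h) / (4 * h / Y.card)| ≤ 1 := by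
      rw [abs_le]; constructor <;> linarith
    rw [← sub_div, abs_div, abs_of_pos hl, div_le_iff₀ hl] at d1
    push_cast
    have : (a:ℝ) - b = (a:ℝ) + h - (b + h) := by ring
    rw [this]
    linarith
  · obtain ⟨a, ha, b, hb, hab⟩ := hne
    refine ⟨a, ha, b, hb, hab, ?_⟩
    have h4 : Y.card = 2 := by omega
    rw [h4]
    push_cast
    have h5 := hY a ha
    have h6 := hY b hb
    have h7 := abs_sub (a:ℝ) b
    linarith

theorem cM_cf_sub (F G : ℤ × ℤ × ℤ) (j : Fin 3) : cf (F - G) j = cf F j - cf G j := by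
  unfold cf
  split_ifs <;> rfl

theorem cM_lead_sub (F G : ℤ × ℤ × ℤ) (j : Fin 3) : lead (F - G) j = lead F j - lead G j := by
  unfold lead
  split_ifs <;> rfl

theorem cM_lead_le (F : ℤ × ℤ × ℤ) (j : Fin 3) : |(lead F j : ℝ)| ≤ hF F := by
  unfold lead hF
  split_ifs
  · exact (le_max_right _ _).trans (le_max_left _ _)
  · exact (le_max_left _ _).trans (le_max_left _ _)

set_option maxHeartbeats 4000000 in
theorem countM (M c0 : ℝ) (hM : 1 ≤ M) (hc0 : 0 < c0) : ∃ C c : ℝ, 1 ≤ C ∧ 0 < c ∧ c ≤ 1 ∧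
    ∀ (h ρ : ℝ) (j : Fin 3) (t : ℤ), 1 ≤ h → 0 < ρ → ρ ≤ c → c0 ≤ h * ρ^2 →
      ∀ X : Finset ((ℤ × ℤ × ℤ) × ℤ), (∀ P ∈ X, cf P.1 j = t ∧ hF P.1 ≤ h ∧
        ∃ x, 1/M ≤ |x| ∧ |x| ≤ M ∧ |Fv P.1 x + P.2| ≤ ρ^2/h ∧ |F1 P.1 x| ≤ ρ) →
      (X.card : ℝ) ≤ C * h^2 * ρ := by
  classical
  obtain ⟨K, hK, hT⟩ := taylor_pair M hM
  obtain ⟨c1, hc1, hZ⟩ := tri_zero M K hM hK
  obtain ⟨c2, C2, hc2, hC2, hD⟩ := tri_deg M K hM hK
  obtain ⟨K3, hK3⟩ : ∃ K3, K3 = 4 + M + Real.sqrt C2 := ⟨_, rfl⟩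
  have hs2 := Real.sqrt_nonneg C2
  have hK3' : 1 ≤ K3 := by linarith
  obtain ⟨C3, hC3, hR⟩ := rich_count K3 hK3'
  obtain ⟨K1, hK1d⟩ : ∃ K1, K1 = 4 / c2 := ⟨_, rfl⟩
  have hK1 : 0 < K1 := by rw [hK1d]; positivity
  have hsc0 : 0 < Real.sqrt c0 := Real.sqrt_pos.2 hc0
  refine ⟨1 + 4*M/c0 + 4*M*K1 + C3/Real.sqrt c0, min (min c1 c2) 1, ?_, ?_, min_le_right _ _, ?_⟩
  · have h1 : 0 ≤ 4*M/c0 := by positivity
    have h2 : 0 ≤ 4*M*K1 := by positivity
    have h3 : 0 ≤ C3/Real.sqrt c0 := by positivity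
    linarith
  · exact lt_min (lt_min hc1 hc2) one_pos
  intro h ρ j t hh hρ hρc hch X hX
  have hρ1 : ρ ≤ c1 := hρc.trans ((min_le_left _ _).trans (min_le_left _ _))
  have hρ2 : ρ ≤ c2 := hρc.trans ((min_le_left _ _).trans (min_le_right _ _))
  have hρ3 : ρ ≤ 1 := hρc.trans (min_le_right _ _)
  have hh0 : 0 < h := by linarith
  have hxe : ∀ P : ((ℤ×ℤ×ℤ)×ℤ), ∃ x : ℝ, P ∈ X →
      (1/M ≤ |x| ∧ |x| ≤ M ∧ |Fv P.1 x + P.2| ≤ ρ^2/h ∧ |F1 P.1 x| ≤ ρ) := by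
    intro P
    by_cases hP : P ∈ X
    · obtain ⟨_, _, x, hx⟩ := hX P hP
      exact ⟨x, fun _ => hx⟩
    · exact ⟨0, fun h => absurd h hP⟩
  choose x hx using hxe
  obtain ⟨cell, hcell⟩ : ∃ cell : ((ℤ×ℤ×ℤ)×ℤ) → ℤ, ∀ P, cell P = ⌊x P * h / ρ⌋ :=
    ⟨fun P => ⌊x P * h / ρ⌋, fun _ => rfl⟩
  obtain ⟨I, hI⟩ : ∃ I, I = X.image cell := ⟨_, rfl⟩
  obtain ⟨r, hr⟩ : ∃ r : ℤ → ℕ, ∀ i, r i = (X.filter (fun P => cell P = i)).card :=
    ⟨fun i => (X.filter (fun P => cell P = i)).card, fun _ => rfl⟩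
  have hsum : (X.card : ℝ) = ∑ i ∈ I, (r i : ℝ) := by
    rw [hI, Finset.card_eq_sum_card_image cell X]
    push_cast
    exact Finset.sum_congr rfl fun i _ => by rw [hr]
  -- pairs in a cell
  have hclose : ∀ P Q, cell P = cell Q → |x P - x Q| ≤ ρ / h := by
    intro P Q hPQ
    rw [hcell, hcell] at hPQ
    have h1 := Int.abs_sub_lt_one_of_floor_eq_floor hPQ
    have h2 : x P * h / ρ - x Q * h / ρ = (x P - x Q) * (h / ρ) := by ring
    rw [h2, abs_mul, abs_of_pos (by positivity : 0 < h / ρ)] at h1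
    rw [le_div_iff₀ hh0]
    have h3 : |x P - x Q| * (h / ρ) * ρ ≤ 1 * ρ := mul_le_mul_of_nonneg_right h1.le hρ.le
    have h4 : |x P - x Q| * (h / ρ) * ρ = |x P - x Q| * h := by field_simp
    linarith
  have hpair : ∀ P ∈ X, ∀ Q ∈ X, cell P = cell Q →
      cf (P - Q).1 j = 0 ∧ |Fv (P - Q).1 (x P) + ((P - Q).2 : ℤ)| ≤ K*ρ^2/h ∧
        |F1 (P - Q).1 (x P)| ≤ K*ρ := by
    intro P hP Q hQ hPQ
    have hp := hx P hP
    have hq := hx Q hQ
    have h1 := hT P Q h ρ (x P) (x Q) hh hρ hρ3 hp.2.1 hq.2.1 (hclose P Q hPQ)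
      (hX P hP).2.1 (hX Q hQ).2.1 hp.2.2.1 hp.2.2.2 hq.2.2.1 hq.2.2.2
    refine ⟨?_, h1.1, h1.2⟩
    rw [Prod.fst_sub, cM_cf_sub, (hX P hP).1, (hX Q hQ).1, sub_self]
  have hinj : ∀ P ∈ X, ∀ Q ∈ X, cell P = cell Q → lead P.1 j = lead Q.1 j → P = Q := by
    intro P hP Q hQ hPQ hl
    obtain ⟨e1, e2, e3⟩ := hpair P hP Q hQ hPQ
    have hp := hx P hP
    have h0 := hZ (P - Q) j h ρ (x P) hh hρ hρ1 hp.1 hp.2.1 e1 e2 e3
      (by rw [Prod.fst_sub, cM_lead_sub, hl, sub_self])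
    exact sub_eq_zero.1 h0
  -- rich cells
  obtain ⟨IR, hIR⟩ : ∃ IR, IR = I.filter (fun i => 1 + K1 * h * ρ^2 < (r i : ℝ)) := ⟨_, rfl⟩
  have hrich : ∀ i : ℤ, ∃ u v w : ℤ, i ∈ IR → (u ≠ 0 ∧ w ≠ 0 ∧ |(v : ℝ)| ≤ K3 * |(u : ℝ)| ∧
        (r i : ℝ) ≤ K3 * h / ((u : ℝ)^2 * |(w : ℝ)|) ∧ (u : ℝ)^2 * |(w : ℝ)| ≤ K3 * h ∧
        |(i : ℝ) * (ρ/h) - (v : ℝ)/(u : ℝ)| ≤
          K3 * ρ / Real.sqrt (h * ((u : ℝ)^2 * |(w : ℝ)|)) + ρ/h) := by
    intro i
    by_cases hi : i ∈ IR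
    swap
    · exact ⟨0, 0, 0, fun h => absurd h hi⟩
    rw [hIR, Finset.mem_filter] at hi
    obtain ⟨hiI, hir⟩ := hi
    obtain ⟨Y, hY⟩ : ∃ Y, Y = (X.filter (fun P => cell P = i)).image (fun P => lead P.1 j) :=
      ⟨_, rfl⟩
    have hYc : Y.card = r i := by
      rw [hY, hr, Finset.card_image_of_injOn]
      intro P hP Q hQ hPQ
      simp only [Finset.coe_filter, Set.mem_ofPred_eq] at hP hQ
      exact hinj P hP.1 Q hQ.1 (hP.2.trans hQ.2.symm) hPQ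
    have hYh : ∀ y ∈ Y, |(y:ℝ)| ≤ h := by
      intro y hy
      rw [hY, Finset.mem_image] at hy
      obtain ⟨P, hP, rfl⟩ := hy
      rw [Finset.mem_filter] at hP
      exact (cM_lead_le P.1 j).trans (hX P hP.1).2.1
    have hkp : 0 < K1 * h * ρ^2 := by positivity
    have hr1 : (1:ℝ) < r i := by linarith
    have hr2 : 2 ≤ r i := by
      have : 1 < r i := by exact_mod_cast hr1
      omega
    obtain ⟨a, ha, b, hb, hab, habs⟩ := pigeon h Y hYh (by rw [hYc]; exact hr2)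
    rw [hY, Finset.mem_image] at ha hb
    obtain ⟨P, hP, rfl⟩ := ha
    obtain ⟨Q, hQ, rfl⟩ := hb
    rw [Finset.mem_filter] at hP hQ
    have hPQ : cell P = cell Q := hP.2.trans hQ.2.symm
    obtain ⟨e1, e2, e3⟩ := hpair P hP.1 Q hQ.1 hPQ
    have hp := hx P hP.1
    rw [hYc] at habs
    rw [← cM_lead_sub, ← Prod.fst_sub] at habs
    have hlne : lead (P - Q).1 j ≠ 0 := by
      rw [Prod.fst_sub, cM_lead_sub]
      exact sub_ne_zero.2 hab
    obtain ⟨L, hL⟩ : ∃ L : ℝ, L = |(lead (P - Q).1 j : ℝ)| := ⟨_, rfl⟩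
    rw [← hL] at habs
    have hL1 : 1 ≤ L := by
      rw [hL]
      have := Int.one_le_abs hlne
      exact_mod_cast this
    have hr0 : (0:ℝ) < r i := by linarith
    have hLh : L ≤ 2 * h := by
      refine habs.trans ?_
      rw [div_le_iff₀ hr0]
      have : (2:ℝ) ≤ r i := by exact_mod_cast hr2
      nlinarith
    have hrL : (r i : ℝ) ≤ 4 * h / L := by
      rw [le_div_iff₀ (by linarith)]
      rw [le_div_iff₀ hr0] at habs
      linarith
    have hLρ : L * ρ^2 ≤ c2 := by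
      have h1 : K1 * h * ρ^2 ≤ r i := by linarith
      have h2 : (K1 * h * ρ^2) * L ≤ 4 * h := by
        have h3 := mul_le_mul_of_nonneg_right h1 (by linarith : 0 ≤ L)
        rw [le_div_iff₀ (by linarith)] at hrL
        linarith
      rw [hK1d] at h2
      have h4 : 4 / c2 * h * ρ^2 * L = (4 * h) * (L * ρ^2 / c2) := by ring
      rw [h4] at h2
      have h5 : L * ρ^2 / c2 ≤ 1 := by
        by_contra hcon
        push Not at hcon
        have := mul_lt_mul_of_pos_left hcon (by positivity : 0 < 4 * h)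
        linarith
      rwa [div_le_one hc2] at h5
    obtain ⟨u, v, w, hu, hw, huw, hq⟩ := hD (P - Q) j h ρ (x P) hh hρ hρ2 hp.1 hp.2.1 e1 e2 e3 hlne
      (by rw [← hL]; linarith) (by rw [← hL]; exact hLρ)
    rw [← hL] at hq
    have huR : (u:ℝ) ≠ 0 := by exact_mod_cast hu
    have hLuw : L = (u:ℝ)^2 * |(w:ℝ)| := by
      rw [hL, huw]
      push_cast
      rw [abs_mul, abs_of_nonneg (sq_nonneg (u:ℝ))]
    have hL0 : 0 < L := by linarith
    have hsq : |x P - v/u| ≤ Real.sqrt C2 * ρ / Real.sqrt (h * L) := by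
      rw [← Real.sqrt_sq_eq_abs]
      have h1 : Real.sqrt C2 * ρ / Real.sqrt (h * L) = Real.sqrt (C2 * ρ^2 / (h * L)) := by
        have h0 : Real.sqrt (C2 * ρ^2) = Real.sqrt C2 * ρ := by
          rw [Real.sqrt_mul (by linarith : (0:ℝ) ≤ C2), Real.sqrt_sq hρ.le]
        rw [Real.sqrt_div (by positivity : 0 ≤ C2 * ρ^2), h0]
      rw [h1]
      exact Real.sqrt_le_sqrt hq
    have hsqh : 1 ≤ Real.sqrt (h * L) := by
      rw [Real.one_le_sqrt]
      nlinarith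
    refine ⟨u, v, w, fun _ => ⟨hu, hw, ?_, ?_, ?_, ?_⟩⟩
    · have h1 : |(v:ℝ)/u| ≤ M + Real.sqrt C2 := by
        have h2 : |(v:ℝ)/u| ≤ |x P| + |x P - v/u| := by
          have := abs_sub_abs_le_abs_sub ((v:ℝ)/u) (x P)
          rw [abs_sub_comm] at this
          linarith
        have h3 : Real.sqrt C2 * ρ / Real.sqrt (h * L) ≤ Real.sqrt C2 := by
          rw [div_le_iff₀ (by linarith)]
          have : Real.sqrt C2 * ρ ≤ Real.sqrt C2 * Real.sqrt (h * L) :=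
            mul_le_mul_of_nonneg_left (by linarith) hs2
          exact this
        linarith [hp.2.1]
      rw [abs_div, div_le_iff₀ (abs_pos.2 huR)] at h1
      refine h1.trans (mul_le_mul_of_nonneg_right (by rw [hK3]; linarith) (abs_nonneg _))
    · rw [← hLuw]
      refine hrL.trans ?_
      exact div_le_div_of_nonneg_right
        (mul_le_mul_of_nonneg_right (by rw [hK3]; linarith) hh0.le) hL0.le
    · rw [← hLuw]
      exact hLh.trans (mul_le_mul_of_nonneg_right (by rw [hK3]; linarith) hh0.le)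
    · rw [← hLuw]
      have h1 : |(i:ℝ) * (ρ/h) - x P| ≤ ρ/h := by
        have hci : i = ⌊x P * h / ρ⌋ := by rw [← hcell, hP.2]
        have h2 : (i:ℝ) ≤ x P * h / ρ := by rw [hci]; exact Int.floor_le _
        have h3 : x P * h / ρ < (i:ℝ) + 1 := by rw [hci]; exact Int.lt_floor_add_one _
        have h4 : x P = (x P * h / ρ) * (ρ/h) := by field_simp
        have h5 : 0 < ρ/h := by positivity
        rw [abs_le]
        constructor
        · have := mul_le_mul_of_nonneg_right h3.le h5.le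
          rw [← h4] at this
          linarith
        · have := mul_le_mul_of_nonneg_right h2 h5.le
          rw [← h4] at this
          linarith
      have h2 : |(i:ℝ) * (ρ/h) - (v:ℝ)/u| ≤ |(i:ℝ) * (ρ/h) - x P| + |x P - v/u| := by
        have := abs_sub_le ((i:ℝ) * (ρ/h)) (x P) ((v:ℝ)/u)
        exact this
      have h3 : Real.sqrt C2 * ρ / Real.sqrt (h * L) ≤ K3 * ρ / Real.sqrt (h * L) := by
        apply div_le_div_of_nonneg_right _ (by linarith)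
        exact mul_le_mul_of_nonneg_right (by rw [hK3]; linarith) hρ.le
      linarith
  choose u v w huvw using hrich
  have hRsum : ∑ i ∈ IR, (r i : ℝ) ≤ C3 * h^(3/2 : ℝ) :=
    hR h ρ IR (fun i => (r i : ℝ)) u v w hh hρ fun i hi => huvw i hi
  have hh32 : h^(3/2 : ℝ) ≤ h^2 * ρ / Real.sqrt c0 := by
    have e1 : h^(3/2 : ℝ) = h * Real.sqrt h := by
      rw [Real.sqrt_eq_rpow]
      have : (3/2 : ℝ) = 1 + 1/2 := by norm_num
      rw [this, Real.rpow_add hh0, Real.rpow_one]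
    have e2 : Real.sqrt c0 ≤ Real.sqrt h * ρ := by
      have h1 := Real.sqrt_le_sqrt hch
      rwa [Real.sqrt_mul hh0.le, Real.sqrt_sq hρ.le] at h1
    rw [e1, le_div_iff₀ hsc0]
    have e3 : Real.sqrt h * Real.sqrt h = h := Real.mul_self_sqrt hh0.le
    have e4 : 0 ≤ Real.sqrt h := Real.sqrt_nonneg h
    calc h * Real.sqrt h * Real.sqrt c0 ≤ h * Real.sqrt h * (Real.sqrt h * ρ) := by gcongr
      _ = h * (Real.sqrt h * Real.sqrt h) * ρ := by ring
      _ = h^2 * ρ := by rw [e3]; ring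
  -- poor cells
  have hIcard : (I.card : ℝ) ≤ 4 * M * h / ρ := by
    have hq : 1 ≤ M * h / ρ := by
      rw [le_div_iff₀ hρ]
      nlinarith
    have hsub : I ⊆ Finset.Icc ⌊-(M * h / ρ)⌋ ⌊M * h / ρ⌋ := by
      intro i hi
      rw [hI, Finset.mem_image] at hi
      obtain ⟨P, hP, rfl⟩ := hi
      rw [hcell, Finset.mem_Icc]
      have hp := (hx P hP).2.1
      rw [abs_le] at hp
      have h5 : 0 < h / ρ := by positivity
      constructor
      · apply Int.floor_le_floor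
        have := mul_le_mul_of_nonneg_right hp.1 h5.le
        calc -(M * h / ρ) = -M * (h / ρ) := by ring
          _ ≤ x P * (h / ρ) := this
          _ = x P * h / ρ := by ring
      · apply Int.floor_le_floor
        have := mul_le_mul_of_nonneg_right hp.2 h5.le
        calc x P * h / ρ = x P * (h / ρ) := by ring
          _ ≤ M * (h / ρ) := this
          _ = M * h / ρ := by ring
    have h1 := Finset.card_le_card hsub
    rw [Int.card_Icc] at h1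
    have h2 : ⌊-(M * h / ρ)⌋ ≤ ⌊M * h / ρ⌋ := Int.floor_le_floor (by linarith)
    have h3 : (((⌊M * h / ρ⌋ + 1 - ⌊-(M * h / ρ)⌋).toNat : ℤ)) = ⌊M * h / ρ⌋ + 1 - ⌊-(M * h / ρ)⌋ :=
      Int.toNat_of_nonneg (by omega)
    have h4 : (((⌊M * h / ρ⌋ + 1 - ⌊-(M * h / ρ)⌋).toNat : ℕ) : ℝ) =
        (⌊M * h / ρ⌋ : ℝ) + 1 - (⌊-(M * h / ρ)⌋ : ℝ) := by
      have := congrArg (fun z : ℤ => (z : ℝ)) h3
      push_cast at this
      exact this
    have h5 : (I.card : ℝ) ≤ (((⌊M * h / ρ⌋ + 1 - ⌊-(M * h / ρ)⌋).toNat : ℕ) : ℝ) := by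
      exact_mod_cast h1
    rw [h4] at h5
    have h6 := Int.floor_le (M * h / ρ)
    have h7 := Int.sub_one_lt_floor (-(M * h / ρ))
    have h8 : 4 * M * h / ρ = 4 * (M * h / ρ) := by ring
    rw [h8]
    linarith
  have hPsum : ∑ i ∈ I.filter (fun i => ¬ (1 + K1 * h * ρ^2 < (r i : ℝ))), (r i : ℝ) ≤
      (4 * M * h / ρ) * (1 + K1 * h * ρ^2) := by
    have hk0 : 0 ≤ 1 + K1 * h * ρ^2 := by positivity
    calc ∑ i ∈ I.filter (fun i => ¬ (1 + K1 * h * ρ^2 < (r i : ℝ))), (r i : ℝ)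
        ≤ ∑ i ∈ I.filter (fun i => ¬ (1 + K1 * h * ρ^2 < (r i : ℝ))), (1 + K1 * h * ρ^2) := by
          refine Finset.sum_le_sum fun i hi => ?_
          rw [Finset.mem_filter] at hi
          exact not_lt.1 hi.2
      _ = ((I.filter (fun i => ¬ (1 + K1 * h * ρ^2 < (r i : ℝ)))).card : ℝ) *
            (1 + K1 * h * ρ^2) := by rw [Finset.sum_const, nsmul_eq_mul]
      _ ≤ (I.card : ℝ) * (1 + K1 * h * ρ^2) := by
          apply mul_le_mul_of_nonneg_right _ hk0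
          exact_mod_cast Finset.card_filter_le _ _
      _ ≤ (4 * M * h / ρ) * (1 + K1 * h * ρ^2) := mul_le_mul_of_nonneg_right hIcard hk0
  have hhρ : h / ρ ≤ h^2 * ρ / c0 := by
    rw [div_le_div_iff₀ hρ hc0]
    have := mul_le_mul_of_nonneg_left hch hh0.le
    calc h * c0 ≤ h * (h * ρ^2) := this
      _ = h^2 * ρ * ρ := by ring
  have htot : (X.card : ℝ) ≤ C3 * h^(3/2 : ℝ) + (4 * M * h / ρ) * (1 + K1 * h * ρ^2) := by
    rw [hsum, ← Finset.sum_filter_add_sum_filter_not I (fun i => 1 + K1 * h * ρ^2 < (r i : ℝ)),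
      ← hIR]
    exact add_le_add hRsum hPsum
  have hA : C3 * h^(3/2 : ℝ) ≤ C3 / Real.sqrt c0 * h^2 * ρ := by
    calc C3 * h^(3/2 : ℝ) ≤ C3 * (h^2 * ρ / Real.sqrt c0) :=
          mul_le_mul_of_nonneg_left hh32 (by linarith)
      _ = C3 / Real.sqrt c0 * h^2 * ρ := by ring
  have hB : (4 * M * h / ρ) * (1 + K1 * h * ρ^2) ≤ (4 * M / c0 + 4 * M * K1) * h^2 * ρ := by
    have e1 : (4 * M * h / ρ) * (1 + K1 * h * ρ^2) = 4 * M * (h / ρ) + 4 * M * K1 * h^2 * ρ := by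
      field_simp
    rw [e1]
    have e2 : 4 * M * (h / ρ) ≤ 4 * M * (h^2 * ρ / c0) :=
      mul_le_mul_of_nonneg_left hhρ (by positivity)
    have e3 : 4 * M * (h^2 * ρ / c0) = 4 * M / c0 * h^2 * ρ := by ring
    rw [e3] at e2
    linarith
  have hpos : 0 ≤ h^2 * ρ := by positivity
  calc (X.card : ℝ) ≤ C3 / Real.sqrt c0 * h^2 * ρ + (4 * M / c0 + 4 * M * K1) * h^2 * ρ := by
        linarith
    _ ≤ (1 + 4*M/c0 + 4*M*K1 + C3/Real.sqrt c0) * h^2 * ρ := by nlinarith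

/-- no rational root -/
def NoRoot (P : (ℤ × ℤ × ℤ) × ℤ) : Prop :=
  ∀ u v : ℤ, u ≠ 0 → P.1.1*v^3 + P.1.2.1*v^2*u + P.1.2.2*v*u^2 + P.2*u^3 ≠ 0

/-- primitive -/
def Prim (P : (ℤ × ℤ × ℤ) × ℤ) : Prop :=
  ∀ g : ℤ, g ∣ P.1.1 → g ∣ P.1.2.1 → g ∣ P.1.2.2 → g ∣ P.2 → IsUnit g

theorem dvd_of_prim (a b c d a' b' c' d' : ℤ)
    (hp : ∀ g : ℤ, g ∣ a → g ∣ b → g ∣ c → g ∣ d → IsUnit g)
    (h1 : a' * b = a * b') (h2 : a' * c = a * c') (h3 : a' * d = a * d') : a ∣ a' := by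
  have e1 : a ∣ a' * (Int.gcd a b : ℤ) := by
    rw [Int.gcd_eq_gcd_ab, mul_add, ← mul_assoc, ← mul_assoc, h1]
    exact dvd_add (Dvd.intro_left (a' * a.gcdA b) (by ring)) (Dvd.intro (b' * a.gcdB b) (by ring))
  have e2 : a ∣ a' * (Int.gcd c d : ℤ) := by
    rw [Int.gcd_eq_gcd_ab, mul_add, ← mul_assoc, ← mul_assoc, h2, h3]
    exact dvd_add (Dvd.intro (c' * c.gcdA d) (by ring)) (Dvd.intro (d' * c.gcdB d) (by ring))
  set g1 : ℤ := (Int.gcd a b : ℤ) with hg1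
  set g2 : ℤ := (Int.gcd c d : ℤ) with hg2
  have e3 : a ∣ a' * (Int.gcd g1 g2 : ℤ) := by
    rw [Int.gcd_eq_gcd_ab, mul_add, ← mul_assoc, ← mul_assoc]
    exact dvd_add (Dvd.dvd.mul_right e1 _) (Dvd.dvd.mul_right e2 _)
  have f1 : (Int.gcd g1 g2 : ℤ) ∣ g1 := Int.gcd_dvd_left _ _
  have f2 : (Int.gcd g1 g2 : ℤ) ∣ g2 := Int.gcd_dvd_right _ _
  have hu : IsUnit (Int.gcd g1 g2 : ℤ) := by
    apply hp
    · exact f1.trans (Int.gcd_dvd_left _ _)
    · exact f1.trans (Int.gcd_dvd_right _ _)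
    · exact f2.trans (Int.gcd_dvd_left _ _)
    · exact f2.trans (Int.gcd_dvd_right _ _)
  exact (IsUnit.dvd_mul_right hu).1 e3

theorem countV (M : ℝ) (hM : 1 ≤ M) : ∃ C c0 : ℝ, 1 ≤ C ∧ 0 < c0 ∧ c0 ≤ 1 ∧
    ∀ (h ρ : ℝ), 1 ≤ h → 0 < ρ → ρ ≤ 1 → h * ρ^2 ≤ c0 →
      ∀ X : Finset ((ℤ × ℤ × ℤ) × ℤ), (∀ P ∈ X, P.1.1 ≠ 0 ∧ NoRoot P ∧ Prim P ∧ hF P.1 ≤ h ∧
        ∃ x, |x| ≤ M ∧ |Fv P.1 x + P.2| ≤ ρ^2/h ∧ |F1 P.1 x| ≤ ρ) →
      (X.card : ℝ) ≤ C * h / ρ := by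
  classical
  obtain ⟨c, hc0, hc⟩ := bez_small M hM
  refine ⟨8 * M, min 1 c, by linarith, lt_min one_pos hc0, min_le_left _ _, ?_⟩
  intro h ρ hh hρ hρ1 hhρ X hX
  have hhρ' : h * ρ^2 ≤ c := hhρ.trans (min_le_right _ _)
  have hpos : 0 < h := by linarith
  choose! x hxM hxV hx1 using fun P hP => (hX P hP).2.2.2.2
  set K : ℝ := M * h / ρ with hK
  have hK1 : 1 ≤ K := by
    rw [hK, le_div_iff₀ hρ]
    nlinarith
  have hmaps : ∀ P ∈ X, ⌊x P * h / ρ⌋ ∈ Finset.Icc ⌊-K⌋ ⌊K⌋ := by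
    intro P hP
    have := abs_le.1 (hxM P hP)
    rw [Finset.mem_Icc]
    constructor
    · apply Int.floor_le_floor
      rw [hK, ← neg_div, div_le_div_iff_of_pos_right hρ]
      nlinarith
    · apply Int.floor_le_floor
      rw [hK, div_le_div_iff_of_pos_right hρ]
      nlinarith
  have hfib : ∀ k ∈ Finset.Icc ⌊-K⌋ ⌊K⌋, (X.filter (fun P => ⌊x P * h / ρ⌋ = k)).card ≤ 2 := by
    intro k _
    rcases (X.filter (fun P => ⌊x P * h / ρ⌋ = k)).eq_empty_or_nonempty with he | ⟨P, hP⟩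
    · rw [he]; simp
    · have hsub : X.filter (fun P => ⌊x P * h / ρ⌋ = k) ⊆
          {P, ((-P.1.1, -P.1.2.1, -P.1.2.2), -P.2)} := by
        intro Q hQ
        rw [Finset.mem_filter] at hP hQ
        obtain ⟨hPX, hPk⟩ := hP
        obtain ⟨hQX, hQk⟩ := hQ
        obtain ⟨hPa, hPr, hPp, hPh, _⟩ := hX P hPX
        obtain ⟨hQa, hQr, hQp, hQh, _⟩ := hX Q hQX
        have hd : |x P * h / ρ - x Q * h / ρ| < 1 := Int.abs_sub_lt_one_of_floor_eq_floor (hPk.trans hQk.symm)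
        have hd2 : |x P - x Q| ≤ ρ / h := by
          have e : x P * h / ρ - x Q * h / ρ = (x P - x Q) * (h / ρ) := by ring
          rw [e, abs_mul, abs_of_pos (div_pos hpos hρ)] at hd
          rw [le_div_iff₀ hpos]
          have : |x P - x Q| * (h / ρ) * ρ < 1 * ρ := mul_lt_mul_of_pos_right hd hρ
          have e2 : |x P - x Q| * (h / ρ) * ρ = |x P - x Q| * h := by field_simp
          rw [e2] at this
          linarith
        have hb := hc P Q h ρ (x P) (x Q) hh hρ hρ1 hhρ' (hxM P hPX) (hxM Q hQX) hd2 hPh hQh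
          (hxV P hPX) (hx1 P hPX) (hxV Q hQX) (hx1 Q hQX)
        obtain ⟨g1, g2, g3⟩ := bez_zero _ _ _ _ _ _ _ _ hPa hQa hPr hQr hb
        have d1 : P.1.1 ∣ Q.1.1 := dvd_of_prim P.1.1 P.1.2.1 P.1.2.2 P.2 Q.1.1 Q.1.2.1 Q.1.2.2 Q.2 hPp g1 g2 g3
        have d2 : Q.1.1 ∣ P.1.1 := dvd_of_prim Q.1.1 Q.1.2.1 Q.1.2.2 Q.2 P.1.1 P.1.2.1 P.1.2.2 P.2 hQp
          g1.symm g2.symm g3.symm
        rw [Finset.mem_insert, Finset.mem_singleton]
        rcases Int.associated_iff.1 (associated_of_dvd_dvd d1 d2) with he | he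
        · left
          rw [← he] at g1 g2 g3
          have k1 := mul_left_cancel₀ hPa g1
          have k2 := mul_left_cancel₀ hPa g2
          have k3 := mul_left_cancel₀ hPa g3
          ext
          · exact he.symm
          · exact k1.symm
          · exact k2.symm
          · exact k3.symm
        · right
          have he' : Q.1.1 = -P.1.1 := by rw [he]; ring
          rw [he'] at g1 g2 g3
          have k1 : Q.1.2.1 = -P.1.2.1 := mul_left_cancel₀ hPa (by linarith)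
          have k2 : Q.1.2.2 = -P.1.2.2 := mul_left_cancel₀ hPa (by linarith)
          have k3 : Q.2 = -P.2 := mul_left_cancel₀ hPa (by linarith)
          ext
          · exact he'
          · exact k1
          · exact k2
          · exact k3
      exact (Finset.card_le_card hsub).trans Finset.card_le_two
  have hcard := Finset.card_le_mul_card_image_of_maps_to hmaps 2 hfib
  have hIcc : ((Finset.Icc ⌊-K⌋ ⌊K⌋).card : ℝ) ≤ 4 * K := by
    rw [Int.card_Icc]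
    have h1 : (⌊K⌋ : ℝ) ≤ K := Int.floor_le K
    have h2 : -K < ⌊-K⌋ + 1 := Int.lt_floor_add_one (-K)
    have h3 : (0:ℤ) ≤ ⌊K⌋ + 1 - ⌊-K⌋ := by
      have : ⌊-K⌋ ≤ ⌊K⌋ := Int.floor_le_floor (by linarith)
      linarith
    have h4 : (((⌊K⌋ + 1 - ⌊-K⌋).toNat : ℕ) : ℝ) = ((⌊K⌋ + 1 - ⌊-K⌋ : ℤ) : ℝ) := by
      rw [← Int.cast_natCast, Int.toNat_of_nonneg h3]
    rw [h4]
    push_cast
    linarith
  have : (X.card : ℝ) ≤ 2 * ((Finset.Icc ⌊-K⌋ ⌊K⌋).card : ℝ) := by exact_mod_cast hcard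
  have e : 8 * M * h / ρ = 8 * K := by rw [hK]; ring
  rw [e]
  linarith


end YU432
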