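import Mathlib

open MeasureTheory Set
open scoped ENNReal

namespace YU432

theorem hc {ι : Type} [Countable ι] (T : ι → Set ℝ) (s : ℝ) (hs : 0 < s)
    (h : ∑' i, (Metric.ediam (T i))^s ≠ ∞) :
    dimH {x | {i | x ∈ T i}.Infinite} ≤ ENNReal.ofReal s := by
  have h0 := ENNReal.tendsto_tsum_compl_atTop_zero h
  have hr : Filter.Tendsto (fun F : Finset ι =>
      (∑' b : {x // x ∉ F}, (Metric.ediam (T b))^s)^(1/s)) Filter.atTop (nhds 0) := by
    have h1 := (ENNReal.continuous_rpow_const (y := 1/s)).tendsto 0 |>.comp h0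
    rw [ENNReal.zero_rpow_of_pos (by positivity)] at h1
    exact h1
  have key : Measure.hausdorffMeasure s {x : ℝ | {i | x ∈ T i}.Infinite} ≤
      Filter.liminf (fun F : Finset ι => ∑' b : {x // x ∉ F}, (Metric.ediam (T b))^s)
        Filter.atTop := by
    refine Measure.hausdorffMeasure_le_liminf_tsum s _ _ hr
      (fun (F : Finset ι) (b : {x // x ∉ F}) => T b) ?_ ?_
    · refine Filter.Eventually.of_forall fun F b => ?_
      have h2 : (Metric.ediam (T b))^s ≤ ∑' b : {x // x ∉ F}, (Metric.ediam (T b))^s :=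
        ENNReal.le_tsum b
      calc Metric.ediam (T b) = ((Metric.ediam (T b))^s)^(1/s) := by
            rw [← ENNReal.rpow_mul, mul_one_div_cancel hs.ne', ENNReal.rpow_one]
        _ ≤ _ := ENNReal.rpow_le_rpow h2 (by positivity)
    · refine Filter.Eventually.of_forall fun F x hx => ?_
      obtain ⟨i, hi, hiF⟩ := Set.Infinite.exists_notMem_finset hx F
      exact Set.mem_iUnion.2 ⟨⟨i, hiF⟩, hi⟩
  rw [h0.liminf_eq] at key
  have h3 : Measure.hausdorffMeasure ((s.toNNReal : NNReal) : ℝ)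
      {x : ℝ | {i | x ∈ T i}.Infinite} ≠ ∞ := by
    rw [Real.coe_toNNReal s hs.le]
    exact ne_top_of_le_ne_top (by simp) key
  exact dimH_le_of_hausdorffMeasure_ne_top h3

end YU432
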