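import Pool.Agent.Helper432.YU.Base
import Pool.Agent.Helper432.YU.Hc

open MeasureTheory Set
open scoped ENNReal

namespace YU432

theorem disc_zero_factor_cop (a b c d u v : ℤ) (hu : u ≠ 0) (huv : IsCoprime u v)
    (h1 : a * v ^ 3 + b * u * v ^ 2 + c * u ^ 2 * v + d * u ^ 3 = 0)
    (h2 : 3 * a * v ^ 2 + 2 * b * u * v + c * u ^ 2 = 0) :
    ∃ u v e f : ℤ, u ≠ 0 ∧ a = u^2 * e ∧ b = u^2 * f - 2 * u * v * e ∧
      c = v^2 * e - 2 * u * v * f ∧ d = v^2 * f := by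
  obtain ⟨g2, hg2⟩ : u ∣ a := by
    apply (huv.pow_right (n := 3)).dvd_of_dvd_mul_right
    exact ⟨-(b * v ^ 2 + c * u * v + d * u ^ 2), by linear_combination h1⟩
  have h3 : g2 * v ^ 3 + b * v ^ 2 + c * u * v + d * u ^ 2 = 0 := by
    apply mul_left_cancel₀ hu
    rw [hg2] at h1
    linear_combination h1
  obtain ⟨g1, hg1⟩ : u ∣ g2 * v + b := by
    apply (huv.pow_right (n := 2)).dvd_of_dvd_mul_right
    exact ⟨-(c * v + d * u), by linear_combination h3⟩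
  have h4 : g1 * v ^ 2 + c * v + d * u = 0 := by
    apply mul_left_cancel₀ hu
    linear_combination h3 - v ^ 2 * hg1
  obtain ⟨g0, hg0⟩ : u ∣ g1 * v + c := by
    apply huv.dvd_of_dvd_mul_right
    exact ⟨-d, by linear_combination h4⟩
  have h5 : g0 * v + d = 0 := by
    apply mul_left_cancel₀ hu
    linear_combination h4 - v * hg0
  have h6 : g2 * v ^ 2 + g1 * u * v + g0 * u ^ 2 = 0 := by
    apply mul_left_cancel₀ hu
    rw [hg2] at h2
    linear_combination h2 - 2 * u * v * hg1 - u ^ 2 * hg0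
  obtain ⟨e, he⟩ : u ∣ g2 := by
    apply (huv.pow_right (n := 2)).dvd_of_dvd_mul_right
    exact ⟨-(g1 * v + g0 * u), by linear_combination h6⟩
  have h7 : e * v ^ 2 + g1 * v + g0 * u = 0 := by
    apply mul_left_cancel₀ hu
    rw [he] at h6
    linear_combination h6
  obtain ⟨f, hf⟩ : u ∣ e * v + g1 := by
    apply huv.dvd_of_dvd_mul_right
    exact ⟨-g0, by linear_combination h7⟩
  have h8 : f * v + g0 = 0 := by
    apply mul_left_cancel₀ hu
    linear_combination h7 - v * hf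
  refine ⟨u, v, e, f, hu, ?_, ?_, ?_, ?_⟩
  · rw [hg2, he]
    ring
  · rw [he] at hg1
    linear_combination hg1 + u * hf
  · linear_combination hg0 - v * hf + u * h8
  · linear_combination h5 - v * h8

theorem disc_zero_factor_root (a b c d U V : ℤ) (hU : U ≠ 0)
    (h1 : a * V ^ 3 + b * U * V ^ 2 + c * U ^ 2 * V + d * U ^ 3 = 0)
    (h2 : 3 * a * V ^ 2 + 2 * b * U * V + c * U ^ 2 = 0) :
    ∃ u v e f : ℤ, u ≠ 0 ∧ a = u^2 * e ∧ b = u^2 * f - 2 * u * v * e ∧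
      c = v^2 * e - 2 * u * v * f ∧ d = v^2 * f := by
  have hg : 0 < Int.gcd U V := Int.gcd_pos_of_ne_zero_left V hU
  obtain ⟨g, u, v, hg0, huv, hU', hV'⟩ := Int.exists_gcd_one' hg
  have hgz : (g : ℤ) ≠ 0 := by exact_mod_cast hg0.ne'
  apply disc_zero_factor_cop a b c d u v
  · rintro rfl
    exact hU (by rw [hU', zero_mul])
  · exact Int.isCoprime_iff_gcd_eq_one.2 huv
  · apply mul_left_cancel₀ (pow_ne_zero 3 hgz)
    rw [hU', hV'] at h1
    linear_combination h1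
  · apply mul_left_cancel₀ (pow_ne_zero 2 hgz)
    rw [hU', hV'] at h2
    linear_combination h2

/-- auxiliary statement -/
theorem disc_zero_factor (a b c d : ℤ) (hab : a ≠ 0 ∨ b ≠ 0) (h : disc a b c d = 0) :
    ∃ u v e f : ℤ, u ≠ 0 ∧ a = u^2 * e ∧ b = u^2 * f - 2 * u * v * e ∧
      c = v^2 * e - 2 * u * v * f ∧ d = v^2 * f := by
  unfold disc at h
  by_cases ha : a = 0
  · have hb : b ≠ 0 := by
      rcases hab with h1 | h1
      · exact absurd ha h1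
      · exact h1
    subst ha
    have h1 : c ^ 2 = 4 * b * d := by
      have h2 : b ^ 2 * (c ^ 2 - 4 * b * d) = 0 := by linear_combination h
      rcases mul_eq_zero.1 h2 with h3 | h3
      · exact absurd (pow_eq_zero_iff (two_ne_zero) |>.1 h3) hb
      · linarith
    apply disc_zero_factor_root 0 b c d (2 * b) (-c) (mul_ne_zero two_ne_zero hb)
    · linear_combination (-2 * b ^ 2) * h1
    · ring
  · by_cases hb : b ^ 2 = 3 * a * c
    · have h1 : (2 * b ^ 3 - 9 * a * b * c + 27 * a ^ 2 * d) ^ 2 = 0 := by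
        linear_combination (-27 * a ^ 2) * h + 4 * (b ^ 2 - 3 * a * c) ^ 2 * hb
      have h2 : 2 * b ^ 3 - 9 * a * b * c + 27 * a ^ 2 * d = 0 := pow_eq_zero_iff (two_ne_zero) |>.1 h1
      apply disc_zero_factor_root a b c d (3 * a) (-b) (mul_ne_zero (by norm_num) ha)
      · linear_combination a * h2
      · linear_combination (-3 * a) * hb
    · have h1 : b ^ 2 - 3 * a * c ≠ 0 := sub_ne_zero.2 hb
      apply disc_zero_factor_root a b c d (2 * (b ^ 2 - 3 * a * c)) (9 * a * d - b * c)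
        (mul_ne_zero two_ne_zero h1)
      · linear_combination (-(2 * b ^ 3 - 9 * a * b * c + 27 * a ^ 2 * d)) * h
      · linear_combination (-9 * a) * h

/-- auxiliary statement -/
theorem finite_small (x H : ℝ) :
    {P : (ℤ × ℤ × ℤ) × ℤ | hF P.1 ≤ H ∧ |Fv P.1 x + P.2| < 1}.Finite := by
  obtain ⟨D, hD⟩ : ∃ D : ℝ, D = H * (|x| ^ 3 + |x| ^ 2 + |x|) + 1 := ⟨_, rfl⟩
  have hbox : ∀ (n : ℤ) (T : ℝ), |(n:ℝ)| ≤ T → n ∈ Set.Icc (-⌈T⌉) ⌈T⌉ := by
    intro n T h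
    obtain ⟨h1, h2⟩ := abs_le.mp h
    have h3 := Int.le_ceil T
    constructor
    · have : (-(⌈T⌉:ℝ)) ≤ (n:ℝ) := by linarith
      exact_mod_cast this
    · have : (n:ℝ) ≤ (⌈T⌉:ℝ) := by linarith
      exact_mod_cast this
  have hfin : ((Set.Icc (-⌈H⌉) ⌈H⌉ ×ˢ (Set.Icc (-⌈H⌉) ⌈H⌉ ×ˢ Set.Icc (-⌈H⌉) ⌈H⌉)) ×ˢ
      Set.Icc (-⌈D⌉) ⌈D⌉ : Set ((ℤ × ℤ × ℤ) × ℤ)).Finite :=
    ((Set.finite_Icc _ _).prod ((Set.finite_Icc _ _).prod (Set.finite_Icc _ _))).prod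
      (Set.finite_Icc _ _)
  refine hfin.subset ?_
  rintro ⟨⟨a, b, c⟩, d⟩ ⟨hH, hd⟩
  simp only [hF] at hH
  simp only [Fv] at hd
  have ha : |(a:ℝ)| ≤ H := le_trans (le_trans (le_max_left _ _) (le_max_left _ _)) hH
  have hb : |(b:ℝ)| ≤ H := le_trans (le_trans (le_max_right _ _) (le_max_left _ _)) hH
  have hc : |(c:ℝ)| ≤ H := le_trans (le_max_right _ _) hH
  have hdd : |(d:ℝ)| ≤ D := by
    have e1 : |(a:ℝ) * x ^ 3| ≤ H * |x| ^ 3 := by
      rw [abs_mul, abs_pow]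
      exact mul_le_mul_of_nonneg_right ha (by positivity)
    have e2 : |(b:ℝ) * x ^ 2| ≤ H * |x| ^ 2 := by
      rw [abs_mul, abs_pow]
      exact mul_le_mul_of_nonneg_right hb (by positivity)
    have e3 : |(c:ℝ) * x| ≤ H * |x| := by
      rw [abs_mul]
      exact mul_le_mul_of_nonneg_right hc (by positivity)
    have e4 := abs_le.mp e1
    have e5 := abs_le.mp e2
    have e6 := abs_le.mp e3
    have e7 := abs_lt.mp hd
    rw [hD]
    refine abs_le.mpr ⟨?_, ?_⟩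
    · linarith [e4.1, e4.2, e5.1, e5.2, e6.1, e6.2, e7.1, e7.2]
    · linarith [e4.1, e4.2, e5.1, e5.2, e6.1, e6.2, e7.1, e7.2]
  exact ⟨⟨hbox a H ha, hbox b H hb, hbox c H hc⟩, hbox d D hdd⟩

theorem low406 (α : ℝ) (x : ℝ) (hx : Irrational x)
    (hK : {q : ℤ × ℤ | q.1 ≠ 0 ∧ |(q.1:ℝ) * x - q.2| < |(q.1:ℝ)|^(-α)}.Finite) :
    ∃ c : ℝ, 0 < c ∧ c ≤ 1 ∧ ∀ u v : ℤ, u ≠ 0 → c * |(u:ℝ)|^(-α) ≤ |(u:ℝ) * x - v| := by
  obtain ⟨S, hS⟩ : ∃ S : Set (ℤ × ℤ), S = {q : ℤ × ℤ | q.1 ≠ 0 ∧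
    |(q.1:ℝ) * x - q.2| < |(q.1:ℝ)|^(-α)} := ⟨_, rfl⟩
  rw [← hS] at hK
  have hpos : ∀ u v : ℤ, u ≠ 0 → 0 < |(u:ℝ) * x - v| * |(u:ℝ)|^α := by
    intro u v hu
    have hu' : (0 : ℝ) < |(u:ℝ)| := abs_pos.2 (by exact_mod_cast hu)
    have h1 : (u:ℝ) * x - v ≠ 0 := by
      intro h
      have h2 : Irrational ((u:ℝ) * x) := by
        have := hx.intCast_mul hu
        exact this
      exact h2.ne_int v (by linarith)
    exact mul_pos (abs_pos.2 h1) (Real.rpow_pos_of_pos hu' _)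
  obtain ⟨c0, hc0, hle⟩ : ∃ c0 : ℝ, 0 < c0 ∧ ∀ q ∈ S, c0 ≤ |(q.1:ℝ) * x - q.2| * |(q.1:ℝ)|^α := by
    rcases S.eq_empty_or_nonempty with he | hne
    · exact ⟨1, one_pos, fun q hq => by rw [he] at hq; exact absurd hq (Set.notMem_empty _)⟩
    · obtain ⟨q0, hq0, hmin⟩ := Set.exists_min_image S
        (fun q : ℤ × ℤ => |(q.1:ℝ) * x - q.2| * |(q.1:ℝ)|^α) hK hne
      refine ⟨_, hpos q0.1 q0.2 ?_, hmin⟩
      rw [hS] at hq0
      exact hq0.1
  refine ⟨min 1 c0, lt_min one_pos hc0, min_le_left _ _, ?_⟩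
  intro u v hu
  have hu' : (0 : ℝ) < |(u:ℝ)| := abs_pos.2 (by exact_mod_cast hu)
  have hr : 0 < |(u:ℝ)|^(-α) := Real.rpow_pos_of_pos hu' _
  by_cases hmem : (u, v) ∈ S
  · have h1 := hle (u, v) hmem
    simp only at h1
    have h2 : min 1 c0 * |(u:ℝ)|^(-α) ≤ (|(u:ℝ) * x - v| * |(u:ℝ)|^α) * |(u:ℝ)|^(-α) :=
      mul_le_mul_of_nonneg_right ((min_le_right _ _).trans h1) hr.le
    have h3 : (|(u:ℝ) * x - v| * |(u:ℝ)|^α) * |(u:ℝ)|^(-α) = |(u:ℝ) * x - v| := by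
      rw [mul_assoc, ← Real.rpow_add hu', add_neg_cancel, Real.rpow_zero, mul_one]
    rw [h3] at h2
    exact h2
  · have h1 : |(u:ℝ)|^(-α) ≤ |(u:ℝ) * x - v| := by
      by_contra hcon
      push Not at hcon
      exact hmem (by rw [hS]; exact ⟨hu, hcon⟩)
    refine le_trans ?_ h1
    have := mul_le_mul_of_nonneg_right (min_le_left (1:ℝ) c0) hr.le
    rw [one_mul] at this
    exact this

/-- auxiliary statement -/
theorem claim3 (τ : ℝ) (hτ : 1 < τ) (κ : ℝ) (hκ : 0 < κ) (x : ℝ) (hx : Irrational x)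
    (hK : ¬ {q : ℤ × ℤ | q.1 ≠ 0 ∧ |(q.1:ℝ) * x - q.2| < |(q.1:ℝ)|^(-(2*τ-1))}.Infinite) :
    {P : (ℤ × ℤ × ℤ) × ℤ | disc P.1.1 P.1.2.1 P.1.2.2 P.2 = 0 ∧ κ * (hF P.1)^2 ≤ PiF P.1 ∧
      (P.1.1 ≠ 0 ∨ P.1.2.1 ≠ 0) ∧ |Fv P.1 x + P.2| < (PiF P.1)^(-(2*τ-1))}.Finite := by
  obtain ⟨α, hα⟩ : ∃ α : ℝ, α = 2 * τ - 1 := ⟨_, rfl⟩
  have hα0 : 0 < α := by rw [hα]; linarith
  rw [← hα] at hK ⊢
  obtain ⟨c, hc, hc1, hlow⟩ := low406 α x hx (Set.not_infinite.1 hK)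
  obtain ⟨Z, hZ⟩ : ∃ Z : ℝ, Z = (c ^ 3) ^ (-1 / α) := ⟨_, rfl⟩
  have hc3 : 0 < c ^ 3 := by positivity
  have hZ0 : 0 < Z := by rw [hZ]; exact Real.rpow_pos_of_pos hc3 _
  have hZα : Z ^ (-α) = c ^ 3 := by
    rw [hZ, ← Real.rpow_mul hc3.le]
    have : -1 / α * -α = 1 := by field_simp
    rw [this, Real.rpow_one]
  refine (finite_small x (Z / κ)).subset ?_
  rintro ⟨⟨a, b, cc⟩, d⟩ ⟨hdisc, hpi, hab, hlt⟩
  simp only at hdisc hpi hab hlt
  obtain ⟨u, v, e, f, hu, hae, hbe, hce, hde⟩ := disc_zero_factor a b cc d hab hdisc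
  obtain ⟨h, hh⟩ : ∃ h : ℝ, h = hF (a, b, cc) := ⟨_, rfl⟩
  have hha : |(a:ℝ)| ≤ h := by
    rw [hh]; exact (le_max_left _ _).trans (le_max_left _ _)
  have hhb : |(b:ℝ)| ≤ h := by
    rw [hh]; exact (le_max_right _ _).trans (le_max_left _ _)
  have hone : ∀ z : ℤ, z ≠ 0 → (1:ℝ) ≤ |(z:ℝ)| := by
    intro z hz
    exact_mod_cast Int.one_le_abs hz
  have hh1 : 1 ≤ h := by
    rcases hab with ha | hb
    · exact (hone a ha).trans hha
    · exact (hone b hb).trans hhb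
  have hh0 : 0 < h := by linarith
  rw [← hh] at hpi
  have hval : Fv (a, b, cc) x + (d:ℝ) = ((u:ℝ) * x - v) ^ 2 * ((e:ℝ) * x + f) := by
    unfold Fv
    simp only
    rw [hae, hbe, hce, hde]
    push_cast
    ring
  have hU := hone u hu
  have hU0 : 0 < |(u:ℝ)| := by linarith
  have hA := hlow u v hu
  have hUr : 0 < |(u:ℝ)|^(-α) := Real.rpow_pos_of_pos hU0 _
  have hA2 : c ^ 2 * (|(u:ℝ)|^(-α) * |(u:ℝ)|^(-α)) ≤ |((u:ℝ) * x - v)| ^ 2 := by
    have := pow_le_pow_left₀ (by positivity) hA 2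
    calc c ^ 2 * (|(u:ℝ)|^(-α) * |(u:ℝ)|^(-α)) = (c * |(u:ℝ)|^(-α)) ^ 2 := by ring
      _ ≤ _ := this
  have hmain : c ^ 3 * h ^ (-α) ≤ |Fv (a, b, cc) x + (d:ℝ)| := by
    rw [hval, abs_mul, abs_pow]
    by_cases he : e = 0
    · have ha0 : a = 0 := by rw [hae, he, mul_zero]
      have hb0 : b ≠ 0 := by
        rcases hab with h1 | h1
        · exact absurd ha0 h1
        · exact h1
      have hbf : b = u ^ 2 * f := by rw [hbe, he]; ring
      have hf : f ≠ 0 := by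
        intro hf
        exact hb0 (by rw [hbf, hf, mul_zero])
      have hB : (1:ℝ) ≤ |(e:ℝ) * x + f| := by
        rw [he]
        simpa using hone f hf
      have hUU : |(u:ℝ)| * |(u:ℝ)| ≤ h := by
        have h1 : |(b:ℝ)| = |(u:ℝ)| * |(u:ℝ)| * |(f:ℝ)| := by
          rw [hbf]; push_cast; rw [abs_mul, abs_pow, sq]
        have h2 : |(u:ℝ)| * |(u:ℝ)| * 1 ≤ |(u:ℝ)| * |(u:ℝ)| * |(f:ℝ)| :=
          mul_le_mul_of_nonneg_left (hone f hf) (by positivity)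
        linarith
      have hr : h ^ (-α) ≤ |(u:ℝ)|^(-α) * |(u:ℝ)|^(-α) := by
        rw [← Real.mul_rpow (abs_nonneg _) (abs_nonneg _)]
        exact Real.rpow_le_rpow_of_nonpos (by positivity) hUU (by linarith)
      calc c ^ 3 * h ^ (-α) ≤ c ^ 2 * (|(u:ℝ)|^(-α) * |(u:ℝ)|^(-α)) := by
            apply mul_le_mul _ hr (Real.rpow_nonneg hh0.le _) (by positivity)
            exact pow_le_pow_of_le_one hc.le hc1 (by norm_num)
        _ ≤ |((u:ℝ) * x - v)| ^ 2 := hA2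
        _ = |((u:ℝ) * x - v)| ^ 2 * 1 := (mul_one _).symm
        _ ≤ _ := mul_le_mul_of_nonneg_left hB (by positivity)
    · have hE := hone e he
      have hE0 : 0 < |(e:ℝ)| := by linarith
      have hB : c * |(e:ℝ)|^(-α) ≤ |(e:ℝ) * x + f| := by
        have := hlow e (-f) he
        push_cast at this
        rwa [sub_neg_eq_add] at this
      have hUUE : |(u:ℝ)| * |(u:ℝ)| * |(e:ℝ)| ≤ h := by
        have h1 : |(a:ℝ)| = |(u:ℝ)| * |(u:ℝ)| * |(e:ℝ)| := by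
          rw [hae]; push_cast; rw [abs_mul, abs_pow, sq]
        linarith
      have hr : h ^ (-α) ≤ |(u:ℝ)|^(-α) * |(u:ℝ)|^(-α) * |(e:ℝ)|^(-α) := by
        rw [← Real.mul_rpow (abs_nonneg _) (abs_nonneg _),
          ← Real.mul_rpow (by positivity) (abs_nonneg _)]
        exact Real.rpow_le_rpow_of_nonpos (by positivity) hUUE (by linarith)
      have hEr : 0 < |(e:ℝ)|^(-α) := Real.rpow_pos_of_pos hE0 _
      calc c ^ 3 * h ^ (-α) ≤ c ^ 3 * (|(u:ℝ)|^(-α) * |(u:ℝ)|^(-α) * |(e:ℝ)|^(-α)) :=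
            mul_le_mul_of_nonneg_left hr hc3.le
        _ = (c ^ 2 * (|(u:ℝ)|^(-α) * |(u:ℝ)|^(-α))) * (c * |(e:ℝ)|^(-α)) := by ring
        _ ≤ _ := mul_le_mul hA2 hB (by positivity) (by positivity)
  have hpi1 : 1 ≤ PiF (a, b, cc) := by
    unfold PiF
    exact one_le_mul_of_one_le_of_one_le
      (one_le_mul_of_one_le_of_one_le (le_max_left _ _) (le_max_left _ _)) (le_max_left _ _)
  have hκh : 0 < κ * h := mul_pos hκ hh0
  have hup : (PiF (a, b, cc)) ^ (-α) ≤ (κ * h) ^ (-α) * h ^ (-α) := by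
    rw [← Real.mul_rpow hκh.le hh0.le]
    apply Real.rpow_le_rpow_of_nonpos (by positivity) _ (by linarith)
    calc κ * h * h = κ * h ^ 2 := by ring
      _ ≤ _ := hpi
  have hhr : 0 < h ^ (-α) := Real.rpow_pos_of_pos hh0 _
  have hlt2 : c ^ 3 * h ^ (-α) < (κ * h) ^ (-α) * h ^ (-α) :=
    lt_of_le_of_lt hmain (lt_of_lt_of_le hlt hup)
  have hlt3 : c ^ 3 < (κ * h) ^ (-α) := lt_of_mul_lt_mul_right hlt2 hhr.le
  have hfin : κ * h < Z := by
    by_contra hcon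
    push Not at hcon
    have := Real.rpow_le_rpow_of_nonpos hZ0 hcon (by linarith : -α ≤ 0)
    rw [hZα] at this
    linarith
  refine ⟨?_, ?_⟩
  · show hF (a, b, cc) ≤ Z / κ
    rw [← hh, le_div_iff₀ hκ]
    linarith
  · show |Fv (a, b, cc) x + (d:ℝ)| < 1
    refine lt_of_lt_of_le hlt ?_
    exact Real.rpow_le_one_of_one_le_of_nonpos hpi1 (by linarith)

/-- auxiliary statement -/
theorem dimH_K1 (τ : ℝ) (hτ : 1 < τ) :
    dimH {x : ℝ | {q : ℤ × ℤ | q.1 ≠ 0 ∧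
      |(q.1:ℝ) * x - q.2| < |(q.1:ℝ)|^(-(2*τ-1))}.Infinite} ≤ ENNReal.ofReal (1/τ) := by
  have hτ0 : 0 < τ := by linarith
  -- it is enough to treat every `s > 1/τ`
  suffices hmain : ∀ s : ℝ, 1/τ < s → dimH {x : ℝ | {q : ℤ × ℤ | q.1 ≠ 0 ∧
      |(q.1:ℝ) * x - q.2| < |(q.1:ℝ)|^(-(2*τ-1))}.Infinite} ≤ ENNReal.ofReal s by
    refine le_of_forall_gt_imp_ge_of_dense ?_
    intro a ha
    rcases eq_or_ne a ∞ with rfl | hatop
    · exact le_top
    · have h1 : 1/τ < a.toReal := by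
        have := (ENNReal.ofReal_lt_iff_lt_toReal (by positivity) hatop).1 ha
        exact this
      have h2 := hmain a.toReal h1
      rwa [ENNReal.ofReal_toReal hatop] at h2
  intro s hs
  have hs0 : 0 < s := lt_trans (by positivity) hs
  set b : ℝ := τ * s with hb
  have hb1 : 1 < b := by
    rw [hb]
    rw [div_lt_iff₀ hτ0] at hs
    linarith
  let T : ℕ → ℤ × ℤ → Set ℝ := fun N q => {x | |x| ≤ N ∧ q.1 ≠ 0 ∧
      |(q.1:ℝ) * x - q.2| < |(q.1:ℝ)|^(-(2*τ-1))}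
  have hcov : {x : ℝ | {q : ℤ × ℤ | q.1 ≠ 0 ∧
      |(q.1:ℝ) * x - q.2| < |(q.1:ℝ)|^(-(2*τ-1))}.Infinite} ⊆ ⋃ N : ℕ, {x | {q | x ∈ T N q}.Infinite} := by
    intro x hx
    obtain ⟨N, hN⟩ := exists_nat_ge |x|
    rw [mem_iUnion]
    refine ⟨N, ?_⟩
    have : {q | x ∈ T N q} = {q : ℤ × ℤ | q.1 ≠ 0 ∧
      |(q.1:ℝ) * x - q.2| < |(q.1:ℝ)|^(-(2*τ-1))} := by
      ext q
      simp only [T, mem_ofPred_eq]
      exact ⟨fun h => h.2, fun h => ⟨hN, h⟩⟩
    show Set.Infinite {q | x ∈ T N q}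
    rw [this]
    exact hx
  refine (dimH_mono hcov).trans ?_
  rw [dimH_iUnion]
  refine iSup_le fun N => ?_
  apply hc (T N) s hs0
  -- the weights
  set g : ℤ → ℝ := fun n => |(n:ℝ)|^(-b) + (if n = 0 then 1 else 0) with hg
  have hgs : Summable g :=
    (Real.summable_abs_int_rpow hb1).add (hasSum_ite_eq (0:ℤ) (1:ℝ)).summable
  have hg0 : ∀ n, 0 ≤ g n := by
    intro n
    simp only [hg]
    have : 0 ≤ |(n:ℝ)|^(-b) := Real.rpow_nonneg (abs_nonneg _) _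
    split_ifs <;> linarith
  have hgg : Summable (fun q : ℤ × ℤ => g q.1 * g q.2) := hgs.mul_of_nonneg hgs hg0 hg0
  set C : ℝ := 2 ^ s * ((N:ℝ) + 1) ^ b with hC
  have hC0 : 0 < C := by positivity
  have hbound : ∀ q : ℤ × ℤ, (Metric.ediam (T N q))^s ≤ ENNReal.ofReal (C * (g q.1 * g q.2)) := by
    intro q
    rcases (T N q).eq_empty_or_nonempty with hemp | ⟨x0, hx0⟩
    · rw [hemp, Metric.ediam_empty, ENNReal.zero_rpow_of_pos hs0]
      exact zero_le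
    · obtain ⟨hx1, hq1, hx2⟩ := hx0
      have hqa : (1:ℝ) ≤ |(q.1:ℝ)| := by
        have : (1:ℤ) ≤ |q.1| := Int.one_le_abs hq1
        exact_mod_cast this
      have hqpos : 0 < |(q.1:ℝ)| := by linarith
      have hpw1 : |(q.1:ℝ)|^(-(2*τ-1)) ≤ 1 := Real.rpow_le_one_of_one_le_of_nonpos hqa (by linarith)
      have hq2 : |(q.2:ℝ)| ≤ ((N:ℝ) + 1) * |(q.1:ℝ)| := by
        have h1 : |(q.2:ℝ)| ≤ |(q.1:ℝ) * x0| + |(q.1:ℝ) * x0 - q.2| := by
          have := abs_sub_abs_le_abs_sub ((q.2:ℝ)) ((q.1:ℝ) * x0)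
          rw [abs_sub_comm] at this
          linarith
        rw [abs_mul] at h1
        have h2 : |(q.1:ℝ)| * |x0| ≤ |(q.1:ℝ)| * N := mul_le_mul_of_nonneg_left hx1 hqpos.le
        nlinarith
      -- diameter
      have hdiam : Metric.ediam (T N q) ≤ ENNReal.ofReal (2 * |(q.1:ℝ)|^(-(2*τ))) := by
        apply Metric.ediam_le_of_forall_dist_le
        intro x hx y hy
        have hx' := hx.2.2
        have hy' := hy.2.2
        rw [Real.dist_eq]
        have h3 : |(q.1:ℝ)| * |x - y| ≤ 2 * |(q.1:ℝ)|^(-(2*τ-1)) := by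
          rw [← abs_mul]
          have : (q.1:ℝ) * (x - y) = ((q.1:ℝ) * x - q.2) - ((q.1:ℝ) * y - q.2) := by ring
          rw [this]
          have := abs_sub ((q.1:ℝ) * x - q.2) ((q.1:ℝ) * y - q.2)
          linarith
        have h4 : |(q.1:ℝ)|^(-(2*τ-1)) = |(q.1:ℝ)| * |(q.1:ℝ)|^(-(2*τ)) := by
          have : -(2*τ-1) = 1 + -(2*τ) := by ring
          rw [this, Real.rpow_add hqpos, Real.rpow_one]
        rw [h4] at h3
        have h5 : |(q.1:ℝ)| * |x - y| ≤ |(q.1:ℝ)| * (2 * |(q.1:ℝ)|^(-(2*τ))) := by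
          calc _ ≤ _ := h3
            _ = _ := by ring
        exact le_of_mul_le_mul_left h5 hqpos
      refine (ENNReal.rpow_le_rpow hdiam hs0.le).trans ?_
      rw [ENNReal.ofReal_rpow_of_nonneg (by positivity) hs0.le]
      apply ENNReal.ofReal_le_ofReal
      rw [Real.mul_rpow (by norm_num) (by positivity), ← Real.rpow_mul (abs_nonneg _)]
      have h6 : -(2*τ) * s = -b + -b := by rw [hb]; ring
      rw [h6, Real.rpow_add hqpos]
      have h7 : |(q.1:ℝ)|^(-b) ≤ g q.1 := by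
        simp only [hg]
        split_ifs <;> linarith
      have h8 : |(q.1:ℝ)|^(-b) ≤ ((N:ℝ) + 1) ^ b * g q.2 := by
        rcases eq_or_ne q.2 0 with h0 | h0
        · have e1 : g q.2 = 1 := by
            simp only [hg, h0]
            rw [Int.cast_zero, abs_zero, Real.zero_rpow (by linarith)]
            simp
          rw [e1, mul_one]
          have e2 : |(q.1:ℝ)|^(-b) ≤ 1 := Real.rpow_le_one_of_one_le_of_nonpos hqa (by linarith)
          have e3 : (1:ℝ) ≤ ((N:ℝ) + 1) ^ b :=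
            Real.one_le_rpow (by have : (0:ℝ) ≤ N := Nat.cast_nonneg N; linarith) (by linarith)
          linarith
        · have hq2pos : 0 < |(q.2:ℝ)| := abs_pos.2 (by exact_mod_cast h0)
          have hN1 : (0:ℝ) < (N:ℝ) + 1 := by positivity
          have e1 : g q.2 = |(q.2:ℝ)|^(-b) := by simp only [hg, if_neg h0, add_zero]
          rw [e1]
          have e4 : (((N:ℝ) + 1) * |(q.1:ℝ)|)^(-b) ≤ |(q.2:ℝ)|^(-b) :=
            Real.rpow_le_rpow_of_nonpos hq2pos hq2 (by linarith)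
          rw [Real.mul_rpow hN1.le hqpos.le] at e4
          have e5 : ((N:ℝ) + 1) ^ b * (((N:ℝ) + 1)^(-b) * |(q.1:ℝ)|^(-b)) = |(q.1:ℝ)|^(-b) := by
            rw [← mul_assoc, ← Real.rpow_add hN1, add_neg_cancel, Real.rpow_zero, one_mul]
          rw [← e5]
          exact mul_le_mul_of_nonneg_left e4 (by positivity)
      calc (2:ℝ)^s * (|(q.1:ℝ)|^(-b) * |(q.1:ℝ)|^(-b))
          ≤ (2:ℝ)^s * (g q.1 * (((N:ℝ) + 1) ^ b * g q.2)) := by
            apply mul_le_mul_of_nonneg_left _ (by positivity)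
            exact mul_le_mul h7 h8 (Real.rpow_nonneg (abs_nonneg _) _) (hg0 _)
        _ = C * (g q.1 * g q.2) := by rw [hC]; ring
  exact ne_top_of_le_ne_top (hgg.mul_left C).tsum_ofReal_ne_top (ENNReal.tsum_le_tsum hbound)

theorem sum_PiF_one (η : ℝ) (hη : 0 < η) :
    ∑' a : ℤ, ENNReal.ofReal ((max 1 |(a:ℝ)|)^(-(1+η))) ≠ ∞ := by
  apply Summable.tsum_ofReal_ne_top
  have h1 : Summable (fun n : ℤ => |(n:ℝ)| ^ (-(1+η))) := Real.summable_abs_int_rpow (by linarith)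
  have h2 : Summable (fun n : ℤ => if n = 0 then (1:ℝ) else 0) := by
    apply summable_of_ne_finset_zero (s := {0})
    intro b hb
    rw [if_neg (by simpa using hb)]
  refine Summable.of_nonneg_of_le (fun a => by positivity) (fun a => ?_) (h1.add h2)
  by_cases ha : a = 0
  · subst ha
    simp only [Int.cast_zero, abs_zero, if_true]
    rw [max_eq_left (by norm_num), Real.one_rpow]
    have : (0:ℝ) ≤ (0:ℝ) ^ (-(1+η)) := Real.rpow_nonneg (le_refl _) _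
    linarith
  · rw [if_neg ha, add_zero, max_eq_right]
    have : 1 ≤ |a| := Int.one_le_abs ha
    exact_mod_cast this

/-- auxiliary statement -/
theorem sum_PiF (η : ℝ) (hη : 0 < η) :
    ∑' F : ℤ × ℤ × ℤ, ENNReal.ofReal ((PiF F)^(-(1+η))) ≠ ∞ := by
  set g : ℤ → ℝ≥0∞ := fun a => ENNReal.ofReal ((max 1 |(a:ℝ)|)^(-(1+η))) with hg
  have h1 : ∀ F : ℤ × ℤ × ℤ, ENNReal.ofReal ((PiF F)^(-(1+η))) = g F.1 * (g F.2.1 * g F.2.2) := by
    intro F
    unfold PiF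
    rw [Real.mul_rpow (by positivity) (by positivity), Real.mul_rpow (by positivity) (by positivity),
      ENNReal.ofReal_mul (by positivity), ENNReal.ofReal_mul (by positivity), mul_assoc]
  have h2 : ∑' F : ℤ × ℤ × ℤ, ENNReal.ofReal ((PiF F)^(-(1+η)))
      = (∑' a, g a) * ((∑' a, g a) * (∑' a, g a)) := by
    rw [tsum_congr h1]
    rw [ENNReal.tsum_prod (f := fun a (p : ℤ × ℤ) => g a * (g p.1 * g p.2))]
    have h3 : ∀ a : ℤ, ∑' p : ℤ × ℤ, g a * (g p.1 * g p.2) = g a * ((∑' b, g b) * (∑' c, g c)) := by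
      intro a
      rw [ENNReal.tsum_mul_left, ENNReal.tsum_prod (f := fun b c => g b * g c)]
      congr 1
      rw [← ENNReal.tsum_mul_right]
      apply tsum_congr
      intro b
      rw [ENNReal.tsum_mul_left]
    rw [tsum_congr h3, ENNReal.tsum_mul_right]
  rw [h2]
  have h3 := sum_PiF_one η hη
  exact ENNReal.mul_ne_top h3 (ENNReal.mul_ne_top h3 h3)

end YU432
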