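import Pool.Agent.Helper432.YU.Base

open MeasureTheory Set
open scoped ENNReal

namespace YU432

theorem F1_sub (F : ℤ × ℤ × ℤ) (x y : ℝ) : F1 F y - F1 F x = (y - x) * ((F2 F x + F2 F y) / 2) := by
  unfold F1 F2; ring

theorem F2_conv (F : ℤ × ℤ × ℤ) (x y z : ℝ) :
    (y - x) * F2 F z = (z - x) * F2 F y + (y - z) * F2 F x := by
  unfold F2; ring

theorem F2_pos (F : ℤ × ℤ × ℤ) (e x y z : ℝ) (hx : 0 ≤ e * F2 F x) (hy : 0 ≤ e * F2 F y)
    (h1 : x ≤ z) (h2 : z ≤ y) : 0 ≤ e * F2 F z := by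
  rcases eq_or_lt_of_le (h1.trans h2) with h | h
  · have : z = x := le_antisymm (h ▸ h2) h1
    rw [this]; exact hx
  · have h3 := F2_conv F x y z
    have h4 : (y - x) * (e * F2 F z) = (z - x) * (e * F2 F y) + (y - z) * (e * F2 F x) := by
      linear_combination e * h3
    have h5 : 0 ≤ (y - x) * (e * F2 F z) := by
      rw [h4]
      exact add_nonneg (mul_nonneg (by linarith) hy) (mul_nonneg (by linarith) hx)
    exact nonneg_of_mul_nonneg_right h5 (by linarith)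

theorem F1_pos (F : ℤ × ℤ × ℤ) (e1 e2 x y z : ℝ) (he : e1 = e2 ∨ e1 = -e2)
    (hx : 0 ≤ e1 * F2 F x) (hy : 0 ≤ e1 * F2 F y) (hx1 : 0 < e2 * F1 F x) (hy1 : 0 < e2 * F1 F y)
    (h1 : x ≤ z) (h2 : z ≤ y) : 0 < e2 * F1 F z := by
  have hz := F2_pos F e1 x y z hx hy h1 h2
  have h3 := F1_sub F x z
  have h4 := F1_sub F z y
  rcases he with he | he
  · have h5 : e2 * F1 F z = e2 * F1 F x + (z - x) * ((e1 * F2 F x + e1 * F2 F z) / 2) := by
      rw [he]; linear_combination e2 * h3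
    have h6 : 0 ≤ (z - x) * ((e1 * F2 F x + e1 * F2 F z) / 2) :=
      mul_nonneg (by linarith) (by linarith)
    linarith
  · have h5 : e2 * F1 F z = e2 * F1 F y + (y - z) * ((e1 * F2 F z + e1 * F2 F y) / 2) := by
      rw [he]; linear_combination (-e2) * h4
    have h6 : 0 ≤ (y - z) * ((e1 * F2 F z + e1 * F2 F y) / 2) :=
      mul_nonneg (by linarith) (by linarith)
    linarith

/-- auxiliary statement -/
theorem piece_geo (M : ℝ) (hM : 1 ≤ M) (F : ℤ × ℤ × ℤ) (σ : Bool × Bool × Bool) :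
    (piece M F σ).OrdConnected ∧ (∃ a : ℝ, piece M F σ ⊆ Icc a (a + M)) ∧
    (∀ x ∈ piece M F σ, |Fv F x| ≤ 3 * M^3 * hF F) ∧
    ((∀ x ∈ piece M F σ, 0 < F1 F x) ∨ (∀ x ∈ piece M F σ, F1 F x < 0)) ∧
    (MonotoneOn (F1 F) (piece M F σ) ∨ AntitoneOn (F1 F) (piece M F σ)) := by
  obtain ⟨s1, s2, s3⟩ := σ
  have hM0 : 0 < M := by linarith
  have hMi : 0 < 1 / M := by positivity
  refine ⟨⟨?_⟩, ?_, ?_, ?_, ?_⟩
  · rintro x ⟨hx1, hx2, hx3, hx4⟩ y ⟨hy1, hy2, hy3, hy4⟩ z ⟨hz1, hz2⟩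
    refine ⟨?_, ?_, F2_pos F _ x y z hx3 hy3 hz1 hz2, F1_pos F (sg s1) _ x y z ?_ hx3 hy3 hx4 hy4 hz1 hz2⟩
    · show 1 / M ≤ sg s3 * z
      cases s3 <;> simp only [sg] at hx1 hy1 ⊢ <;> simp at hx1 hy1 ⊢ <;> linarith
    · show sg s3 * z ≤ M
      cases s3 <;> simp only [sg] at hx2 hy2 ⊢ <;> simp at hx2 hy2 ⊢ <;> linarith
    · show sg s1 = sg s2 ∨ sg s1 = -sg s2
      cases s1 <;> cases s2 <;> simp [sg]
  · cases s3
    · refine ⟨-M, ?_⟩
      rintro x ⟨hx1, hx2, -, -⟩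
      have e : sg false = -1 := by simp [sg]
      simp only [e] at hx1 hx2
      constructor <;> linarith
    · refine ⟨0, ?_⟩
      rintro x ⟨hx1, hx2, -, -⟩
      have e : sg true = 1 := by simp [sg]
      simp only [e] at hx1 hx2
      constructor <;> linarith
  · rintro x ⟨hx1, hx2, -, -⟩
    have hxM : |x| ≤ M := by
      have hx1' : 1 / M ≤ sg s3 * x := hx1
      have hx2' : sg s3 * x ≤ M := hx2
      cases s3
      · have e : sg false = -1 := by simp [sg]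
        rw [e] at hx1' hx2'
        rw [abs_le]; constructor <;> linarith
      · have e : sg true = 1 := by simp [sg]
        rw [e] at hx1' hx2'
        rw [abs_le]; constructor <;> linarith
    have ha : |(F.1 : ℝ)| ≤ hF F := (le_max_left _ _).trans (le_max_left _ _)
    have hb : |(F.2.1 : ℝ)| ≤ hF F := (le_max_right _ _).trans (le_max_left _ _)
    have hc : |(F.2.2 : ℝ)| ≤ hF F := le_max_right _ _
    have hh : 0 ≤ hF F := (abs_nonneg _).trans ha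
    have hM3 : M ≤ M ^ 3 := by
      have : 1 ≤ M ^ 2 := one_le_pow₀ hM
      nlinarith
    have hM2 : M ^ 2 ≤ M ^ 3 := by
      have : 0 ≤ M ^ 2 := sq_nonneg M
      nlinarith
    have t1 : |(F.1 : ℝ) * x ^ 3| ≤ hF F * M ^ 3 := by
      rw [abs_mul, abs_pow]
      exact mul_le_mul ha (pow_le_pow_left₀ (abs_nonneg x) hxM 3) (by positivity) hh
    have t2 : |(F.2.1 : ℝ) * x ^ 2| ≤ hF F * M ^ 3 := by
      rw [abs_mul, abs_pow]
      exact mul_le_mul hb ((pow_le_pow_left₀ (abs_nonneg x) hxM 2).trans hM2) (by positivity) hh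
    have t3 : |(F.2.2 : ℝ) * x| ≤ hF F * M ^ 3 := by
      rw [abs_mul]
      exact mul_le_mul hc (hxM.trans hM3) (abs_nonneg x) hh
    unfold Fv
    have t4 := abs_add_le ((F.1 : ℝ) * x ^ 3 + F.2.1 * x ^ 2) (F.2.2 * x)
    have t5 := abs_add_le ((F.1 : ℝ) * x ^ 3) (F.2.1 * x ^ 2)
    nlinarith
  · cases s2
    · right
      rintro x ⟨-, -, -, hx4⟩
      have e : sg false = -1 := by simp [sg]
      simp only [e] at hx4
      linarith
    · left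
      rintro x ⟨-, -, -, hx4⟩
      have e : sg true = 1 := by simp [sg]
      simp only [e] at hx4
      linarith
  · cases s1
    · right
      rintro x ⟨-, -, hx3, -⟩ y ⟨-, -, hy3, -⟩ hxy
      have e : sg false = -1 := by simp [sg]
      simp only [e] at hx3 hy3
      have h := F1_sub F x y
      have h2 : (y - x) * ((F2 F x + F2 F y) / 2) ≤ 0 :=
        mul_nonpos_of_nonneg_of_nonpos (by linarith) (by linarith)
      linarith
    · left
      rintro x ⟨-, -, hx3, -⟩ y ⟨-, -, hy3, -⟩ hxy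
      have e : sg true = 1 := by simp [sg]
      simp only [e] at hx3 hy3
      have h := F1_sub F x y
      have h2 : 0 ≤ (y - x) * ((F2 F x + F2 F y) / 2) :=
        mul_nonneg (by linarith) (by linarith)
      linarith

/-- auxiliary statement -/
theorem type_AB (M : ℝ) (hM : 1 ≤ M) (F : ℤ × ℤ × ℤ) (hF1 : 1 ≤ hF F)
    (hB : (hF F)^2 / (10 * M^3) > PiF F) (x : ℝ) (hx1 : 1/M ≤ |x|) (hx2 : |x| ≤ M) :
    hF F / (2 * M^2) ≤ |F1 F x| := by
  obtain ⟨t, ht⟩ : ∃ t : ℝ, t = hF F / (10 * M^3) := ⟨_, rfl⟩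
  have hM0 : 0 < M := by linarith
  have hM3 : 0 < 10 * M^3 := by positivity
  have hh : hF F = 10 * M^3 * t := by rw [ht]; field_simp
  have ht0 : 0 < t := by rw [ht]; positivity
  have hBt : PiF F < hF F * t := by
    have : (hF F)^2 / (10 * M^3) = hF F * t := by rw [ht]; ring
    rw [this] at hB; exact hB
  have hhpos : 0 < hF F := by linarith
  have hgoal : hF F / (2 * M^2) = 5 * M * t := by
    rw [hh]; field_simp; ring
  rw [hgoal]
  have A1 : (1:ℝ) ≤ max 1 |(F.1:ℝ)| := le_max_left _ _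
  have B1 : (1:ℝ) ≤ max 1 |(F.2.1:ℝ)| := le_max_left _ _
  have C1 : (1:ℝ) ≤ max 1 |(F.2.2:ℝ)| := le_max_left _ _
  have A2 : |(F.1:ℝ)| ≤ max 1 |(F.1:ℝ)| := le_max_right _ _
  have B2 : |(F.2.1:ℝ)| ≤ max 1 |(F.2.1:ℝ)| := le_max_right _ _
  have C2 : |(F.2.2:ℝ)| ≤ max 1 |(F.2.2:ℝ)| := le_max_right _ _
  have key : ∀ p q r : ℝ, 1 ≤ q → 1 ≤ r → hF F ≤ p → p * q * r < hF F * t → q < t ∧ r < t := by
    intro p q r hq hr hp hlt
    constructor
    · have h1 : hF F * q ≤ p * q * r := by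
        calc hF F * q ≤ p * q := by nlinarith
          _ ≤ p * q * r := by nlinarith [mul_pos (lt_of_lt_of_le hhpos hp) (by linarith : (0:ℝ) < q)]
      have h2 : hF F * q < hF F * t := lt_of_le_of_lt h1 hlt
      exact lt_of_mul_lt_mul_left h2 hhpos.le
    · have h1 : hF F * r ≤ p * q * r := by
        have : hF F * r ≤ p * r := by nlinarith
        calc hF F * r ≤ p * r := this
          _ ≤ p * q * r := by nlinarith [mul_pos (lt_of_lt_of_le hhpos hp) (by linarith : (0:ℝ) < r)]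
      have h2 : hF F * r < hF F * t := lt_of_le_of_lt h1 hlt
      exact lt_of_mul_lt_mul_left h2 hhpos.le
  have hax : |x|^2 = x^2 := sq_abs x
  have hx0 : 0 < |x| := lt_of_lt_of_le (by positivity) hx1
  have hMx : 1 ≤ M * |x| := by
    rw [div_le_iff₀ hM0] at hx1; linarith
  have hMM : M ≤ M^2 := by nlinarith
  have hMM3 : M^2 ≤ M^3 := by nlinarith [sq_nonneg M]
  -- absolute values of the three terms
  have e1 : |3 * (F.1:ℝ) * x^2| = 3 * |(F.1:ℝ)| * |x|^2 := by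
    rw [abs_mul, abs_mul, abs_of_pos (by norm_num : (0:ℝ) < 3), abs_pow]
  have e2 : |2 * (F.2.1:ℝ) * x| = 2 * |(F.2.1:ℝ)| * |x| := by
    rw [abs_mul, abs_mul, abs_of_pos (by norm_num : (0:ℝ) < 2)]
  have tri : ∀ u v w : ℝ, |u| - |v| - |w| ≤ |u + v + w| := by
    intro u v w
    have h1 : |u| ≤ |u + v + w| + |v| + |w| := by
      calc |u| = |(u + v + w) - v - w| := by ring_nf
        _ ≤ |(u + v + w) - v| + |w| := abs_sub _ _
        _ ≤ |u + v + w| + |v| + |w| := by linarith [abs_sub (u+v+w) v]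
    linarith
  have hcase : hF F = |(F.1:ℝ)| ∨ hF F = |(F.2.1:ℝ)| ∨ hF F = |(F.2.2:ℝ)| := by
    unfold hF
    rcases le_total |(F.1:ℝ)| |(F.2.1:ℝ)| with h | h <;>
    rcases le_total (max |(F.1:ℝ)| |(F.2.1:ℝ)|) |(F.2.2:ℝ)| with h' | h'
    · right; right; exact max_eq_right h'
    · right; left; rw [max_eq_left h', max_eq_right h]
    · right; right; exact max_eq_right h'
    · left; rw [max_eq_left h', max_eq_left h]
  have hxsq : |x|^2 ≤ M^2 := by nlinarith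
  have hMx2 : 1 ≤ M^2 * |x|^2 := by nlinarith
  unfold F1
  rcases hcase with hc | hc | hc
  · -- a max
    obtain ⟨hq, hr⟩ := key (max 1 |(F.1:ℝ)|) (max 1 |(F.2.1:ℝ)|) (max 1 |(F.2.2:ℝ)|) B1 C1
      (by rw [hc]; exact A2) hBt
    have h2 : |(F.2.1:ℝ)| < t := lt_of_le_of_lt B2 hq
    have h3 : |(F.2.2:ℝ)| < t := lt_of_le_of_lt C2 hr
    have := tri (3 * (F.1:ℝ) * x^2) (2 * (F.2.1:ℝ) * x) (F.2.2:ℝ)
    rw [e1, e2] at this
    rw [← hc, hh] at this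
    have k1 : 30 * M * t ≤ 3 * (10 * M^3 * t) * |x|^2 := by
      have : 30 * M * t * 1 ≤ 30 * M * t * (M^2 * |x|^2) :=
        mul_le_mul_of_nonneg_left hMx2 (by positivity)
      nlinarith
    have k2 : 2 * |(F.2.1:ℝ)| * |x| ≤ 2 * t * M := by
      have : |(F.2.1:ℝ)| * |x| ≤ t * M := mul_le_mul h2.le hx2 hx0.le ht0.le
      linarith
    have k3 : t ≤ M * t := by nlinarith
    have k4 : 0 < M * t := by positivity
    nlinarith
  · -- b max
    obtain ⟨hq, hr⟩ := key (max 1 |(F.2.1:ℝ)|) (max 1 |(F.1:ℝ)|) (max 1 |(F.2.2:ℝ)|) A1 C1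
      (by rw [hc]; exact B2) (by
        have : max 1 |(F.2.1:ℝ)| * max 1 |(F.1:ℝ)| * max 1 |(F.2.2:ℝ)| = PiF F := by
          unfold PiF; ring
        rw [this]; exact hBt)
    have h2 : |(F.1:ℝ)| < t := lt_of_le_of_lt A2 hq
    have h3 : |(F.2.2:ℝ)| < t := lt_of_le_of_lt C2 hr
    have := tri (2 * (F.2.1:ℝ) * x) (3 * (F.1:ℝ) * x^2) (F.2.2:ℝ)
    rw [e1, e2] at this
    rw [← hc, hh] at this
    have hre : 3 * (F.1:ℝ) * x^2 + 2 * (F.2.1:ℝ) * x + (F.2.2:ℝ)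
        = 2 * (F.2.1:ℝ) * x + 3 * (F.1:ℝ) * x^2 + (F.2.2:ℝ) := by ring
    rw [hre]
    have k1 : 20 * M^2 * t ≤ 2 * (10 * M^3 * t) * |x| := by
      have : 20 * M^2 * t * 1 ≤ 20 * M^2 * t * (M * |x|) :=
        mul_le_mul_of_nonneg_left hMx (by positivity)
      nlinarith
    have k2 : 3 * |(F.1:ℝ)| * |x|^2 ≤ 3 * t * M^2 := by
      have : |(F.1:ℝ)| * |x|^2 ≤ t * M^2 := mul_le_mul h2.le hxsq (by positivity) ht0.le
      linarith
    have k3 : t ≤ M^2 * t := by nlinarith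
    have k4 : 0 < M * t := by positivity
    have k5 : M * t ≤ M^2 * t := mul_le_mul_of_nonneg_right hMM ht0.le
    nlinarith
  · -- c max
    obtain ⟨hq, hr⟩ := key (max 1 |(F.2.2:ℝ)|) (max 1 |(F.1:ℝ)|) (max 1 |(F.2.1:ℝ)|) A1 B1
      (by rw [hc]; exact C2) (by
        have : max 1 |(F.2.2:ℝ)| * max 1 |(F.1:ℝ)| * max 1 |(F.2.1:ℝ)| = PiF F := by
          unfold PiF; ring
        rw [this]; exact hBt)
    have h2 : |(F.1:ℝ)| < t := lt_of_le_of_lt A2 hq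
    have h3 : |(F.2.1:ℝ)| < t := lt_of_le_of_lt B2 hr
    have := tri (F.2.2:ℝ) (3 * (F.1:ℝ) * x^2) (2 * (F.2.1:ℝ) * x)
    rw [e1, e2] at this
    rw [← hc, hh] at this
    have hre : 3 * (F.1:ℝ) * x^2 + 2 * (F.2.1:ℝ) * x + (F.2.2:ℝ)
        = (F.2.2:ℝ) + 3 * (F.1:ℝ) * x^2 + 2 * (F.2.1:ℝ) * x := by ring
    rw [hre]
    have k1 : 3 * |(F.1:ℝ)| * |x|^2 ≤ 3 * t * M^2 := by
      have : |(F.1:ℝ)| * |x|^2 ≤ t * M^2 := mul_le_mul h2.le hxsq (by positivity) ht0.le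
      linarith
    have k2 : 2 * |(F.2.1:ℝ)| * |x| ≤ 2 * t * M := by
      have : |(F.2.1:ℝ)| * |x| ≤ t * M := mul_le_mul h3.le hx2 hx0.le ht0.le
      linarith
    have k5 : M * t ≤ M^2 * t := mul_le_mul_of_nonneg_right hMM ht0.le
    have k6 : M^2 * t ≤ M^3 * t := mul_le_mul_of_nonneg_right hMM3 ht0.le
    nlinarith

theorem db_key (M h a b c d x C : ℝ) (hM : 1 ≤ M) (hh : 1 ≤ h) (ha : |a| ≤ h) (hb : |b| ≤ h)
    (hc : |c| ≤ h) (hx : |x| ≤ M) (hC : C = 500 * M ^ 3)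
    (hP : |a * x ^ 3 + b * x ^ 2 + c * x + d| ≤ 1 / (C * h ^ 3))
    (hP' : |3 * a * x ^ 2 + 2 * b * x + c| ≤ 1 / (C * h)) :
    |b ^ 2 * c ^ 2 - 4 * a * c ^ 3 - 4 * b ^ 3 * d - 27 * a ^ 2 * d ^ 2 + 18 * a * b * c * d| < 1 := by
  have hM0 : 0 < M := by linarith
  have hh0 : 0 < h := by linarith
  have p1 : 1 ≤ M ^ 3 := one_le_pow₀ hM
  have p2 : 1 ≤ h ^ 3 := one_le_pow₀ hh
  have q1 : M ≤ M ^ 3 := by
    calc M = M ^ 1 := (pow_one M).symm
      _ ≤ M ^ 3 := pow_le_pow_right₀ hM (by norm_num)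
  have q2 : M ^ 2 ≤ M ^ 3 := pow_le_pow_right₀ hM (by norm_num)
  have hC1 : 1 ≤ C * h ^ 3 := by
    rw [hC]
    have : 1 * 1 ≤ (500 * M ^ 3) * h ^ 3 := mul_le_mul (by linarith) p2 zero_le_one (by positivity)
    linarith
  have hP1 : |a * x ^ 3 + b * x ^ 2 + c * x + d| ≤ 1 := by
    refine hP.trans ?_
    rw [div_le_one (by linarith)]
    exact hC1
  have hd : |d| ≤ 4 * M ^ 3 * h := by
    have s1 : |a * x ^ 3| ≤ h * M ^ 3 := by
      rw [abs_mul, abs_pow]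
      gcongr
    have s2 : |b * x ^ 2| ≤ h * M ^ 2 := by
      rw [abs_mul, abs_pow]
      gcongr
    have s3 : |c * x| ≤ h * M := by
      rw [abs_mul]
      gcongr
    have r2 : h * M ^ 2 ≤ h * M ^ 3 := mul_le_mul_of_nonneg_left q2 hh0.le
    have r3 : h * M ≤ h * M ^ 3 := mul_le_mul_of_nonneg_left q1 hh0.le
    have r4 : 1 ≤ h * M ^ 3 := by
      have : 1 * 1 ≤ h * M ^ 3 := mul_le_mul hh p1 zero_le_one hh0.le
      linarith
    rw [abs_le] at s1 s2 s3 hP1 ⊢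
    constructor <;> linarith
  have hA : |27 * a ^ 3 * x ^ 3 + 27 * a ^ 2 * b * x ^ 2 + 27 * a ^ 2 * c * x - 27 * a ^ 2 * d +
      18 * a * b * c - 4 * b ^ 3| ≤ 211 * M ^ 3 * h ^ 3 := by
    have t1 : |27 * a ^ 3 * x ^ 3| ≤ 27 * h ^ 3 * M ^ 3 := by
      rw [abs_mul, abs_mul, abs_pow, abs_pow, abs_of_pos (by norm_num : (0:ℝ) < 27)]
      gcongr
    have t2 : |27 * a ^ 2 * b * x ^ 2| ≤ 27 * h ^ 2 * h * M ^ 2 := by
      rw [abs_mul, abs_mul, abs_mul, abs_pow, abs_pow, abs_of_pos (by norm_num : (0:ℝ) < 27)]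
      gcongr
    have t3 : |27 * a ^ 2 * c * x| ≤ 27 * h ^ 2 * h * M := by
      rw [abs_mul, abs_mul, abs_mul, abs_pow, abs_of_pos (by norm_num : (0:ℝ) < 27)]
      gcongr
    have t4 : |27 * a ^ 2 * d| ≤ 27 * h ^ 2 * (4 * M ^ 3 * h) := by
      rw [abs_mul, abs_mul, abs_pow, abs_of_pos (by norm_num : (0:ℝ) < 27)]
      gcongr
    have t5 : |18 * a * b * c| ≤ 18 * h * h * h := by
      rw [abs_mul, abs_mul, abs_mul, abs_of_pos (by norm_num : (0:ℝ) < 18)]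
      gcongr
    have t6 : |4 * b ^ 3| ≤ 4 * h ^ 3 := by
      rw [abs_mul, abs_pow, abs_of_pos (by norm_num : (0:ℝ) < 4)]
      gcongr
    have h3 : 0 ≤ h ^ 3 := by positivity
    have r1 : h ^ 3 * M ^ 2 ≤ h ^ 3 * M ^ 3 := mul_le_mul_of_nonneg_left q2 h3
    have r2 : h ^ 3 * M ≤ h ^ 3 * M ^ 3 := mul_le_mul_of_nonneg_left q1 h3
    have r3 : h ^ 3 * 1 ≤ h ^ 3 * M ^ 3 := mul_le_mul_of_nonneg_left p1 h3
    have e2 : 27 * h ^ 2 * h * M ^ 2 = 27 * (h ^ 3 * M ^ 2) := by ring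
    have e3 : 27 * h ^ 2 * h * M = 27 * (h ^ 3 * M) := by ring
    have e4 : 27 * h ^ 2 * (4 * M ^ 3 * h) = 108 * (h ^ 3 * M ^ 3) := by ring
    have e5 : 18 * h * h * h = 18 * h ^ 3 := by ring
    have e6 : 211 * M ^ 3 * h ^ 3 = 211 * (h ^ 3 * M ^ 3) := by ring
    have e1 : 27 * h ^ 3 * M ^ 3 = 27 * (h ^ 3 * M ^ 3) := by ring
    rw [e1] at t1
    rw [e2] at t2
    rw [e3] at t3
    rw [e4] at t4
    rw [e5] at t5
    rw [e6]
    rw [abs_le] at t1 t2 t3 t4 t5 t6 ⊢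
    constructor <;> linarith
  have hB : |-3 * a ^ 2 * x ^ 2 - 2 * a * b * x + b ^ 2 - 4 * a * c| ≤ 10 * M ^ 2 * h ^ 2 := by
    have t1 : |3 * a ^ 2 * x ^ 2| ≤ 3 * h ^ 2 * M ^ 2 := by
      rw [abs_mul, abs_mul, abs_pow, abs_pow, abs_of_pos (by norm_num : (0:ℝ) < 3)]
      gcongr
    have t2 : |2 * a * b * x| ≤ 2 * h * h * M := by
      rw [abs_mul, abs_mul, abs_mul, abs_of_pos (by norm_num : (0:ℝ) < 2)]
      gcongr
    have t3 : |b ^ 2| ≤ h ^ 2 := by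
      rw [abs_pow]
      gcongr
    have t4 : |4 * a * c| ≤ 4 * h * h := by
      rw [abs_mul, abs_mul, abs_of_pos (by norm_num : (0:ℝ) < 4)]
      gcongr
    have h3 : 0 ≤ h ^ 2 := by positivity
    have q3 : M ≤ M ^ 2 := by
      calc M = M ^ 1 := (pow_one M).symm
        _ ≤ M ^ 2 := pow_le_pow_right₀ hM (by norm_num)
    have q4 : 1 ≤ M ^ 2 := one_le_pow₀ hM
    have r2 : h ^ 2 * M ≤ h ^ 2 * M ^ 2 := mul_le_mul_of_nonneg_left q3 h3
    have r3 : h ^ 2 * 1 ≤ h ^ 2 * M ^ 2 := mul_le_mul_of_nonneg_left q4 h3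
    have e1 : 3 * h ^ 2 * M ^ 2 = 3 * (h ^ 2 * M ^ 2) := by ring
    have e2 : 2 * h * h * M = 2 * (h ^ 2 * M) := by ring
    have e4 : 4 * h * h = 4 * h ^ 2 := by ring
    have e6 : 10 * M ^ 2 * h ^ 2 = 10 * (h ^ 2 * M ^ 2) := by ring
    rw [e1] at t1
    rw [e2] at t2
    rw [e4] at t4
    rw [e6]
    rw [abs_le] at t1 t2 t3 t4 ⊢
    constructor <;> linarith
  have hid : b ^ 2 * c ^ 2 - 4 * a * c ^ 3 - 4 * b ^ 3 * d - 27 * a ^ 2 * d ^ 2 +
      18 * a * b * c * d =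
      (27 * a ^ 3 * x ^ 3 + 27 * a ^ 2 * b * x ^ 2 + 27 * a ^ 2 * c * x - 27 * a ^ 2 * d +
      18 * a * b * c - 4 * b ^ 3) * (a * x ^ 3 + b * x ^ 2 + c * x + d) +
      (-3 * a ^ 2 * x ^ 2 - 2 * a * b * x + b ^ 2 - 4 * a * c) *
        (3 * a * x ^ 2 + 2 * b * x + c) ^ 2 := by ring
  rw [hid]
  refine lt_of_le_of_lt (abs_add_le _ _) ?_
  rw [abs_mul, abs_mul, abs_pow]
  have u1 : |27 * a ^ 3 * x ^ 3 + 27 * a ^ 2 * b * x ^ 2 + 27 * a ^ 2 * c * x - 27 * a ^ 2 * d +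
      18 * a * b * c - 4 * b ^ 3| * |a * x ^ 3 + b * x ^ 2 + c * x + d| ≤
      (211 * M ^ 3 * h ^ 3) * (1 / (C * h ^ 3)) :=
    mul_le_mul hA hP (abs_nonneg _) (by positivity)
  have u2 : |-3 * a ^ 2 * x ^ 2 - 2 * a * b * x + b ^ 2 - 4 * a * c| *
      |3 * a * x ^ 2 + 2 * b * x + c| ^ 2 ≤ (10 * M ^ 2 * h ^ 2) * (1 / (C * h)) ^ 2 :=
    mul_le_mul hB (pow_le_pow_left₀ (abs_nonneg _) hP' 2) (by positivity) (by positivity)
  have v1 : (211 * M ^ 3 * h ^ 3) * (1 / (C * h ^ 3)) = 211 / 500 := by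
    rw [hC]
    field_simp
  have v2 : (10 * M ^ 2 * h ^ 2) * (1 / (C * h)) ^ 2 = (1 / 25000) * (1 / M ^ 4) := by
    rw [hC]
    field_simp
    norm_num
  have v3 : 1 / M ^ 4 ≤ 1 := by
    rw [div_le_one (by positivity)]
    exact one_le_pow₀ hM
  rw [v1] at u1
  rw [v2] at u2
  linarith

/-- auxiliary statement -/
theorem disc_bound (M : ℝ) (hM : 1 ≤ M) : ∃ C : ℝ, 1 ≤ C ∧
    ∀ (F : ℤ × ℤ × ℤ) (d : ℤ) (x : ℝ), |x| ≤ M → 1 ≤ hF F →
      |Fv F x + d| ≤ 1 / (C * (hF F)^3) → disc F.1 F.2.1 F.2.2 d ≠ 0 →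
      1 / (C * hF F) ≤ |F1 F x| := by
  refine ⟨500 * M ^ 3, ?_, ?_⟩
  · have : 1 ≤ M ^ 3 := one_le_pow₀ hM
    linarith
  · intro F d x hx hF1 hP hdisc
    by_contra hcon
    push Not at hcon
    have h1 := db_key M (hF F) F.1 F.2.1 F.2.2 d x (500 * M ^ 3) hM hF1
      ((le_max_left _ _).trans (le_max_left _ _)) ((le_max_right _ _).trans (le_max_left _ _))
      (le_max_right _ _) hx rfl hP hcon.le
    apply hdisc
    have h2 : |((disc F.1 F.2.1 F.2.2 d : ℤ) : ℝ)| < 1 := by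
      unfold disc
      push_cast
      exact h1
    have h3 : |disc F.1 F.2.1 F.2.2 d| < 1 := by
      rw [← Int.cast_abs] at h2
      exact_mod_cast h2
    exact Int.abs_lt_one_iff.1 h3

end YU432
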