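import Pool.Agent.Helper432.YU.Pc
import Pool.Agent.Helper432.YU.Geo
import Pool.Agent.Helper432.YU.Fac

open MeasureTheory Set
open scoped ENNReal

namespace YU432

/-- the covering set attached to `F`, the integer `k` and a sign pattern -/
noncomputable def TT (M τ : ℝ) (F : ℤ × ℤ × ℤ) (k : ℤ) (σ : Bool × Bool × Bool) : Set ℝ :=
  {x | x ∈ piece M F σ ∧ |Fv F x - k| < (PiF F)^(-(2*τ-1)) ∧
    ¬ ((hF F)^2 / (10 * M^3) ≤ PiF F ∧ disc F.1 F.2.1 F.2.2 (-k) = 0)}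

theorem hF_le_PiF705 (F : ℤ × ℤ × ℤ) : hF F ≤ PiF F := by
  unfold hF PiF
  have h1 : (1:ℝ) ≤ max 1 |(F.1:ℝ)| := le_max_left _ _
  have h2 : (1:ℝ) ≤ max 1 |(F.2.1:ℝ)| := le_max_left _ _
  have h3 : (1:ℝ) ≤ max 1 |(F.2.2:ℝ)| := le_max_left _ _
  have g1 : |(F.1:ℝ)| ≤ max 1 |(F.1:ℝ)| := le_max_right _ _
  have g2 : |(F.2.1:ℝ)| ≤ max 1 |(F.2.1:ℝ)| := le_max_right _ _
  have g3 : |(F.2.2:ℝ)| ≤ max 1 |(F.2.2:ℝ)| := le_max_right _ _
  set a := max 1 |(F.1:ℝ)|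
  set b := max 1 |(F.2.1:ℝ)|
  set c := max 1 |(F.2.2:ℝ)|
  have hab : 1 ≤ a * b := one_le_mul_of_one_le_of_one_le h1 h2
  apply max_le
  · apply max_le
    · calc |(F.1:ℝ)| ≤ a := g1
        _ = a * 1 * 1 := by ring
        _ ≤ a * b * c := by
          apply mul_le_mul _ h3 zero_le_one (by positivity)
          exact mul_le_mul_of_nonneg_left h2 (by linarith)
    · calc |(F.2.1:ℝ)| ≤ b := g2
        _ = 1 * b * 1 := by ring
        _ ≤ a * b * c := by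
          apply mul_le_mul _ h3 zero_le_one (by positivity)
          exact mul_le_mul_of_nonneg_right h1 (by linarith)
  · calc |(F.2.2:ℝ)| ≤ c := g3
      _ = 1 * c := by ring
      _ ≤ a * b * c := mul_le_mul_of_nonneg_right hab (by linarith)

theorem hasDerivAt_Fv705 (F : ℤ × ℤ × ℤ) (x : ℝ) : HasDerivAt (Fv F) (F1 F x) x := by
  have h1 : HasDerivAt (fun x : ℝ => x^3) (3 * x^2) x := by
    simpa using hasDerivAt_pow 3 x
  have h2 : HasDerivAt (fun x : ℝ => x^2) (2 * x) x := by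
    simpa using hasDerivAt_pow 2 x
  have h3 : HasDerivAt (fun x : ℝ => x) 1 x := hasDerivAt_id' x
  have h := ((h1.const_mul (F.1:ℝ)).add (h2.const_mul (F.2.1:ℝ))).add (h3.const_mul (F.2.2:ℝ))
  have e : Fv F = fun y : ℝ => (F.1:ℝ) * y^3 + (F.2.1:ℝ) * y^2 + (F.2.2:ℝ) * y := rfl
  rw [e]
  refine HasDerivAt.congr_deriv h ?_
  unfold F1
  ring

/-- STEP 1 (all k, one exceptional k0).  PROVE ONLY fcost1. -/
theorem fcost1 (M : ℝ) (hM : 1 ≤ M) (τ s : ℝ) (hτ : 3/2 ≤ τ) (hs : 1/τ < s) (hs1 : s ≤ 1) :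
    ∃ C h0 : ℝ, 0 < C ∧ 2 ≤ h0 ∧ ∀ (F : ℤ × ℤ × ℤ) (σ : Bool × Bool × Bool), h0 ≤ hF F →
      ∃ k0 : ℤ, ∑' k : {k : ℤ // k ≠ k0}, (Metric.ediam (TT M τ F k.1 σ))^s ≤
        ENNReal.ofReal (C * (PiF F)^(-(τ*s))) := by
  have hτ0 : 0 < τ := by linarith
  have hs0 : 0 < s := lt_trans (by positivity) hs
  have hM0 : 0 < M := by linarith
  have hM3 : 0 < M^3 := by positivity
  have hτs : 1 ≤ τ * s := by
    have := (div_lt_iff₀ hτ0).mp hs
    nlinarith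
  refine ⟨(4:ℝ)^s * (M + 6*M^3 + 3), 2, by positivity, le_refl _, ?_⟩
  intro F σ hh
  have hP := hF_le_PiF705 F
  set h := hF F with hh_def
  set P := PiF F with hP_def
  have hP2 : 2 ≤ P := le_trans hh hP
  have hP0 : 0 < P := by linarith
  have hh0 : 0 < h := by linarith
  obtain ⟨hS, ⟨a, hSL⟩, hB, hsign, hmon⟩ := piece_geo M hM F σ
  have hδ0 : 0 < P^(-(2*τ-1)) := Real.rpow_pos_of_pos hP0 _
  have hδ : P^(-(2*τ-1)) ≤ 1/4 := by
    calc P^(-(2*τ-1)) ≤ P^(-(2:ℝ)) := by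
          apply Real.rpow_le_rpow_of_exponent_le (by linarith)
          linarith
      _ ≤ (2:ℝ)^(-(2:ℝ)) := by
          apply Real.rpow_le_rpow_of_nonpos (by norm_num) hP2 (by norm_num)
      _ = 1/4 := by
          rw [Real.rpow_neg (by norm_num)]
          norm_num
  obtain ⟨k0, hk0⟩ := pieceAll (Fv F) (F1 F) (piece M F σ) hS (hasDerivAt_Fv705 F) a M
    (3*M^3*h) hSL hM0.le hB (by positivity) hsign hmon (P^(-(2*τ-1))) hδ0 hδ
  refine ⟨k0, ?_⟩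
  have key := hk0 h s (by linarith) hs0 hs1
  refine le_trans (ENNReal.tsum_le_tsum ?_) (le_trans key (ENNReal.ofReal_le_ofReal ?_))
  · intro k
    apply ENNReal.rpow_le_rpow _ hs0.le
    apply Metric.ediam_mono
    intro x hx
    exact ⟨hx.1, hx.2.1⟩
  · have e1 : (4 * P^(-(2*τ-1)))^s = (4:ℝ)^s * P^(-(2*τ-1)*s) := by
      rw [Real.mul_rpow (by norm_num) hδ0.le, ← Real.rpow_mul hP0.le]
    have e2 : h * h^(-s) = h^(1-s) := by
      rw [sub_eq_add_neg, Real.rpow_add hh0, Real.rpow_one]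
    have e3 : h^(-s) ≤ h^(1-s) :=
      Real.rpow_le_rpow_of_exponent_le (by linarith) (by linarith)
    have e4 : h^(1-s) ≤ P^(1-s) := Real.rpow_le_rpow hh0.le hP (by linarith)
    have e5 : h^(1-s)*M + (2*(3*M^3*h)+3)*h^(-s) ≤ (M + 6*M^3+3) * P^(1-s) := by
      calc h^(1-s)*M + (2*(3*M^3*h)+3)*h^(-s)
          = h^(1-s)*M + 6*M^3*(h*h^(-s)) + 3*h^(-s) := by ring
        _ = h^(1-s)*M + 6*M^3*h^(1-s) + 3*h^(-s) := by rw [e2]
        _ ≤ h^(1-s)*M + 6*M^3*h^(1-s) + 3*h^(1-s) := by linarith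
        _ = (M + 6*M^3+3) * h^(1-s) := by ring
        _ ≤ (M + 6*M^3+3) * P^(1-s) := mul_le_mul_of_nonneg_left e4 (by positivity)
    have e6 : P^(-(2*τ-1)*s) * P^(1-s) ≤ P^(-(τ*s)) := by
      rw [← Real.rpow_add hP0]
      apply Real.rpow_le_rpow_of_exponent_le (by linarith)
      nlinarith
    rw [e1]
    calc (4:ℝ)^s * P^(-(2*τ-1)*s) * (h^(1-s)*M + (2*(3*M^3*h)+3)*h^(-s))
        ≤ (4:ℝ)^s * P^(-(2*τ-1)*s) * ((M + 6*M^3+3) * P^(1-s)) :=
          mul_le_mul_of_nonneg_left e5 (by positivity)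
      _ = (4:ℝ)^s * (M + 6*M^3+3) * (P^(-(2*τ-1)*s) * P^(1-s)) := by ring
      _ ≤ (4:ℝ)^s * (M + 6*M^3+3) * P^(-(τ*s)) :=
          mul_le_mul_of_nonneg_left e6 (by positivity)

theorem fcost2_deriv (F : ℤ × ℤ × ℤ) (x : ℝ) : HasDerivAt (Fv F) (F1 F x) x := by
  unfold Fv F1
  have h1 := ((hasDerivAt_id x).pow 3).const_mul (F.1 : ℝ)
  have h2 := ((hasDerivAt_id x).pow 2).const_mul (F.2.1 : ℝ)
  have h3 := (hasDerivAt_id x).const_mul (F.2.2 : ℝ)
  have h := (h1.add h2).add h3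
  refine (h.congr_deriv ?_)
  simp
  ring

theorem fcost2_piece (M : ℝ) (hM : 1 ≤ M) (F : ℤ × ℤ × ℤ) (σ : Bool × Bool × Bool) (x : ℝ)
    (hx : x ∈ piece M F σ) : 1 / M ≤ |x| ∧ |x| ≤ M := by
  obtain ⟨h1, h2, -, -⟩ := hx
  have hM' : 0 < 1 / M := by positivity
  have he : |sg σ.2.2 * x| = |x| := by
    rw [abs_mul]
    have : |sg σ.2.2| = 1 := by
      unfold sg
      split_ifs <;> simp
    rw [this, one_mul]
  have h3 : |sg σ.2.2 * x| = sg σ.2.2 * x := abs_of_pos (lt_of_lt_of_le hM' h1)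
  rw [← he, h3]
  exact ⟨h1, h2⟩

theorem fcost2_pi (F : ℤ × ℤ × ℤ) : 1 ≤ PiF F := by
  unfold PiF
  have h1 : (1:ℝ) ≤ max 1 |(F.1:ℝ)| := le_max_left _ _
  have h2 : (1:ℝ) ≤ max 1 |(F.2.1:ℝ)| := le_max_left _ _
  have h3 : (1:ℝ) ≤ max 1 |(F.2.2:ℝ)| := le_max_left _ _
  have h4 : (1:ℝ) ≤ max 1 |(F.1:ℝ)| * max 1 |(F.2.1:ℝ)| := by nlinarith
  nlinarith

theorem fcost2_ed (M : ℝ) (hM : 1 ≤ M) (τ : ℝ) (F : ℤ × ℤ × ℤ) (k : ℤ) (σ : Bool × Bool × Bool)
    (m : ℝ) (hm : 0 < m)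
    (h : ∀ x ∈ piece M F σ, |Fv F x - k| < (PiF F)^(-(2*τ-1)) → m ≤ |F1 F x|) :
    Metric.ediam (TT M τ F k σ) ≤ ENNReal.ofReal (2 * (PiF F)^(-(2*τ-1)) / m) := by
  obtain ⟨g1, -, -, g2, -⟩ := piece_geo M hM F σ
  refine le_trans ?_ (ediam_le_of_deriv (Fv F) (F1 F) (piece M F σ) g1 (fcost2_deriv F) g2 k
    ((PiF F)^(-(2*τ-1))) m hm h)
  apply Metric.ediam_mono
  intro x hx
  exact ⟨hx.1, hx.2.1⟩

theorem fcost2_fin (A : ℝ≥0∞) (K P τ s : ℝ) (hK : 1 ≤ K) (hP : 1 ≤ P) (hs0 : 0 < s) (hs1 : s ≤ 1)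
    (h : A ≤ ENNReal.ofReal (K * P ^ (-τ))) : A ^ s ≤ ENNReal.ofReal (K * P ^ (-(τ * s))) := by
  have hP0 : 0 < P := by linarith
  refine (ENNReal.rpow_le_rpow h hs0.le).trans ?_
  rw [ENNReal.ofReal_rpow_of_nonneg (by positivity) hs0.le]
  apply ENNReal.ofReal_le_ofReal
  rw [Real.mul_rpow (by linarith) (by positivity), ← Real.rpow_mul hP0.le, neg_mul]
  apply mul_le_mul_of_nonneg_right _ (by positivity)
  calc K ^ s ≤ K ^ (1:ℝ) := Real.rpow_le_rpow_of_exponent_le hK hs1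
    _ = K := Real.rpow_one K

/-- STEP 2: PROVE ONLY fcost2 -/
theorem fcost2 (M : ℝ) (hM : 1 ≤ M) (τ s : ℝ) (hτ : 3/2 ≤ τ) (hs : 1/τ < s) (hs1 : s ≤ 1) :
    ∃ C h0 : ℝ, 0 < C ∧ 2 ≤ h0 ∧ ∀ (F : ℤ × ℤ × ℤ) (k : ℤ) (σ : Bool × Bool × Bool), h0 ≤ hF F →
      (Metric.ediam (TT M τ F k σ))^s ≤ ENNReal.ofReal (C * (PiF F)^(-(τ*s))) := by
  
  obtain ⟨Cd, hCd, hdisc⟩ := disc_bound M hM
  have hM0 : 0 < M := by linarith
  have hτ0 : 0 < τ := by linarith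
  have hs0 : 0 < s := lt_trans (by positivity) hs
  have hsq : 0 ≤ Real.sqrt (10 * M ^ 3) := Real.sqrt_nonneg _
  have hK : 1 ≤ 4 * M ^ 2 + 2 * Cd * Real.sqrt (10 * M ^ 3) := by
    have : 0 ≤ 2 * Cd * Real.sqrt (10 * M ^ 3) := by positivity
    nlinarith
  refine ⟨4 * M ^ 2 + 2 * Cd * Real.sqrt (10 * M ^ 3), max 2 (100 * M ^ 6 * Cd), by linarith,
    le_max_left _ _, fun F k σ hF0 => ?_⟩
  have hh2 : 2 ≤ hF F := (le_max_left _ _).trans hF0
  have hhc : 100 * M ^ 6 * Cd ≤ hF F := (le_max_right _ _).trans hF0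
  have hP := fcost2_pi F
  have hP0 : 0 < PiF F := by linarith
  have hh0 : 0 < hF F := by linarith
  refine fcost2_fin _ _ (PiF F) τ s hK hP hs0 hs1 ?_
  have hδ0 : 0 < (PiF F)^(-(2*τ-1)) := Real.rpow_pos_of_pos hP0 _
  by_cases hA : (hF F)^2 / (10 * M^3) > PiF F
  · have h1 := fcost2_ed M hM τ F k σ (hF F / (2 * M^2)) (by positivity) (fun x hx _ => by
      have hp := fcost2_piece M hM F σ x hx
      exact type_AB M hM F (by linarith) hA x hp.1 hp.2)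
    refine h1.trans (ENNReal.ofReal_le_ofReal ?_)
    have h2 : (PiF F)^(-(2*τ-1)) ≤ (PiF F)^(-τ) :=
      Real.rpow_le_rpow_of_exponent_le hP (by linarith)
    have h3 : 2 * (PiF F)^(-(2*τ-1)) / (hF F / (2 * M^2)) ≤ 4 * M ^ 2 * (PiF F)^(-(2*τ-1)) := by
      rw [div_div_eq_mul_div, div_le_iff₀ hh0]
      have : 0 ≤ M ^ 2 * (PiF F)^(-(2*τ-1)) := by positivity
      nlinarith
    have h4 : 0 ≤ 2 * Cd * Real.sqrt (10 * M ^ 3) * (PiF F)^(-τ) := by positivity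
    have h5 : 4 * M ^ 2 * (PiF F)^(-(2*τ-1)) ≤ 4 * M ^ 2 * (PiF F)^(-τ) :=
      mul_le_mul_of_nonneg_left h2 (by positivity)
    nlinarith
  · push Not at hA
    by_cases hd : disc F.1 F.2.1 F.2.2 (-k) = 0
    · have he : TT M τ F k σ = ∅ := by
        ext x
        simp only [mem_empty_iff_false, iff_false]
        rintro ⟨-, -, h⟩
        exact h ⟨hA, hd⟩
      rw [he, Metric.ediam_empty]
      exact bot_le
    · have hq0 : 0 < (hF F)^2 / (10 * M^3) := by positivity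
      have hδ1 : (PiF F)^(-(2*τ-1)) ≤ 1 / (Cd * (hF F)^3) := by
        have e1 : (PiF F)^(-(2*τ-1)) ≤ (PiF F)^(-(2:ℝ)) :=
          Real.rpow_le_rpow_of_exponent_le hP (by linarith)
        have e2 : (PiF F)^(-(2:ℝ)) = 1 / (PiF F) ^ 2 := by
          rw [Real.rpow_neg hP0.le, one_div]
          congr 1
          exact_mod_cast Real.rpow_natCast (PiF F) 2
        rw [e2] at e1
        refine e1.trans ?_
        apply one_div_le_one_div_of_le (by positivity)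
        have e3 : ((hF F)^2 / (10 * M^3)) ^ 2 ≤ (PiF F) ^ 2 :=
          pow_le_pow_left₀ hq0.le hA 2
        refine le_trans ?_ e3
        rw [div_pow, le_div_iff₀ (by positivity)]
        have e4 : 100 * M ^ 6 * Cd * (hF F)^3 ≤ hF F * (hF F)^3 :=
          mul_le_mul_of_nonneg_right hhc (by positivity)
        calc Cd * (hF F)^3 * (10 * M^3)^2 = 100 * M ^ 6 * Cd * (hF F)^3 := by ring
          _ ≤ hF F * (hF F)^3 := e4
          _ = ((hF F)^2)^2 := by ring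
      have h1 := fcost2_ed M hM τ F k σ (1 / (Cd * hF F)) (by positivity) (fun x hx hx2 => by
        have hp := fcost2_piece M hM F σ x hx
        refine hdisc F (-k) x hp.2 (by linarith) ?_ hd
        push_cast
        rw [← sub_eq_add_neg]
        exact hx2.le.trans hδ1)
      refine h1.trans (ENNReal.ofReal_le_ofReal ?_)
      have hh : hF F ≤ Real.sqrt (10 * M ^ 3) * (PiF F) ^ ((1:ℝ)/2) := by
        rw [← Real.sqrt_eq_rpow, ← Real.sqrt_mul (by positivity)]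
        apply Real.le_sqrt_of_sq_le
        rw [div_le_iff₀ (by positivity)] at hA
        linarith
      have e5 : (PiF F) ^ ((1:ℝ)/2) * (PiF F)^(-(2*τ-1)) ≤ (PiF F)^(-τ) := by
        rw [← Real.rpow_add hP0]
        exact Real.rpow_le_rpow_of_exponent_le hP (by linarith)
      have e6 : 2 * (PiF F)^(-(2*τ-1)) / (1 / (Cd * hF F)) =
          2 * Cd * (hF F * (PiF F)^(-(2*τ-1))) := by
        rw [div_div_eq_mul_div, div_one]
        ring
      rw [e6]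
      have e7 : hF F * (PiF F)^(-(2*τ-1)) ≤ Real.sqrt (10 * M ^ 3) * (PiF F)^(-τ) := by
        calc hF F * (PiF F)^(-(2*τ-1))
            ≤ Real.sqrt (10 * M ^ 3) * (PiF F) ^ ((1:ℝ)/2) * (PiF F)^(-(2*τ-1)) :=
              mul_le_mul_of_nonneg_right hh hδ0.le
          _ = Real.sqrt (10 * M ^ 3) * ((PiF F) ^ ((1:ℝ)/2) * (PiF F)^(-(2*τ-1))) := by ring
          _ ≤ _ := mul_le_mul_of_nonneg_left e5 hsq
      have e8 : 2 * Cd * (hF F * (PiF F)^(-(2*τ-1))) ≤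
          2 * Cd * (Real.sqrt (10 * M ^ 3) * (PiF F)^(-τ)) :=
        mul_le_mul_of_nonneg_left e7 (by positivity)
      have e9 : 0 ≤ 4 * M ^ 2 * (PiF F)^(-τ) := by positivity
      nlinarith

/-- auxiliary statement -/
theorem limsup_dim (M : ℝ) (hM : 1 ≤ M) (τ s : ℝ) (hτ : 3/2 ≤ τ) (hs : 1/τ < s) (hs1 : s ≤ 1) :
    ∃ h0 : ℝ, dimH {x : ℝ | {i : ((ℤ × ℤ × ℤ) × ℤ) × (Bool × Bool × Bool) |
      h0 ≤ hF i.1.1 ∧ x ∈ TT M τ i.1.1 i.1.2 i.2}.Infinite} ≤ ENNReal.ofReal s := by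
  have hτ0 : 0 < τ := by linarith
  have hs0 : 0 < s := lt_trans (by positivity) hs
  obtain ⟨C1, h1, hC1, hh1, H1⟩ := fcost1 M hM τ s hτ hs hs1
  obtain ⟨C2, h2, hC2, hh2, H2⟩ := fcost2 M hM τ s hτ hs hs1
  set h0 : ℝ := max h1 h2 with hh0
  refine ⟨h0, hc (fun i : ((ℤ × ℤ × ℤ) × ℤ) × (Bool × Bool × Bool) =>
    {x : ℝ | h0 ≤ hF i.1.1 ∧ x ∈ TT M τ i.1.1 i.1.2 i.2}) s hs0 ?_⟩
  have hη : 0 < τ * s - 1 := by
    rw [div_lt_iff₀ hτ0] at hs
    linarith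
  have hfin := sum_PiF (τ * s - 1) hη
  set A : ℝ≥0∞ := ∑' F : ℤ × ℤ × ℤ, ENNReal.ofReal ((C2 + C1) * (PiF F)^(-(τ*s))) with hA
  have hAfin : A ≠ ∞ := by
    have e : ∀ F : ℤ × ℤ × ℤ, ENNReal.ofReal ((C2 + C1) * (PiF F)^(-(τ*s)))
        = ENNReal.ofReal (C2 + C1) * ENNReal.ofReal ((PiF F)^(-(1+(τ*s-1)))) := by
      intro F
      rw [ENNReal.ofReal_mul (by linarith)]
      congr 3
      ring
    rw [hA]
    simp_rw [e]
    rw [ENNReal.tsum_mul_left]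
    exact ENNReal.mul_ne_top ENNReal.ofReal_ne_top hfin
  have hkey : ∀ (σ : Bool × Bool × Bool) (F : ℤ × ℤ × ℤ),
      ∑' k : ℤ, (Metric.ediam {x : ℝ | h0 ≤ hF F ∧ x ∈ TT M τ F k σ})^s
        ≤ ENNReal.ofReal ((C2 + C1) * (PiF F)^(-(τ*s))) := by
    intro σ F
    have hP : 0 ≤ (PiF F)^(-(τ*s)) := by
      apply Real.rpow_nonneg
      unfold PiF
      positivity
    by_cases hF0 : h0 ≤ hF F
    · have e : ∀ k : ℤ, {x : ℝ | h0 ≤ hF F ∧ x ∈ TT M τ F k σ} = TT M τ F k σ := by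
        intro k
        ext x
        simp [hF0]
      simp_rw [e]
      obtain ⟨k0, hk0⟩ := H1 F σ (le_trans (le_max_left _ _) hF0)
      have h3 := Summable.tsum_add_tsum_compl (s := {k : ℤ | k = k0})
        (f := fun k : ℤ => (Metric.ediam (TT M τ F k σ))^s) ENNReal.summable ENNReal.summable
      rw [← h3, add_mul, ENNReal.ofReal_add (by positivity) (by positivity)]
      refine add_le_add ?_ hk0
      have h4 : ∑' k : {k : ℤ | k = k0}, (Metric.ediam (TT M τ F k σ))^s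
          = (Metric.ediam (TT M τ F k0 σ))^s :=
        tsum_singleton k0 (fun k : ℤ => (Metric.ediam (TT M τ F k σ))^s)
      rw [h4]
      exact H2 F k0 σ (le_trans (le_max_right _ _) hF0)
    · have e : ∀ k : ℤ, {x : ℝ | h0 ≤ hF F ∧ x ∈ TT M τ F k σ} = ∅ := by
        intro k
        ext x
        simp [hF0]
      simp_rw [e]
      simp [ENNReal.zero_rpow_of_pos hs0]
  have hmain : ∑' i : ((ℤ × ℤ × ℤ) × ℤ) × (Bool × Bool × Bool),
      (Metric.ediam {x : ℝ | h0 ≤ hF i.1.1 ∧ x ∈ TT M τ i.1.1 i.1.2 i.2})^s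
      ≤ ∑' σ : Bool × Bool × Bool, A := by
    rw [ENNReal.tsum_prod', ENNReal.tsum_comm]
    refine ENNReal.tsum_le_tsum fun σ => ?_
    rw [ENNReal.tsum_prod']
    exact ENNReal.tsum_le_tsum fun F => hkey σ F
  refine ne_top_of_le_ne_top ?_ hmain
  rw [tsum_fintype, Finset.sum_const, nsmul_eq_mul]
  exact ENNReal.mul_ne_top (ENNReal.natCast_ne_top _) hAfin

/-- auxiliary statement -/
theorem pointwise (M : ℝ) (hM : 1 ≤ M) (τ : ℝ) (hτ : 3/2 ≤ τ) (h0 x : ℝ) (hx : Irrational x)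
    (hx1 : 1/M ≤ |x|) (hx2 : |x| ≤ M)
    (hcr : ∀ F : ℤ × ℤ × ℤ, F ≠ 0 → F1 F x ≠ 0)
    (hK : ¬ {q : ℤ × ℤ | q.1 ≠ 0 ∧ |(q.1:ℝ) * x - q.2| < |(q.1:ℝ)|^(-(2*τ-1))}.Infinite)
    (hinf : {P : (ℤ × ℤ × ℤ) × ℤ | (PiF P.1)^(2*τ-1) * |Fv P.1 x + P.2| < 1}.Infinite) :
    {i : ((ℤ × ℤ × ℤ) × ℤ) × (Bool × Bool × Bool) |
      h0 ≤ hF i.1.1 ∧ x ∈ TT M τ i.1.1 i.1.2 i.2}.Infinite := by
  classical
  have hMpos : (0:ℝ) < M := by linarith
  have hM3 : (1:ℝ) ≤ M^3 := one_le_pow₀ hM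
  set κ : ℝ := 1 / (10 * M^3) with hκ
  have hκ0 : 0 < κ := by positivity
  have hB1 := finite_small x (max h0 (10 * M^3))
  have hB2 := claim3 τ (by linarith) κ hκ0 x hx hK
  have hQ := hinf.sdiff (hB1.union hB2)
  have hPi1 : ∀ F : ℤ × ℤ × ℤ, 1 ≤ PiF F := by
    intro F
    unfold PiF
    have h1 : (1:ℝ) ≤ max 1 |(F.1:ℝ)| := le_max_left _ _
    have h2 : (1:ℝ) ≤ max 1 |(F.2.1:ℝ)| := le_max_left _ _
    have h3 : (1:ℝ) ≤ max 1 |(F.2.2:ℝ)| := le_max_left _ _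
    have h12 : (1:ℝ) ≤ max 1 |(F.1:ℝ)| * max 1 |(F.2.1:ℝ)| := one_le_mul_of_one_le_of_one_le h1 h2
    exact one_le_mul_of_one_le_of_one_le h12 h3
  refine Set.infinite_of_injOn_mapsTo (f := fun P : (ℤ × ℤ × ℤ) × ℤ =>
    (((P.1, -P.2), (decide (0 ≤ F2 P.1 x), decide (0 < F1 P.1 x), decide (0 < x))) :
      ((ℤ × ℤ × ℤ) × ℤ) × (Bool × Bool × Bool))) ?_ ?_ hQ
  · intro P _ P' _ h
    simp only [Prod.mk.injEq, neg_inj] at h
    exact Prod.ext h.1.1 h.1.2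
  · intro P hP
    obtain ⟨hA, hnB⟩ := hP
    simp only [Set.mem_union, not_or] at hnB
    obtain ⟨hn1, hn2⟩ := hnB
    have hPi := hPi1 P.1
    have hPi0 : 0 < PiF P.1 := by linarith
    have hrp : 0 < (PiF P.1)^(2*τ-1) := Real.rpow_pos_of_pos hPi0 _
    have hA' : (PiF P.1)^(2*τ-1) * |Fv P.1 x + P.2| < 1 := hA
    have hlt : |Fv P.1 x + P.2| < (PiF P.1)^(-(2*τ-1)) := by
      rw [Real.rpow_neg hPi0.le, ← one_div, lt_div_iff₀ hrp, mul_comm]
      exact hA'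
    have hge1 : 1 ≤ (PiF P.1)^(2*τ-1) := Real.one_le_rpow hPi (by linarith)
    have hlt1 : |Fv P.1 x + P.2| < 1 := by
      have := mul_le_mul_of_nonneg_right hge1 (abs_nonneg (Fv P.1 x + P.2))
      linarith
    have hh : max h0 (10 * M^3) < hF P.1 := by
      by_contra hc
      exact hn1 ⟨not_lt.mp hc, hlt1⟩
    have hh0 : h0 < hF P.1 := lt_of_le_of_lt (le_max_left _ _) hh
    have hhM : 10 * M^3 < hF P.1 := lt_of_le_of_lt (le_max_right _ _) hh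
    have hP0 : P.1 ≠ 0 := by
      intro h
      rw [h] at hhM
      have : hF 0 = 0 := by unfold hF; simp
      rw [this] at hhM
      nlinarith
    have hF1 := hcr P.1 hP0
    have hx0 : x ≠ 0 := hx.ne_zero
    refine ⟨hh0.le, ?_, ?_, ?_⟩
    · refine ⟨?_, ?_, ?_, ?_⟩
      · by_cases h : 0 < x
        · simp only [h, decide_true, sg, if_true, one_mul]
          rwa [abs_of_pos h] at hx1
        · simp only [h, decide_false, sg, Bool.false_eq_true, if_false]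
          rw [abs_of_nonpos (not_lt.mp h)] at hx1
          linarith
      · by_cases h : 0 < x
        · simp only [h, decide_true, sg, if_true, one_mul]
          rwa [abs_of_pos h] at hx2
        · simp only [h, decide_false, sg, Bool.false_eq_true, if_false]
          rw [abs_of_nonpos (not_lt.mp h)] at hx2
          linarith
      · by_cases h : 0 ≤ F2 P.1 x
        · simp only [h, decide_true, sg, if_true, one_mul]
        · simp only [h, decide_false, sg, Bool.false_eq_true, if_false]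
          have := not_le.mp h
          linarith
      · by_cases h : 0 < F1 P.1 x
        · simp only [h, decide_true, sg, if_true, one_mul]
        · simp only [h, decide_false, sg, Bool.false_eq_true, if_false]
          have := lt_of_le_of_ne (not_lt.mp h) hF1
          linarith
    · show |Fv P.1 x - ((-P.2 : ℤ) : ℝ)| < _
      rw [Int.cast_neg, sub_neg_eq_add]
      exact hlt
    · rintro ⟨h1, h2⟩
      have h2' : disc P.1.1 P.1.2.1 P.1.2.2 P.2 = 0 := by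
        have : -(-P.2) = P.2 := neg_neg _
        simpa [this] using h2
      apply hn2
      refine ⟨h2', ?_, ?_, hlt⟩
      · rw [hκ]
        calc 1 / (10 * M^3) * (hF P.1)^2 = (hF P.1)^2 / (10 * M^3) := by ring
          _ ≤ PiF P.1 := h1
      · by_contra hc
        simp only [not_or, not_not, ne_eq] at hc
        obtain ⟨ha, hb⟩ := hc
        have e1 : hF P.1 = |(P.1.2.2:ℝ)| := by
          unfold hF; rw [ha, hb]; simp
        have e2 : PiF P.1 = hF P.1 := by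
          have h10 : (1:ℝ) ≤ |(P.1.2.2:ℝ)| := by rw [← e1]; linarith
          rw [e1]; unfold PiF; rw [ha, hb]; simp [h10]
        have h1' : (hF P.1)^2 / (10 * M^3) ≤ PiF P.1 := h1
        rw [e2, div_le_iff₀ (by positivity)] at h1'
        have hpos : 0 < hF P.1 := by linarith
        have : hF P.1 ≤ 10 * M^3 := by
          by_contra hcc
          have := mul_lt_mul_of_pos_left (not_le.mp hcc) hpos
          nlinarith
        linarith

theorem h338_fin (F : ℤ × ℤ × ℤ) (hF : F ≠ 0) : {x : ℝ | F1 F x = 0}.Finite := by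
  obtain ⟨p, hp⟩ : ∃ p : Polynomial ℝ, p = Polynomial.C (3 * (F.1:ℝ)) * Polynomial.X ^ 2
      + Polynomial.C (2 * (F.2.1:ℝ)) * Polynomial.X + Polynomial.C (F.2.2:ℝ) := ⟨_, rfl⟩
  have hp0 : p ≠ 0 := by
    intro h0
    apply hF
    have hev : ∀ x : ℝ, 3 * (F.1:ℝ) * x ^ 2 + 2 * (F.2.1:ℝ) * x + (F.2.2:ℝ) = 0 := by
      intro x
      have h := congrArg (Polynomial.eval x) h0
      rw [hp] at h
      simpa using h
    have e0 := hev 0
    have e1 := hev 1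
    have e2 := hev (-1)
    have c0 : (F.2.2:ℝ) = 0 := by linarith
    have c1 : (F.2.1:ℝ) = 0 := by linarith
    have c2 : (F.1:ℝ) = 0 := by linarith
    have d0 : F.2.2 = 0 := by exact_mod_cast c0
    have d1 : F.2.1 = 0 := by exact_mod_cast c1
    have d2 : F.1 = 0 := by exact_mod_cast c2
    exact Prod.ext d2 (Prod.ext d1 d0)
  have hsub : {x : ℝ | F1 F x = 0} ⊆ (p.roots.toFinset : Set ℝ) := by
    intro x hx
    simp only [Finset.mem_coe, Multiset.mem_toFinset]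
    rw [Polynomial.mem_roots hp0, Polynomial.IsRoot.def, hp]
    simp only [Polynomial.eval_add, Polynomial.eval_mul, Polynomial.eval_pow, Polynomial.eval_C,
      Polynomial.eval_X]
    have : F1 F x = 0 := hx
    unfold F1 at this
    linarith
  exact (Finset.finite_toSet _).subset hsub

/-- auxiliary statement -/
theorem final_tuple (τ : ℝ) (hτ : 3/2 ≤ τ) :
    dimH {x : ℝ | {P : (ℤ × ℤ × ℤ) × ℤ | (PiF P.1)^(2*τ-1) * |Fv P.1 x + P.2| < 1}.Infinite}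
      ≤ ENNReal.ofReal (1/τ) := by
  have hτ0 : (0:ℝ) < τ := by linarith
  have hτ1 : 1 < τ := by linarith
  have hlt1 : 1 / τ < 1 := by rw [div_lt_one hτ0]; exact hτ1
  have main : ∀ s : ℝ, 1 / τ < s → s ≤ 1 →
      dimH {x : ℝ | {P : (ℤ × ℤ × ℤ) × ℤ | (PiF P.1)^(2*τ-1) * |Fv P.1 x + P.2| < 1}.Infinite}
        ≤ ENNReal.ofReal s := by
    intro s hs hs1
    have hh : ∀ N : ℕ, ∃ h0 : ℝ, 1 ≤ N → dimH {x : ℝ | {i : ((ℤ × ℤ × ℤ) × ℤ) × (Bool × Bool × Bool) |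
      h0 ≤ hF i.1.1 ∧ x ∈ TT (N:ℝ) τ i.1.1 i.1.2 i.2}.Infinite} ≤ ENNReal.ofReal s := by
      intro N
      by_cases hN : 1 ≤ N
      · obtain ⟨h0, hh0⟩ := limsup_dim (N:ℝ) (by exact_mod_cast hN) τ s hτ hs hs1
        exact ⟨h0, fun _ => hh0⟩
      · exact ⟨0, fun h => absurd h hN⟩
    choose h0 hh0 using hh
    have hsub : {x : ℝ | {P : (ℤ × ℤ × ℤ) × ℤ | (PiF P.1)^(2*τ-1) * |Fv P.1 x + P.2| < 1}.Infinite}
        ⊆ ((Set.range (fun q : ℚ => (q:ℝ))) ∪ (⋃ F : {F : ℤ × ℤ × ℤ // F ≠ 0}, {x : ℝ | F1 F.1 x = 0}))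
          ∪ ({x : ℝ | {q : ℤ × ℤ | q.1 ≠ 0 ∧
              |(q.1:ℝ) * x - q.2| < |(q.1:ℝ)|^(-(2*τ-1))}.Infinite}
            ∪ ⋃ N : ℕ, {x : ℝ | 1 ≤ N ∧ {i : ((ℤ × ℤ × ℤ) × ℤ) × (Bool × Bool × Bool) |
              h0 N ≤ hF i.1.1 ∧ x ∈ TT (N:ℝ) τ i.1.1 i.1.2 i.2}.Infinite}) := by
      intro x hx
      by_cases hirr : Irrational x
      swap
      · left; left
        unfold Irrational at hirr
        exact not_not.mp hirr
      by_cases hcr : ∀ F : ℤ × ℤ × ℤ, F ≠ 0 → F1 F x ≠ 0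
      swap
      · left; right
        push Not at hcr
        obtain ⟨F, hF0, hF1⟩ := hcr
        exact Set.mem_iUnion.mpr ⟨⟨F, hF0⟩, hF1⟩
      by_cases hK : {q : ℤ × ℤ | q.1 ≠ 0 ∧
              |(q.1:ℝ) * x - q.2| < |(q.1:ℝ)|^(-(2*τ-1))}.Infinite
      · right; left; exact hK
      right; right
      have hx0 : 0 < |x| := abs_pos.mpr (hirr.ne_zero)
      obtain ⟨N, hN⟩ := exists_nat_ge (max 1 (max |x| (1 / |x|)))
      have hN1 : (1:ℝ) ≤ N := le_trans (le_max_left _ _) hN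
      have hN2 : |x| ≤ N := le_trans (le_trans (le_max_left _ _) (le_max_right _ _)) hN
      have hN3 : 1 / |x| ≤ N := le_trans (le_trans (le_max_right _ _) (le_max_right _ _)) hN
      have hN4 : 1 / (N:ℝ) ≤ |x| := by
        rw [div_le_iff₀ (by linarith)]
        rw [div_le_iff₀ hx0] at hN3
        linarith
      refine Set.mem_iUnion.mpr ⟨N, ?_, ?_⟩
      · exact_mod_cast hN1
      · exact pointwise (N:ℝ) hN1 τ hτ (h0 N) x hirr hN4 hN2 hcr hK hx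
    refine (dimH_mono hsub).trans ?_
    have hc : ((Set.range (fun q : ℚ => (q:ℝ))) ∪ (⋃ F : {F : ℤ × ℤ × ℤ // F ≠ 0}, {x : ℝ | F1 F.1 x = 0})).Countable := by
      refine (Set.countable_range _).union ?_
      exact Set.countable_iUnion fun F => (h338_fin F.1 F.2).countable
    rw [dimH_union, hc.dimH_zero, dimH_union]
    refine max_le (zero_le) (max_le ?_ ?_)
    · exact (dimH_K1 τ hτ1).trans (ENNReal.ofReal_le_ofReal hs.le)
    · rw [dimH_iUnion]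
      refine iSup_le fun N => ?_
      by_cases hN : 1 ≤ N
      · exact (dimH_mono (fun x hx => hx.2)).trans (hh0 N hN)
      · have : {x : ℝ | 1 ≤ N ∧ {i : ((ℤ × ℤ × ℤ) × ℤ) × (Bool × Bool × Bool) |
              h0 N ≤ hF i.1.1 ∧ x ∈ TT (N:ℝ) τ i.1.1 i.1.2 i.2}.Infinite} = ∅ := by
          ext x
          simp only [Set.mem_setOf_eq, Set.mem_empty_iff_false, iff_false, not_and]
          intro h
          exact absurd h hN
        rw [this, dimH_empty]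
        exact zero_le
  by_contra hcon
  rw [not_le] at hcon
  have h1 : ENNReal.ofReal (1 / τ) < min 1 (dimH {x : ℝ | {P : (ℤ × ℤ × ℤ) × ℤ |
      (PiF P.1)^(2*τ-1) * |Fv P.1 x + P.2| < 1}.Infinite}) := by
    refine lt_min ?_ hcon
    rw [← ENNReal.ofReal_one]
    exact (ENNReal.ofReal_lt_ofReal_iff one_pos).mpr hlt1
  obtain ⟨s, hs0, hs1, hs2⟩ := ENNReal.lt_iff_exists_real_btwn.mp h1
  have hs3 : 1 / τ < s := by
    by_contra h
    exact absurd hs1 (not_lt.mpr (ENNReal.ofReal_le_ofReal (not_lt.mp h)))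
  have hs4 : s ≤ 1 := by
    have := hs2.trans_le (min_le_left _ _)
    by_contra h
    have h' : ENNReal.ofReal 1 ≤ ENNReal.ofReal s := ENNReal.ofReal_le_ofReal (not_le.mp h).le
    rw [ENNReal.ofReal_one] at h'
    exact absurd this (not_lt.mpr h')
  exact absurd (main s hs3 hs4) (not_le.mpr (hs2.trans_le (min_le_right _ _)))

end YU432
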