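import Pool.Agent.Helper432.YU.Cnt

open MeasureTheory Set
open scoped ENNReal

namespace YU432

theorem aux_tri (a b c x M : ℝ) (hM : 1 ≤ M) (h1 : 1 / M ≤ |x|) (h2 : |x| ≤ M)
    (h3 : |3 * a * x ^ 2 + 2 * b * x + c| ≤ 1) :
    3 * |a| ≤ M ^ 2 * (1 + |c|) + 2 * M * |b| ∧ 2 * |b| ≤ M * (1 + |c|) + 3 * M * |a| ∧
      |c| ≤ 1 + 3 * M ^ 2 * |a| + 2 * M * |b| := by
  have hMpos : 0 < M := by linarith
  obtain ⟨X, hX⟩ : ∃ X, X = |x| := ⟨_, rfl⟩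
  rw [← hX] at h1 h2
  have hXpos : 0 < X := lt_of_lt_of_le (by positivity) h1
  have hMX : 1 ≤ M * X := by
    rw [div_le_iff₀ hMpos] at h1
    linarith
  have e1 : |3 * a * x ^ 2| = 3 * |a| * X ^ 2 := by
    rw [abs_mul, abs_mul, abs_pow, ← hX, abs_of_pos (by norm_num : (0:ℝ) < 3)]
  have e2 : |2 * b * x| = 2 * |b| * X := by
    rw [abs_mul, abs_mul, ← hX, abs_of_pos (by norm_num : (0:ℝ) < 2)]
  have hα := abs_nonneg a
  have hβ := abs_nonneg b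
  have hγ := abs_nonneg c
  have t3 : |c| ≤ 1 + 3 * |a| * X ^ 2 + 2 * |b| * X := by
    have : c = (3 * a * x ^ 2 + 2 * b * x + c) - 3 * a * x ^ 2 - 2 * b * x := by ring
    calc |c| = |(3 * a * x ^ 2 + 2 * b * x + c) - 3 * a * x ^ 2 - 2 * b * x| := by rw [← this]
      _ ≤ |(3 * a * x ^ 2 + 2 * b * x + c) - 3 * a * x ^ 2| + |2 * b * x| := abs_sub _ _
      _ ≤ |3 * a * x ^ 2 + 2 * b * x + c| + |3 * a * x ^ 2| + |2 * b * x| := by
          gcongr; exact abs_sub _ _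
      _ ≤ _ := by rw [e1, e2]; linarith
  have t2 : 2 * |b| * X ≤ 1 + 3 * |a| * X ^ 2 + |c| := by
    have : 2 * b * x = (3 * a * x ^ 2 + 2 * b * x + c) - 3 * a * x ^ 2 - c := by ring
    calc 2 * |b| * X = |2 * b * x| := e2.symm
      _ = |(3 * a * x ^ 2 + 2 * b * x + c) - 3 * a * x ^ 2 - c| := by rw [← this]
      _ ≤ |(3 * a * x ^ 2 + 2 * b * x + c) - 3 * a * x ^ 2| + |c| := abs_sub _ _
      _ ≤ |3 * a * x ^ 2 + 2 * b * x + c| + |3 * a * x ^ 2| + |c| := by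
          gcongr; exact abs_sub _ _
      _ ≤ _ := by rw [e1]; linarith
  have t1 : 3 * |a| * X ^ 2 ≤ 1 + 2 * |b| * X + |c| := by
    have : 3 * a * x ^ 2 = (3 * a * x ^ 2 + 2 * b * x + c) - 2 * b * x - c := by ring
    calc 3 * |a| * X ^ 2 = |3 * a * x ^ 2| := e1.symm
      _ = |(3 * a * x ^ 2 + 2 * b * x + c) - 2 * b * x - c| := by rw [← this]
      _ ≤ |(3 * a * x ^ 2 + 2 * b * x + c) - 2 * b * x| + |c| := abs_sub _ _
      _ ≤ |3 * a * x ^ 2 + 2 * b * x + c| + |2 * b * x| + |c| := by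
          gcongr; exact abs_sub _ _
      _ ≤ _ := by rw [e2]; linarith
  refine ⟨?_, ?_, ?_⟩
  · have hMX2 : 1 ≤ (M * X) ^ 2 := one_le_pow₀ hMX
    have g1 : 1 + |c| ≤ (1 + |c|) * (M * X) ^ 2 := le_mul_of_one_le_right (by linarith) hMX2
    have g2 : 2 * |b| * X ≤ 2 * |b| * X * (M * X) := le_mul_of_one_le_right (by positivity) hMX
    have : 3 * |a| * X ^ 2 ≤ (M ^ 2 * (1 + |c|) + 2 * M * |b|) * X ^ 2 := by
      calc 3 * |a| * X ^ 2 ≤ 1 + 2 * |b| * X + |c| := t1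
        _ ≤ (1 + |c|) * (M * X) ^ 2 + 2 * |b| * X * (M * X) := by linarith
        _ = _ := by ring
    exact le_of_mul_le_mul_right this (by positivity)
  · have g1 : 1 + |c| ≤ (1 + |c|) * (M * X) := le_mul_of_one_le_right (by linarith) hMX
    have g2 : 3 * |a| * X ^ 2 ≤ 3 * |a| * (M * X) := by
      have : X ^ 2 ≤ M * X := by nlinarith
      gcongr
    have : 2 * |b| * X ≤ (M * (1 + |c|) + 3 * M * |a|) * X := by
      calc 2 * |b| * X ≤ 1 + 3 * |a| * X ^ 2 + |c| := t2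
        _ ≤ (1 + |c|) * (M * X) + 3 * |a| * (M * X) := by linarith
        _ = _ := by ring
    exact le_of_mul_le_mul_right this hXpos
  · have g1 : 3 * |a| * X ^ 2 ≤ 3 * |a| * M ^ 2 := by gcongr
    have g2 : 2 * |b| * X ≤ 2 * |b| * M := by gcongr
    linarith

theorem aux_prod (κ h p q r : ℝ) (hκ : 0 ≤ κ) (hh : 0 ≤ h) (hr : 0 ≤ r) (hp : h ≤ p)
    (hq : κ * h ≤ q) : κ * h ^ 2 * r ≤ p * q * r := by
  have h1 : h * (κ * h) ≤ p * q := mul_le_mul hp hq (by positivity) (by linarith)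
  have h2 : κ * h ^ 2 = h * (κ * h) := by ring
  rw [h2]
  exact mul_le_mul_of_nonneg_right h1 hr

theorem double_B (M : ℝ) (hM : 1 ≤ M) : ∃ κ h1 : ℝ, 0 < κ ∧ 1 ≤ h1 ∧
    ∀ (F : ℤ × ℤ × ℤ) (x : ℝ), 1/M ≤ |x| → |x| ≤ M → h1 ≤ hF F → |F1 F x| ≤ 1 →
      ∃ j : Fin 3, κ * (hF F)^2 * max 1 |(cf F j : ℝ)| ≤ PiF F := by
  have hMpos : 0 < M := by linarith
  obtain ⟨m, hm⟩ : ∃ m : ℝ, m = 1 / M := ⟨_, rfl⟩
  have hmM : M * m = 1 := by rw [hm]; field_simp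
  have hmpos : 0 < m := by rw [hm]; positivity
  have hm1 : m ≤ 1 := by rw [hm, div_le_one hMpos]; exact hM
  have hM2 : M ≤ M ^ 2 := by nlinarith
  refine ⟨m ^ 3 / 100, 4 * M ^ 2, by positivity, by nlinarith, ?_⟩
  rintro ⟨a, b, c⟩ x hx1 hx2 hh hF1
  obtain ⟨h, hh'⟩ : ∃ h, h = hF (a, b, c) := ⟨_, rfl⟩
  rw [← hh'] at hh ⊢
  have hhpos : 0 < h := by nlinarith
  obtain ⟨tA, tB, tC⟩ := aux_tri (a : ℝ) b c x M hM hx1 hx2 hF1
  have hαh : |(a : ℝ)| ≤ h := by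
    rw [hh']; exact le_trans (le_max_left _ _) (le_max_left _ _)
  have hβh : |(b : ℝ)| ≤ h := by
    rw [hh']; exact le_trans (le_max_right _ _) (le_max_left _ _)
  have hγh : |(c : ℝ)| ≤ h := by
    rw [hh']; exact le_max_right _ _
  have hor : h = |(a : ℝ)| ∨ h = |(b : ℝ)| ∨ h = |(c : ℝ)| := by
    rw [hh']
    change max (max |(a : ℝ)| |(b : ℝ)|) |(c : ℝ)| = _ ∨ max (max |(a : ℝ)| |(b : ℝ)|) |(c : ℝ)| = _ ∨
      max (max |(a : ℝ)| |(b : ℝ)|) |(c : ℝ)| = _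
    rcases max_choice (max |(a : ℝ)| |(b : ℝ)|) |(c : ℝ)| with h1 | h1
    · rcases max_choice |(a : ℝ)| |(b : ℝ)| with h2 | h2
      · left; rw [h1, h2]
      · right; left; rw [h1, h2]
    · right; right; exact h1
  obtain ⟨α, hα⟩ : ∃ α, α = |(a : ℝ)| := ⟨_, rfl⟩
  obtain ⟨β, hβ⟩ : ∃ β, β = |(b : ℝ)| := ⟨_, rfl⟩
  obtain ⟨γ, hγ⟩ : ∃ γ, γ = |(c : ℝ)| := ⟨_, rfl⟩
  have hα0 : 0 ≤ α := by rw [hα]; exact abs_nonneg _
  have hβ0 : 0 ≤ β := by rw [hβ]; exact abs_nonneg _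
  have hγ0 : 0 ≤ γ := by rw [hγ]; exact abs_nonneg _
  have hPi : PiF (a, b, c) = max 1 α * max 1 β * max 1 γ := by rw [hα, hβ, hγ]; rfl
  rw [← hα, ← hβ, ← hγ] at tA tB tC hor
  rw [← hα] at hαh
  rw [← hβ] at hβh
  rw [← hγ] at hγh
  rw [hPi]
  have hκ0 : 0 ≤ m ^ 3 / 100 := by positivity
  have k1 : M ^ 2 * (m ^ 3 / 100 * h) ≤ h / 100 := by
    have : M ^ 2 * (m ^ 3 / 100 * h) = (M * m) ^ 2 * m * h / 100 := by ring
    rw [this, hmM]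
    nlinarith
  have k2 : M * (m ^ 3 / 100 * h) ≤ h / 100 := by
    have : M * (m ^ 3 / 100 * h) = (M * m) * m ^ 2 * h / 100 := by ring
    rw [this, hmM]
    have : m ^ 2 ≤ 1 := pow_le_one₀ hmpos.le hm1
    nlinarith
  have hκpos : 0 ≤ m ^ 3 / 100 * h := by positivity
  rcases hor with h5 | h5 | h5
  · -- α = h
    by_cases hb : m ^ 3 / 100 * h ≤ β
    · refine ⟨2, ?_⟩
      have : (cf (a, b, c) 2 : ℝ) = c := by simp [cf]
      rw [this, ← hγ]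
      exact aux_prod _ h _ _ _ hκ0 hhpos.le (by positivity) (h5.le.trans (le_max_right _ _))
        (hb.trans (le_max_right _ _))
    · by_cases hc : m ^ 3 / 100 * h ≤ γ
      · refine ⟨1, ?_⟩
        have : (cf (a, b, c) 1 : ℝ) = b := by simp [cf]
        rw [this, ← hβ, mul_right_comm (max 1 α)]
        exact aux_prod _ h _ _ _ hκ0 hhpos.le (by positivity) (h5.le.trans (le_max_right _ _))
          (hc.trans (le_max_right _ _))
      · exfalso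
        push Not at hb hc
        have g1 : M ^ 2 * γ ≤ M ^ 2 * (m ^ 3 / 100 * h) := by gcongr
        have g2 : M * β ≤ M * (m ^ 3 / 100 * h) := by gcongr
        nlinarith
  · -- β = h
    by_cases ha : m ^ 3 / 100 * h ≤ α
    · refine ⟨2, ?_⟩
      have : (cf (a, b, c) 2 : ℝ) = c := by simp [cf]
      rw [this, ← hγ, mul_comm (max 1 α)]
      exact aux_prod _ h _ _ _ hκ0 hhpos.le (by positivity) (h5.le.trans (le_max_right _ _))
        (ha.trans (le_max_right _ _))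
    · by_cases hc : m ^ 3 / 100 * h ≤ γ
      · refine ⟨0, ?_⟩
        have : (cf (a, b, c) 0 : ℝ) = a := by simp [cf]
        rw [this, ← hα, show max 1 α * max 1 β * max 1 γ = max 1 β * max 1 γ * max 1 α by ring]
        exact aux_prod _ h _ _ _ hκ0 hhpos.le (by positivity) (h5.le.trans (le_max_right _ _))
          (hc.trans (le_max_right _ _))
      · exfalso
        push Not at ha hc
        have g1 : M * γ ≤ M * (m ^ 3 / 100 * h) := by gcongr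
        have g2 : M * α ≤ M * (m ^ 3 / 100 * h) := by gcongr
        nlinarith
  · -- γ = h
    by_cases ha : m ^ 3 / 100 * h ≤ α
    · refine ⟨1, ?_⟩
      have : (cf (a, b, c) 1 : ℝ) = b := by simp [cf]
      rw [this, ← hβ, show max 1 α * max 1 β * max 1 γ = max 1 γ * max 1 α * max 1 β by ring]
      exact aux_prod _ h _ _ _ hκ0 hhpos.le (by positivity) (h5.le.trans (le_max_right _ _))
        (ha.trans (le_max_right _ _))
    · by_cases hb : m ^ 3 / 100 * h ≤ β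
      · refine ⟨0, ?_⟩
        have : (cf (a, b, c) 0 : ℝ) = a := by simp [cf]
        rw [this, ← hα, show max 1 α * max 1 β * max 1 γ = max 1 γ * max 1 β * max 1 α by ring]
        exact aux_prod _ h _ _ _ hκ0 hhpos.le (by positivity) (h5.le.trans (le_max_right _ _))
          (hb.trans (le_max_right _ _))
      · exfalso
        push Not at ha hb
        have g1 : M ^ 2 * α ≤ M ^ 2 * (m ^ 3 / 100 * h) := by gcongr
        have g2 : M * β ≤ M * (m ^ 3 / 100 * h) := by gcongr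
        nlinarith

theorem triple_B (M : ℝ) (hM : 1 ≤ M) : ∃ c1 κ h1 : ℝ, 0 < c1 ∧ 0 < κ ∧ 1 ≤ h1 ∧
    ∀ (F : ℤ × ℤ × ℤ) (x : ℝ), 1/M ≤ |x| → |x| ≤ M → h1 ≤ hF F → |F1 F x| ≤ 1 →
      |F2 F x| ≤ c1 * hF F → κ * (hF F)^3 ≤ PiF F := by
  have hMpos : 0 < M := by linarith
  obtain ⟨m, hm⟩ : ∃ m : ℝ, m = 1 / M := ⟨_, rfl⟩
  have hmM : M * m = 1 := by rw [hm]; field_simp
  have hmpos : 0 < m := by rw [hm]; positivity
  have hm1 : m ≤ 1 := by rw [hm, div_le_one hMpos]; exact hM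
  have hM4 : 1 ≤ M ^ 4 := one_le_pow₀ hM
  refine ⟨m ^ 5 / 100, (m ^ 4 / 4) ^ 3, 100 * M ^ 4, by positivity, by positivity, by linarith, ?_⟩
  rintro ⟨a, b, c⟩ x hx1 hx2 hh hF1 hF2
  obtain ⟨h, hh'⟩ : ∃ h, h = hF (a, b, c) := ⟨_, rfl⟩
  rw [← hh'] at hh hF2 ⊢
  have hhpos : 0 < h := by linarith
  obtain ⟨X, hX⟩ : ∃ X, X = |x| := ⟨_, rfl⟩
  rw [← hX] at hx2
  rw [← hX, ← hm] at hx1
  have hXpos : 0 < X := by linarith
  have hF2' : |6 * (a : ℝ) * x + 2 * b| ≤ m ^ 5 / 100 * h := hF2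
  have hF1' : |3 * (a : ℝ) * x ^ 2 + 2 * b * x + c| ≤ 1 := hF1
  have hone : 1 ≤ m ^ 4 / 100 * h := by
    have h1 : m ^ 4 / 100 * (100 * M ^ 4) ≤ m ^ 4 / 100 * h := by gcongr
    have h2 : m ^ 4 / 100 * (100 * M ^ 4) = (M * m) ^ 4 := by ring
    rw [h2, hmM] at h1
    linarith
  have hxF2 : |x * (6 * (a : ℝ) * x + 2 * b)| ≤ m ^ 4 / 100 * h := by
    rw [abs_mul, ← hX]
    calc X * |6 * (a : ℝ) * x + 2 * b| ≤ M * (m ^ 5 / 100 * h) := by gcongr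
      _ = (M * m) * (m ^ 4 / 100 * h) := by ring
      _ = m ^ 4 / 100 * h := by rw [hmM, one_mul]
  have e1 : |3 * (a : ℝ) * x ^ 2| = 3 * |(a : ℝ)| * X ^ 2 := by
    rw [abs_mul, abs_mul, abs_pow, ← hX, abs_of_pos (by norm_num : (0:ℝ) < 3)]
  have e6 : |6 * (a : ℝ) * x| = 6 * |(a : ℝ)| * X := by
    rw [abs_mul, abs_mul, ← hX, abs_of_pos (by norm_num : (0:ℝ) < 6)]
  have e2 : |2 * (b : ℝ)| = 2 * |(b : ℝ)| := by
    rw [abs_mul, abs_of_pos (by norm_num : (0:ℝ) < 2)]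
  -- c = 3 a x^2 + (F1 - x F2)
  have hc1 : |(c : ℝ)| ≤ 3 * |(a : ℝ)| * X ^ 2 + 1 + m ^ 4 / 100 * h := by
    have : (c : ℝ) = (3 * (a : ℝ) * x ^ 2 + (3 * (a : ℝ) * x ^ 2 + 2 * b * x + c))
        - x * (6 * (a : ℝ) * x + 2 * b) := by ring
    calc |(c : ℝ)| = |(3 * (a : ℝ) * x ^ 2 + (3 * (a : ℝ) * x ^ 2 + 2 * b * x + c))
        - x * (6 * (a : ℝ) * x + 2 * b)| := by rw [← this]
      _ ≤ |3 * (a : ℝ) * x ^ 2 + (3 * (a : ℝ) * x ^ 2 + 2 * b * x + c)| +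
          |x * (6 * (a : ℝ) * x + 2 * b)| := abs_sub _ _
      _ ≤ |3 * (a : ℝ) * x ^ 2| + |3 * (a : ℝ) * x ^ 2 + 2 * b * x + c| +
          |x * (6 * (a : ℝ) * x + 2 * b)| := by gcongr; exact abs_add_le _ _
      _ ≤ _ := by rw [e1]; linarith
  have hc2 : 3 * |(a : ℝ)| * X ^ 2 ≤ |(c : ℝ)| + 1 + m ^ 4 / 100 * h := by
    have : 3 * (a : ℝ) * x ^ 2 = ((c : ℝ) - (3 * (a : ℝ) * x ^ 2 + 2 * b * x + c))
        + x * (6 * (a : ℝ) * x + 2 * b) := by ring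
    calc 3 * |(a : ℝ)| * X ^ 2 = |3 * (a : ℝ) * x ^ 2| := e1.symm
      _ = |((c : ℝ) - (3 * (a : ℝ) * x ^ 2 + 2 * b * x + c))
        + x * (6 * (a : ℝ) * x + 2 * b)| := by rw [← this]
      _ ≤ |(c : ℝ) - (3 * (a : ℝ) * x ^ 2 + 2 * b * x + c)| +
          |x * (6 * (a : ℝ) * x + 2 * b)| := abs_add_le _ _
      _ ≤ |(c : ℝ)| + |3 * (a : ℝ) * x ^ 2 + 2 * b * x + c| +
          |x * (6 * (a : ℝ) * x + 2 * b)| := by gcongr; exact abs_sub _ _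
      _ ≤ _ := by linarith
  have hb1 : 2 * |(b : ℝ)| ≤ 6 * |(a : ℝ)| * X + m ^ 5 / 100 * h := by
    have : 2 * (b : ℝ) = (6 * (a : ℝ) * x + 2 * b) - 6 * (a : ℝ) * x := by ring
    calc 2 * |(b : ℝ)| = |2 * (b : ℝ)| := e2.symm
      _ = |(6 * (a : ℝ) * x + 2 * b) - 6 * (a : ℝ) * x| := by rw [← this]
      _ ≤ |6 * (a : ℝ) * x + 2 * b| + |6 * (a : ℝ) * x| := abs_sub _ _
      _ ≤ _ := by rw [e6]; linarith
  have hb2 : 6 * |(a : ℝ)| * X ≤ 2 * |(b : ℝ)| + m ^ 5 / 100 * h := by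
    have : 6 * (a : ℝ) * x = (6 * (a : ℝ) * x + 2 * b) - 2 * (b : ℝ) := by ring
    calc 6 * |(a : ℝ)| * X = |6 * (a : ℝ) * x| := e6.symm
      _ = |(6 * (a : ℝ) * x + 2 * b) - 2 * (b : ℝ)| := by rw [← this]
      _ ≤ |6 * (a : ℝ) * x + 2 * b| + |2 * (b : ℝ)| := abs_sub _ _
      _ ≤ _ := by rw [e2]; linarith
  obtain ⟨α, hα⟩ : ∃ α, α = |(a : ℝ)| := ⟨_, rfl⟩
  obtain ⟨β, hβ⟩ : ∃ β, β = |(b : ℝ)| := ⟨_, rfl⟩
  obtain ⟨γ, hγ⟩ : ∃ γ, γ = |(c : ℝ)| := ⟨_, rfl⟩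
  have hα0 : 0 ≤ α := by rw [hα]; exact abs_nonneg _
  have hβ0 : 0 ≤ β := by rw [hβ]; exact abs_nonneg _
  have hγ0 : 0 ≤ γ := by rw [hγ]; exact abs_nonneg _
  have hPi : PiF (a, b, c) = max 1 α * max 1 β * max 1 γ := by rw [hα, hβ, hγ]; rfl
  have hhmax : h = max (max α β) γ := by rw [hα, hβ, hγ, hh']; rfl
  rw [← hα, ← hγ] at hc1 hc2
  rw [← hα, ← hβ] at hb1 hb2
  rw [hPi]
  have hm4 : m ^ 4 ≤ 1 := pow_le_one₀ hmpos.le hm1
  have hm5 : m ^ 5 ≤ 1 := pow_le_one₀ hmpos.le hm1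
  have hm54 : m ^ 5 ≤ m ^ 4 := pow_le_pow_of_le_one hmpos.le hm1 (by norm_num)
  have hm53 : m ^ 5 ≤ m ^ 3 := pow_le_pow_of_le_one hmpos.le hm1 (by norm_num)
  have hm43 : m ^ 4 ≤ m ^ 3 := pow_le_pow_of_le_one hmpos.le hm1 (by norm_num)
  have hm42 : m ^ 4 ≤ m ^ 2 := pow_le_pow_of_le_one hmpos.le hm1 (by norm_num)
  have q4 : m ^ 4 / 100 * h ≤ h / 100 := by
    have : m ^ 4 * h ≤ 1 * h := mul_le_mul_of_nonneg_right hm4 hhpos.le
    linarith only [this]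
  have q5 : m ^ 5 / 100 * h ≤ h / 100 := by
    have : m ^ 5 * h ≤ 1 * h := mul_le_mul_of_nonneg_right hm5 hhpos.le
    linarith only [this]
  have hXM2 : X ^ 2 ≤ M ^ 2 := pow_le_pow_left₀ hXpos.le hx2 2
  have hM2 : M ≤ M ^ 2 := by nlinarith only [hM]
  have hM21 : 1 ≤ M ^ 2 := one_le_pow₀ hM
  have hαM : 0.98 * h ≤ 3 * α * M ^ 2 := by
    have b1 : α ≤ 3 * α * M ^ 2 := by
      have : α * 1 ≤ α * M ^ 2 := mul_le_mul_of_nonneg_left hM21 hα0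
      linarith only [this, hα0]
    have b2 : β ≤ 3 * α * M ^ 2 + h / 100 := by
      have : 3 * α * X ≤ 3 * α * M ^ 2 := by
        have : X ≤ M ^ 2 := hx2.trans hM2
        gcongr
      linarith
    have b3 : γ ≤ 3 * α * M ^ 2 + 0.02 * h := by
      have : 3 * α * X ^ 2 ≤ 3 * α * M ^ 2 := by gcongr
      linarith
    have b4 : h ≤ 3 * α * M ^ 2 + 0.02 * h := by
      nth_rewrite 1 [hhmax]
      apply max_le (max_le _ _) b3
      · linarith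
      · linarith
    linarith
  have hα3 : 0.98 * (m ^ 2 * h) ≤ 3 * α := by
    have h1 : m ^ 2 * (0.98 * h) ≤ m ^ 2 * (3 * α * M ^ 2) := by gcongr
    have h2 : m ^ 2 * (3 * α * M ^ 2) = (M * m) ^ 2 * (3 * α) := by ring
    rw [h2, hmM] at h1
    linarith
  have l1 : m ^ 4 / 4 * h ≤ α := by
    have : m ^ 4 * h ≤ m ^ 2 * h := by gcongr
    linarith
  have l2 : m ^ 4 / 4 * h ≤ β := by
    have h1 : 3 * α * m ≤ 3 * α * X := by gcongr
    have h2 : 0.98 * (m ^ 2 * h) * m ≤ 3 * α * m := by gcongr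
    have h3 : 0.98 * (m ^ 2 * h) * m = 0.98 * (m ^ 3 * h) := by ring
    have h4 : m ^ 5 * h ≤ m ^ 3 * h := by gcongr
    have h5 : m ^ 4 * h ≤ m ^ 3 * h := by gcongr
    have h6 : 0 ≤ m ^ 3 * h := by positivity
    linarith
  have l3 : m ^ 4 / 4 * h ≤ γ := by
    have h1 : 3 * α * m ^ 2 ≤ 3 * α * X ^ 2 := by gcongr
    have h2 : 0.98 * (m ^ 2 * h) * m ^ 2 ≤ 3 * α * m ^ 2 := by gcongr
    have h3 : 0.98 * (m ^ 2 * h) * m ^ 2 = 0.98 * (m ^ 4 * h) := by ring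
    have h6 : 0 ≤ m ^ 4 * h := by positivity
    linarith
  calc (m ^ 4 / 4) ^ 3 * h ^ 3 = (m ^ 4 / 4 * h) * (m ^ 4 / 4 * h) * (m ^ 4 / 4 * h) := by ring
    _ ≤ max 1 α * max 1 β * max 1 γ := by
      have i1 : m ^ 4 / 4 * h ≤ max 1 α := l1.trans (le_max_right _ _)
      have i2 : m ^ 4 / 4 * h ≤ max 1 β := l2.trans (le_max_right _ _)
      have i3 : m ^ 4 / 4 * h ≤ max 1 γ := l3.trans (le_max_right _ _)
      gcongr

theorem sum_aux_ind {α : Type*} (W : Set α) (K : ℝ) (b : ℝ≥0∞)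
    (h : ∀ X : Finset α, (∀ P ∈ X, P ∈ W) → (X.card : ℝ) ≤ K) :
    ∑' P, W.indicator (fun _ => b) P ≤ ENNReal.ofReal K * b := by
  classical
  rw [ENNReal.tsum_eq_iSup_sum]
  apply iSup_le
  intro X
  have h1 : ∑ P ∈ X, W.indicator (fun _ => b) P = ((X.filter (· ∈ W)).card : ℝ≥0∞) * b := by
    simp only [Set.indicator_apply]
    rw [← Finset.sum_filter, Finset.sum_const, nsmul_eq_mul]
  rw [h1]
  apply mul_le_mul_left
  rw [← ENNReal.ofReal_natCast]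
  apply ENNReal.ofReal_le_ofReal
  apply h
  intro P hP
  exact (Finset.mem_filter.mp hP).2

theorem sum_aux_main {α ι : Type*} (W : ι → Set α) (K : ι → ℝ) (b : ι → ℝ≥0∞)
    (h : ∀ i, ∀ X : Finset α, (∀ P ∈ X, P ∈ W i) → (X.card : ℝ) ≤ K i)
    (f : α → ℝ≥0∞) (hf : ∀ P, f P ≤ ∑' i, (W i).indicator (fun _ => b i) P) :
    ∑' P, f P ≤ ∑' i, ENNReal.ofReal (K i) * b i := by
  calc ∑' P, f P ≤ ∑' P, ∑' i, (W i).indicator (fun _ => b i) P := ENNReal.tsum_le_tsum hf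
    _ = ∑' i, ∑' P, (W i).indicator (fun _ => b i) P := ENNReal.tsum_comm
    _ ≤ _ := ENNReal.tsum_le_tsum fun i => sum_aux_ind (W i) (K i) (b i) (h i)

theorem sum_aux_int (x : ℝ) (hx : 1 < x) :
    Summable fun t : ℤ => (max 1 |(t : ℝ)|) ^ (-x) := by
  have h1 := Real.summable_abs_int_rpow hx
  have h2 : Summable fun t : ℤ => if t = 0 then (1 : ℝ) else 0 :=
    (hasSum_ite_eq 0 (1 : ℝ)).summable
  refine (h1.add h2).congr ?_
  intro t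
  by_cases ht : t = 0
  · subst ht
    simp only [Int.cast_zero, abs_zero, if_true]
    rw [Real.zero_rpow (by linarith)]
    simp
  · have h3 : (1 : ℝ) ≤ |(t : ℝ)| := by exact_mod_cast Int.one_le_abs ht
    rw [if_neg ht, max_eq_right h3, add_zero]

theorem sumM (C κ τ s : ℝ) (hC : 0 < C) (hκ : 0 < κ) (hτ : 1 < τ) (hs : 1/τ < s) (hs1 : s < 1)
    (W : Fin 3 → ℤ → ℕ → ℕ → Set ((ℤ × ℤ × ℤ) × ℤ))
    (hW : ∀ j t n m, ∀ X : Finset ((ℤ × ℤ × ℤ) × ℤ), (∀ P ∈ X, P ∈ W j t n m) →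
      (X.card : ℝ) ≤ C * 4^n * (1/2:ℝ)^m)
    (f : ((ℤ × ℤ × ℤ) × ℤ) → ℕ → ℝ≥0∞)
    (hf : ∀ P m, f P m ≠ 0 → ∃ j n, P ∈ W j (cf P.1 j) n m ∧ f P m ≤ ENNReal.ofReal
      ((C * 2^m * (κ * 4^n * max 1 |(cf P.1 j : ℝ)|)^(-(2*τ-1)))^s)) :
    ∑' P, ∑' m, f P m ≠ ∞ := by
  have hτ0 : 0 < τ := by linarith
  have hτs : 1 < τ * s := by rw [div_lt_iff₀ hτ0] at hs; linarith
  have hs0 : 0 < s := by
    have : 0 < 1 / τ := by positivity
    linarith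
  set e : ℝ := 2 * τ - 1 with he
  have hes : 1 < e * s := by rw [he]; nlinarith
  let B : ℕ × (Fin 3 × (ℤ × ℕ)) → ℝ := fun q =>
    (C * 2 ^ q.1 * (κ * 4 ^ q.2.2.2 * max 1 |(q.2.2.1 : ℝ)|) ^ (-e)) ^ s
  have hmain := sum_aux_main (α := (ℤ × ℤ × ℤ) × ℤ) (ι := ℕ × (Fin 3 × (ℤ × ℕ)))
    (fun q => W q.2.1 q.2.2.1 q.2.2.2 q.1) (fun q => C * 4 ^ q.2.2.2 * (1 / 2 : ℝ) ^ q.1)
    (fun q => ENNReal.ofReal (B q)) (fun q X hX => hW _ _ _ _ X hX)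
    (fun P => ∑' m, f P m) (by
      intro P
      rw [ENNReal.tsum_prod']
      apply ENNReal.tsum_le_tsum
      intro m
      by_cases h0 : f P m = 0
      · rw [h0]; exact zero_le
      · obtain ⟨j, n, h1, h2⟩ := hf P m h0
        refine le_trans ?_ (ENNReal.le_tsum (j, (cf P.1 j, n)))
        rw [Set.indicator_of_mem (show P ∈ W j (cf P.1 j) n m from h1)]
        exact h2)
  refine ne_top_of_le_ne_top ?_ hmain
  set a : ℝ := 4 * 4 ^ (-(e * s)) with ha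
  set b : ℝ := 1 / 2 * 2 ^ s with hb
  set A : ℝ := C * C ^ s * κ ^ (-(e * s)) with hA
  have ha0 : 0 ≤ a := by positivity
  have hb0 : 0 ≤ b := by positivity
  have hA0 : 0 ≤ A := by positivity
  have ha1 : a < 1 := by
    have : (4 : ℝ) ^ (-(e * s)) < 4 ^ (-1 : ℝ) :=
      Real.rpow_lt_rpow_of_exponent_lt (by norm_num) (by linarith)
    rw [Real.rpow_neg_one] at this
    rw [ha]
    linarith
  have hb1 : b < 1 := by
    have : (2 : ℝ) ^ s < 2 ^ (1 : ℝ) := Real.rpow_lt_rpow_of_exponent_lt (by norm_num) hs1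
    rw [Real.rpow_one] at this
    rw [hb]
    linarith
  have hterm : ∀ q : ℕ × (Fin 3 × (ℤ × ℕ)),
      ENNReal.ofReal (C * 4 ^ q.2.2.2 * (1 / 2 : ℝ) ^ q.1) * ENNReal.ofReal (B q) =
        ENNReal.ofReal (b ^ q.1) * (ENNReal.ofReal A *
          (ENNReal.ofReal ((max 1 |(q.2.2.1 : ℝ)|) ^ (-(e * s))) *
            ENNReal.ofReal (a ^ q.2.2.2))) := by
    rintro ⟨m, j, t, n⟩
    simp only [B]
    set M : ℝ := max 1 |(t : ℝ)| with hM
    have hM0 : 0 < M := lt_of_lt_of_le one_pos (le_max_left _ _)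
    rw [← ENNReal.ofReal_mul (by positivity), ← ENNReal.ofReal_mul (by positivity),
      ← ENNReal.ofReal_mul hA0, ← ENNReal.ofReal_mul (by positivity)]
    congr 1
    have e1 : (C * 2 ^ m * (κ * 4 ^ n * M) ^ (-e)) ^ s =
        C ^ s * (2 ^ s) ^ m * (κ ^ (-(e * s)) * (4 ^ (-(e * s))) ^ n * M ^ (-(e * s))) := by
      rw [Real.mul_rpow (by positivity) (by positivity),
        Real.mul_rpow (by positivity) (by positivity),
        ← Real.rpow_mul (by positivity) (-e) s, neg_mul,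
        Real.mul_rpow (by positivity) (by positivity),
        Real.mul_rpow (by positivity) (by positivity),
        Real.rpow_pow_comm (by norm_num) s m, Real.rpow_pow_comm (by norm_num) (-(e * s)) n]
    rw [e1, ha, hb, hA, mul_pow, mul_pow]
    ring
  simp only [hterm]
  rw [ENNReal.tsum_prod', ]
  simp only [ENNReal.tsum_prod', ENNReal.tsum_mul_left, ENNReal.tsum_mul_right]
  have f1 : ∑' m : ℕ, ENNReal.ofReal (b ^ m) ≠ ∞ :=
    (summable_geometric_of_lt_one hb0 hb1).tsum_ofReal_ne_top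
  have f2 : ∑' n : ℕ, ENNReal.ofReal (a ^ n) ≠ ∞ :=
    (summable_geometric_of_lt_one ha0 ha1).tsum_ofReal_ne_top
  have f3 : ∑' t : ℤ, ENNReal.ofReal ((max 1 |(t : ℝ)|) ^ (-(e * s))) ≠ ∞ :=
    (sum_aux_int _ hes).tsum_ofReal_ne_top
  apply ENNReal.mul_ne_top f1
  apply ENNReal.mul_ne_top ENNReal.ofReal_ne_top
  apply ENNReal.mul_ne_top f3
  rw [tsum_fintype, Finset.sum_const, nsmul_eq_mul]
  exact ENNReal.mul_ne_top (ENNReal.natCast_ne_top _) f2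

theorem sumV (C p : ℝ) (hC : 0 < C) (hp : 3/2 < p)
    (W : ℕ → Set ((ℤ × ℤ × ℤ) × ℤ))
    (hW : ∀ n, ∀ X : Finset ((ℤ × ℤ × ℤ) × ℤ), (∀ P ∈ X, P ∈ W n) →
      (X.card : ℝ) ≤ C * ((2:ℝ)^n)^(3/2:ℝ))
    (f : ((ℤ × ℤ × ℤ) × ℤ) → ℝ≥0∞)
    (hf : ∀ P, f P ≠ 0 → ∃ n, P ∈ W n ∧ f P ≤ ENNReal.ofReal (C * ((2:ℝ)^n)^(-p))) :
    ∑' P, f P ≠ ∞ := by
  have hmain := sum_aux_main W (fun n => C * ((2:ℝ)^n)^(3/2:ℝ))
    (fun n => ENNReal.ofReal (C * ((2:ℝ)^n)^(-p))) hW f (by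
      intro P
      by_cases h0 : f P = 0
      · rw [h0]; exact zero_le
      · obtain ⟨n, h1, h2⟩ := hf P h0
        refine le_trans ?_ (ENNReal.le_tsum n)
        rw [Set.indicator_of_mem h1]
        exact h2)
  refine ne_top_of_le_ne_top ?_ hmain
  set a : ℝ := 2 ^ (3 / 2 - p) with ha
  have ha0 : 0 ≤ a := by positivity
  have ha1 : a < 1 := by
    rw [ha]
    exact Real.rpow_lt_one_of_one_lt_of_neg (by norm_num) (by linarith)
  have hterm : ∀ n : ℕ, ENNReal.ofReal (C * ((2:ℝ)^n)^(3/2:ℝ)) *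
      ENNReal.ofReal (C * ((2:ℝ)^n)^(-p)) = ENNReal.ofReal (C * C * a ^ n) := by
    intro n
    rw [← ENNReal.ofReal_mul (by positivity)]
    congr 1
    have : ((2:ℝ)^n)^(3/2:ℝ) * ((2:ℝ)^n)^(-p) = a ^ n := by
      rw [← Real.rpow_add (by positivity), ha, Real.rpow_pow_comm (by norm_num)]
      rfl
    rw [← this]
    ring
  simp only [hterm]
  exact ((summable_geometric_of_lt_one ha0 ha1).mul_left (C * C)).tsum_ofReal_ne_top


end YU432
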