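import Pool.Agent.Helper432.YU.Ex

open MeasureTheory Set
open scoped ENNReal

namespace YU432

theorem pw_aux (A h e s X p y : ℝ) (hA : 0 ≤ A) (hh : 1 ≤ h) (hs : 0 ≤ s) (hX0 : 0 ≤ X)
    (hX : X ≤ A * h ^ e) (hp : e * s ≤ -p) (hy : 0 < y) (hyh : y ≤ h) (hp0 : 0 ≤ p) :
    X ^ s ≤ A ^ s * y ^ (-p) := by
  have h0 : 0 < h := by linarith
  calc X ^ s ≤ (A * h ^ e) ^ s := Real.rpow_le_rpow hX0 hX hs
    _ = A ^ s * h ^ (e * s) := by
        rw [Real.mul_rpow hA (Real.rpow_nonneg h0.le _), ← Real.rpow_mul h0.le]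
    _ ≤ A ^ s * h ^ (-p) := by
        apply mul_le_mul_of_nonneg_left _ (Real.rpow_nonneg hA _)
        exact Real.rpow_le_rpow_of_exponent_le hh hp
    _ ≤ A ^ s * y ^ (-p) := by
        apply mul_le_mul_of_nonneg_left _ (Real.rpow_nonneg hA _)
        exact Real.rpow_le_rpow_of_nonpos hy hyh (by linarith)

theorem large_aux (κ q B : ℝ) (hκ : 0 < κ) (hq : 1 < q) (hB : 0 < B) :
    ∃ Y : ℝ, 1 ≤ Y ∧ ∀ y, Y ≤ y → (κ * y) ^ (-q) ≤ B / y := by
  have ht : Filter.Tendsto (fun y : ℝ => κ ^ (-q) * y ^ (-(q - 1))) Filter.atTop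
      (nhds (κ ^ (-q) * 0)) :=
    (tendsto_rpow_neg_atTop (by linarith : 0 < q - 1)).const_mul _
  rw [mul_zero] at ht
  have he := (ht.eventually (gt_mem_nhds hB))
  obtain ⟨Y, hY⟩ := Filter.eventually_atTop.1 he
  refine ⟨max 1 Y, le_max_left _ _, ?_⟩
  intro y hy
  have hy1 : 1 ≤ y := le_trans (le_max_left _ _) hy
  have hyY : Y ≤ y := le_trans (le_max_right _ _) hy
  have hy0 : 0 < y := by linarith
  have h1 := hY y hyY
  have h2 : (κ * y) ^ (-q) = (κ ^ (-q) * y ^ (-(q - 1))) / y := by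
    rw [Real.mul_rpow hκ.le hy0.le]
    have : y ^ (-q) = y ^ (-(q - 1)) / y := by
      rw [div_eq_mul_inv, ← Real.rpow_neg_one y, ← Real.rpow_add hy0]
      congr 1
      ring
    rw [this]
    ring
  rw [h2]
  exact div_le_div_of_nonneg_right h1.le hy0.le

theorem PiF_pos (F : ℤ × ℤ × ℤ) : 0 < PiF F := by
  unfold PiF
  have h1 : (0:ℝ) < max 1 |(F.1:ℝ)| := lt_of_lt_of_le one_pos (le_max_left _ _)
  have h2 : (0:ℝ) < max 1 |(F.2.1:ℝ)| := lt_of_lt_of_le one_pos (le_max_left _ _)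
  have h3 : (0:ℝ) < max 1 |(F.2.2:ℝ)| := lt_of_lt_of_le one_pos (le_max_left _ _)
  positivity

theorem piece_abs (M : ℝ) (hM : 1 ≤ M) (F : ℤ × ℤ × ℤ) (σ : Bool × Bool × Bool) (x : ℝ)
    (hx : x ∈ piece M F σ) : 1 / M ≤ |x| ∧ |x| ≤ M := by
  obtain ⟨h1, h2, -, -⟩ := hx
  have hpos : 0 < 1 / M := by positivity
  have habs : |x| = sg σ.2.2 * x := by
    have h3 : |sg σ.2.2 * x| = sg σ.2.2 * x := abs_of_pos (lt_of_lt_of_le hpos h1)
    rw [abs_mul] at h3
    have h4 : |sg σ.2.2| = 1 := by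
      unfold sg
      split_ifs <;> simp
    rw [h4, one_mul] at h3
    exact h3
  rw [habs]
  exact ⟨h1, h2⟩

theorem disc_ne (P : (ℤ × ℤ × ℤ) × ℤ) (ha : P.1.1 ≠ 0) (hN : NoRoot P) :
    disc P.1.1 P.1.2.1 P.1.2.2 P.2 ≠ 0 := by
  intro h0
  obtain ⟨u, v, e, f, hu, h1, h2, h3, h4⟩ := disc_zero_factor _ _ _ _ (Or.inl ha) h0
  apply hN u v hu
  rw [h1, h2, h3, h4]
  ring

theorem exV (M : ℝ) (hM : 1 ≤ M) (τ s : ℝ) (hτ : 1 < τ) (hs : 1/τ < s) (hs1 : s < 1) :
    ∃ c0 h0 : ℝ, 0 < c0 ∧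
      dimH {x : ℝ | {i | x ∈ TV M τ c0 h0 i}.Infinite} ≤ ENNReal.ofReal s := by
  classical
  obtain ⟨CV, cV, hCV, hcV0, hcV1, hcount⟩ := countV M hM
  obtain ⟨κ, h1, hκ, hh1, hdouble⟩ := double_B M hM
  obtain ⟨c1, κ3, h1', hc1, hκ3, hh1', htriple⟩ := triple_B M hM
  obtain ⟨CD, hCD, hdisc⟩ := disc_bound M hM
  have hs0 : 0 < s := lt_trans (by positivity) hs
  have hτ0 : 0 < τ := by linarith
  have hsτ : 1 < s * τ := by rwa [div_lt_iff₀ hτ0] at hs
  set q : ℝ := 2 * τ - 1 with hq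
  have hq1 : 1 < q := by rw [hq]; linarith
  obtain ⟨Y1, hY1, hL1⟩ := large_aux κ q (cV / 4) hκ hq1 (by positivity)
  obtain ⟨Y2, hY2, hL2⟩ := large_aux κ3 q (1 / CD) hκ3 hq1 (by positivity)
  set h0 : ℝ := max (max (max 1 h1) h1') (max Y1 Y2) with hh0
  have h0_1 : 1 ≤ h0 := le_trans (le_trans (le_max_left _ _) (le_max_left _ _)) (le_max_left _ _)
  have h0_h1 : h1 ≤ h0 := le_trans (le_trans (le_max_right _ _) (le_max_left _ _)) (le_max_left _ _)
  have h0_h1' : h1' ≤ h0 := le_trans (le_max_right _ _) (le_max_left _ _)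
  have h0_Y1 : Y1 ≤ h0 := le_trans (le_max_left _ _) (le_max_right _ _)
  have h0_Y2 : Y2 ≤ h0 := le_trans (le_max_right _ _) (le_max_right _ _)
  set p : ℝ := (2 * τ - 1 / 2) * s with hp
  have hp32 : 3 / 2 < p := by
    rw [hp]
    nlinarith
  have hp0 : 0 ≤ p := by linarith
  -- constants
  set A1 : ℝ := 2 * CD * κ3 ^ (-q) with hA1
  set A2 : ℝ := 2 * Real.sqrt (κ ^ (-q) / c1) with hA2
  have hA1n : 0 ≤ A1 := by positivity
  have hA2n : 0 ≤ A2 := by positivity
  set BB : ℝ := A1 ^ s + A2 ^ s with hBB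
  have hA1s : 0 ≤ A1 ^ s := Real.rpow_nonneg hA1n _
  have hA2s : 0 ≤ A2 ^ s := Real.rpow_nonneg hA2n _
  set CW : ℝ := CV * (2:ℝ) ^ (3/2:ℝ) / Real.sqrt cV with hCW
  have hsc : 0 < Real.sqrt cV := Real.sqrt_pos.2 hcV0
  have hCW0 : 0 < CW := by positivity
  set CC : ℝ := CW + 8 * BB with hCC
  have hCC0 : 0 < CC := by
    have : 0 ≤ BB := by positivity
    linarith
  refine ⟨cV / 2, h0, by positivity, ?_⟩
  apply hc _ s hs0
  rw [ENNReal.tsum_prod']
  -- properties of a point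
  have hpt : ∀ (P : (ℤ × ℤ × ℤ) × ℤ) (σ : Bool × Bool × Bool) (x : ℝ),
      x ∈ TV M τ (cV / 2) h0 (P, σ) → (1 / M ≤ |x| ∧ |x| ≤ M) ∧ h0 ≤ hF P.1 ∧
        |F1 P.1 x| ≤ 1 ∧ (F1 P.1 x) ^ 2 ≤ cV / (2 * hF P.1) := by
    intro P σ x hx
    obtain ⟨-, hpc, -, hF1, hh⟩ := hx
    have hh' : h0 ≤ hF P.1 := hh
    have hpos : 0 < hF P.1 := by linarith
    have hF1' : hF P.1 * (F1 P.1 x) ^ 2 ≤ cV / 2 := hF1
    have hsq : (F1 P.1 x) ^ 2 ≤ cV / (2 * hF P.1) := by
      rw [le_div_iff₀ (by positivity)]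
      nlinarith
    refine ⟨piece_abs M hM _ _ _ hpc, hh', ?_, hsq⟩
    rw [abs_le_one_iff_mul_self_le_one]
    have : cV / (2 * hF P.1) ≤ 1 := by
      rw [div_le_one (by positivity)]
      linarith
    nlinarith
  have hδ2 : ∀ (P : (ℤ × ℤ × ℤ) × ℤ) (σ : Bool × Bool × Bool) (x : ℝ),
      x ∈ TV M τ (cV / 2) h0 (P, σ) → (PiF P.1) ^ (-q) ≤ (κ * (hF P.1) ^ 2) ^ (-q) := by
    intro P σ x hx
    obtain ⟨⟨ha, hb⟩, hh, hf1, -⟩ := hpt P σ x hx
    have hpos : 0 < hF P.1 := by linarith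
    obtain ⟨j, hj⟩ := hdouble P.1 x ha hb (by linarith) hf1
    apply Real.rpow_le_rpow_of_nonpos (by positivity) _ (by linarith)
    refine le_trans ?_ hj
    have : (1:ℝ) ≤ max 1 |(cf P.1 j : ℝ)| := le_max_left _ _
    have h5 : 0 ≤ κ * (hF P.1) ^ 2 := by positivity
    nlinarith
  set W : ℕ → Set ((ℤ × ℤ × ℤ) × ℤ) := fun n => {P | P.1.1 ≠ 0 ∧ NoRoot P ∧ Prim P ∧
    hF P.1 ≤ (2:ℝ) ^ (n + 1) ∧ ∃ x, |x| ≤ M ∧
      |Fv P.1 x + P.2| ≤ (Real.sqrt (cV / (2:ℝ) ^ (n + 1))) ^ 2 / (2:ℝ) ^ (n + 1) ∧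
      |F1 P.1 x| ≤ Real.sqrt (cV / (2:ℝ) ^ (n + 1))} with hWdef
  have key := sumV CC p hCC0 hp32 W ?_
    (fun P => ∑' σ : Bool × Bool × Bool, (Metric.ediam (TV M τ (cV / 2) h0 (P, σ))) ^ s) ?_
  · exact key
  · -- counting
    intro n X hX
    have hh : (1:ℝ) ≤ (2:ℝ) ^ (n + 1) := one_le_pow₀ (by norm_num)
    have hhp : (0:ℝ) < (2:ℝ) ^ (n + 1) := by positivity
    have hdiv : 0 < cV / (2:ℝ) ^ (n + 1) := by positivity
    have hρ : 0 < Real.sqrt (cV / (2:ℝ) ^ (n + 1)) := Real.sqrt_pos.2 hdiv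
    have hc' := hcount ((2:ℝ) ^ (n + 1)) (Real.sqrt (cV / (2:ℝ) ^ (n + 1))) hh hρ
      (by
        rw [Real.sqrt_le_one]
        rw [div_le_one hhp]
        linarith)
      (by
        rw [Real.sq_sqrt hdiv.le]
        have : (2:ℝ) ^ (n + 1) * (cV / (2:ℝ) ^ (n + 1)) = cV := by
          field_simp
        rw [this]) X
      (by
        intro P hP
        obtain ⟨a1, a2, a3, a4, a5⟩ := hX P hP
        exact ⟨a1, a2, a3, a4, a5⟩)
    refine le_trans hc' ?_
    have e1 : CV * (2:ℝ) ^ (n + 1) / Real.sqrt (cV / (2:ℝ) ^ (n + 1)) =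
        CW * ((2:ℝ) ^ n) ^ (3/2:ℝ) := by
      have hN : (0:ℝ) < (2:ℝ) ^ n := by positivity
      have hx : ((2:ℝ) ^ (n + 1)) ^ (3/2:ℝ) = (2:ℝ) ^ (n + 1) * Real.sqrt ((2:ℝ) ^ (n + 1)) := by
        rw [Real.sqrt_eq_rpow]
        nth_rewrite 2 [← Real.rpow_one ((2:ℝ) ^ (n + 1))]
        rw [← Real.rpow_add hhp]
        norm_num
      have hy : ((2:ℝ) ^ (n + 1)) ^ (3/2:ℝ) = (2:ℝ) ^ (3/2:ℝ) * ((2:ℝ) ^ n) ^ (3/2:ℝ) := by
        rw [pow_succ, Real.mul_rpow hN.le (by norm_num)]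
        ring
      rw [Real.sqrt_div hcV0.le, hCW]
      have hs2 : 0 < Real.sqrt ((2:ℝ) ^ (n + 1)) := Real.sqrt_pos.2 hhp
      have hz : CV * (2:ℝ) ^ (n + 1) / (Real.sqrt cV / Real.sqrt ((2:ℝ) ^ (n + 1))) =
          CV * ((2:ℝ) ^ (n + 1) * Real.sqrt ((2:ℝ) ^ (n + 1))) / Real.sqrt cV := by
        field_simp
      rw [hz, ← hx, hy]
      ring
    rw [e1]
    apply mul_le_mul_of_nonneg_right _ (by positivity)
    rw [hCC]
    have : 0 ≤ BB := by positivity
    linarith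
  · -- sizes
    intro P hP
    have hne : ∃ σ x, x ∈ TV M τ (cV / 2) h0 (P, σ) := by
      by_contra hcon
      push Not at hcon
      apply hP
      simp only [ENNReal.tsum_eq_zero]
      intro σ
      have : TV M τ (cV / 2) h0 (P, σ) = ∅ := Set.eq_empty_of_forall_notMem (hcon σ)
      rw [this, Metric.ediam_empty, ENNReal.zero_rpow_of_pos hs0]
    obtain ⟨σ0, x0, hx0⟩ := hne
    obtain ⟨⟨hxa, hxb⟩, hhF, hf1, hsq⟩ := hpt P σ0 x0 hx0
    have hδ := hδ2 P σ0 x0 hx0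
    obtain ⟨⟨ha, hNR, hPr⟩, hpc0, hFv0, -, -⟩ := hx0
    have ha' : P.1.1 ≠ 0 := ha
    have hNR' : NoRoot P := hNR
    have hPr' : Prim P := hPr
    have hFv0' : |Fv P.1 x0 + P.2| < (PiF P.1) ^ (-q) := hFv0
    set h : ℝ := hF P.1 with hhdef
    have hh1 : 1 ≤ h := by linarith
    have hpos : 0 < h := by linarith
    obtain ⟨n, hn1, hn2⟩ := exists_nat_pow_near hh1 (by norm_num : (1:ℝ) < 2)
    have hN : (0:ℝ) < (2:ℝ) ^ n := by positivity
    have hh2 : (2:ℝ) ^ (n + 1) ≤ 2 * h := by rw [pow_succ]; linarith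
    have hhp : (0:ℝ) < (2:ℝ) ^ (n + 1) := by positivity
    refine ⟨n, ?_, ?_⟩
    · refine ⟨ha', hNR', hPr', hn2.le, x0, hxb, ?_, ?_⟩
      · rw [Real.sq_sqrt (by positivity)]
        refine le_trans hFv0'.le (le_trans hδ ?_)
        have hy : Y1 ≤ h ^ 2 := by nlinarith
        refine le_trans (hL1 _ hy) ?_
        rw [div_div, div_div]
        apply div_le_div_of_nonneg_left hcV0.le (by positivity)
        nlinarith
      · apply Real.le_sqrt_of_sq_le
        rw [sq_abs]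
        refine le_trans hsq ?_
        exact div_le_div_of_nonneg_left hcV0.le hhp hh2
    · -- bound of the sum
      have hb : ∀ σ : Bool × Bool × Bool, (Metric.ediam (TV M τ (cV / 2) h0 (P, σ))) ^ s ≤
          ENNReal.ofReal (BB * ((2:ℝ) ^ n) ^ (-p)) := by
        by_cases hcase : ∃ σ x, x ∈ TV M τ (cV / 2) h0 (P, σ) ∧ |F2 P.1 x| ≤ c1 * h
        · obtain ⟨σ1, x1, hx1, hF2⟩ := hcase
          obtain ⟨⟨hxa1, hxb1⟩, -, hf11, -⟩ := hpt P σ1 x1 hx1
          have hP3 := htriple P.1 x1 hxa1 hxb1 (by linarith) hf11 hF2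
          have hP3' : (PiF P.1) ^ (-q) ≤ (κ3 * h ^ 3) ^ (-q) :=
            Real.rpow_le_rpow_of_nonpos (by positivity) hP3 (by linarith)
          have hy : Y2 ≤ h ^ 3 := by nlinarith [sq_nonneg (h - 1), mul_pos hpos hpos]
          have hP4 : (PiF P.1) ^ (-q) ≤ 1 / (CD * h ^ 3) := by
            refine le_trans hP3' (le_trans (hL2 _ hy) ?_)
            rw [div_div]
          have hdn := disc_ne P ha' hNR'
          intro σ
          have hm : 0 < 1 / (CD * h) := by positivity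
          have hsub : TV M τ (cV / 2) h0 (P, σ) ⊆
              {x | x ∈ piece M P.1 σ ∧ |Fv P.1 x - (-(P.2:ℝ))| < (PiF P.1) ^ (-q) ∧
                1 / (CD * h) ≤ |F1 P.1 x|} := by
            intro x hx
            obtain ⟨⟨-, hxb2⟩, -, -, -⟩ := hpt P σ x hx
            obtain ⟨-, hpc, hFv, -, -⟩ := hx
            have hFv' : |Fv P.1 x + P.2| < (PiF P.1) ^ (-q) := hFv
            refine ⟨hpc, ?_, ?_⟩
            · rw [sub_neg_eq_add]; exact hFv'
            · exact hdisc P.1 P.2 x hxb2 hh1 (le_trans hFv'.le hP4) hdn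
          have hed := le_trans (Metric.ediam_mono hsub)
            (ediam_big M hM P.1 σ (-(P.2:ℝ)) ((PiF P.1) ^ (-q)) (1 / (CD * h)) hm)
          have hPn : 0 ≤ (PiF P.1) ^ (-q) := Real.rpow_nonneg (PiF_pos _).le _
          have hX0 : 0 ≤ 2 * (PiF P.1) ^ (-q) / (1 / (CD * h)) := by positivity
          have hXle : 2 * (PiF P.1) ^ (-q) / (1 / (CD * h)) ≤ A1 * h ^ (1 - 3 * q) := by
            have e1 : 2 * (PiF P.1) ^ (-q) / (1 / (CD * h)) = 2 * CD * h * (PiF P.1) ^ (-q) := by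
              field_simp
            have e2 : A1 * h ^ (1 - 3 * q) = 2 * CD * h * (κ3 * h ^ 3) ^ (-q) := by
              rw [hA1, Real.mul_rpow hκ3.le (by positivity), ← Real.rpow_natCast h 3,
                ← Real.rpow_mul hpos.le]
              have : h ^ (1 - 3 * q) = h * h ^ (((3:ℕ):ℝ) * -q) := by
                nth_rewrite 2 [← Real.rpow_one h]
                rw [← Real.rpow_add hpos]
                congr 1
                push_cast
                ring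
              rw [this]
              ring
            rw [e1, e2]
            exact mul_le_mul_of_nonneg_left hP3' (by positivity)
          have hfin := pw_aux A1 h (1 - 3 * q) s _ p ((2:ℝ) ^ n) hA1n hh1 hs0.le hX0 hXle
            (by rw [hp, hq]; nlinarith) hN hn1 hp0
          calc (Metric.ediam (TV M τ (cV / 2) h0 (P, σ))) ^ s
              ≤ (ENNReal.ofReal (2 * (PiF P.1) ^ (-q) / (1 / (CD * h)))) ^ s :=
                ENNReal.rpow_le_rpow hed hs0.le
            _ = ENNReal.ofReal ((2 * (PiF P.1) ^ (-q) / (1 / (CD * h))) ^ s) :=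
                ENNReal.ofReal_rpow_of_nonneg hX0 hs0.le
            _ ≤ ENNReal.ofReal (BB * ((2:ℝ) ^ n) ^ (-p)) := by
                apply ENNReal.ofReal_le_ofReal
                refine le_trans hfin ?_
                apply mul_le_mul_of_nonneg_right _ (by positivity)
                rw [hBB]
                linarith
        · push Not at hcase
          intro σ
          have hm : 0 < c1 * h := by positivity
          have hsub : TV M τ (cV / 2) h0 (P, σ) ⊆
              {x | x ∈ piece M P.1 σ ∧ |Fv P.1 x - (-(P.2:ℝ))| < (PiF P.1) ^ (-q) ∧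
                c1 * h ≤ |F2 P.1 x|} := by
            intro x hx
            have hF2 := hcase σ x hx
            obtain ⟨-, hpc, hFv, -, -⟩ := hx
            have hFv' : |Fv P.1 x + P.2| < (PiF P.1) ^ (-q) := hFv
            refine ⟨hpc, ?_, hF2.le⟩
            rw [sub_neg_eq_add]; exact hFv'
          have hed := le_trans (Metric.ediam_mono hsub)
            (ediam_quad M hM P.1 σ (-(P.2:ℝ)) ((PiF P.1) ^ (-q)) (c1 * h) hm)
          have hX0 : 0 ≤ 2 * Real.sqrt ((PiF P.1) ^ (-q) / (c1 * h)) := by positivity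
          have hXle : 2 * Real.sqrt ((PiF P.1) ^ (-q) / (c1 * h)) ≤ A2 * h ^ (-(q + 1 / 2)) := by
            have e2 : A2 * h ^ (-(q + 1 / 2)) = 2 * Real.sqrt ((κ * h ^ 2) ^ (-q) / (c1 * h)) := by
              have e3 : (κ * h ^ 2) ^ (-q) / (c1 * h) = (κ ^ (-q) / c1) * h ^ (-(2 * q + 1)) := by
                rw [Real.mul_rpow hκ.le (by positivity), ← Real.rpow_natCast h 2,
                  ← Real.rpow_mul hpos.le]
                have : h ^ (-(2 * q + 1)) = h ^ (((2:ℕ):ℝ) * -q) / h := by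
                  rw [div_eq_mul_inv, ← Real.rpow_neg_one h, ← Real.rpow_add hpos]
                  congr 1
                  push_cast
                  ring
                rw [this]
                field_simp
              rw [e3, hA2, Real.sqrt_mul (by positivity), mul_assoc]
              congr 2
              rw [Real.sqrt_eq_rpow, ← Real.rpow_mul hpos.le]
              congr 1
              ring
            rw [e2]
            apply mul_le_mul_of_nonneg_left _ (by norm_num)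
            apply Real.sqrt_le_sqrt
            exact div_le_div_of_nonneg_right hδ hm.le
          have hfin := pw_aux A2 h (-(q + 1 / 2)) s _ p ((2:ℝ) ^ n) hA2n hh1 hs0.le hX0 hXle
            (by rw [hp, hq]; apply le_of_eq; ring) hN hn1 hp0
          calc (Metric.ediam (TV M τ (cV / 2) h0 (P, σ))) ^ s
              ≤ (ENNReal.ofReal (2 * Real.sqrt ((PiF P.1) ^ (-q) / (c1 * h)))) ^ s :=
                ENNReal.rpow_le_rpow hed hs0.le
            _ = ENNReal.ofReal ((2 * Real.sqrt ((PiF P.1) ^ (-q) / (c1 * h))) ^ s) :=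
                ENNReal.ofReal_rpow_of_nonneg hX0 hs0.le
            _ ≤ ENNReal.ofReal (BB * ((2:ℝ) ^ n) ^ (-p)) := by
                apply ENNReal.ofReal_le_ofReal
                refine le_trans hfin ?_
                apply mul_le_mul_of_nonneg_right _ (by positivity)
                rw [hBB]
                linarith
      have hBBn : 0 ≤ BB := by positivity
      have hBn : 0 ≤ BB * ((2:ℝ) ^ n) ^ (-p) := by positivity
      calc ∑' σ : Bool × Bool × Bool, (Metric.ediam (TV M τ (cV / 2) h0 (P, σ))) ^ s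
          ≤ ∑' σ : Bool × Bool × Bool, ENNReal.ofReal (BB * ((2:ℝ) ^ n) ^ (-p)) :=
            ENNReal.tsum_le_tsum hb
        _ = 8 * ENNReal.ofReal (BB * ((2:ℝ) ^ n) ^ (-p)) := by
            rw [tsum_fintype, Finset.sum_const, nsmul_eq_mul]
            congr 1
        _ = ENNReal.ofReal (8 * (BB * ((2:ℝ) ^ n) ^ (-p))) := by
            rw [ENNReal.ofReal_mul (show (0:ℝ) ≤ 8 by norm_num)]
            rw [show ENNReal.ofReal (8:ℝ) = 8 by simp]
        _ ≤ ENNReal.ofReal (CC * ((2:ℝ) ^ n) ^ (-p)) := by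
            apply ENNReal.ofReal_le_ofReal
            rw [← mul_assoc]
            apply mul_le_mul_of_nonneg_right _ (by positivity)
            rw [hCC]
            linarith


end YU432
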