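import Pool.Agent.Helper432.YU.Pc2
import Pool.Agent.Helper432.YU.Fac

open MeasureTheory Set
open scoped ENNReal

namespace YU432

/-- the index set: `F=(0,b,c)`, integer `k`, signs -/
def T2 (M τ h0 : ℝ) (i : ((ℤ × ℤ) × ℤ) × (Bool × Bool × Bool)) : Set ℝ :=
  {x | h0 ≤ hF (0, i.1.1.1, i.1.1.2) ∧ x ∈ piece M (0, i.1.1.1, i.1.1.2) i.2 ∧
    |Fv (0, i.1.1.1, i.1.1.2) x - i.1.2| < (hF (0, i.1.1.1, i.1.1.2))^(-(3*τ-1)) ∧
    ¬ (i.1.1.1 ≠ 0 ∧ i.1.1.2^2 + 4 * i.1.1.1 * i.1.2 = 0)}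

theorem T2_sub (M τ : ℝ) (hτ : 1 < τ) (b c k : ℤ) (σ : Bool × Bool × Bool)
    (hh : 6 ≤ hF (0, b, c)) :
    T2 M τ 6 (((b, c), k), σ) ⊆ {x | x ∈ piece M (0, b, c) σ ∧
      |Fv (0, b, c) x - (k:ℝ)| < (hF (0, b, c))^(-(3*τ-1)) ∧ (1/2:ℝ) ≤ |F1 (0, b, c) x|} := by
  rintro x ⟨_, hx1, hx2, hx3⟩
  simp only at hx1 hx2 hx3
  refine ⟨hx1, hx2, ?_⟩
  have hb : |(b:ℝ)| ≤ hF (0, b, c) := le_trans (le_max_right _ _) (le_max_left _ _)
  have h0 : (0:ℝ) < hF (0, b, c) := by linarith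
  set h := hF (0, b, c) with hhd
  have hδ : h^(-(3*τ-1)) * h ≤ 1/6 := by
    have e1 : h^(-(3*τ-1)) * h = h^(-(3*τ-1) + 1) := by
      rw [Real.rpow_add h0, Real.rpow_one]
    have e2 : h^(-(3*τ-1) + 1) ≤ h^(-1:ℝ) :=
      Real.rpow_le_rpow_of_exponent_le (by linarith) (by linarith)
    have e3 : h^(-1:ℝ) = h⁻¹ := Real.rpow_neg_one h
    rw [e1]
    refine e2.trans ?_
    rw [e3, inv_eq_one_div]
    exact one_div_le_one_div_of_le (by norm_num) hh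
  by_cases hb0 : b = 0
  · subst hb0
    have h1 : F1 (0, 0, c) x = c := by simp [F1]
    have h2 : h = |(c:ℝ)| := by
      rw [hhd]
      simp [hF]
    rw [h1, ← h2]; linarith
  · have hD : c^2 + 4 * b * k ≠ 0 := fun h => hx3 ⟨hb0, h⟩
    have hid : (F1 (0, b, c) x)^2 = ((c^2 + 4*b*k : ℤ) : ℝ) + 4 * b * (Fv (0, b, c) x - k) := by
      simp only [F1, Fv]
      push_cast
      ring
    have hsm : |4 * (b:ℝ) * (Fv (0, b, c) x - k)| ≤ 3/4 := by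
      rw [abs_mul, abs_mul]
      have h4 : |(4:ℝ)| = 4 := by norm_num
      rw [h4]
      have : |(b:ℝ)| * |Fv (0, b, c) x - (k:ℝ)| ≤ h * h^(-(3*τ-1)) :=
        mul_le_mul hb hx2.le (abs_nonneg _) h0.le
      nlinarith
    have habs := abs_le.mp hsm
    rcases lt_or_gt_of_ne hD with hneg | hpos
    · exfalso
      have h5 : c^2 + 4*b*k ≤ -1 := by omega
      have h6 : ((c^2 + 4*b*k : ℤ) : ℝ) ≤ -1 := by exact_mod_cast h5
      nlinarith [sq_nonneg (F1 (0, b, c) x)]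
    · have h5 : 1 ≤ c^2 + 4*b*k := by omega
      have h6 : (1:ℝ) ≤ ((c^2 + 4*b*k : ℤ) : ℝ) := by exact_mod_cast h5
      have h7 : (1/2:ℝ)^2 ≤ (F1 (0, b, c) x)^2 := by
        rw [hid]; nlinarith
      have h8 := sq_le_sq.mp h7
      rwa [abs_of_pos (by norm_num : (0:ℝ) < 1/2)] at h8

theorem k2_limsup (M : ℝ) (hM : 1 ≤ M) (τ s : ℝ) (hτ : 1 < τ) (hs : 1/τ < s) (hs1 : s ≤ 1) :
    ∃ h0 : ℝ, dimH {x : ℝ | {i | x ∈ T2 M τ h0 i}.Infinite} ≤ ENNReal.ofReal s := by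
  have hτ0 : 0 < τ := by linarith
  have hs0 : 0 < s := lt_trans (by positivity) hs
  have hτs : 1 < s * τ := (div_lt_iff₀ hτ0).mp hs
  obtain ⟨C, hC, hG⟩ := fcostG M hM s hs0 hs1
  refine ⟨6, hc _ s hs0 ?_⟩
  obtain ⟨η, hηd⟩ : ∃ η : ℝ, η = (3*τ*s-1)/2 - 1 := ⟨_, rfl⟩
  have hη : 0 < η := by rw [hηd]; nlinarith
  have h4s : (0:ℝ) < 4^s := by positivity
  have key : ∀ (bc : ℤ × ℤ) (σ : Bool × Bool × Bool),
      ∑' k : ℤ, (Metric.ediam (T2 M τ 6 ((bc, k), σ)))^s ≤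
        ENNReal.ofReal (4^s + C) * ENNReal.ofReal ((PiF (0, bc.1, bc.2))^(-(1+η))) := by
    rintro ⟨b, c⟩ σ
    by_cases hh : 6 ≤ hF (0, b, c)
    · have h0 : (0:ℝ) < hF (0, b, c) := by linarith
      have h1 : (1:ℝ) ≤ hF (0, b, c) := by linarith
      have hδ0 : 0 < (hF (0, b, c))^(-(3*τ-1)) := Real.rpow_pos_of_pos h0 _
      have hδ1 : (hF (0, b, c))^(-(3*τ-1)) ≤ 1/4 := by
        have e2 : (hF (0, b, c))^(-(3*τ-1)) ≤ (hF (0, b, c))^(-1:ℝ) :=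
          Real.rpow_le_rpow_of_exponent_le h1 (by linarith)
        rw [Real.rpow_neg_one, inv_eq_one_div] at e2
        exact e2.trans (one_div_le_one_div_of_le (by norm_num) (by linarith))
      obtain ⟨k0, hk0⟩ := hG (0, b, c) σ _ hδ0 hδ1 h1
      have hsub := fun k => T2_sub M τ hτ b c k σ hh
      have t1 : (Metric.ediam (T2 M τ 6 (((b, c), k0), σ)))^s ≤
          ENNReal.ofReal (4^s * ((hF (0, b, c))^(-(3*τ-1)))^s) := by
        have e1 := (Metric.ediam_mono (hsub k0)).trans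
          (ediam_big M hM (0, b, c) σ k0 ((hF (0, b, c))^(-(3*τ-1))) (1/2) (by norm_num))
        have e2 := ENNReal.rpow_le_rpow e1 hs0.le
        refine e2.trans (le_of_eq ?_)
        rw [ENNReal.ofReal_rpow_of_nonneg (by positivity) hs0.le]
        congr 1
        rw [← Real.mul_rpow (by norm_num) hδ0.le]
        congr 1
        ring
      have t2 : ∑' k : ℤ, (if k = k0 then 0 else (Metric.ediam (T2 M τ 6 (((b, c), k), σ)))^s) ≤
          ENNReal.ofReal (C * ((hF (0, b, c))^(-(3*τ-1)))^s * (hF (0, b, c))^(1-s)) := by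
        refine le_trans ?_ hk0
        have e1 := tsum_subtype (f := fun k : ℤ => (Metric.ediam {x | x ∈ piece M (0, b, c) σ ∧
          |Fv (0, b, c) x - (k:ℝ)| < (hF (0, b, c))^(-(3*τ-1))})^s) {k : ℤ | k ≠ k0}
        have e2 : (∑' k : {k : ℤ // k ≠ k0}, (Metric.ediam {x | x ∈ piece M (0, b, c) σ ∧
          |Fv (0, b, c) x - (k.1:ℝ)| < (hF (0, b, c))^(-(3*τ-1))})^s) = _ := e1
        rw [e2]
        apply ENNReal.tsum_le_tsum
        intro k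
        by_cases hk : k = k0
        · simp [hk]
        · rw [if_neg hk, Set.indicator_of_mem (show k ∈ {k : ℤ | k ≠ k0} from hk)]
          apply ENNReal.rpow_le_rpow _ hs0.le
          apply Metric.ediam_mono
          intro x hx
          have := hsub k hx
          exact ⟨this.1, this.2.1⟩
      have t0 : ∑' k : ℤ, (Metric.ediam (T2 M τ 6 (((b, c), k), σ)))^s =
          (Metric.ediam (T2 M τ 6 (((b, c), k0), σ)))^s +
          ∑' k : ℤ, (if k = k0 then 0 else (Metric.ediam (T2 M τ 6 (((b, c), k), σ)))^s) := by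
        rw [ENNReal.tsum_eq_add_tsum_ite k0]
        congr 1
        apply tsum_congr
        intro k
        by_cases hk : k = k0 <;> simp [hk]
      rw [t0]
      refine (add_le_add t1 t2).trans ?_
      have hnn : 0 ≤ ((hF (0, b, c))^(-(3*τ-1)))^s := by positivity
      rw [← ENNReal.ofReal_add (by positivity) (by positivity), ← ENNReal.ofReal_mul (by positivity)]
      apply ENNReal.ofReal_le_ofReal
      have hge : 1 ≤ (hF (0, b, c))^(1-s) := Real.one_le_rpow h1 (by linarith)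
      have hexp : ((hF (0, b, c))^(-(3*τ-1)))^s * (hF (0, b, c))^(1-s)
          = ((hF (0, b, c))^(2:ℝ))^(-(1+η)) := by
        rw [← Real.rpow_mul h0.le, ← Real.rpow_mul h0.le, ← Real.rpow_add h0]
        congr 1
        rw [hηd]; ring
      have hPi0 : 0 < PiF (0, b, c) := by
        unfold PiF; positivity
      have hPi : PiF (0, b, c) ≤ (hF (0, b, c))^(2:ℝ) := by
        have hb : |(b:ℝ)| ≤ hF (0, b, c) := le_trans (le_max_right _ _) (le_max_left _ _)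
        have hc' : |(c:ℝ)| ≤ hF (0, b, c) := le_max_right _ _
        have m1 : max 1 |(b:ℝ)| ≤ hF (0, b, c) := max_le h1 hb
        have m2 : max 1 |(c:ℝ)| ≤ hF (0, b, c) := max_le h1 hc'
        have m0 : max (1:ℝ) |((0:ℤ):ℝ)| = 1 := by simp
        have : PiF (0, b, c) = max 1 |(b:ℝ)| * max 1 |(c:ℝ)| := by
          unfold PiF
          simp only
          rw [m0, one_mul]
        rw [this, show ((2:ℝ)) = ((2:ℕ):ℝ) by norm_num, Real.rpow_natCast, sq]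
        exact mul_le_mul m1 m2 (by positivity) h0.le
      have hlast : ((hF (0, b, c))^(2:ℝ))^(-(1+η)) ≤ (PiF (0, b, c))^(-(1+η)) :=
        Real.rpow_le_rpow_of_nonpos hPi0 hPi (by linarith)
      calc 4^s * ((hF (0, b, c))^(-(3*τ-1)))^s
          + C * ((hF (0, b, c))^(-(3*τ-1)))^s * (hF (0, b, c))^(1-s)
          ≤ 4^s * (((hF (0, b, c))^(-(3*τ-1)))^s * (hF (0, b, c))^(1-s))
          + C * (((hF (0, b, c))^(-(3*τ-1)))^s * (hF (0, b, c))^(1-s)) := by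
            have : ((hF (0, b, c))^(-(3*τ-1)))^s ≤
              ((hF (0, b, c))^(-(3*τ-1)))^s * (hF (0, b, c))^(1-s) := by nlinarith
            nlinarith
        _ = (4^s + C) * (((hF (0, b, c))^(2:ℝ))^(-(1+η))) := by rw [hexp]; ring
        _ ≤ (4^s + C) * (PiF (0, b, c))^(-(1+η)) :=
            mul_le_mul_of_nonneg_left hlast (by positivity)
    · have : ∀ k : ℤ, (Metric.ediam (T2 M τ 6 (((b, c), k), σ)))^s = 0 := by
        intro k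
        have hE : T2 M τ 6 (((b, c), k), σ) = ∅ := by
          ext x
          constructor
          swap
          · intro h; exact absurd h (Set.notMem_empty x)
          intro hx
          exfalso
          exact hh hx.1
        rw [hE, Metric.ediam_empty, ENNReal.zero_rpow_of_pos hs0]
      simp [this]
  have hfin : ∑' i : ((ℤ × ℤ) × ℤ) × (Bool × Bool × Bool), (Metric.ediam (T2 M τ 6 i))^s ≤
      8 * (ENNReal.ofReal (4^s + C) *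
        ∑' bc : ℤ × ℤ, ENNReal.ofReal ((PiF (0, bc.1, bc.2))^(-(1+η)))) := by
    rw [ENNReal.tsum_prod', ENNReal.tsum_prod']
    have e1 : ∀ bc : ℤ × ℤ, ∑' k : ℤ, ∑' σ : Bool × Bool × Bool,
        (Metric.ediam (T2 M τ 6 ((bc, k), σ)))^s ≤
        8 * (ENNReal.ofReal (4^s + C) * ENNReal.ofReal ((PiF (0, bc.1, bc.2))^(-(1+η)))) := by
      intro bc
      rw [ENNReal.tsum_comm]
      refine (ENNReal.tsum_le_tsum (fun σ => key bc σ)).trans ?_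
      rw [tsum_fintype, Finset.sum_const, nsmul_eq_mul]
      apply le_of_eq
      congr 1
    refine (ENNReal.tsum_le_tsum e1).trans ?_
    rw [ENNReal.tsum_mul_left, ENNReal.tsum_mul_left]
  have hinj : Function.Injective (fun bc : ℤ × ℤ => ((0, bc.1, bc.2) : ℤ × ℤ × ℤ)) := by
    rintro ⟨a, b⟩ ⟨c, d⟩ h
    simp only [Prod.mk.injEq] at h
    ext
    · exact h.2.1
    · exact h.2.2
  have hle : ∑' bc : ℤ × ℤ, ENNReal.ofReal ((PiF (0, bc.1, bc.2))^(-(1+η))) ≤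
      ∑' F : ℤ × ℤ × ℤ, ENNReal.ofReal ((PiF F)^(-(1+η))) :=
    ENNReal.tsum_comp_le_tsum_of_injective hinj
      (fun F : ℤ × ℤ × ℤ => ENNReal.ofReal ((PiF F)^(-(1+η))))
  have hS := sum_PiF η hη
  refine ne_top_of_le_ne_top ?_ hfin
  apply ENNReal.mul_ne_top (by norm_num)
  apply ENNReal.mul_ne_top ENNReal.ofReal_ne_top
  exact ne_top_of_le_ne_top hS hle

theorem sqform_aux (e f g : ℤ) (he : e ≠ 0) (hd : f ^ 2 = 4 * e * g) :
    ∃ w u v : ℤ, w ≠ 0 ∧ u ≠ 0 ∧ e = w * u ^ 2 ∧ f = -2 * w * u * v ∧ g = w * v ^ 2 := by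
  have he' : (e : ℚ) ≠ 0 := by exact_mod_cast he
  obtain ⟨r, hr⟩ : ∃ r : ℚ, r = -(f : ℚ) / (2 * e) := ⟨_, rfl⟩
  have hf : (f : ℚ) = -2 * e * r := by
    rw [hr]
    field_simp
  have hd' : (f : ℚ) ^ 2 = 4 * e * g := by exact_mod_cast hd
  have hg : (g : ℚ) = e * r ^ 2 := by
    have h1 : 4 * (e : ℚ) * g = 4 * e * (e * r ^ 2) := by
      rw [← hd', hf]
      ring
    exact mul_left_cancel₀ (mul_ne_zero (by norm_num) he') h1
  have hrd : r * (r.den : ℚ) = (r.num : ℚ) := Rat.mul_den_eq_num r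
  have h1 : (g : ℚ) * (r.den : ℚ) ^ 2 = e * (r.num : ℚ) ^ 2 := by
    rw [hg, ← hrd]
    ring
  have h2 : g * (r.den : ℤ) ^ 2 = e * r.num ^ 2 := by exact_mod_cast h1
  have h1' : (f : ℚ) * (r.den : ℚ) = -2 * e * (r.num : ℚ) := by
    rw [hf, ← hrd]
    ring
  have h2' : f * (r.den : ℤ) = -2 * e * r.num := by exact_mod_cast h1'
  have hu : (r.den : ℤ) ≠ 0 := by exact_mod_cast r.den_nz
  have hc : IsCoprime ((r.den : ℤ) ^ 2) (r.num ^ 2) := by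
    apply IsCoprime.pow
    rw [Int.isCoprime_iff_gcd_eq_one]
    have h3 := r.reduced
    rw [Nat.Coprime, Nat.gcd_comm] at h3
    simpa [Int.gcd] using h3
  have h4 : (r.den : ℤ) ^ 2 ∣ e := by
    apply hc.dvd_of_dvd_mul_right
    exact Dvd.intro_left g h2
  obtain ⟨w, hw⟩ := h4
  refine ⟨w, r.den, r.num, ?_, hu, ?_, ?_, ?_⟩
  · rintro rfl
    apply he
    rw [hw, mul_zero]
  · rw [hw, mul_comm]
  · apply mul_right_cancel₀ hu
    rw [h2', hw]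
    ring
  · apply mul_right_cancel₀ (pow_ne_zero 2 hu)
    rw [h2, hw]
    ring

theorem sg_abs_aux (y : ℝ) : ∃ b : Bool, sg b * y = |y| := by
  rcases le_total 0 y with h | h
  · exact ⟨true, by simp [sg, abs_of_nonneg h]⟩
  · exact ⟨false, by simp [sg, abs_of_nonpos h]⟩

theorem fin_w_aux (c : ℝ) (hc : 0 < c) : {w : ℤ | |(w : ℝ)| * c < 1}.Finite := by
  apply (Set.finite_Icc (-⌈1 / c⌉) ⌈1 / c⌉).subset
  intro w hw
  have h1 : |(w : ℝ)| * c < 1 := hw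
  have h2 : |(w : ℝ)| < 1 / c := by
    rw [lt_div_iff₀ hc]
    exact h1
  have h3 : |(w : ℝ)| ≤ (⌈1 / c⌉ : ℝ) := h2.le.trans (Int.le_ceil _)
  have h4 : |w| ≤ ⌈1 / c⌉ := by exact_mod_cast h3
  rw [Set.mem_Icc]
  exact abs_le.1 h4

theorem irr_ne_aux (x : ℝ) (hx : Irrational x) (q : ℤ × ℤ) (hq : q.1 ≠ 0) :
    (q.1 : ℝ) * x - q.2 ≠ 0 := by
  intro h
  apply hx
  refine ⟨(q.2 : ℚ) / (q.1 : ℚ), ?_⟩
  have hq' : (q.1 : ℝ) ≠ 0 := by exact_mod_cast hq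
  push_cast
  rw [div_eq_iff hq']
  linarith

theorem fin_b_aux (τ x : ℝ) (hτ : 1 < τ) (hx : Irrational x)
    (hQ : {q : ℤ × ℤ | q.1 ≠ 0 ∧
      |(q.1:ℝ) * x - q.2| < |(q.1:ℝ)|^(-(2*τ-1))}.Finite) :
    {G : ℤ × ℤ × ℤ | |(G.1:ℝ) * x^2 + G.2.1 * x + G.2.2| <
      (max |(G.1:ℝ)| |(G.2.1:ℝ)|)^(-(3*τ-1)) ∧ G.1 ≠ 0 ∧ G.2.1 ^ 2 = 4 * G.1 * G.2.2}.Finite := by
  have hfin : (⋃ q ∈ {q : ℤ × ℤ | q.1 ≠ 0 ∧ |(q.1:ℝ) * x - q.2| < |(q.1:ℝ)|^(-(2*τ-1))},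
      (fun w : ℤ => ((w * q.1 ^ 2, -2 * w * q.1 * q.2, w * q.2 ^ 2) : ℤ × ℤ × ℤ)) ''
        {w : ℤ | |(w : ℝ)| * ((q.1 : ℝ) * x - q.2) ^ 2 < 1}).Finite := by
    apply Set.Finite.biUnion hQ
    intro q hq
    apply Set.Finite.image
    apply fin_w_aux
    have := irr_ne_aux x hx q hq.1
    positivity
  apply hfin.subset
  rintro ⟨e, f, g⟩ ⟨h1, h2, h3⟩
  simp only at h1 h2 h3
  obtain ⟨w, u, v, hw, hu, rfl, rfl, rfl⟩ := sqform_aux e f g h2 h3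
  push_cast at h1
  have hw1 : (1 : ℝ) ≤ |(w : ℝ)| := by
    have : (1 : ℤ) ≤ |w| := Int.one_le_abs hw
    exact_mod_cast this
  have hu1 : (1 : ℝ) ≤ |(u : ℝ)| := by
    have : (1 : ℤ) ≤ |u| := Int.one_le_abs hu
    exact_mod_cast this
  have hG : (w : ℝ) * (u : ℝ) ^ 2 * x ^ 2 + -2 * (w : ℝ) * u * v * x + (w : ℝ) * (v : ℝ) ^ 2
      = (w : ℝ) * ((u : ℝ) * x - v) ^ 2 := by ring
  rw [hG, abs_mul, abs_of_nonneg (sq_nonneg ((u : ℝ) * x - v))] at h1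
  obtain ⟨H, hH⟩ : ∃ H : ℝ, H = max |(w : ℝ) * (u : ℝ) ^ 2| |-2 * (w : ℝ) * u * v| := ⟨_, rfl⟩
  rw [← hH] at h1
  have hH1 : |(u : ℝ)| ^ 2 ≤ H := by
    rw [hH]
    refine le_trans ?_ (le_max_left _ _)
    rw [abs_mul, abs_pow]
    nlinarith [sq_nonneg |(u : ℝ)|]
  have hu2 : (1 : ℝ) ≤ |(u : ℝ)| ^ 2 := one_le_pow₀ hu1
  have hH2 : 1 ≤ H := hu2.trans hH1
  have hlt1 : |(w : ℝ)| * ((u : ℝ) * x - v) ^ 2 < 1 :=
    lt_of_lt_of_le h1 (Real.rpow_le_one_of_one_le_of_nonpos hH2 (by linarith))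
  have hlt2 : |(u : ℝ) * x - v| < |(u : ℝ)| ^ (-(2 * τ - 1)) := by
    apply lt_of_pow_lt_pow_left₀ 2 (Real.rpow_nonneg (abs_nonneg _) _)
    rw [sq_abs]
    calc ((u : ℝ) * x - v) ^ 2 ≤ |(w : ℝ)| * ((u : ℝ) * x - v) ^ 2 :=
          le_mul_of_one_le_left (sq_nonneg _) hw1
      _ < H ^ (-(3 * τ - 1)) := h1
      _ ≤ (|(u : ℝ)| ^ 2) ^ (-(3 * τ - 1)) :=
          Real.rpow_le_rpow_of_nonpos (by linarith) hH1 (by linarith)
      _ = |(u : ℝ)| ^ (((2 : ℕ) : ℝ) * (-(3 * τ - 1))) :=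
          (Real.rpow_natCast_mul (abs_nonneg _) 2 _).symm
      _ ≤ |(u : ℝ)| ^ ((-(2 * τ - 1)) * ((2 : ℕ) : ℝ)) := by
          apply Real.rpow_le_rpow_of_exponent_le hu1
          push_cast
          linarith
      _ = (|(u : ℝ)| ^ (-(2 * τ - 1))) ^ 2 := Real.rpow_mul_natCast (abs_nonneg _) _ 2
  rw [Set.mem_iUnion₂]
  refine ⟨(u, v), ⟨hu, hlt2⟩, w, hlt1, rfl⟩

theorem hF_aux (e f : ℤ) : hF (0, e, f) = max |(e : ℝ)| |(f : ℝ)| := by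
  unfold hF
  simp only [Int.cast_zero, abs_zero]
  rw [max_eq_right (abs_nonneg (e : ℝ))]

theorem fin_a_aux (τ x h0 : ℝ) (hτ : 1 < τ) :
    {G : ℤ × ℤ × ℤ | (G.1 ≠ 0 ∨ G.2.1 ≠ 0) ∧ |(G.1:ℝ) * x^2 + G.2.1 * x + G.2.2| <
      (max |(G.1:ℝ)| |(G.2.1:ℝ)|)^(-(3*τ-1)) ∧ max |(G.1:ℝ)| |(G.2.1:ℝ)| < h0}.Finite := by
  obtain ⟨K, hK⟩ : ∃ K : ℤ, K = ⌈1 + |h0| + |h0| * x ^ 2 + |h0| * |x|⌉ := ⟨_, rfl⟩
  have hK' : 1 + |h0| + |h0| * x ^ 2 + |h0| * |x| ≤ (K : ℝ) := by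
    rw [hK]
    exact Int.le_ceil _
  apply (Set.finite_Icc ((-K, -K, -K) : ℤ × ℤ × ℤ) (K, K, K)).subset
  rintro ⟨e, f, g⟩ ⟨h1, h2, h3⟩
  simp only at h1 h2 h3
  have he : |(e : ℝ)| < h0 := lt_of_le_of_lt (le_max_left _ _) h3
  have hf : |(f : ℝ)| < h0 := lt_of_le_of_lt (le_max_right _ _) h3
  have h0' : h0 ≤ |h0| := le_abs_self _
  have hmax : 1 ≤ max |(e : ℝ)| |(f : ℝ)| := by
    rcases h1 with h1 | h1
    · refine le_trans ?_ (le_max_left _ _)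
      have : (1 : ℤ) ≤ |e| := Int.one_le_abs h1
      exact_mod_cast this
    · refine le_trans ?_ (le_max_right _ _)
      have : (1 : ℤ) ≤ |f| := Int.one_le_abs h1
      exact_mod_cast this
  have h4 : |(e:ℝ) * x^2 + f * x + g| < 1 :=
    lt_of_lt_of_le h2 (Real.rpow_le_one_of_one_le_of_nonpos hmax (by linarith))
  have hx2 : 0 ≤ x ^ 2 := sq_nonneg x
  have hx1 : 0 ≤ |x| := abs_nonneg x
  have hp1 : 0 ≤ |h0| * x ^ 2 := mul_nonneg (abs_nonneg _) hx2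
  have hp2 : 0 ≤ |h0| * |x| := mul_nonneg (abs_nonneg _) hx1
  have hp0 : 0 ≤ |h0| := abs_nonneg _
  have hg : |(g : ℝ)| ≤ 1 + |h0| * x ^ 2 + |h0| * |x| := by
    have h5 : (g : ℝ) = ((e:ℝ) * x^2 + f * x + g) - (e:ℝ) * x^2 - f * x := by ring
    have h6 : |(g : ℝ)| ≤ |(e:ℝ) * x^2 + f * x + g| + |(e:ℝ) * x^2| + |(f:ℝ) * x| := by
      calc |(g : ℝ)| = |((e:ℝ) * x^2 + f * x + g) - (e:ℝ) * x^2 - f * x| := by rw [← h5]
        _ ≤ |((e:ℝ) * x^2 + f * x + g) - (e:ℝ) * x^2| + |(f:ℝ) * x| := abs_sub _ _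
        _ ≤ |(e:ℝ) * x^2 + f * x + g| + |(e:ℝ) * x^2| + |(f:ℝ) * x| := by
            have := abs_sub ((e:ℝ) * x^2 + f * x + g) ((e:ℝ) * x^2)
            linarith
    rw [abs_mul, abs_mul, abs_of_nonneg hx2] at h6
    have h7 : |(e : ℝ)| * x ^ 2 ≤ |h0| * x ^ 2 := mul_le_mul_of_nonneg_right (by linarith) hx2
    have h8 : |(f : ℝ)| * |x| ≤ |h0| * |x| := mul_le_mul_of_nonneg_right (by linarith) hx1
    linarith
  have he2 : |(e : ℝ)| ≤ (K : ℝ) := by linarith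
  have hf2 : |(f : ℝ)| ≤ (K : ℝ) := by linarith
  have hg2 : |(g : ℝ)| ≤ (K : ℝ) := by linarith
  have he3 : |e| ≤ K := by exact_mod_cast he2
  have hf3 : |f| ≤ K := by exact_mod_cast hf2
  have hg3 : |g| ≤ K := by exact_mod_cast hg2
  rw [abs_le] at he3 hf3 hg3
  exact ⟨⟨he3.1, hf3.1, hg3.1⟩, ⟨he3.2, hf3.2, hg3.2⟩⟩

theorem dimH_K2_aux (τ s : ℝ) (hτ : 1 < τ) (hs : 1 / τ < s) (hs1 : s ≤ 1) :
    dimH {x : ℝ | {G : ℤ × ℤ × ℤ | (G.1 ≠ 0 ∨ G.2.1 ≠ 0) ∧ |(G.1:ℝ) * x^2 + G.2.1 * x + G.2.2| <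
      (max |(G.1:ℝ)| |(G.2.1:ℝ)|)^(-(3*τ-1))}.Infinite} ≤ ENNReal.ofReal s := by
  have hM : ∀ N : ℕ, ∃ h0 : ℝ, dimH {x : ℝ | {i | x ∈ T2 ((N : ℝ) + 1) τ h0 i}.Infinite}
      ≤ ENNReal.ofReal s := by
    intro N
    have : (0 : ℝ) ≤ (N : ℝ) := Nat.cast_nonneg N
    exact k2_limsup ((N : ℝ) + 1) (by linarith) τ s hτ hs hs1
  choose h0 hh0 using hM
  have hcov : {x : ℝ | {G : ℤ × ℤ × ℤ | (G.1 ≠ 0 ∨ G.2.1 ≠ 0) ∧
      |(G.1:ℝ) * x^2 + G.2.1 * x + G.2.2| <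
      (max |(G.1:ℝ)| |(G.2.1:ℝ)|)^(-(3*τ-1))}.Infinite} ⊆
      (Set.range ((↑) : ℚ → ℝ) ∪ {x : ℝ | {q : ℤ × ℤ | q.1 ≠ 0 ∧
      |(q.1:ℝ) * x - q.2| < |(q.1:ℝ)|^(-(2*τ-1))}.Infinite}) ∪
      ⋃ N : ℕ, {x : ℝ | {i | x ∈ T2 ((N : ℝ) + 1) τ (h0 N) i}.Infinite} := by
    intro x hx
    by_contra hne
    rw [Set.mem_union, Set.mem_union, not_or, not_or] at hne
    obtain ⟨⟨hirr, hk1⟩, hk2⟩ := hne
    have hxi : Irrational x := hirr
    have hQ : {q : ℤ × ℤ | q.1 ≠ 0 ∧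
      |(q.1:ℝ) * x - q.2| < |(q.1:ℝ)|^(-(2*τ-1))}.Finite := Set.not_infinite.1 hk1
    have hT : ∀ N : ℕ, {i | x ∈ T2 ((N : ℝ) + 1) τ (h0 N) i}.Finite := by
      intro N
      by_contra hcon
      apply hk2
      rw [Set.mem_iUnion]
      exact ⟨N, hcon⟩
    have hx0 : x ≠ 0 := by
      rintro rfl
      exact hxi ⟨0, by simp⟩
    have hxp : 0 < |x| := abs_pos.2 hx0
    obtain ⟨N, hN⟩ := exists_nat_ge (max |x| (1 / |x|))
    have hN1 : |x| ≤ (N : ℝ) + 1 := by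
      have := (le_max_left _ _).trans hN
      linarith
    have hN2 : 1 / ((N : ℝ) + 1) ≤ |x| := by
      have h1 := (le_max_right _ _).trans hN
      have hNp : (0 : ℝ) < (N : ℝ) + 1 := by positivity
      rw [div_le_iff₀ hNp]
      rw [div_le_iff₀ hxp] at h1
      nlinarith
    choose β hβ using sg_abs_aux
    obtain ⟨ι, hι⟩ : ∃ ι : ℤ × ℤ × ℤ → ((ℤ × ℤ) × ℤ) × (Bool × Bool × Bool),
        ι = fun G => (((G.1, G.2.1), -G.2.2),
          (β (F2 (0, G.1, G.2.1) x), β (F1 (0, G.1, G.2.1) x), β x)) := ⟨_, rfl⟩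
    have hinj : Function.Injective ι := by
      rintro ⟨e, f, g⟩ ⟨e', f', g'⟩ h
      rw [hι] at h
      simp only [Prod.mk.injEq, neg_inj] at h
      obtain ⟨⟨⟨h1, h2⟩, h3⟩, -⟩ := h
      rw [h1, h2, h3]
    apply hx
    have hfinal := ((fin_a_aux τ x (h0 N) hτ).union (fin_b_aux τ x hτ hxi hQ)).union
      ((hT N).preimage (f := ι) (hinj.injOn))
    apply hfinal.subset
    rintro ⟨e, f, g⟩ ⟨h1, h2⟩
    simp only at h1 h2
    by_cases ha : max |(e : ℝ)| |(f : ℝ)| < h0 N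
    · exact Or.inl (Or.inl ⟨h1, h2, ha⟩)
    by_cases hb : e ≠ 0 ∧ f ^ 2 = 4 * e * g
    · exact Or.inl (Or.inr ⟨h2, hb.1, hb.2⟩)
    right
    show x ∈ T2 ((N : ℝ) + 1) τ (h0 N) (ι (e, f, g))
    rw [hι]
    have hF1 : F1 (0, e, f) x ≠ 0 := by
      unfold F1
      simp only [Int.cast_zero, mul_zero, zero_mul, zero_add]
      by_cases he : e = 0
      · rcases h1 with h1 | h1
        · exact absurd he h1
        · rw [he]
          simpa using h1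
      · intro h
        apply irr_ne_aux x hxi (2 * e, -f) (by simpa using he)
        push_cast
        linarith
    refine ⟨?_, ⟨?_, ?_, ?_, ?_⟩, ?_, ?_⟩
    · rw [hF_aux]
      exact not_lt.1 ha
    · show 1 / ((N : ℝ) + 1) ≤ sg (β x) * x
      rw [hβ]
      exact hN2
    · show sg (β x) * x ≤ (N : ℝ) + 1
      rw [hβ]
      exact hN1
    · show 0 ≤ sg (β (F2 (0, e, f) x)) * F2 (0, e, f) x
      rw [hβ]
      exact abs_nonneg _
    · show 0 < sg (β (F1 (0, e, f) x)) * F1 (0, e, f) x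
      rw [hβ]
      exact abs_pos.2 hF1
    · rw [hF_aux]
      have h5 : Fv (0, e, f) x - ((-g : ℤ) : ℝ) = (e : ℝ) * x ^ 2 + f * x + g := by
        unfold Fv
        push_cast
        ring
      show |Fv (0, e, f) x - ((-g : ℤ) : ℝ)| < _
      rw [h5]
      exact h2
    · rintro ⟨h5, h6⟩
      apply hb
      refine ⟨h5, ?_⟩
      simp only at h6
      linarith
  calc dimH {x : ℝ | {G : ℤ × ℤ × ℤ | (G.1 ≠ 0 ∨ G.2.1 ≠ 0) ∧
      |(G.1:ℝ) * x^2 + G.2.1 * x + G.2.2| <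
      (max |(G.1:ℝ)| |(G.2.1:ℝ)|)^(-(3*τ-1))}.Infinite} ≤ _ := dimH_mono hcov
    _ ≤ ENNReal.ofReal s := by
      rw [dimH_union, dimH_union, dimH_iUnion]
      refine max_le (max_le ?_ ?_) (iSup_le hh0)
      · rw [(Set.countable_range _).dimH_zero]
        exact bot_le
      · exact (dimH_K1 τ hτ).trans (ENNReal.ofReal_le_ofReal hs.le)

theorem dimH_K2 (τ : ℝ) (hτ : 1 < τ) :
    dimH {x : ℝ | {G : ℤ × ℤ × ℤ | (G.1 ≠ 0 ∨ G.2.1 ≠ 0) ∧ |(G.1:ℝ) * x^2 + G.2.1 * x + G.2.2| <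
      (max |(G.1:ℝ)| |(G.2.1:ℝ)|)^(-(3*τ-1))}.Infinite} ≤ ENNReal.ofReal (1/τ) := by
  have h1 : 1 / τ < 1 := by
    rw [div_lt_one (by linarith)]
    exact hτ
  have ht : Filter.Tendsto (fun s : ℝ => ENNReal.ofReal s) (nhdsWithin (1 / τ) (Set.Ioi (1 / τ)))
      (nhds (ENNReal.ofReal (1 / τ))) :=
    (ENNReal.continuous_ofReal.tendsto _).mono_left nhdsWithin_le_nhds
  refine ge_of_tendsto ht ?_
  filter_upwards [Ioo_mem_nhdsGT h1] with s hs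
  exact dimH_K2_aux τ s hτ hs.1 hs.2.le


end YU432
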