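import Pool.Agent.Helper432.YU.Pc
import Pool.Agent.Helper432.YU.Geo

open MeasureTheory Set
open scoped ENNReal

namespace YU432

theorem Fv_hasDerivAt (F : ℤ × ℤ × ℤ) (x : ℝ) : HasDerivAt (Fv F) (F1 F x) x := by
  have h1 : HasDerivAt (fun x : ℝ => (F.1:ℝ) * x^3) (F.1 * (3 * x^2)) x := by
    simpa using (hasDerivAt_pow 3 x).const_mul (F.1:ℝ)
  have h2 : HasDerivAt (fun x : ℝ => (F.2.1:ℝ) * x^2) (F.2.1 * (2 * x)) x := by
    simpa using (hasDerivAt_pow 2 x).const_mul (F.2.1:ℝ)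
  have h3 : HasDerivAt (fun x : ℝ => (F.2.2:ℝ) * x) (F.2.2) x := by
    simpa using (hasDerivAt_id x).const_mul (F.2.2:ℝ)
  have h := (h1.add h2).add h3
  have e : (F.1:ℝ) * (3 * x^2) + F.2.1 * (2 * x) + F.2.2 = F1 F x := by
    unfold F1; ring
  rw [e] at h
  exact h

theorem fcostG (M : ℝ) (hM : 1 ≤ M) (s : ℝ) (hs0 : 0 < s) (hs1 : s ≤ 1) :
    ∃ C : ℝ, 0 < C ∧ ∀ (F : ℤ × ℤ × ℤ) (σ : Bool × Bool × Bool) (δ : ℝ), 0 < δ → δ ≤ 1/4 →
      1 ≤ hF F → ∃ k0 : ℤ,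
      ∑' k : {k : ℤ // k ≠ k0}, (Metric.ediam {x | x ∈ piece M F σ ∧ |Fv F x - (k.1:ℝ)| < δ})^s ≤
        ENNReal.ofReal (C * δ^s * (hF F)^(1-s)) := by
  have h4 : (0:ℝ) < (4:ℝ)^s := by positivity
  have hM0 : 0 < M := by linarith
  refine ⟨4^s * (M + 6*M^3 + 3), by positivity, ?_⟩
  intro F σ δ hδ0 hδ hh
  obtain ⟨hO, ⟨a, ha⟩, hB, hsg, hmon⟩ := piece_geo M hM F σ
  have hh0 : 0 < hF F := by linarith
  obtain ⟨k0, hk0⟩ := pieceAll (Fv F) (F1 F) (piece M F σ) hO (Fv_hasDerivAt F) a M (3*M^3*hF F)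
    ha hM0.le hB (by positivity) hsg hmon δ hδ0 hδ
  refine ⟨k0, (hk0 (hF F) s hh hs0 hs1).trans (ENNReal.ofReal_le_ofReal ?_)⟩
  have e1 : (4*δ)^s = 4^s * δ^s := Real.mul_rpow (by norm_num) hδ0.le
  have e2 : (hF F)^(1-s) = hF F * (hF F)^(-s) := by
    rw [sub_eq_add_neg, Real.rpow_add hh0, Real.rpow_one]
  have hp : 0 < (hF F)^(-s) := Real.rpow_pos_of_pos hh0 _
  have hd : 0 < δ^s := Real.rpow_pos_of_pos hδ0 _
  rw [e1, e2]
  have key : hF F * (hF F)^(-s) * M + (2*(3*M^3*hF F)+3) * (hF F)^(-s) ≤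
      (M + 6*M^3 + 3) * (hF F * (hF F)^(-s)) := by
    have : 3 * (hF F)^(-s) ≤ 3 * (hF F * (hF F)^(-s)) := by nlinarith
    nlinarith
  calc 4^s * δ^s * (hF F * (hF F)^(-s) * M + (2*(3*M^3*hF F)+3) * (hF F)^(-s))
      ≤ 4^s * δ^s * ((M + 6*M^3 + 3) * (hF F * (hF F)^(-s))) :=
        mul_le_mul_of_nonneg_left key (by positivity)
    _ = 4^s * (M + 6*M^3 + 3) * δ^s * (hF F * (hF F)^(-s)) := by ring

theorem ediam_big (M : ℝ) (hM : 1 ≤ M) (F : ℤ × ℤ × ℤ) (σ : Bool × Bool × Bool) (k δ m : ℝ)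
    (hm : 0 < m) :
    Metric.ediam {x | x ∈ piece M F σ ∧ |Fv F x - k| < δ ∧ m ≤ |F1 F x|} ≤
      ENNReal.ofReal (2*δ/m) := by
  obtain ⟨hO, _, _, hsg, hmon⟩ := piece_geo M hM F σ
  have hO' : ({x | x ∈ piece M F σ ∧ m ≤ |F1 F x|} : Set ℝ).OrdConnected := by
    refine ⟨?_⟩
    rintro x ⟨hx, hxm⟩ y ⟨hy, hym⟩ z hz
    have hzS : z ∈ piece M F σ := hO.out hx hy hz
    refine ⟨hzS, ?_⟩
    rcases hsg with hp | hn
    · rw [abs_of_pos (hp z hzS)]
      rw [abs_of_pos (hp x hx)] at hxm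
      rw [abs_of_pos (hp y hy)] at hym
      rcases hmon with h1 | h1
      · exact hxm.trans (h1 hx hzS hz.1)
      · exact hym.trans (h1 hzS hy hz.2)
    · rw [abs_of_neg (hn z hzS)]
      rw [abs_of_neg (hn x hx)] at hxm
      rw [abs_of_neg (hn y hy)] at hym
      rcases hmon with h1 | h1
      · have := h1 hzS hy hz.2
        linarith
      · have := h1 hx hzS hz.1
        linarith
  have h := ediam_le_of_deriv (Fv F) (F1 F) {x | x ∈ piece M F σ ∧ m ≤ |F1 F x|} hO'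
    (Fv_hasDerivAt F) (by
      rcases hsg with hp | hn
      · exact Or.inl fun x hx => hp x hx.1
      · exact Or.inr fun x hx => hn x hx.1) k δ m hm (fun x hx _ => hx.2)
  refine le_trans (Metric.ediam_mono ?_) h
  rintro x ⟨h1, h2, h3⟩
  exact ⟨⟨h1, h3⟩, h2⟩

theorem eq_key (M : ℝ) (F : ℤ × ℤ × ℤ) (σ : Bool × Bool × Bool) (k δ m : ℝ)
    (hm : 0 < m) (x y : ℝ) (hx : x ∈ {x | x ∈ piece M F σ ∧ |Fv F x - k| < δ ∧ m ≤ |F2 F x|})
    (hy : y ∈ {x | x ∈ piece M F σ ∧ |Fv F x - k| < δ ∧ m ≤ |F2 F x|}) (hxy : x < y) :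
    y - x ≤ 2 * Real.sqrt (δ/m) := by
  obtain ⟨⟨_, _, hx1, hx2⟩, hx3, hx4⟩ := hx
  obtain ⟨⟨_, _, hy1, hy2⟩, hy3, hy4⟩ := hy
  have hh : 0 < y - x := by linarith
  have e1 : Fv F y - Fv F x = (y - x) * F1 F x + (y - x)^2 * (2 * F2 F x + F2 F y) / 6 := by
    unfold Fv F1 F2; ring
  have e2 : Fv F y - Fv F x = (y - x) * F1 F y - (y - x)^2 * (F2 F x + 2 * F2 F y) / 6 := by
    unfold Fv F1 F2; ring
  have hd : |Fv F y - Fv F x| < 2 * δ := by
    have h1 : Fv F y - Fv F x = (Fv F y - k) - (Fv F x - k) := by ring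
    rw [h1]
    calc |(Fv F y - k) - (Fv F x - k)| ≤ |Fv F y - k| + |Fv F x - k| := abs_sub _ _
      _ < 2 * δ := by linarith
  have hd1 := (abs_lt.mp hd).1
  have hd2 := (abs_lt.mp hd).2
  have hsq : (y - x)^2 * m / 2 ≤ 2 * δ := by
    have hh2 : 0 ≤ (y - x)^2 := sq_nonneg _
    rcases hσ1 : σ.1 with _ | _ <;> rcases hσ2 : σ.2.1 with _ | _
    · -- both false
      simp only [hσ1, hσ2, sg] at hx1 hx2 hy1 hy2
      simp only [Bool.false_eq_true, if_false] at hx1 hx2 hy1 hy2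
      have a1 : m ≤ -F2 F x := by rw [abs_of_nonpos (by linarith)] at hx4; exact hx4
      have a2 : m ≤ -F2 F y := by rw [abs_of_nonpos (by linarith)] at hy4; exact hy4
      have b1 : 0 ≤ (y - x) * (-F1 F x) := mul_nonneg hh.le (by linarith)
      have b2 : (y - x)^2 * (3 * m) ≤ (y - x)^2 * (-(2 * F2 F x + F2 F y)) :=
        mul_le_mul_of_nonneg_left (by linarith) hh2
      linarith
    · simp only [hσ1, hσ2, sg] at hx1 hx2 hy1 hy2
      simp only [Bool.false_eq_true, if_false, if_true] at hx1 hx2 hy1 hy2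
      have a1 : m ≤ -F2 F x := by rw [abs_of_nonpos (by linarith)] at hx4; exact hx4
      have a2 : m ≤ -F2 F y := by rw [abs_of_nonpos (by linarith)] at hy4; exact hy4
      have b1 : 0 ≤ (y - x) * (F1 F y) := mul_nonneg hh.le (by linarith)
      have b2 : (y - x)^2 * (3 * m) ≤ (y - x)^2 * (-(F2 F x + 2 * F2 F y)) :=
        mul_le_mul_of_nonneg_left (by linarith) hh2
      linarith
    · simp only [hσ1, hσ2, sg] at hx1 hx2 hy1 hy2
      simp only [Bool.false_eq_true, if_false, if_true] at hx1 hx2 hy1 hy2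
      have a1 : m ≤ F2 F x := by rw [abs_of_nonneg (by linarith)] at hx4; exact hx4
      have a2 : m ≤ F2 F y := by rw [abs_of_nonneg (by linarith)] at hy4; exact hy4
      have b1 : 0 ≤ (y - x) * (-F1 F y) := mul_nonneg hh.le (by linarith)
      have b2 : (y - x)^2 * (3 * m) ≤ (y - x)^2 * (F2 F x + 2 * F2 F y) :=
        mul_le_mul_of_nonneg_left (by linarith) hh2
      linarith
    · simp only [hσ1, hσ2, sg] at hx1 hx2 hy1 hy2
      simp only [if_true] at hx1 hx2 hy1 hy2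
      have a1 : m ≤ F2 F x := by rw [abs_of_nonneg (by linarith)] at hx4; exact hx4
      have a2 : m ≤ F2 F y := by rw [abs_of_nonneg (by linarith)] at hy4; exact hy4
      have b1 : 0 ≤ (y - x) * (F1 F x) := mul_nonneg hh.le (by linarith)
      have b2 : (y - x)^2 * (3 * m) ≤ (y - x)^2 * (2 * F2 F x + F2 F y) :=
        mul_le_mul_of_nonneg_left (by linarith) hh2
      linarith
  have h3 : ((y - x) / 2)^2 ≤ δ / m := by
    rw [le_div_iff₀ hm]
    nlinarith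
  have h4 : (y - x) / 2 ≤ Real.sqrt (δ / m) := by
    have := Real.abs_le_sqrt h3
    exact (le_abs_self _).trans this
  linarith

theorem ediam_quad (M : ℝ) (hM : 1 ≤ M) (F : ℤ × ℤ × ℤ) (σ : Bool × Bool × Bool) (k δ m : ℝ)
    (hm : 0 < m) :
    Metric.ediam {x | x ∈ piece M F σ ∧ |Fv F x - k| < δ ∧ m ≤ |F2 F x|} ≤
      ENNReal.ofReal (2 * Real.sqrt (δ/m)) := by
  apply Metric.ediam_le
  intro x hx y hy
  rw [edist_dist, Real.dist_eq]
  apply ENNReal.ofReal_le_ofReal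
  rcases lt_trichotomy x y with h | h | h
  · rw [abs_of_nonpos (by linarith)]
    have := eq_key M F σ k δ m hm x y hx hy h
    linarith
  · rw [h, sub_self, abs_zero]
    positivity
  · rw [abs_of_nonneg (by linarith)]
    exact eq_key M F σ k δ m hm y x hy hx h


end YU432
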