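import Pool.Agent.Helper432.YU.Fac

open MeasureTheory Set
open scoped ENNReal

namespace YU432

theorem red_excl_const {α : Type*} (S : Set α) (hS : S.Finite) (r : α → ℝ)
    (hr : ∀ s ∈ S, 0 < r s) : ∃ c : ℝ, 0 < c ∧ c ≤ 1 ∧ ∀ s ∈ S, c ≤ r s := by
  classical
  induction S, hS using Set.Finite.induction_on with
  | empty => exact ⟨1, one_pos, le_rfl, fun s hs => absurd hs (Set.notMem_empty s)⟩
  | @insert a S ha hS ih =>
    obtain ⟨c, h1, h2, h3⟩ := ih (fun s hs => hr s (Set.mem_insert_of_mem _ hs))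
    refine ⟨min c (r a), lt_min h1 (hr a (Set.mem_insert _ _)), le_trans (min_le_left _ _) h2, ?_⟩
    intro s hs
    rcases Set.mem_insert_iff.1 hs with h | h
    · rw [h]
      exact min_le_right _ _
    · exact le_trans (min_le_left _ _) (h3 s h)

theorem red_excl_A (τ : ℝ) (x : ℝ)
    (hnz : ∀ P : (ℤ × ℤ × ℤ) × ℤ, P ≠ 0 → Fv P.1 x + P.2 ≠ 0)
    (hK1 : ¬ {q : ℤ × ℤ | q.1 ≠ 0 ∧ |(q.1:ℝ) * x - q.2| < |(q.1:ℝ)|^(-(2*τ-1))}.Infinite) :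
    ∃ c : ℝ, 0 < c ∧ c ≤ 1 ∧ ∀ u v : ℤ, u ≠ 0 →
      c * |(u:ℝ)|^(-(2*τ-1)) ≤ |(u:ℝ) * x - v| := by
  have hfin := Set.not_infinite.1 hK1
  have hpos : ∀ u : ℤ, u ≠ 0 → 0 < |(u:ℝ)|^(-(2*τ-1)) := by
    intro u hu
    apply Real.rpow_pos_of_pos
    rw [abs_pos]
    exact_mod_cast hu
  obtain ⟨c, h1, h2, h3⟩ := red_excl_const _ hfin
    (fun q => |(q.1:ℝ) * x - q.2| / |(q.1:ℝ)|^(-(2*τ-1))) (by
      rintro ⟨u, v⟩ ⟨hu, -⟩
      apply div_pos _ (hpos u hu)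
      rw [abs_pos]
      have h := hnz ((0, 0, u), -v) (by
        intro h
        apply hu
        have := congrArg (fun z => z.1.2.2) h
        simpa using this)
      intro h0
      apply h
      simp only [Fv]
      push_cast
      linarith)
  refine ⟨c, h1, h2, fun u v hu => ?_⟩
  by_cases hm : |(u:ℝ) * x - v| < |(u:ℝ)|^(-(2*τ-1))
  · have := h3 (u, v) ⟨hu, hm⟩
    exact (le_div_iff₀ (hpos u hu)).1 this
  · push Not at hm
    refine le_trans ?_ hm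
    have := hpos u hu
    nlinarith

theorem red_excl_B (τ : ℝ) (x : ℝ)
    (hnz : ∀ P : (ℤ × ℤ × ℤ) × ℤ, P ≠ 0 → Fv P.1 x + P.2 ≠ 0)
    (hK2 : ¬ {G : ℤ × ℤ × ℤ | (G.1 ≠ 0 ∨ G.2.1 ≠ 0) ∧ |(G.1:ℝ) * x^2 + G.2.1 * x + G.2.2| <
      (max |(G.1:ℝ)| |(G.2.1:ℝ)|)^(-(3*τ-1))}.Infinite) :
    ∃ c : ℝ, 0 < c ∧ c ≤ 1 ∧ ∀ e f g : ℤ, (e ≠ 0 ∨ f ≠ 0) →
      c * (max |(e:ℝ)| |(f:ℝ)|)^(-(3*τ-1)) ≤ |(e:ℝ) * x^2 + f * x + g| := by
  have hfin := Set.not_infinite.1 hK2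
  have hpos : ∀ e f : ℤ, (e ≠ 0 ∨ f ≠ 0) → 0 < (max |(e:ℝ)| |(f:ℝ)|)^(-(3*τ-1)) := by
    intro e f hef
    apply Real.rpow_pos_of_pos
    rcases hef with h | h
    · refine lt_of_lt_of_le ?_ (le_max_left _ _)
      rw [abs_pos]
      exact_mod_cast h
    · refine lt_of_lt_of_le ?_ (le_max_right _ _)
      rw [abs_pos]
      exact_mod_cast h
  obtain ⟨c, h1, h2, h3⟩ := red_excl_const _ hfin
    (fun G => |(G.1:ℝ) * x^2 + G.2.1 * x + G.2.2| / (max |(G.1:ℝ)| |(G.2.1:ℝ)|)^(-(3*τ-1))) (by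
      rintro ⟨e, f, g⟩ ⟨hu, -⟩
      apply div_pos _ (hpos e f hu)
      rw [abs_pos]
      have h := hnz ((0, e, f), g) (by
        intro h
        rcases hu with hu | hu
        · apply hu
          have := congrArg (fun z => z.1.2.1) h
          simpa using this
        · apply hu
          have := congrArg (fun z => z.1.2.2) h
          simpa using this)
      intro h0
      apply h
      simp only [Fv]
      push_cast
      linarith)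
  refine ⟨c, h1, h2, fun e f g hu => ?_⟩
  by_cases hm : |(e:ℝ) * x^2 + f * x + g| < (max |(e:ℝ)| |(f:ℝ)|)^(-(3*τ-1))
  · have := h3 (e, f, g) ⟨hu, hm⟩
    exact (le_div_iff₀ (hpos e f hu)).1 this
  · push Not at hm
    refine le_trans ?_ hm
    have := hpos e f hu
    nlinarith

theorem red_excl_factor (a b c d u v : ℤ) (hu : u ≠ 0)
    (h : a*v^3 + b*v^2*u + c*v*u^2 + d*u^3 = 0) :
    ∃ U V e f g : ℤ, U ≠ 0 ∧ a = U*e ∧ b = U*f - V*e ∧ c = U*g - V*f ∧ d = -(V*g) := by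
  obtain ⟨D, U, V, hD, hcop, hU, hV⟩ := Int.exists_gcd_one' (m := u) (n := v) (by
    rw [Int.gcd_pos_iff]
    exact Or.inl hu)
  have hD0 : (D : ℤ) ≠ 0 := by exact_mod_cast hD.ne'
  have hU0 : U ≠ 0 := by
    rintro rfl
    apply hu
    rw [hU, zero_mul]
  have hcop' : IsCoprime U V := Int.isCoprime_iff_gcd_eq_one.2 hcop
  have h1 : a*V^3 + b*V^2*U + c*V*U^2 + d*U^3 = 0 := by
    have h2 : (D : ℤ)^3 * (a*V^3 + b*V^2*U + c*V*U^2 + d*U^3) = 0 := by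
      rw [← h, hU, hV]
      ring
    exact (mul_eq_zero.1 h2).resolve_left (pow_ne_zero 3 hD0)
  have h2 : U ∣ a := by
    have h3 : U ∣ a * V^3 := ⟨-(b*V^2 + c*V*U + d*U^2), by linarith⟩
    exact (hcop'.pow_right (n := 3)).dvd_of_dvd_mul_right h3
  obtain ⟨e, he⟩ := h2
  have h4 : e*V^3 + b*V^2 + c*V*U + d*U^2 = 0 := by
    have h5 : U * (e*V^3 + b*V^2 + c*V*U + d*U^2) = 0 := by
      rw [he] at h1
      rw [← h1]
      ring
    exact (mul_eq_zero.1 h5).resolve_left hU0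
  have h6 : U ∣ (e*V + b) := by
    have h7 : U ∣ (e*V + b) * V^2 := ⟨-(c*V + d*U), by linarith⟩
    exact (hcop'.pow_right (n := 2)).dvd_of_dvd_mul_right h7
  obtain ⟨f, hf⟩ := h6
  have h8 : f*V^2 + c*V + d*U = 0 := by
    have h9 : U * (f*V^2 + c*V + d*U) = 0 := by
      have : U * (f*V^2 + c*V + d*U) = (U*f)*V^2 + c*V*U + d*U^2 := by ring
      rw [this, ← hf]
      linarith
    exact (mul_eq_zero.1 h9).resolve_left hU0
  have h10 : U ∣ (f*V + c) := by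
    have h11 : U ∣ (f*V + c) * V := ⟨-d, by linarith⟩
    exact hcop'.dvd_of_dvd_mul_right h11
  obtain ⟨g, hg⟩ := h10
  have h12 : V*g + d = 0 := by
    have h13 : U * (V*g + d) = 0 := by
      have : U * (V*g + d) = (U*g)*V + d*U := by ring
      rw [this, ← hg]
      linarith
    exact (mul_eq_zero.1 h13).resolve_left hU0
  exact ⟨U, V, e, f, g, hU0, he, by linarith, by linarith, by linarith⟩

theorem red_excl_bound (a b c d U V e f g : ℝ) (H : ℝ) (ha : a = U*e) (hb : b = U*f - V*e)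
    (hc : c = U*g - V*f) (hd : d = -(V*g)) (hA : |a| ≤ H) (hB : |b| ≤ H) (hC : |c| ≤ H)
    (hD : |d| ≤ H) : |U| * max |e| |f| ≤ 2*H := by
  have hH : 0 ≤ H := le_trans (abs_nonneg a) hA
  have h1 : |U| * |e| ≤ 2*H := by
    rw [← abs_mul, ← ha]
    linarith
  have h2 : |U| * |f| ≤ 2*H := by
    rw [← abs_mul]
    rcases le_total |V| |U| with h | h
    · have h0 : U*f = b + V*e := by linarith
      have h3 : |V*e| ≤ |U*e| := by
        rw [abs_mul, abs_mul]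
        exact mul_le_mul_of_nonneg_right h (abs_nonneg _)
      have h4 := abs_add_le b (V*e)
      rw [← ha] at h3
      rw [h0]
      linarith
    · have h3 : |U*f| ≤ |V*f| := by
        rw [abs_mul, abs_mul]
        exact mul_le_mul_of_nonneg_right h (abs_nonneg _)
      have h4 : V*f = U*g - c := by linarith
      have h5 : |U*g| ≤ |V*g| := by
        rw [abs_mul, abs_mul]
        exact mul_le_mul_of_nonneg_right h (abs_nonneg _)
      have h6 : |V*g| = |d| := by rw [hd, abs_neg]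
      have h7 : |U*g - c| ≤ |U*g| + |c| := abs_sub _ _
      rw [← h4] at h7
      linarith
  rw [mul_max_of_nonneg _ _ (abs_nonneg U)]
  exact max_le h1 h2

theorem red_excl_lower (τ : ℝ) (hτ : 1 < τ) (x c1 c2 Cx h : ℝ) (hc1 : 0 < c1) (hc2 : 0 < c2)
    (hc2' : c2 ≤ 1) (hCx : 1 ≤ Cx) (hh : 1 ≤ h)
    (hA : ∀ u v : ℤ, u ≠ 0 → c1 * |(u:ℝ)|^(-(2*τ-1)) ≤ |(u:ℝ) * x - v|)
    (hB : ∀ e f g : ℤ, (e ≠ 0 ∨ f ≠ 0) →
      c2 * (max |(e:ℝ)| |(f:ℝ)|)^(-(3*τ-1)) ≤ |(e:ℝ) * x^2 + f * x + g|)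
    (U V e f g : ℤ) (hU : U ≠ 0) (hb : |(U:ℝ)| * max |(e:ℝ)| |(f:ℝ)| ≤ 2 * (Cx * h))
    (hg : e = 0 → f = 0 → g ≠ 0 ∧ |(U:ℝ) * g| ≤ h) :
    c1 * c2 * (2 * Cx * h)^(-(3*τ-1)) ≤ |((U:ℝ) * x - V) * ((e:ℝ) * x^2 + f * x + g)| := by
  have hU1 : 1 ≤ |(U:ℝ)| := by
    have : 1 ≤ |U| := Int.one_le_abs hU
    exact_mod_cast this
  rw [abs_mul]
  have hp : -(3*τ-1) ≤ 0 := by linarith
  by_cases hef : e ≠ 0 ∨ f ≠ 0
  · have hm : 1 ≤ max |(e:ℝ)| |(f:ℝ)| := by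
      rcases hef with he | he
      · refine le_trans ?_ (le_max_left _ _)
        have : 1 ≤ |e| := Int.one_le_abs he
        exact_mod_cast this
      · refine le_trans ?_ (le_max_right _ _)
        have : 1 ≤ |f| := Int.one_le_abs he
        exact_mod_cast this
    have e1 := hA U V hU
    have e2 := hB e f g hef
    set m := max |(e:ℝ)| |(f:ℝ)| with hm'
    have e3 : |(U:ℝ)|^(-(3*τ-1)) ≤ |(U:ℝ)|^(-(2*τ-1)) :=
      Real.rpow_le_rpow_of_exponent_le hU1 (by linarith)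
    have e4 : (2 * Cx * h)^(-(3*τ-1)) ≤ (|(U:ℝ)| * m)^(-(3*τ-1)) :=
      Real.rpow_le_rpow_of_nonpos (by positivity) (by linarith) hp
    rw [Real.mul_rpow (abs_nonneg _) (by linarith)] at e4
    have q1 : 0 ≤ |(U:ℝ)|^(-(3*τ-1)) := Real.rpow_nonneg (abs_nonneg _) _
    have q2 : 0 ≤ m^(-(3*τ-1)) := Real.rpow_nonneg (by linarith) _
    calc c1 * c2 * (2 * Cx * h)^(-(3*τ-1))
        ≤ c1 * c2 * (|(U:ℝ)|^(-(3*τ-1)) * m^(-(3*τ-1))) := by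
          apply mul_le_mul_of_nonneg_left e4 (by positivity)
      _ = (c1 * |(U:ℝ)|^(-(3*τ-1))) * (c2 * m^(-(3*τ-1))) := by ring
      _ ≤ (c1 * |(U:ℝ)|^(-(2*τ-1))) * (c2 * m^(-(3*τ-1))) := by
          apply mul_le_mul_of_nonneg_right _ (by positivity)
          exact mul_le_mul_of_nonneg_left e3 hc1.le
      _ ≤ |(U:ℝ) * x - V| * |(e:ℝ) * x^2 + f * x + g| :=
          mul_le_mul e1 e2 (by positivity) (abs_nonneg _)
  · push Not at hef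
    obtain ⟨he, hf⟩ := hef
    obtain ⟨hg0, hg1⟩ := hg he hf
    have hg2 : 1 ≤ |(g:ℝ)| := by
      have : 1 ≤ |g| := Int.one_le_abs hg0
      exact_mod_cast this
    have hUh : |(U:ℝ)| ≤ h := by
      rw [abs_mul] at hg1
      nlinarith
    have e1 := hA U V hU
    have e3 : |(U:ℝ)|^(-(3*τ-1)) ≤ |(U:ℝ)|^(-(2*τ-1)) :=
      Real.rpow_le_rpow_of_exponent_le hU1 (by linarith)
    have hle : |(U:ℝ)| ≤ 2 * Cx * h := by nlinarith
    have e4 : (2 * Cx * h)^(-(3*τ-1)) ≤ |(U:ℝ)|^(-(3*τ-1)) :=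
      Real.rpow_le_rpow_of_nonpos (by linarith) hle hp
    have e5 : |(e:ℝ) * x^2 + f * x + g| = |(g:ℝ)| := by
      rw [he, hf]
      simp
    rw [e5]
    have q0 : 0 ≤ (2 * Cx * h)^(-(3*τ-1)) := Real.rpow_nonneg (by positivity) _
    calc c1 * c2 * (2 * Cx * h)^(-(3*τ-1))
        ≤ c1 * 1 * (2 * Cx * h)^(-(3*τ-1)) := by
          apply mul_le_mul_of_nonneg_right _ q0
          exact mul_le_mul_of_nonneg_left hc2' hc1.le
      _ = c1 * (2 * Cx * h)^(-(3*τ-1)) := by ring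
      _ ≤ c1 * |(U:ℝ)|^(-(2*τ-1)) := mul_le_mul_of_nonneg_left (le_trans e4 e3) hc1.le
      _ ≤ |(U:ℝ) * x - V| := e1
      _ = |(U:ℝ) * x - V| * 1 := by ring
      _ ≤ |(U:ℝ) * x - V| * |(g:ℝ)| := mul_le_mul_of_nonneg_left hg2 (abs_nonneg _)

theorem red_excl (τ : ℝ) (hτ : 1 < τ) (κ : ℝ) (hκ : 0 < κ) (x : ℝ)
    (hnz : ∀ P : (ℤ × ℤ × ℤ) × ℤ, P ≠ 0 → Fv P.1 x + P.2 ≠ 0)
    (hK1 : ¬ {q : ℤ × ℤ | q.1 ≠ 0 ∧ |(q.1:ℝ) * x - q.2| < |(q.1:ℝ)|^(-(2*τ-1))}.Infinite)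
    (hK2 : ¬ {G : ℤ × ℤ × ℤ | (G.1 ≠ 0 ∨ G.2.1 ≠ 0) ∧ |(G.1:ℝ) * x^2 + G.2.1 * x + G.2.2| <
      (max |(G.1:ℝ)| |(G.2.1:ℝ)|)^(-(3*τ-1))}.Infinite) :
    {P : (ℤ × ℤ × ℤ) × ℤ | P.1 ≠ 0 ∧ (∃ u v : ℤ, u ≠ 0 ∧
        P.1.1*v^3 + P.1.2.1*v^2*u + P.1.2.2*v*u^2 + P.2*u^3 = 0) ∧
      κ * (hF P.1)^2 ≤ PiF P.1 ∧ |Fv P.1 x + P.2| < (PiF P.1)^(-(2*τ-1))}.Finite := by
  obtain ⟨c1, hc1, hc1', hA⟩ := red_excl_A τ x hnz hK1
  obtain ⟨c2, hc2, hc2', hB⟩ := red_excl_B τ x hnz hK2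
  obtain ⟨Cx, hCx⟩ : ∃ C : ℝ, C = |x|^3 + |x|^2 + |x| + 1 := ⟨_, rfl⟩
  have hx0 := abs_nonneg x
  have hCx1 : 1 ≤ Cx := by
    rw [hCx]
    have : 0 ≤ |x|^3 + |x|^2 + |x| := by positivity
    linarith
  have hden : 0 < c1 * c2 * (2 * Cx)^(-(3*τ-1)) :=
    mul_pos (mul_pos hc1 hc2) (Real.rpow_pos_of_pos (by linarith) _)
  obtain ⟨K, hK⟩ : ∃ K : ℝ, K = κ^(-(2*τ-1)) / (c1 * c2 * (2 * Cx)^(-(3*τ-1))) := ⟨_, rfl⟩
  refine (finite_small x (K^(1/(τ-1)))).subset ?_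
  rintro ⟨⟨a, b, c⟩, d⟩ ⟨hP1, ⟨u, v, hu, huv⟩, hκP, hPx⟩
  simp only at hP1 huv hκP hPx
  obtain ⟨U, V, e, f, g, hU, hae, hbf, hcg, hdg⟩ := red_excl_factor a b c d u v hu huv
  have hPi1 : 1 ≤ PiF (a, b, c) := by
    unfold PiF
    have h1 : (1:ℝ) ≤ max 1 |(a:ℝ)| := le_max_left _ _
    have h2 : (1:ℝ) ≤ max 1 |(b:ℝ)| := le_max_left _ _
    have h3 : (1:ℝ) ≤ max 1 |(c:ℝ)| := le_max_left _ _
    exact one_le_mul_of_one_le_of_one_le (one_le_mul_of_one_le_of_one_le h1 h2) h3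
  have hPx1 : |Fv (a, b, c) x + d| < 1 :=
    lt_of_lt_of_le hPx (Real.rpow_le_one_of_one_le_of_nonpos hPi1 (by linarith))
  have haH : |(a:ℝ)| ≤ hF (a, b, c) := le_trans (le_max_left _ _) (le_max_left _ _)
  have hbH : |(b:ℝ)| ≤ hF (a, b, c) := le_trans (le_max_right _ _) (le_max_left _ _)
  have hcH : |(c:ℝ)| ≤ hF (a, b, c) := le_max_right _ _
  have hh1 : 1 ≤ hF (a, b, c) := by
    by_cases ha : a = 0
    · by_cases hb : b = 0
      · have hc : c ≠ 0 := by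
          rintro rfl
          apply hP1
          rw [ha, hb]
          rfl
        refine le_trans ?_ hcH
        have : 1 ≤ |c| := Int.one_le_abs hc
        exact_mod_cast this
      · refine le_trans ?_ hbH
        have : 1 ≤ |b| := Int.one_le_abs hb
        exact_mod_cast this
    · refine le_trans ?_ haH
      have : 1 ≤ |a| := Int.one_le_abs ha
      exact_mod_cast this
  show hF (a, b, c) ≤ K^(1/(τ-1)) ∧ |Fv (a, b, c) x + d| < 1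
  generalize hF (a, b, c) = h at *
  generalize PiF (a, b, c) = Pi' at *
  have hxh : h ≤ Cx * h := by nlinarith
  have hdH : |(d:ℝ)| ≤ Cx * h := by
    have h1 : (d:ℝ) = (Fv (a, b, c) x + d) - Fv (a, b, c) x := by ring
    have h2 : |Fv (a, b, c) x| ≤ h * |x|^3 + h * |x|^2 + h * |x| := by
      unfold Fv
      refine le_trans (abs_add_le _ _) ?_
      have h3 := abs_add_le ((a:ℝ) * x^3) ((b:ℝ) * x^2)
      rw [abs_mul, abs_mul, abs_pow, abs_pow] at h3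
      have h4 : |(c:ℝ) * x| = |(c:ℝ)| * |x| := abs_mul _ _
      have h5 : |(a:ℝ)| * |x|^3 ≤ h * |x|^3 := mul_le_mul_of_nonneg_right haH (by positivity)
      have h6 : |(b:ℝ)| * |x|^2 ≤ h * |x|^2 := mul_le_mul_of_nonneg_right hbH (by positivity)
      have h7 : |(c:ℝ)| * |x| ≤ h * |x| := mul_le_mul_of_nonneg_right hcH (by positivity)
      simp only
      linarith
    have h8 : |(Fv (a, b, c) x + d) - Fv (a, b, c) x| ≤ |Fv (a, b, c) x + d| + |Fv (a, b, c) x| :=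
      abs_sub _ _
    rw [← h1] at h8
    have h9 : Cx * h = h * |x|^3 + h * |x|^2 + h * |x| + h := by rw [hCx]; ring
    linarith
  have haR : (a:ℝ) = (U:ℝ) * e := by rw [hae]; push_cast; ring
  have hbR : (b:ℝ) = (U:ℝ) * f - V * e := by rw [hbf]; push_cast; ring
  have hcR : (c:ℝ) = (U:ℝ) * g - V * f := by rw [hcg]; push_cast; ring
  have hdR : (d:ℝ) = -((V:ℝ) * g) := by rw [hdg]; push_cast; ring
  have hbd := red_excl_bound a b c d U V e f g (Cx * h) haR hbR hcR hdR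
    (haH.trans hxh) (hbH.trans hxh) (hcH.trans hxh) hdH
  have hlow := red_excl_lower τ hτ x c1 c2 Cx h hc1 hc2 hc2' hCx1 hh1 hA hB U V e f g hU hbd (by
    intro he hf
    refine ⟨?_, ?_⟩
    · intro hg0
      apply hP1
      rw [hae, hbf, hcg, he, hf, hg0]
      simp
    · have : (U:ℝ) * g = c := by rw [hcR, hf]; simp
      rw [this]
      exact hcH)
  have hfac : ((U:ℝ) * x - V) * ((e:ℝ) * x^2 + f * x + g) = Fv (a, b, c) x + d := by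
    unfold Fv
    simp only
    rw [haR, hbR, hcR, hdR]
    ring
  rw [hfac] at hlow
  refine ⟨?_, hPx1⟩
  have hh0 : 0 < h := by linarith
  have hup : Pi'^(-(2*τ-1)) ≤ κ^(-(2*τ-1)) * h^(-(2*(2*τ-1))) := by
    have h1 : Pi'^(-(2*τ-1)) ≤ (κ * h^2)^(-(2*τ-1)) :=
      Real.rpow_le_rpow_of_nonpos (by positivity) hκP (by linarith)
    rw [Real.mul_rpow hκ.le (by positivity), ← Real.rpow_natCast h 2, ← Real.rpow_mul hh0.le] at h1
    have h2 : ((2:ℕ):ℝ) * -(2*τ-1) = -(2*(2*τ-1)) := by push_cast; ring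
    rw [h2] at h1
    exact h1
  have hlt : c1 * c2 * (2 * Cx)^(-(3*τ-1)) * h^(-(3*τ-1)) < κ^(-(2*τ-1)) * h^(-(2*(2*τ-1))) := by
    have h1 : (2 * Cx * h)^(-(3*τ-1)) = (2 * Cx)^(-(3*τ-1)) * h^(-(3*τ-1)) :=
      Real.mul_rpow (by linarith) hh0.le
    rw [h1] at hlow
    calc c1 * c2 * (2 * Cx)^(-(3*τ-1)) * h^(-(3*τ-1))
        = c1 * c2 * ((2 * Cx)^(-(3*τ-1)) * h^(-(3*τ-1))) := by ring
      _ ≤ |Fv (a, b, c) x + d| := hlow
      _ < Pi'^(-(2*τ-1)) := hPx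
      _ ≤ _ := hup
  have hfin : h^(τ-1) ≤ K := by
    rw [hK, le_div_iff₀ hden]
    have h3 : 0 < h^(2*(2*τ-1)) := Real.rpow_pos_of_pos hh0 _
    have h4 := mul_lt_mul_of_pos_right hlt h3
    have h5 : h^(-(3*τ-1)) * h^(2*(2*τ-1)) = h^(τ-1) := by
      rw [← Real.rpow_add hh0]
      congr 1
      ring
    have h6 : h^(-(2*(2*τ-1))) * h^(2*(2*τ-1)) = 1 := by
      rw [← Real.rpow_add hh0, neg_add_cancel, Real.rpow_zero]
    have h7 : c1 * c2 * (2 * Cx)^(-(3*τ-1)) * h^(-(3*τ-1)) * h^(2*(2*τ-1))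
        = h^(τ-1) * (c1 * c2 * (2 * Cx)^(-(3*τ-1))) := by
      rw [mul_assoc (c1 * c2 * (2 * Cx)^(-(3*τ-1))), h5]
      ring
    have h8 : κ^(-(2*τ-1)) * h^(-(2*(2*τ-1))) * h^(2*(2*τ-1)) = κ^(-(2*τ-1)) := by
      rw [mul_assoc, h6, mul_one]
    rw [h7, h8] at h4
    exact h4.le
  have hτ1 : 0 < τ - 1 := by linarith
  have h9 : h = (h^(τ-1))^(1/(τ-1)) := by
    rw [← Real.rpow_mul hh0.le, mul_one_div_cancel hτ1.ne', Real.rpow_one]
  rw [h9]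
  exact Real.rpow_le_rpow (Real.rpow_nonneg hh0.le _) hfin (by positivity)


end YU432
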