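import Pool.Agent.Helper432.YU.Dt
import Pool.Agent.Helper432.YU.Pc2
import Pool.Agent.Helper432.YU.K2
import Pool.Agent.Helper432.YU.Red

open MeasureTheory Set
open scoped ENNReal

namespace YU432

/-- part with `|F'| ≥ c` -/
def TN (M τ c h0 : ℝ) (i : ((ℤ × ℤ × ℤ) × ℤ) × (Bool × Bool × Bool)) : Set ℝ :=
  {x | x ∈ piece M i.1.1 i.2 ∧ |Fv i.1.1 x + i.1.2| < (PiF i.1.1)^(-(2*τ-1)) ∧
    c ≤ |F1 i.1.1 x| ∧ h0 ≤ hF i.1.1}

/-- part with moderately small `|F'|` -/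
def TM (M τ c c0 h0 : ℝ) (i : (((ℤ × ℤ × ℤ) × ℤ) × ℕ) × (Bool × Bool × Bool)) : Set ℝ :=
  {x | x ∈ piece M i.1.1.1 i.2 ∧ |Fv i.1.1.1 x + i.1.1.2| < (PiF i.1.1.1)^(-(2*τ-1)) ∧
    (1/2:ℝ)^(i.1.2+1) ≤ |F1 i.1.1.1 x| ∧ |F1 i.1.1.1 x| ≤ (1/2:ℝ)^i.1.2 ∧ (1/2:ℝ)^i.1.2 ≤ c ∧
    c0 ≤ hF i.1.1.1 * ((1/2:ℝ)^i.1.2)^2 ∧ h0 ≤ hF i.1.1.1}

/-- part with very small `|F'|` -/
def TV (M τ c0 h0 : ℝ) (i : ((ℤ × ℤ × ℤ) × ℤ) × (Bool × Bool × Bool)) : Set ℝ :=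
  {x | (i.1.1.1 ≠ 0 ∧ NoRoot i.1 ∧ Prim i.1) ∧ x ∈ piece M i.1.1 i.2 ∧
    |Fv i.1.1 x + i.1.2| < (PiF i.1.1)^(-(2*τ-1)) ∧ hF i.1.1 * (F1 i.1.1 x)^2 ≤ c0 ∧ h0 ≤ hF i.1.1}

theorem exN_one_le_PiF (F : ℤ × ℤ × ℤ) : 1 ≤ PiF F := by
  unfold PiF
  have h1 : (1:ℝ) ≤ max 1 |(F.1:ℝ)| := le_max_left _ _
  have h2 : (1:ℝ) ≤ max 1 |(F.2.1:ℝ)| := le_max_left _ _
  have h3 : (1:ℝ) ≤ max 1 |(F.2.2:ℝ)| := le_max_left _ _
  exact one_le_mul_of_one_le_of_one_le (one_le_mul_of_one_le_of_one_le h1 h2) h3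

theorem exN_hF_le_PiF (F : ℤ × ℤ × ℤ) : hF F ≤ PiF F := by
  unfold PiF hF
  have h1 : (1:ℝ) ≤ max 1 |(F.1:ℝ)| := le_max_left _ _
  have h2 : (1:ℝ) ≤ max 1 |(F.2.1:ℝ)| := le_max_left _ _
  have h3 : (1:ℝ) ≤ max 1 |(F.2.2:ℝ)| := le_max_left _ _
  have h1' : |(F.1:ℝ)| ≤ max 1 |(F.1:ℝ)| := le_max_right _ _
  have h2' : |(F.2.1:ℝ)| ≤ max 1 |(F.2.1:ℝ)| := le_max_right _ _
  have h3' : |(F.2.2:ℝ)| ≤ max 1 |(F.2.2:ℝ)| := le_max_right _ _
  generalize max 1 |(F.1:ℝ)| = x at *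
  generalize max 1 |(F.2.1:ℝ)| = y at *
  generalize max 1 |(F.2.2:ℝ)| = z at *
  have hxy : 1 ≤ x * y := one_le_mul_of_one_le_of_one_le h1 h2
  have e1 : x ≤ x * y * z := by
    have : x ≤ x * y := le_mul_of_one_le_right (by linarith) h2
    have h : x * y ≤ x * y * z := le_mul_of_one_le_right (by linarith) h3
    linarith
  have e2 : y ≤ x * y * z := by
    have : y ≤ x * y := le_mul_of_one_le_left (by linarith) h1
    have h : x * y ≤ x * y * z := le_mul_of_one_le_right (by linarith) h3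
    linarith
  have e3 : z ≤ x * y * z := le_mul_of_one_le_left (by linarith) hxy
  refine max_le (max_le ?_ ?_) ?_ <;> linarith

theorem exN_fib (M : ℝ) (hM : 1 ≤ M) (τ s c : ℝ) (hτ : 1 < τ) (hs0 : 0 < s)
    (hs1 : s < 1) (hc0 : 0 < c) :
    ∃ A : ℝ, 0 < A ∧ ∀ (F : ℤ × ℤ × ℤ) (σ : Bool × Bool × Bool),
      ∑' d : ℤ, (Metric.ediam (TN M τ c 4 ((F, d), σ)))^s ≤
        ENNReal.ofReal (A * (PiF F)^(1 - 2*τ*s)) := by
  obtain ⟨C, hC, hG⟩ := fcostG M hM s hs0 hs1.le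
  refine ⟨C + (2/c)^s, by positivity, ?_⟩
  intro F σ
  have hP1 := exN_one_le_PiF F
  have hPp : 0 < PiF F := by linarith
  rcases lt_or_ge (hF F) 4 with hlt | hge
  · have he : ∀ d : ℤ, (Metric.ediam (TN M τ c 4 ((F, d), σ)))^s = 0 := by
      intro d
      have : TN M τ c 4 ((F, d), σ) = ∅ := by
        ext x
        simp only [TN, Set.mem_setOf_eq, Set.mem_empty_iff_false, iff_false]
        rintro ⟨_, _, _, h⟩
        linarith
      rw [this, Metric.ediam_empty, ENNReal.zero_rpow_of_pos hs0]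
    simp [he]
  · have hP4 : 4 ≤ PiF F := hge.trans (exN_hF_le_PiF F)
    set δ : ℝ := (PiF F)^(-(2*τ-1)) with hδ
    have hδ0 : 0 < δ := Real.rpow_pos_of_pos hPp _
    have hδ4 : δ ≤ 1/4 := by
      have h1 : δ ≤ (PiF F)^(-1:ℝ) :=
        Real.rpow_le_rpow_of_exponent_le hP1 (by linarith)
      rw [Real.rpow_neg_one] at h1
      have h2 : (PiF F)⁻¹ ≤ (4:ℝ)⁻¹ := inv_anti₀ (by norm_num) hP4
      have h3 : (4:ℝ)⁻¹ = 1/4 := by norm_num
      linarith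
    obtain ⟨k0, hk0⟩ := hG F σ δ hδ0 hδ4 (by linarith)
    -- the function of k
    set g : ℤ → ℝ≥0∞ := fun k => (Metric.ediam (TN M τ c 4 ((F, -k), σ)))^s with hg
    have hsum : ∑' d : ℤ, (Metric.ediam (TN M τ c 4 ((F, d), σ)))^s = ∑' k : ℤ, g k := by
      rw [← (Equiv.neg ℤ).tsum_eq (fun d : ℤ => (Metric.ediam (TN M τ c 4 ((F, d), σ)))^s)]
      rfl
    have hsplit : ∑' k : ℤ, g k = g k0 + ∑' k : {k : ℤ // k ≠ k0}, g k := by
      have h1 := Summable.tsum_add_tsum_compl (f := g) (s := ({k0} : Set ℤ))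
        ENNReal.summable ENNReal.summable
      rw [← h1, tsum_singleton]
      rfl
    have hd : ∀ (k : ℤ) (x : ℝ), x ∈ TN M τ c 4 ((F, -k), σ) →
        x ∈ piece M F σ ∧ |Fv F x - (k:ℝ)| < δ ∧ c ≤ |F1 F x| := by
      rintro k x ⟨h1, h2, h3, _⟩
      refine ⟨h1, ?_, h3⟩
      have h4 : Fv F x - (k:ℝ) = Fv F x + ((-k : ℤ) : ℝ) := by push_cast; ring
      rw [h4]
      exact h2
    have hA : g k0 ≤ ENNReal.ofReal ((2/c)^s * (PiF F)^(1 - 2*τ*s)) := by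
      have h1 : Metric.ediam (TN M τ c 4 ((F, -k0), σ)) ≤ ENNReal.ofReal (2*δ/c) := by
        refine le_trans (Metric.ediam_mono ?_) (ediam_big M hM F σ (k0:ℝ) δ c hc0)
        intro x hx
        exact hd k0 x hx
      have h2 : g k0 ≤ (ENNReal.ofReal (2*δ/c))^s := ENNReal.rpow_le_rpow h1 hs0.le
      refine h2.trans ?_
      rw [ENNReal.ofReal_rpow_of_nonneg (by positivity) hs0.le]
      apply ENNReal.ofReal_le_ofReal
      have h3 : 2*δ/c = (2/c) * δ := by ring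
      rw [h3, Real.mul_rpow (by positivity) hδ0.le]
      apply mul_le_mul_of_nonneg_left _ (by positivity)
      rw [hδ, ← Real.rpow_mul hPp.le]
      apply Real.rpow_le_rpow_of_exponent_le hP1
      nlinarith
    have hB : ∑' k : {k : ℤ // k ≠ k0}, g k ≤ ENNReal.ofReal (C * (PiF F)^(1 - 2*τ*s)) := by
      refine le_trans (ENNReal.tsum_le_tsum (fun k => ?_)) (hk0.trans ?_)
      · refine ENNReal.rpow_le_rpow (Metric.ediam_mono ?_) hs0.le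
        intro x hx
        exact ⟨(hd k.1 x hx).1, (hd k.1 x hx).2.1⟩
      · apply ENNReal.ofReal_le_ofReal
        rw [mul_assoc]
        apply mul_le_mul_of_nonneg_left _ hC.le
        have h1 : (hF F)^(1-s) ≤ (PiF F)^(1-s) :=
          Real.rpow_le_rpow (by linarith) (exN_hF_le_PiF F) (by linarith)
        have h2 : δ^s * (PiF F)^(1-s) = (PiF F)^(1 - 2*τ*s) := by
          rw [hδ, ← Real.rpow_mul hPp.le, ← Real.rpow_add hPp]
          congr 1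
          ring
        rw [← h2]
        exact mul_le_mul_of_nonneg_left h1 (Real.rpow_nonneg hδ0.le _)
    rw [hsum, hsplit]
    refine (add_le_add hA hB).trans ?_
    rw [← ENNReal.ofReal_add (by positivity) (by positivity)]
    apply ENNReal.ofReal_le_ofReal
    apply le_of_eq
    ring

theorem exN (M : ℝ) (hM : 1 ≤ M) (τ s c : ℝ) (hτ : 1 < τ) (hs : 1/τ < s) (hs1 : s < 1) (hc0 : 0 < c) :
    ∃ h0 : ℝ, dimH {x : ℝ | {i | x ∈ TN M τ c h0 i}.Infinite} ≤ ENNReal.ofReal s := by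
  have hτ0 : 0 < τ := by linarith
  have hs0 : 0 < s := lt_trans (by positivity) hs
  have hts : 1 < τ * s := by
    rw [div_lt_iff₀ hτ0] at hs
    linarith
  refine ⟨4, ?_⟩
  apply hc _ s hs0
  obtain ⟨A, hA, hfib⟩ := exN_fib M hM τ s c hτ hs0 hs1 hc0
  have hη : 0 < 2*τ*s - 2 := by linarith
  have hfin := sum_PiF (2*τ*s - 2) hη
  have hle : ∑' i : ((ℤ × ℤ × ℤ) × ℤ) × (Bool × Bool × Bool), (Metric.ediam (TN M τ c 4 i))^s ≤
      ∑' F : ℤ × ℤ × ℤ, ∑' _σ : Bool × Bool × Bool,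
        ENNReal.ofReal (A * (PiF F)^(1 - 2*τ*s)) := by
    rw [ENNReal.tsum_prod', ENNReal.tsum_prod']
    refine ENNReal.tsum_le_tsum fun F => ?_
    rw [ENNReal.tsum_comm]
    exact ENNReal.tsum_le_tsum fun σ => hfib F σ
  refine ne_top_of_le_ne_top ?_ hle
  have heq : ∀ F : ℤ × ℤ × ℤ, ∑' _σ : Bool × Bool × Bool,
      ENNReal.ofReal (A * (PiF F)^(1 - 2*τ*s)) =
      (8 * ENNReal.ofReal A) * ENNReal.ofReal ((PiF F)^(-(1+(2*τ*s - 2)))) := by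
    intro F
    rw [tsum_fintype, Finset.sum_const, ENNReal.ofReal_mul hA.le]
    have h1 : (1 - 2*τ*s) = -(1+(2*τ*s - 2)) := by ring
    rw [h1, nsmul_eq_mul, ← mul_assoc]
    congr 2
  rw [tsum_congr heq, ENNReal.tsum_mul_left]
  exact ENNReal.mul_ne_top (ENNReal.mul_ne_top (by norm_num) ENNReal.ofReal_ne_top) hfin

theorem exM_thr (κ c0 e : ℝ) (hκ : 0 < κ) (hc0 : 0 < c0) (he1 : 1 < e) :
    ∃ A : ℝ, 1 ≤ A ∧ ∀ a ≥ A, a^(-e) ≤ κ * c0 / (2 * a) := by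
  refine ⟨max 1 ((2/(κ*c0))^(1/(e-1))), le_max_left _ _, fun a ha => ?_⟩
  have ha1 : 1 ≤ a := le_trans (le_max_left _ _) ha
  have ha0 : 0 < a := by linarith
  have h2 : (2/(κ*c0))^(1/(e-1)) ≤ a := le_trans (le_max_right _ _) ha
  have h3 : 2/(κ*c0) ≤ a^(e-1) := by
    have := Real.rpow_le_rpow (by positivity) h2 (by linarith : 0 ≤ e - 1)
    rwa [← Real.rpow_mul (by positivity), one_div_mul_cancel (by linarith : e - 1 ≠ 0), Real.rpow_one] at this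
  have h4 : a^e = a * a^(e-1) := by
    have : a^e = a^(1 + (e-1)) := by congr 1; ring
    rw [this, Real.rpow_add ha0, Real.rpow_one]
  have h5 : 2 ≤ κ*c0*a^(e-1) := by
    rw [div_le_iff₀ (by positivity)] at h3; linarith
  have h6 : 0 < a^(e-1) := by positivity
  rw [Real.rpow_neg ha0.le, h4, ← one_div, div_le_div_iff₀ (by positivity) (by positivity)]
  nlinarith [mul_le_mul_of_nonneg_left h5 ha0.le]

theorem exM_abs (M x : ℝ) (hM : 1 ≤ M) (b : Bool) (h1 : 1/M ≤ sg b * x) (h2 : sg b * x ≤ M) :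
    1/M ≤ |x| ∧ |x| ≤ M := by
  have hM0 : 0 < 1/M := by positivity
  have : |x| = sg b * x := by
    cases b
    · simp only [sg, Bool.false_eq_true, if_false] at *
      rw [abs_of_neg (by linarith)]; ring
    · simp only [sg, if_true] at *
      rw [abs_of_pos (by linarith)]; ring
  rw [this]; exact ⟨h1, h2⟩

theorem exM (M : ℝ) (hM : 1 ≤ M) (τ s c0 : ℝ) (hτ : 1 < τ) (hs : 1/τ < s) (hs1 : s < 1)
    (hc0 : 0 < c0) : ∃ c h0 : ℝ, 0 < c ∧ c ≤ 1/4 ∧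
      dimH {x : ℝ | {i | x ∈ TM M τ c c0 h0 i}.Infinite} ≤ ENNReal.ofReal s := by
  have hs0 : 0 < s := lt_trans (by positivity) hs
  obtain ⟨κ, h1, hκ, hh1, hB⟩ := double_B M hM
  obtain ⟨C, cc, hC1, hcc0, hcc1, hcount⟩ := countM M c0 hM hc0
  have he1 : 1 < 2*τ-1 := by linarith
  obtain ⟨A, hA1, hA⟩ := exM_thr κ c0 (2*τ-1) hκ hc0 he1
  refine ⟨min cc (1/4), max (max 1 h1) (A/κ), lt_min hcc0 (by norm_num), min_le_right _ _, ?_⟩
  set h0 := max (max 1 h1) (A/κ) with hh0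
  set c := min cc (1/4) with hcdef
  have h01 : 1 ≤ h0 := le_trans (le_max_left _ _) (le_max_left _ _)
  have h0h1 : h1 ≤ h0 := le_trans (le_max_right _ _) (le_max_left _ _)
  have h0A : A/κ ≤ h0 := le_max_right _ _
  apply hc _ s hs0
  rw [ENNReal.tsum_prod', ENNReal.tsum_prod']
  set C' : ℝ := max (4*C) (4*8^(1/s)) with hC'
  have hC'0 : 0 < C' := lt_of_lt_of_le (by linarith) (le_max_left _ _)
  let W : Fin 3 → ℤ → ℕ → ℕ → Set ((ℤ × ℤ × ℤ) × ℤ) := fun j t n m =>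
    {P | cf P.1 j = t ∧ hF P.1 ≤ (2:ℝ)^(n+1) ∧ (1/2:ℝ)^m ≤ cc ∧ c0 ≤ (2:ℝ)^(n+1) * ((1/2:ℝ)^m)^2 ∧
      ∃ x : ℝ, 1/M ≤ |x| ∧ |x| ≤ M ∧ |Fv P.1 x + P.2| ≤ ((1/2:ℝ)^m)^2/(2:ℝ)^(n+1) ∧ |F1 P.1 x| ≤ (1/2:ℝ)^m}
  refine sumM C' κ τ s hC'0 hκ hτ hs hs1 W ?_ (fun P m => ∑' σ, (Metric.ediam (TM M τ c c0 h0 ((P,m),σ)))^s) ?_
  · intro j t n m X hX
    rcases X.eq_empty_or_nonempty with rfl | ⟨P, hP⟩
    · simp only [Finset.card_empty, Nat.cast_zero]; positivity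
    · obtain ⟨-, -, hmc, hcm, -⟩ := hX P hP
      have := hcount ((2:ℝ)^(n+1)) ((1/2:ℝ)^m) j t (one_le_pow₀ (by norm_num)) (by positivity) hmc hcm X
        (fun Q hQ => ⟨(hX Q hQ).1, (hX Q hQ).2.1, (hX Q hQ).2.2.2.2⟩)
      refine this.trans ?_
      have h4 : ((2:ℝ)^(n+1))^2 = 4 * 4^n := by
        rw [← pow_mul, mul_comm (n+1) 2, pow_mul]; norm_num; ring
      rw [h4]
      have : C * (4 * 4^n) * (1/2:ℝ)^m = (4*C) * 4^n * (1/2:ℝ)^m := by ring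
      rw [this]
      have hle : 4*C ≤ C' := le_max_left _ _
      gcongr
  · intro P m hne
    obtain ⟨σ, hσ⟩ : ∃ σ, (Metric.ediam (TM M τ c c0 h0 ((P,m),σ)))^s ≠ 0 := by
      by_contra hcon
      push Not at hcon
      exact hne (ENNReal.tsum_eq_zero.2 hcon)
    have hnon : (TM M τ c c0 h0 ((P,m),σ)).Nonempty := by
      by_contra h
      rw [Set.not_nonempty_iff_eq_empty] at h
      rw [h] at hσ
      apply hσ
      rw [Metric.ediam_empty, ENNReal.zero_rpow_of_pos hs0]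
    obtain ⟨x, hx1, hx2, hx3, hx4, hx5, hx6, hx7⟩ := hnon
    simp only at hx1 hx2 hx3 hx4 hx5 hx6 hx7
    obtain ⟨hx1a, hx1b, -, -⟩ := hx1
    obtain ⟨hxa, hxb⟩ := exM_abs M x hM _ hx1a hx1b
    have hhF1 : 1 ≤ hF P.1 := h01.trans hx7
    have hhF0 : 0 < hF P.1 := by linarith
    have hm0 : (0:ℝ) < (1/2:ℝ)^m := by positivity
    have hmcc : (1/2:ℝ)^m ≤ cc := hx5.trans (min_le_left _ _)
    have hm4 : (1/2:ℝ)^m ≤ 1/4 := hx5.trans (min_le_right _ _)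
    obtain ⟨j, hj⟩ := hB P.1 x hxa hxb (h0h1.trans hx7) (hx4.trans (hm4.trans (by norm_num)))
    obtain ⟨n, hn1, hn2⟩ := exists_nat_pow_near hhF1 (by norm_num : (1:ℝ) < 2)
    have hmax : (1:ℝ) ≤ max 1 |(cf P.1 j : ℝ)| := le_max_left _ _
    have hPi0 : κ * (hF P.1)^2 ≤ PiF P.1 := by
      refine le_trans ?_ hj
      have : 0 < κ * (hF P.1)^2 := by positivity
      nlinarith
    have hPiA : A ≤ κ * (hF P.1)^2 := by
      have h2 : A ≤ h0 * κ := by rwa [div_le_iff₀ hκ] at h0A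
      have h3 : h0 ≤ (hF P.1)^2 := by nlinarith
      nlinarith
    have hκh0 : 0 < κ * (hF P.1)^2 := by positivity
    have hδ : (PiF P.1)^(-(2*τ-1)) ≤ ((1/2:ℝ)^m)^2/(2:ℝ)^(n+1) := by
      have h2 : (PiF P.1)^(-(2*τ-1)) ≤ (κ * (hF P.1)^2)^(-(2*τ-1)) :=
        Real.rpow_le_rpow_of_nonpos hκh0 hPi0 (by linarith)
      have h3 := hA _ hPiA
      have h4 : κ * c0 / (2 * (κ * (hF P.1)^2)) = c0 / (2 * (hF P.1)^2) := by
        field_simp
      rw [h4] at h3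
      refine (h2.trans h3).trans ?_
      rw [div_le_div_iff₀ (by positivity) (by positivity)]
      have h5 : (2:ℝ)^(n+1) ≤ 2 * hF P.1 := by rw [pow_succ]; linarith
      calc c0 * (2:ℝ)^(n+1) ≤ c0 * (2 * hF P.1) := by gcongr
        _ ≤ (hF P.1 * ((1/2:ℝ)^m)^2) * (2 * hF P.1) := by gcongr
        _ = ((1/2:ℝ)^m)^2 * (2 * (hF P.1)^2) := by ring
    refine ⟨j, n, ⟨rfl, hn2.le, hmcc, ?_, x, hxa, hxb, ?_, hx4⟩, ?_⟩
    · refine hx6.trans ?_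
      gcongr
    · exact hx2.le.trans hδ
    · -- the bound
      have hD0 : 0 < κ * 4^n * max 1 |(cf P.1 j : ℝ)| := by positivity
      have h4n : (4:ℝ)^n ≤ (hF P.1)^2 := by
        have : (4:ℝ)^n = ((2:ℝ)^n)^2 := by rw [← pow_mul, mul_comm n 2, pow_mul]; norm_num
        rw [this]; gcongr
      have hD : κ * 4^n * max 1 |(cf P.1 j : ℝ)| ≤ PiF P.1 := by
        refine le_trans ?_ hj
        gcongr
      have hδ2 : (PiF P.1)^(-(2*τ-1)) ≤ (κ * 4^n * max 1 |(cf P.1 j : ℝ)|)^(-(2*τ-1)) :=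
        Real.rpow_le_rpow_of_nonpos hD0 hD (by linarith)
      set D := (κ * 4^n * max 1 |(cf P.1 j : ℝ)|)^(-(2*τ-1)) with hDdef
      have hDp : 0 < D := by positivity
      have hterm : ∀ σ, (Metric.ediam (TM M τ c c0 h0 ((P,m),σ)))^s ≤ ENNReal.ofReal ((4 * 2^m * D)^s) := by
        intro σ
        have hsub : TM M τ c c0 h0 ((P,m),σ) ⊆ {x | x ∈ piece M P.1 σ ∧ |Fv P.1 x - (-(P.2:ℝ))| < (PiF P.1)^(-(2*τ-1)) ∧ (1/2:ℝ)^(m+1) ≤ |F1 P.1 x|} := by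
          rintro y ⟨hy1, hy2, hy3, -⟩
          refine ⟨hy1, ?_, hy3⟩
          rw [sub_neg_eq_add]; exact hy2
        have hb := (Metric.ediam_mono hsub).trans (ediam_big M hM P.1 σ (-(P.2:ℝ)) _ ((1/2:ℝ)^(m+1)) (by positivity))
        rw [← ENNReal.ofReal_rpow_of_pos (by positivity)]
        refine ENNReal.rpow_le_rpow (hb.trans ?_) hs0.le
        apply ENNReal.ofReal_le_ofReal
        rw [div_le_iff₀ (by positivity)]
        have h2m : (2:ℝ)^m * (1/2:ℝ)^(m+1) = 1/2 := by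
          rw [pow_succ, ← mul_assoc, ← mul_pow]; norm_num
        calc 2 * (PiF P.1)^(-(2*τ-1)) ≤ 2 * D := by linarith
          _ = 4 * D * ((2:ℝ)^m * (1/2:ℝ)^(m+1)) := by rw [h2m]; ring
          _ = 4 * 2^m * D * (1/2:ℝ)^(m+1) := by ring
      rw [tsum_fintype]
      refine (Finset.sum_le_sum (fun σ _ => hterm σ)).trans ?_
      rw [Finset.sum_const, nsmul_eq_mul]
      have hcard : ((Finset.univ : Finset (Bool × Bool × Bool)).card : ℝ≥0∞) = ENNReal.ofReal 8 := by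
        have : (Finset.univ : Finset (Bool × Bool × Bool)).card = 8 := by decide
        rw [this]; simp
      rw [hcard, ← ENNReal.ofReal_mul (by norm_num)]
      apply ENNReal.ofReal_le_ofReal
      have h8 : ((8:ℝ)^(1/s))^s = 8 := by
        rw [← Real.rpow_mul (by norm_num), one_div_mul_cancel hs0.ne', Real.rpow_one]
      calc (8:ℝ) * (4 * 2^m * D)^s = ((8:ℝ)^(1/s))^s * (4 * 2^m * D)^s := by rw [h8]
        _ = ((8:ℝ)^(1/s) * (4 * 2^m * D))^s := (Real.mul_rpow (by positivity) (by positivity)).symm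
        _ ≤ (C' * 2^m * D)^s := by
          apply Real.rpow_le_rpow (by positivity) _ hs0.le
          have : 4*(8:ℝ)^(1/s) ≤ C' := le_max_right _ _
          calc (8:ℝ)^(1/s) * (4 * 2^m * D) = (4*(8:ℝ)^(1/s)) * (2^m * D) := by ring
            _ ≤ C' * (2^m * D) := by gcongr
            _ = C' * 2^m * D := by ring


end YU432
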