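import Pool.Agent.Helper432.YU.Pw2
import Pool.Agent.Helper432.YU.Ev

open MeasureTheory Set
open scoped ENNReal

namespace YU432

theorem final_fin3 (a b c d : ℝ) (h : a ≠ 0 ∨ b ≠ 0 ∨ c ≠ 0 ∨ d ≠ 0) :
    {x : ℝ | a * x ^ 3 + b * x ^ 2 + c * x + d = 0}.Finite := by
  classical
  have h0 : (Cubic.toPoly ⟨a, b, c, d⟩ : Polynomial ℝ) ≠ 0 := by
    rcases h with h | h | h | h
    · exact Cubic.ne_zero_of_a_ne_zero h
    · exact Cubic.ne_zero_of_b_ne_zero h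
    · exact Cubic.ne_zero_of_c_ne_zero h
    · exact Cubic.ne_zero_of_d_ne_zero h
  refine ((Cubic.toPoly ⟨a, b, c, d⟩ : Polynomial ℝ).roots.toFinset.finite_toSet).subset ?_
  intro x hx
  have h1 := (Cubic.mem_roots_iff (P := ⟨a, b, c, d⟩) h0 x).2 hx
  simpa [Cubic.roots] using h1

theorem final_all (τ : ℝ) (hτ : 1 < τ) :
    dimH {x : ℝ | {P : (ℤ × ℤ × ℤ) × ℤ | (PiF P.1)^(2*τ-1) * |Fv P.1 x + P.2| < 1}.Infinite}
      ≤ ENNReal.ofReal (1/τ) := by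
  have main : ∀ s : ℝ, 1 / τ < s → s < 1 →
      dimH {x : ℝ | {P : (ℤ × ℤ × ℤ) × ℤ | (PiF P.1)^(2*τ-1) * |Fv P.1 x + P.2| < 1}.Infinite}
      ≤ ENNReal.ofReal s := by
    intro s hs hs1
    have hN1 : ∀ N : ℕ, (1:ℝ) ≤ (N:ℝ) + 1 := fun N => by
      have : (0:ℝ) ≤ N := Nat.cast_nonneg N
      linarith
    have hV : ∀ N : ℕ, ∃ c0 h0 : ℝ, 0 < c0 ∧
        dimH {x : ℝ | {i | x ∈ TV ((N:ℝ)+1) τ c0 h0 i}.Infinite} ≤ ENNReal.ofReal s :=
      fun N => exV ((N:ℝ)+1) (hN1 N) τ s hτ hs hs1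
    choose c0 h0V hc0 hV' using hV
    have hM : ∀ N : ℕ, ∃ c h0 : ℝ, 0 < c ∧ c ≤ 1/4 ∧
        dimH {x : ℝ | {i | x ∈ TM ((N:ℝ)+1) τ c (c0 N) h0 i}.Infinite} ≤ ENNReal.ofReal s :=
      fun N => exM ((N:ℝ)+1) (hN1 N) τ s (c0 N) hτ hs hs1 (hc0 N)
    choose c h0M hc hc1 hM' using hM
    have hN : ∀ N : ℕ, ∃ h0 : ℝ,
        dimH {x : ℝ | {i | x ∈ TN ((N:ℝ)+1) τ (c N / 4) h0 i}.Infinite} ≤ ENNReal.ofReal s :=
      fun N => exN ((N:ℝ)+1) (hN1 N) τ s (c N / 4) hτ hs hs1 (by have := hc N; linarith)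
    choose h0N hN' using hN
    set A : Set ℝ := ⋃ P ∈ {P : (ℤ × ℤ × ℤ) × ℤ | P ≠ 0}, {x : ℝ | Fv P.1 x + P.2 = 0} with hA
    set A' : Set ℝ := ⋃ F ∈ {F : ℤ × ℤ × ℤ | F ≠ 0}, {x : ℝ | F1 F x = 0} with hA'
    have hAc : A.Countable := by
      rw [hA]
      refine Set.Countable.biUnion (Set.to_countable _) fun P hP => Set.Finite.countable ?_
      have hne : (P.1.1 : ℝ) ≠ 0 ∨ (P.1.2.1 : ℝ) ≠ 0 ∨ (P.1.2.2 : ℝ) ≠ 0 ∨ (P.2 : ℝ) ≠ 0 := by
        by_contra hcon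
        push Not at hcon
        obtain ⟨h1, h2, h3, h4⟩ := hcon
        apply hP
        obtain ⟨⟨a, b, c⟩, d⟩ := P
        simp only [Int.cast_eq_zero] at h1 h2 h3 h4
        simp only [h1, h2, h3, h4]
        rfl
      exact final_fin3 _ _ _ _ hne
    have hA'c : A'.Countable := by
      rw [hA']
      refine Set.Countable.biUnion (Set.to_countable _) fun F hF => Set.Finite.countable ?_
      have hne : (0:ℝ) ≠ 0 ∨ (3 * (F.1:ℝ)) ≠ 0 ∨ (2 * (F.2.1:ℝ)) ≠ 0 ∨ (F.2.2 : ℝ) ≠ 0 := by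
        by_contra hcon
        push Not at hcon
        obtain ⟨-, h1, h2, h3⟩ := hcon
        apply hF
        obtain ⟨a, b, c⟩ := F
        have h1' : (a:ℝ) = 0 := by linarith
        have h2' : (b:ℝ) = 0 := by linarith
        simp only [Int.cast_eq_zero] at h1' h2' h3
        simp only [h1', h2', h3]
        rfl
      refine (final_fin3 _ _ _ _ hne).subset ?_
      intro x hx
      have hx' : F1 F x = 0 := hx
      show (0:ℝ) * x ^ 3 + 3 * (F.1:ℝ) * x ^ 2 + 2 * (F.2.1:ℝ) * x + (F.2.2:ℝ) = 0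
      unfold F1 at hx'
      linarith
    set K1 : Set ℝ := {x : ℝ | {q : ℤ × ℤ | q.1 ≠ 0 ∧
      |(q.1:ℝ) * x - q.2| < |(q.1:ℝ)|^(-(2*τ-1))}.Infinite} with hK1
    set K2 : Set ℝ := {x : ℝ | {G : ℤ × ℤ × ℤ | (G.1 ≠ 0 ∨ G.2.1 ≠ 0) ∧
      |(G.1:ℝ) * x^2 + G.2.1 * x + G.2.2| < (max |(G.1:ℝ)| |(G.2.1:ℝ)|)^(-(3*τ-1))}.Infinite} with hK2
    have hsub : {x : ℝ | {P : (ℤ × ℤ × ℤ) × ℤ | (PiF P.1)^(2*τ-1) * |Fv P.1 x + P.2| < 1}.Infinite} ⊆
        (A ∪ A') ∪ (K1 ∪ K2) ∪ ⋃ N : ℕ, (({x : ℝ | {i | x ∈ TN ((N:ℝ)+1) τ (c N / 4) (h0N N) i}.Infinite} ∪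
          {x : ℝ | {i | x ∈ TM ((N:ℝ)+1) τ (c N) (c0 N) (h0M N) i}.Infinite}) ∪
          {x : ℝ | {i | x ∈ TV ((N:ℝ)+1) τ (c0 N) (h0V N) i}.Infinite}) := by
      intro x hx
      by_cases hxA : x ∈ A
      · exact Or.inl (Or.inl (Or.inl hxA))
      by_cases hxA' : x ∈ A'
      · exact Or.inl (Or.inl (Or.inr hxA'))
      by_cases hxK1 : x ∈ K1
      · exact Or.inl (Or.inr (Or.inl hxK1))
      by_cases hxK2 : x ∈ K2
      · exact Or.inl (Or.inr (Or.inr hxK2))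
      right
      have hnz : ∀ P : (ℤ × ℤ × ℤ) × ℤ, P ≠ 0 → Fv P.1 x + P.2 ≠ 0 := by
        intro P hP h0
        apply hxA
        rw [hA]
        exact Set.mem_biUnion (show P ∈ {P : (ℤ × ℤ × ℤ) × ℤ | P ≠ 0} from hP) h0
      have hcr : ∀ F : ℤ × ℤ × ℤ, F ≠ 0 → F1 F x ≠ 0 := by
        intro F hF h0
        apply hxA'
        rw [hA']
        exact Set.mem_biUnion (show F ∈ {F : ℤ × ℤ × ℤ | F ≠ 0} from hF) h0
      have hx0 : x ≠ 0 := by
        have h1 := hnz ((0, 0, 1), 0) (by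
          intro h
          have h2 := congrArg (fun P : (ℤ × ℤ × ℤ) × ℤ => P.1.2.2) h
          simp at h2)
        intro hx0
        apply h1
        unfold Fv
        rw [hx0]
        simp
      have hxp : 0 < |x| := abs_pos.2 hx0
      obtain ⟨N, hNN⟩ := exists_nat_ge (max |x| (1 / |x|))
      have hb1 : |x| ≤ (N:ℝ) + 1 := by
        have := (le_max_left |x| (1 / |x|)).trans hNN
        linarith
      have hb2 : 1 / ((N:ℝ) + 1) ≤ |x| := by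
        have h1 : 1 / |x| ≤ (N:ℝ) + 1 := by
          have := (le_max_right |x| (1 / |x|)).trans hNN
          linarith
        rw [div_le_iff₀ hxp] at h1
        rw [div_le_iff₀ (by have := hN1 N; linarith)]
        linarith
      have hx' : {P : (ℤ × ℤ × ℤ) × ℤ | |Fv P.1 x + P.2| < (PiF P.1)^(-(2*τ-1))}.Infinite := by
        have hx2 : {P : (ℤ × ℤ × ℤ) × ℤ | (PiF P.1)^(2*τ-1) * |Fv P.1 x + P.2| < 1}.Infinite := hx
        refine hx2.mono ?_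
        intro P hP
        have hP' : (PiF P.1)^(2*τ-1) * |Fv P.1 x + P.2| < 1 := hP
        show |Fv P.1 x + P.2| < (PiF P.1)^(-(2*τ-1))
        have hpi : 0 < PiF P.1 := by
          unfold PiF
          positivity
        have hpp : 0 < (PiF P.1)^(2*τ-1) := Real.rpow_pos_of_pos hpi _
        rw [Real.rpow_neg hpi.le, ← one_div, lt_div_iff₀ hpp]
        linarith
      have hpr := prim_inf τ hτ x hnz hx'
      have hpw := pointwise2 ((N:ℝ)+1) (hN1 N) τ (c N) (c0 N) (c0 N) (h0N N) (h0M N) (h0V N) x hτ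
        (hc N) (hc1 N) (hc0 N) le_rfl hb2 hb1 hnz hcr hxK1 hxK2 hpr
      refine Set.mem_iUnion.2 ⟨N, ?_⟩
      rcases hpw with h | h | h
      · exact Or.inl (Or.inl h)
      · exact Or.inl (Or.inr h)
      · exact Or.inr h
    refine (dimH_mono hsub).trans ?_
    have hle : ENNReal.ofReal (1 / τ) ≤ ENNReal.ofReal s := ENNReal.ofReal_le_ofReal hs.le
    rw [dimH_union, dimH_union, dimH_union, dimH_union, hAc.dimH_zero, hA'c.dimH_zero, dimH_iUnion]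
    refine sup_le (sup_le (sup_le bot_le bot_le) (sup_le ?_ ?_)) (iSup_le fun N => ?_)
    · exact (dimH_K1 τ hτ).trans hle
    · exact (dimH_K2 τ hτ).trans hle
    · rw [dimH_union, dimH_union]
      exact sup_le (sup_le (hN' N) (hM' N)) (hV' N)
  by_contra hcon
  push Not at hcon
  obtain ⟨r, hr1, hr2⟩ := exists_between hcon
  have hτ0 : 0 < τ := by linarith
  have h1τ : 1 / τ < 1 := by rw [div_lt_one hτ0]; exact hτ
  have hrtop : r ≠ ⊤ := ne_top_of_lt hr2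
  have hrr : 1 / τ < r.toReal := by
    have := (ENNReal.ofReal_lt_iff_lt_toReal (by positivity) hrtop).1 hr1
    exact this
  have hs := main (min r.toReal ((1 / τ + 1) / 2)) (lt_min hrr (by linarith))
    (lt_of_le_of_lt (min_le_right _ _) (by linarith))
  have hs2 : ENNReal.ofReal (min r.toReal ((1 / τ + 1) / 2)) ≤ r := by
    refine (ENNReal.ofReal_le_ofReal (min_le_left _ _)).trans ?_
    exact ENNReal.ofReal_toReal_le
  exact absurd (hs.trans hs2) (not_le.2 hr2)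


end YU432
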