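import Mathlib

open MeasureTheory Set
open scoped ENNReal

namespace YU432

theorem ediam_le_of_deriv (f f' : ℝ → ℝ) (S : Set ℝ) (hS : S.OrdConnected)
    (hf : ∀ x, HasDerivAt f (f' x) x)
    (hmono : (∀ x ∈ S, 0 < f' x) ∨ (∀ x ∈ S, f' x < 0)) (k δ m : ℝ) (hm : 0 < m)
    (hT : ∀ x ∈ S, |f x - k| < δ → m ≤ |f' x|) :
    Metric.ediam {x | x ∈ S ∧ |f x - k| < δ} ≤ ENNReal.ofReal (2*δ/m) := by
  have hcont : Continuous f := continuous_iff_continuousAt.mpr (fun x => (hf x).continuousAt)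
  have key : ∀ x y, x ∈ S → |f x - k| < δ → y ∈ S → |f y - k| < δ → x < y → y - x ≤ 2*δ/m := by
    intro x y hxS hx hyS hy hxy
    have hsub : Icc x y ⊆ S := hS.out hxS hyS
    obtain ⟨z, hz, hzd⟩ := exists_hasDerivAt_eq_slope f f' hxy hcont.continuousOn (fun w _ => hf w)
    have hzS : z ∈ S := hsub ⟨hz.1.le, hz.2.le⟩
    have hfz : |f z - k| < δ := by
      rw [abs_lt] at hx hy ⊢
      rcases hmono with h | h
      · have hm' : StrictMonoOn f (Icc x y) := by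
          apply strictMonoOn_of_deriv_pos (convex_Icc x y) hcont.continuousOn
          intro w hw
          rw [interior_Icc] at hw
          rw [(hf w).deriv]
          exact h w (hsub ⟨hw.1.le, hw.2.le⟩)
        have h1 := hm' ⟨le_refl x, hxy.le⟩ ⟨hz.1.le, hz.2.le⟩ hz.1
        have h2 := hm' ⟨hz.1.le, hz.2.le⟩ ⟨hxy.le, le_refl y⟩ hz.2
        constructor <;> linarith [hx.1, hx.2, hy.1, hy.2]
      · have hm' : StrictAntiOn f (Icc x y) := by
          apply strictAntiOn_of_deriv_neg (convex_Icc x y) hcont.continuousOn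
          intro w hw
          rw [interior_Icc] at hw
          rw [(hf w).deriv]
          exact h w (hsub ⟨hw.1.le, hw.2.le⟩)
        have h1 := hm' ⟨le_refl x, hxy.le⟩ ⟨hz.1.le, hz.2.le⟩ hz.1
        have h2 := hm' ⟨hz.1.le, hz.2.le⟩ ⟨hxy.le, le_refl y⟩ hz.2
        constructor <;> linarith [hx.1, hx.2, hy.1, hy.2]
    have hmz := hT z hzS hfz
    have hpos : 0 < y - x := sub_pos.mpr hxy
    have heq : |f' z| * (y - x) = |f y - f x| := by
      rw [hzd, abs_div, abs_of_pos hpos]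
      field_simp
    have hlt : |f y - f x| < 2 * δ := by
      rw [abs_lt] at hx hy ⊢
      constructor <;> linarith [hx.1, hx.2, hy.1, hy.2]
    rw [le_div_iff₀ hm]
    nlinarith
  apply Metric.ediam_le
  rintro x ⟨hxS, hx⟩ y ⟨hyS, hy⟩
  rw [edist_dist]
  apply ENNReal.ofReal_le_ofReal
  rw [Real.dist_eq]
  have hδ : 0 ≤ 2 * δ / m := by
    have := abs_nonneg (f x - k)
    apply div_nonneg _ hm.le
    linarith
  rcases lt_trichotomy x y with h | h | h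
  · rw [abs_sub_comm, abs_of_pos (sub_pos.mpr h)]
    exact key x y hxS hx hyS hy h
  · rw [h, sub_self, abs_zero]; exact hδ
  · rw [abs_of_pos (sub_pos.mpr h)]
    exact key y x hyS hy hxS hx h

/-- auxiliary statement -/
theorem piece1 (f f' : ℝ → ℝ) (S : Set ℝ) (hS : S.OrdConnected)
    (hf : ∀ x, HasDerivAt f (f' x) x) (B : ℝ) (hB : ∀ x ∈ S, |f x| ≤ B)
    (hpos : ∀ x ∈ S, 0 < f' x) (hmon : MonotoneOn f' S) (δ : ℝ) (hδ0 : 0 < δ) (hδ : δ ≤ 1/4) :
    ∃ k0 : ℤ, ∃ p q : ℤ → ℝ, ∀ k : ℤ, k ≠ k0 → {x | x ∈ S ∧ |f x - k| < δ}.Nonempty →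
      (p k < q k ∧ p k ∈ S ∧ q k ∈ S ∧ f (p k) = k - 3/4 ∧ f (q k) = k - 1/4 ∧
        Metric.ediam {x | x ∈ S ∧ |f x - k| < δ} ≤ ENNReal.ofReal (4*δ*(q k - p k))) := by
  have hmono : StrictMonoOn f S := by
    refine strictMonoOn_of_deriv_pos hS.convex (fun x _ => (hf x).continuousAt.continuousWithinAt) ?_
    intro x hx
    rw [(hf x).deriv]
    exact hpos x (interior_subset hx)
  have hbdd : ∀ k : ℤ, {x | x ∈ S ∧ |f x - k| < δ}.Nonempty → ⌊-B - 1⌋ ≤ k := by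
    rintro k ⟨x, hx, hxk⟩
    have h1 := abs_lt.1 hxk
    have h2 := abs_le.1 (hB x hx)
    have h3 : ((⌊-B - 1⌋ : ℤ) : ℝ) ≤ -B - 1 := Int.floor_le _
    have h4 : ((⌊-B - 1⌋ : ℤ) : ℝ) ≤ (k : ℝ) := by linarith [h1.1, h1.2, h2.1, h2.2]
    exact_mod_cast h4
  by_cases hex : ∃ k : ℤ, {x | x ∈ S ∧ |f x - k| < δ}.Nonempty
  · obtain ⟨k0, hk0, hleast⟩ := Int.exists_least_of_bdd
      (P := fun k : ℤ => {x | x ∈ S ∧ |f x - k| < δ}.Nonempty) ⟨⌊-B - 1⌋, hbdd⟩ hex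
    have key : ∀ k : ℤ, ∃ p q : ℝ, k ≠ k0 → {x | x ∈ S ∧ |f x - k| < δ}.Nonempty →
      (p < q ∧ p ∈ S ∧ q ∈ S ∧ f p = k - 3/4 ∧ f q = k - 1/4 ∧
        Metric.ediam {x | x ∈ S ∧ |f x - k| < δ} ≤ ENNReal.ofReal (4*δ*(q - p))) := by
      intro k
      by_cases hk : k ≠ k0 ∧ {x | x ∈ S ∧ |f x - k| < δ}.Nonempty
      · obtain ⟨hne, hne2⟩ := hk
        have hlt : k0 + 1 ≤ k := by
          have := hleast k hne2
          omega
        have hltR : (k0 : ℝ) + 1 ≤ k := by exact_mod_cast hlt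
        obtain ⟨y, hyS, hy⟩ := hk0
        obtain ⟨x0, hx0S, hx0⟩ := hne2
        have hy' := abs_lt.1 hy
        have hx0' := abs_lt.1 hx0
        have hfy : f y < k - 3/4 := by linarith [hy'.2]
        have hfx0 : (k : ℝ) - 1/4 < f x0 := by linarith [hx0'.1]
        have hyx : y < x0 := by
          rw [← hmono.lt_iff_lt hyS hx0S]
          linarith
        have hsub : Icc y x0 ⊆ S := hS.out hyS hx0S
        have hcont : ContinuousOn f (Icc y x0) := fun x _ => (hf x).continuousAt.continuousWithinAt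
        obtain ⟨p, hp, hfp⟩ := intermediate_value_Icc hyx.le hcont
          (show (k : ℝ) - 3/4 ∈ Icc (f y) (f x0) from ⟨hfy.le, by linarith⟩)
        obtain ⟨q, hq, hfq⟩ := intermediate_value_Icc hyx.le hcont
          (show (k : ℝ) - 1/4 ∈ Icc (f y) (f x0) from ⟨by linarith, hfx0.le⟩)
        have hpS := hsub hp
        have hqS := hsub hq
        have hpq : p < q := by
          rw [← hmono.lt_iff_lt hpS hqS, hfp, hfq]
          linarith
        refine ⟨p, q, fun _ _ => ⟨hpq, hpS, hqS, hfp, hfq, ?_⟩⟩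
        obtain ⟨c, hc, hfc⟩ := exists_hasDerivAt_eq_slope f f' hpq
          (fun x _ => (hf x).continuousAt.continuousWithinAt) (fun x _ => hf x)
        have hqp : 0 < q - p := by linarith
        have hcS : c ∈ S := hS.out hpS hqS ⟨hc.1.le, hc.2.le⟩
        have hm : (0 : ℝ) < 1 / (2 * (q - p)) := by positivity
        have h := ediam_le_of_deriv f f' S hS hf (Or.inl hpos) k δ (1 / (2 * (q - p))) hm ?_
        · refine h.trans (le_of_eq ?_)
          congr 1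
          field_simp
          ring
        · intro x hxS hx
          have hx' := abs_lt.1 hx
          have hqx : q < x := by
            rw [← hmono.lt_iff_lt hqS hxS, hfq]
            linarith [hx'.1]
          have hcx : c ≤ x := by linarith [hc.2]
          have h5 := hmon hcS hxS hcx
          rw [abs_of_pos (hpos x hxS)]
          refine le_trans (le_of_eq ?_) h5
          rw [hfc, hfp, hfq]
          field_simp
          ring
      · refine ⟨0, 0, fun h1 h2 => absurd ⟨h1, h2⟩ hk⟩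
    choose p q hpq using key
    exact ⟨k0, p, q, hpq⟩
  · push Not at hex
    refine ⟨0, fun _ => 0, fun _ => 0, fun k _ hne => ?_⟩
    exact absurd hne (by rw [hex k]; exact not_nonempty_empty)

theorem piece2_rpow (g h s : ℝ) (hg : 0 < g) (hh : 1 ≤ h) (hs0 : 0 < s) (hs1 : s ≤ 1) :
    g ^ s ≤ h ^ (1 - s) * g + h ^ (-s) := by
  have hh0 : 0 < h := lt_of_lt_of_le one_pos hh
  have hinv : (0:ℝ) < h⁻¹ := inv_pos.mpr hh0
  rcases le_or_gt h⁻¹ g with h1 | h1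
  · have h2 : g ^ (s - 1) ≤ h⁻¹ ^ (s - 1) :=
      Real.rpow_le_rpow_of_nonpos hinv h1 (by linarith)
    have h3 : h⁻¹ ^ (s - 1) = h ^ (1 - s) := by
      rw [Real.inv_rpow hh0.le, ← Real.rpow_neg hh0.le]
      congr 1
      ring
    have h4 : g ^ s = g ^ (s - 1) * g := by
      rw [Real.rpow_sub_one hg.ne']
      field_simp
    have h5 : 0 ≤ h ^ (-s) := Real.rpow_nonneg hh0.le _
    rw [h4]
    rw [h3] at h2
    nlinarith [mul_le_mul_of_nonneg_right h2 hg.le]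
  · have h2 : g ^ s ≤ h⁻¹ ^ s := Real.rpow_le_rpow hg.le h1.le hs0.le
    have h3 : h⁻¹ ^ s = h ^ (-s) := by
      rw [Real.inv_rpow hh0.le, ← Real.rpow_neg hh0.le]
    have h5 : 0 ≤ h ^ (1 - s) * g := mul_nonneg (Real.rpow_nonneg hh0.le _) hg.le
    rw [h3] at h2
    linarith

/-- auxiliary statement -/
theorem piece2 (f f' : ℝ → ℝ) (S : Set ℝ) (hS : S.OrdConnected)
    (hf : ∀ x, HasDerivAt f (f' x) x) (a L B : ℝ) (hSL : S ⊆ Icc a (a+L)) (hL : 0 ≤ L)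
    (hB : ∀ x ∈ S, |f x| ≤ B) (hB1 : 0 ≤ B)
    (hpos : ∀ x ∈ S, 0 < f' x) (δ : ℝ) (hδ0 : 0 < δ) (hδ : δ ≤ 1/4)
    (k0 : ℤ) (p q : ℤ → ℝ)
    (H : ∀ k : ℤ, k ≠ k0 → {x | x ∈ S ∧ |f x - k| < δ}.Nonempty →
      (p k < q k ∧ p k ∈ S ∧ q k ∈ S ∧ f (p k) = k - 3/4 ∧ f (q k) = k - 1/4 ∧
        Metric.ediam {x | x ∈ S ∧ |f x - k| < δ} ≤ ENNReal.ofReal (4*δ*(q k - p k))))
    (h s : ℝ) (hh : 1 ≤ h) (hs0 : 0 < s) (hs1 : s ≤ 1) :
    ∑' k : {k : ℤ // k ≠ k0}, (Metric.ediam {x | x ∈ S ∧ |f x - (k.1:ℝ)| < δ})^s ≤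
      ENNReal.ofReal ((4*δ)^s * (h^(1-s)*L + (2*B+3)*h^(-s))) := by
  classical
  have hh0 : 0 < h := lt_of_lt_of_le one_pos hh
  obtain ⟨I, hI⟩ : ∃ I : Finset ℤ, I = Finset.Icc ⌈3/4 - B⌉ ⌊B + 1/4⌋ := ⟨_, rfl⟩
  obtain ⟨K, hK⟩ : ∃ K : Finset ℤ, K = I.filter (fun k =>
    k ≠ k0 ∧ {x | x ∈ S ∧ |f x - k| < δ}.Nonempty) := ⟨_, rfl⟩
  have hmemK : ∀ k : ℤ, k ≠ k0 → {x | x ∈ S ∧ |f x - k| < δ}.Nonempty → k ∈ K := by
    intro k hk hne
    obtain ⟨h1, h2, h3, h4, h5, h6⟩ := H k hk hne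
    have b1 := hB _ h2
    have b2 := hB _ h3
    rw [h4, abs_le] at b1
    rw [h5, abs_le] at b2
    rw [hK, Finset.mem_filter, hI, Finset.mem_Icc]
    refine ⟨⟨?_, ?_⟩, hk, hne⟩
    · rw [Int.ceil_le]
      linarith
    · rw [Int.le_floor]
      linarith
  have hKH : ∀ k ∈ K, p k < q k ∧ p k ∈ S ∧ q k ∈ S ∧ f (p k) = k - 3/4 ∧ f (q k) = k - 1/4 ∧
        Metric.ediam {x | x ∈ S ∧ |f x - k| < δ} ≤ ENNReal.ofReal (4*δ*(q k - p k)) := by
    intro k hk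
    rw [hK, Finset.mem_filter] at hk
    exact H k hk.2.1 hk.2.2
  have hKcard : (K.card : ℝ) ≤ 2 * B + 3 := by
    have h1 : K.card ≤ I.card := by
      rw [hK]
      exact Finset.card_filter_le _ _
    have h2 : (I.card : ℝ) ≤ 2 * B + 3 := by
      rw [hI, Int.card_Icc]
      have h3 := Int.floor_le (B + 1/4)
      have h4 := Int.le_ceil (3/4 - B)
      rcases le_or_gt 0 (⌊B + 1/4⌋ + 1 - ⌈3/4 - B⌉) with h5 | h5
      · have h6 : (((⌊B + 1/4⌋ + 1 - ⌈3/4 - B⌉).toNat : ℕ) : ℝ) =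
          ((⌊B + 1/4⌋ + 1 - ⌈3/4 - B⌉ : ℤ) : ℝ) := by
          exact_mod_cast congrArg (fun z : ℤ => (z : ℝ)) (Int.toNat_of_nonneg h5)
        rw [h6]
        push_cast
        linarith
      · rw [Int.toNat_of_nonpos h5.le]
        simp
        linarith
    have h3 : (K.card : ℝ) ≤ I.card := by exact_mod_cast h1
    linarith
  -- monotonicity
  have hder : ∀ x, deriv f x = f' x := fun x => (hf x).deriv
  have hmono : StrictMonoOn f S := by
    refine strictMonoOn_of_deriv_pos hS.convex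
      (fun x _ => (hf x).continuousAt.continuousWithinAt) ?_
    intro x hx
    rw [hder]
    exact hpos x (interior_subset hx)
  have hsep : ∀ k ∈ K, ∀ k' ∈ K, k < k' → q k < p k' := by
    intro k hk k' hk' hlt
    obtain ⟨h1, h2, h3, h4, h5, h6⟩ := hKH k hk
    obtain ⟨g1, g2, g3, g4, g5, g6⟩ := hKH k' hk'
    rw [← hmono.lt_iff_lt h3 g2, h5, g4]
    have : (k : ℝ) + 1 ≤ k' := by exact_mod_cast hlt
    linarith
  have hsum : ∑ k ∈ K, (q k - p k) ≤ L := by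
    have hd : (K : Set ℤ).PairwiseDisjoint (fun k => Ioo (p k) (q k)) := by
      intro k hk k' hk' hne
      rw [Function.onFun, Set.disjoint_left]
      intro x hx hx'
      rcases lt_or_gt_of_ne hne with hlt | hlt
      · have := hsep k hk k' hk' hlt
        linarith [hx.2, hx'.1]
      · have := hsep k' hk' k hk hlt
        linarith [hx'.2, hx.1]
    have h1 : volume (⋃ k ∈ K, Ioo (p k) (q k)) = ∑ k ∈ K, volume (Ioo (p k) (q k)) :=
      measure_biUnion_finset hd (fun _ _ => measurableSet_Ioo)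
    have h2 : volume (⋃ k ∈ K, Ioo (p k) (q k)) ≤ volume (Icc a (a + L)) := by
      apply measure_mono
      intro x hx
      simp only [mem_iUnion] at hx
      obtain ⟨k, hk, hx⟩ := hx
      obtain ⟨h1, h2, h3, h4, h5, h6⟩ := hKH k hk
      have c1 := hSL h2
      have c2 := hSL h3
      exact ⟨c1.1.trans hx.1.le, hx.2.le.trans c2.2⟩
    rw [h1, Real.volume_Icc] at h2
    simp only [Real.volume_Ioo] at h2
    rw [← ENNReal.ofReal_sum_of_nonneg (fun k hk => by linarith [(hKH k hk).1]),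
      add_sub_cancel_left, ENNReal.ofReal_le_ofReal_iff hL] at h2
    exact h2
  -- bounding function
  obtain ⟨c, hc⟩ : ∃ c : ℤ → ℝ, ∀ k, c k = (4*δ)^s * (h^(1-s)*(q k - p k) + h^(-s)) :=
    ⟨_, fun k => rfl⟩
  have h4δ : 0 ≤ (4 * δ) ^ s := Real.rpow_nonneg (by linarith) _
  have hh1 : 0 ≤ h ^ (1 - s) := Real.rpow_nonneg hh0.le _
  have hh2 : 0 ≤ h ^ (-s) := Real.rpow_nonneg hh0.le _
  have hcpos : ∀ k ∈ K, 0 ≤ c k := by
    intro k hk
    rw [hc]
    have := (hKH k hk).1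
    have h1 : 0 ≤ h ^ (1 - s) * (q k - p k) := mul_nonneg hh1 (by linarith)
    exact mul_nonneg h4δ (by linarith)
  have hFG : ∀ k : {k : ℤ // k ≠ k0}, (Metric.ediam {x | x ∈ S ∧ |f x - (k.1:ℝ)| < δ})^s ≤
      (fun k : ℤ => if k ∈ K then ENNReal.ofReal (c k) else 0) k.1 := by
    rintro ⟨k, hk⟩
    simp only
    by_cases hne : {x | x ∈ S ∧ |f x - (k:ℝ)| < δ}.Nonempty
    · have hkK := hmemK k hk hne
      obtain ⟨h1, h2, h3, h4, h5, h6⟩ := hKH k hkK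
      rw [if_pos hkK]
      refine (ENNReal.rpow_le_rpow h6 hs0.le).trans ?_
      have hg : 0 < q k - p k := by linarith
      rw [ENNReal.ofReal_rpow_of_nonneg (by positivity) hs0.le]
      apply ENNReal.ofReal_le_ofReal
      rw [hc, Real.mul_rpow (by linarith) hg.le]
      exact mul_le_mul_of_nonneg_left (piece2_rpow _ _ _ hg hh hs0 hs1) h4δ
    · rw [Set.not_nonempty_iff_eq_empty.mp hne, Metric.ediam_empty, ENNReal.zero_rpow_of_pos hs0]
      exact zero_le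
  calc ∑' k : {k : ℤ // k ≠ k0}, (Metric.ediam {x | x ∈ S ∧ |f x - (k.1:ℝ)| < δ})^s
      ≤ ∑' k : {k : ℤ // k ≠ k0}, (fun k : ℤ => if k ∈ K then ENNReal.ofReal (c k) else 0) k.1 :=
        ENNReal.tsum_le_tsum hFG
    _ ≤ ∑' k : ℤ, (fun k : ℤ => if k ∈ K then ENNReal.ofReal (c k) else 0) k :=
        ENNReal.tsum_comp_le_tsum_of_injective Subtype.val_injective _
    _ = ∑ k ∈ K, ENNReal.ofReal (c k) := by
        rw [tsum_eq_sum (s := K) (fun k hk => if_neg hk)]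
        exact Finset.sum_congr rfl fun k hk => if_pos hk
    _ = ENNReal.ofReal (∑ k ∈ K, c k) := (ENNReal.ofReal_sum_of_nonneg hcpos).symm
    _ ≤ _ := by
        apply ENNReal.ofReal_le_ofReal
        have e1 : ∑ k ∈ K, c k = (4*δ)^s * (h^(1-s)* ∑ k ∈ K, (q k - p k) + K.card * h^(-s)) := by
          simp only [hc]
          rw [← Finset.mul_sum, Finset.sum_add_distrib, ← Finset.mul_sum, Finset.sum_const,
            nsmul_eq_mul]
        rw [e1]
        refine mul_le_mul_of_nonneg_left ?_ h4δ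
        exact add_le_add (mul_le_mul_of_nonneg_left hsum hh1)
          (mul_le_mul_of_nonneg_right hKcard hh2)

/-- base case of the summation over the pieces -/
theorem pieceBase (f f' : ℝ → ℝ) (S : Set ℝ) (hS : S.OrdConnected)
    (hf : ∀ x, HasDerivAt f (f' x) x) (a L B : ℝ) (hSL : S ⊆ Icc a (a+L)) (hL : 0 ≤ L)
    (hB : ∀ x ∈ S, |f x| ≤ B) (hB1 : 0 ≤ B)
    (hpos : ∀ x ∈ S, 0 < f' x) (hmon : MonotoneOn f' S) (δ : ℝ) (hδ0 : 0 < δ) (hδ : δ ≤ 1/4) :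
    ∃ k0 : ℤ, ∀ (h s : ℝ), 1 ≤ h → 0 < s → s ≤ 1 →
    ∑' k : {k : ℤ // k ≠ k0}, (Metric.ediam {x | x ∈ S ∧ |f x - (k.1:ℝ)| < δ})^s ≤
      ENNReal.ofReal ((4*δ)^s * (h^(1-s)*L + (2*B+3)*h^(-s))) := by
  obtain ⟨k0, p, q, H⟩ := piece1 f f' S hS hf B hB hpos hmon δ hδ0 hδ
  exact ⟨k0, fun h s hh hs0 hs1 => piece2 f f' S hS hf a L B hSL hL hB hB1 hpos δ hδ0 hδ k0 p q H
    h s hh hs0 hs1⟩

/-- the conclusion -/
def Concl79 (f : ℝ → ℝ) (S : Set ℝ) (L B δ : ℝ) : Prop :=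
  ∃ k0 : ℤ, ∀ (h s : ℝ), 1 ≤ h → 0 < s → s ≤ 1 →
    ∑' k : {k : ℤ // k ≠ k0}, (Metric.ediam {x | x ∈ S ∧ |f x - (k.1:ℝ)| < δ})^s ≤
      ENNReal.ofReal ((4*δ)^s * (h^(1-s)*L + (2*B+3)*h^(-s)))

theorem R1_79 (f : ℝ → ℝ) (S : Set ℝ) (L B δ : ℝ)
    (hc : Concl79 (fun x => f (-x)) {x | -x ∈ S} L B δ) : Concl79 f S L B δ := by
  obtain ⟨k0, hk⟩ := hc
  refine ⟨k0, fun h s h1 h2 h3 => ?_⟩
  have e : ∀ k : {k : ℤ // k ≠ k0}, Metric.ediam {x | x ∈ S ∧ |f x - (k.1:ℝ)| < δ} =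
      Metric.ediam {x | x ∈ {x | -x ∈ S} ∧ |f (-x) - (k.1:ℝ)| < δ} := by
    intro k
    have hi : {x | x ∈ {x | -x ∈ S} ∧ |f (-x) - (k.1:ℝ)| < δ} =
        (fun x : ℝ => -x) '' {x | x ∈ S ∧ |f x - (k.1:ℝ)| < δ} := by
      ext x
      simp only [mem_image, mem_ofPred_eq]
      constructor
      · intro hx
        exact ⟨-x, hx, neg_neg x⟩
      · rintro ⟨y, hy, rfl⟩
        rw [neg_neg]
        exact hy
    rw [hi]
    exact (Isometry.ediam_image (IsometryEquiv.neg ℝ).isometry _).symm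
  simp only [e]
  exact hk h s h1 h2 h3

theorem R2_79 (f : ℝ → ℝ) (S : Set ℝ) (L B δ : ℝ)
    (hc : Concl79 (fun x => -f x) S L B δ) : Concl79 f S L B δ := by
  obtain ⟨k0, hk⟩ := hc
  refine ⟨-k0, fun h s h1 h2 h3 => ?_⟩
  refine le_trans (le_of_eq ?_) (hk h s h1 h2 h3)
  let E : {k : ℤ // k ≠ k0} ≃ {k : ℤ // k ≠ -k0} :=
    Equiv.subtypeEquiv (Equiv.neg ℤ) (fun a => by
      simp only [Equiv.neg_apply, ne_eq, neg_inj])
  rw [← Equiv.tsum_eq E]
  congr 1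
  funext k
  congr 2
  ext x
  simp only [mem_ofPred_eq]
  have e : ((E k).1 : ℤ) = -k.1 := rfl
  rw [e]
  have e2 : |f x - ((-k.1 : ℤ) : ℝ)| = |-f x - (k.1 : ℝ)| := by
    rw [← abs_neg]
    congr 1
    push_cast
    ring
  rw [e2]

/-- auxiliary statement -f, x by -x, or both). -/
theorem pieceAll (f f' : ℝ → ℝ) (S : Set ℝ) (hS : S.OrdConnected)
    (hf : ∀ x, HasDerivAt f (f' x) x) (a L B : ℝ) (hSL : S ⊆ Icc a (a+L)) (hL : 0 ≤ L)
    (hB : ∀ x ∈ S, |f x| ≤ B) (hB1 : 0 ≤ B)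
    (hsign : (∀ x ∈ S, 0 < f' x) ∨ (∀ x ∈ S, f' x < 0))
    (hmon : MonotoneOn f' S ∨ AntitoneOn f' S) (δ : ℝ) (hδ0 : 0 < δ) (hδ : δ ≤ 1/4) :
    ∃ k0 : ℤ, ∀ (h s : ℝ), 1 ≤ h → 0 < s → s ≤ 1 →
    ∑' k : {k : ℤ // k ≠ k0}, (Metric.ediam {x | x ∈ S ∧ |f x - (k.1:ℝ)| < δ})^s ≤
      ENNReal.ofReal ((4*δ)^s * (h^(1-s)*L + (2*B+3)*h^(-s))) := by
  have hS' : ({x : ℝ | -x ∈ S}).OrdConnected := hS.preimage_anti (fun x y h => neg_le_neg h)
  have hSL' : {x : ℝ | -x ∈ S} ⊆ Icc (-(a + L)) (-(a + L) + L) := by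
    intro x hx
    have := hSL hx
    rw [mem_Icc] at this ⊢
    constructor <;> linarith [this.1, this.2]
  have hfn : ∀ x, HasDerivAt (fun x => f (-x)) (-f' (-x)) x := by
    intro x
    have := (hf (-x)).comp x (hasDerivAt_neg x)
    exact this.congr_deriv (by ring)
  show Concl79 f S L B δ
  rcases hsign with hs | hs <;> rcases hmon with hm | hm
  · exact pieceBase f f' S hS hf a L B hSL hL hB hB1 hs hm δ hδ0 hδ
  · apply R1_79
    apply R2_79
    refine pieceBase (fun x => -f (-x)) (fun x => f' (-x)) _ hS' ?_ (-(a + L)) L B hSL' hL ?_ hB1 ?_ ?_ δ hδ0 hδ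
    · intro x
      exact (hfn x).neg.congr_deriv (by ring)
    · intro x hx
      rw [abs_neg]
      exact hB _ hx
    · intro x hx
      exact hs _ hx
    · intro x hx y hy hxy
      exact hm hy hx (neg_le_neg hxy)
  · apply R1_79
    refine pieceBase (fun x => f (-x)) (fun x => -f' (-x)) _ hS' hfn (-(a + L)) L B hSL' hL ?_ hB1 ?_ ?_ δ hδ0 hδ
    · intro x hx
      exact hB _ hx
    · intro x hx
      have := hs _ hx
      linarith
    · intro x hx y hy hxy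
      have := hm hy hx (neg_le_neg hxy)
      linarith
  · apply R2_79
    refine pieceBase (fun x => -f x) (fun x => -f' x) S hS (fun x => (hf x).neg) a L B hSL hL ?_ hB1 ?_ ?_ δ hδ0 hδ
    · intro x hx
      rw [abs_neg]
      exact hB _ hx
    · intro x hx
      have := hs _ hx
      linarith
    · intro x hx y hy hxy
      have := hm hx hy hxy
      linarith

end YU432
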