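import Pool.Agent.Helper432.YU.Ex

open MeasureTheory Set
open scoped ENNReal

namespace YU432

theorem one_le_PiF' (F : ℤ × ℤ × ℤ) : 1 ≤ PiF F := by
  unfold PiF
  exact one_le_mul_of_one_le_of_one_le
    (one_le_mul_of_one_le_of_one_le (le_max_left _ _) (le_max_left _ _)) (le_max_left _ _)

theorem rp_le_one' (F : ℤ × ℤ × ℤ) (τ : ℝ) (hτ : 1 < τ) : (PiF F)^(-(2*τ-1)) ≤ 1 :=
  Real.rpow_le_one_of_one_le_of_nonpos (one_le_PiF' F) (by linarith)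

theorem decomp' (P : (ℤ × ℤ × ℤ) × ℤ) (hP : P ≠ 0) :
    ∃ (g : ℤ) (Q : (ℤ × ℤ × ℤ) × ℤ), 0 < g ∧ Prim Q ∧
      P = ((g * Q.1.1, g * Q.1.2.1, g * Q.1.2.2), g * Q.2) := by
  obtain ⟨⟨a, b, c⟩, d⟩ := P
  obtain ⟨g, hg⟩ : ∃ g : ℤ,
      g = ((Int.gcd (Int.gcd a b : ℤ) (Int.gcd c d : ℤ) : ℕ) : ℤ) := ⟨_, rfl⟩
  have h1 : g ∣ (Int.gcd a b : ℤ) := by rw [hg]; exact Int.gcd_dvd_left _ _
  have h2 : g ∣ (Int.gcd c d : ℤ) := by rw [hg]; exact Int.gcd_dvd_right _ _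
  obtain ⟨a', ha'⟩ := h1.trans (Int.gcd_dvd_left a b)
  obtain ⟨b', hb'⟩ := h1.trans (Int.gcd_dvd_right a b)
  obtain ⟨c', hc'⟩ := h2.trans (Int.gcd_dvd_left c d)
  obtain ⟨d', hd'⟩ := h2.trans (Int.gcd_dvd_right c d)
  have hg0 : g ≠ 0 := by
    intro h0
    apply hP
    rw [ha', hb', hc', hd', h0]
    simp
  have hgpos : 0 < g := lt_of_le_of_ne (by rw [hg]; exact Int.natCast_nonneg _) hg0.symm
  refine ⟨g, ((a', b', c'), d'), hgpos, ?_, by simp only [← ha', ← hb', ← hc', ← hd']⟩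
  intro h k1 k2 k3 k4
  have hdiv : g * h ∣ ((Int.gcd (Int.gcd a b : ℤ) (Int.gcd c d : ℤ) : ℕ) : ℤ) := by
    apply Int.dvd_coe_gcd
    · apply Int.dvd_coe_gcd
      · rw [ha']; exact mul_dvd_mul_left g k1
      · rw [hb']; exact mul_dvd_mul_left g k2
    · apply Int.dvd_coe_gcd
      · rw [hc']; exact mul_dvd_mul_left g k3
      · rw [hd']; exact mul_dvd_mul_left g k4
  rw [← hg] at hdiv
  obtain ⟨k, hk⟩ := hdiv
  have hk1 : h * k = 1 := by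
    have : g * (h * k) = g * 1 := by rw [mul_one, ← mul_assoc]; exact hk.symm
    exact mul_left_cancel₀ hg0 this
  exact IsUnit.of_mul_eq_one k hk1

theorem max_mono' (g a : ℤ) (hg : 0 < g) : max 1 |(a : ℝ)| ≤ max 1 |((g * a : ℤ) : ℝ)| := by
  refine max_le_max le_rfl ?_
  have hg1 : (1 : ℝ) ≤ g := by exact_mod_cast hg
  push_cast
  rw [abs_mul, abs_of_pos (by linarith : (0 : ℝ) < g)]
  exact le_mul_of_one_le_left (abs_nonneg _) hg1

theorem prim_inf (τ : ℝ) (hτ : 1 < τ) (x : ℝ)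
    (hnz : ∀ P : (ℤ × ℤ × ℤ) × ℤ, P ≠ 0 → Fv P.1 x + P.2 ≠ 0)
    (hinf : {P : (ℤ × ℤ × ℤ) × ℤ | |Fv P.1 x + P.2| < (PiF P.1)^(-(2*τ-1))}.Infinite) :
    {P : (ℤ × ℤ × ℤ) × ℤ | Prim P ∧ |Fv P.1 x + P.2| < (PiF P.1)^(-(2*τ-1))}.Infinite := by
  by_contra hfin
  rw [Set.not_infinite] at hfin
  apply hinf
  refine ((Set.finite_singleton (0 : (ℤ × ℤ × ℤ) × ℤ)).union
    (hfin.biUnion (t := fun Q => (fun g : ℤ => (((g * Q.1.1, g * Q.1.2.1, g * Q.1.2.2), g * Q.2) :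
      (ℤ × ℤ × ℤ) × ℤ)) '' Set.Icc 0 ⌈1/|Fv Q.1 x + Q.2|⌉)
      (fun Q _ => (Set.finite_Icc _ _).image _))).subset ?_
  intro P hP
  by_cases hP0 : P = 0
  · left; exact hP0
  · right
    obtain ⟨g, Q, hg, hQ, hPQ⟩ := decomp' P hP0
    have hg1 : (1:ℝ) ≤ g := by exact_mod_cast hg
    have hval : Fv P.1 x + P.2 = g * (Fv Q.1 x + Q.2) := by
      rw [hPQ]; simp only [Fv]; push_cast; ring
    have hQ0 : Fv Q.1 x + Q.2 ≠ 0 := by
      intro h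
      rw [h, mul_zero] at hval
      exact hnz P hP0 hval
    have hpos := abs_pos.2 hQ0
    have habs : |Fv P.1 x + P.2| = g * |Fv Q.1 x + Q.2| := by
      rw [hval, abs_mul, abs_of_pos (by linarith : (0 : ℝ) < g)]
    have hPi : PiF Q.1 ≤ PiF P.1 := by
      rw [hPQ]
      unfold PiF
      exact mul_le_mul (mul_le_mul (max_mono' g _ hg) (max_mono' g _ hg) (by positivity)
        (by positivity)) (max_mono' g _ hg) (by positivity) (by positivity)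
    have hP' : |Fv P.1 x + P.2| < (PiF P.1)^(-(2*τ-1)) := hP
    have hlt1 : |Fv P.1 x + P.2| < 1 := lt_of_lt_of_le hP' (rp_le_one' _ τ hτ)
    have hQm : Q ∈ {P : (ℤ × ℤ × ℤ) × ℤ | Prim P ∧ |Fv P.1 x + P.2| < (PiF P.1)^(-(2*τ-1))} := by
      refine ⟨hQ, ?_⟩
      calc |Fv Q.1 x + Q.2| ≤ g * |Fv Q.1 x + Q.2| :=
            le_mul_of_one_le_left (abs_nonneg _) hg1
        _ = |Fv P.1 x + P.2| := habs.symm
        _ < (PiF P.1)^(-(2*τ-1)) := hP'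
        _ ≤ (PiF Q.1)^(-(2*τ-1)) :=
            Real.rpow_le_rpow_of_nonpos (lt_of_lt_of_le one_pos (one_le_PiF' _)) hPi (by linarith)
    refine Set.mem_biUnion hQm ⟨g, ⟨hg.le, ?_⟩, hPQ.symm⟩
    have h5 : (g:ℝ) ≤ 1/|Fv Q.1 x + Q.2| := by
      rw [le_div_iff₀ hpos]; linarith
    exact_mod_cast h5.trans (Int.le_ceil _)

theorem pointwise2 (M : ℝ) (hM : 1 ≤ M) (τ c c0 c0' h0 h0' h0'' x : ℝ) (hτ : 1 < τ)
    (hc : 0 < c) (hc1 : c ≤ 1/4) (hc0 : 0 < c0) (hcc : c0 ≤ c0')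
    (hx1 : 1/M ≤ |x|) (hx2 : |x| ≤ M)
    (hnz : ∀ P : (ℤ × ℤ × ℤ) × ℤ, P ≠ 0 → Fv P.1 x + P.2 ≠ 0)
    (hcr : ∀ F : ℤ × ℤ × ℤ, F ≠ 0 → F1 F x ≠ 0)
    (hK1 : ¬ {q : ℤ × ℤ | q.1 ≠ 0 ∧ |(q.1:ℝ) * x - q.2| < |(q.1:ℝ)|^(-(2*τ-1))}.Infinite)
    (hK2 : ¬ {G : ℤ × ℤ × ℤ | (G.1 ≠ 0 ∨ G.2.1 ≠ 0) ∧ |(G.1:ℝ) * x^2 + G.2.1 * x + G.2.2| <
      (max |(G.1:ℝ)| |(G.2.1:ℝ)|)^(-(3*τ-1))}.Infinite)
    (hinf : {P : (ℤ × ℤ × ℤ) × ℤ | Prim P ∧ |Fv P.1 x + P.2| < (PiF P.1)^(-(2*τ-1))}.Infinite) :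
    {i | x ∈ TN M τ (c/4) h0 i}.Infinite ∨ {i | x ∈ TM M τ c c0 h0' i}.Infinite ∨
      {i | x ∈ TV M τ c0' h0'' i}.Infinite := by
  classical
  obtain ⟨κ, h1, hκ, hh1, hB⟩ := double_B M hM
  obtain ⟨H0, hH0, hH1, hH2, hH3, hH4, hH5⟩ : ∃ H0 : ℝ, 1 ≤ H0 ∧ h0 ≤ H0 ∧ h0' ≤ H0 ∧
      h0'' ≤ H0 ∧ h1 ≤ H0 ∧ 100/κ ≤ H0 := by
    have e1 := abs_nonneg h0
    have e2 := le_abs_self h0
    have e3 := abs_nonneg h0'
    have e4 := le_abs_self h0'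
    have e5 := abs_nonneg h0''
    have e6 := le_abs_self h0''
    have e7 := abs_nonneg h1
    have e8 := le_abs_self h1
    have e9 : 0 ≤ 100/κ := by positivity
    exact ⟨1 + |h0| + |h0'| + |h0''| + |h1| + 100/κ, by linarith, by linarith, by linarith,
      by linarith, by linarith, by linarith⟩
  have hA := finite_small x H0
  have hB' := red_excl τ hτ κ hκ x hnz hK1 hK2
  have hRinf := hinf.sdiff (hA.union hB')
  obtain ⟨R, hRdef⟩ : ∃ R : Set ((ℤ × ℤ × ℤ) × ℤ), R = {P : (ℤ × ℤ × ℤ) × ℤ | Prim P ∧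
      |Fv P.1 x + P.2| < (PiF P.1)^(-(2*τ-1))} \
      ({P : (ℤ × ℤ × ℤ) × ℤ | hF P.1 ≤ H0 ∧ |Fv P.1 x + P.2| < 1} ∪
      {P : (ℤ × ℤ × ℤ) × ℤ | P.1 ≠ 0 ∧ (∃ u v : ℤ, u ≠ 0 ∧
        P.1.1*v^3 + P.1.2.1*v^2*u + P.1.2.2*v*u^2 + P.2*u^3 = 0) ∧
      κ * (hF P.1)^2 ≤ PiF P.1 ∧ |Fv P.1 x + P.2| < (PiF P.1)^(-(2*τ-1))}) := ⟨_, rfl⟩
  rw [← hRdef] at hRinf
  have hR : ∀ P ∈ R, Prim P ∧ |Fv P.1 x + P.2| < (PiF P.1)^(-(2*τ-1)) ∧ H0 < hF P.1 ∧ P.1 ≠ 0 ∧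
      (|F1 P.1 x| ≤ 1 → κ * (hF P.1)^2 ≤ PiF P.1 ∧ NoRoot P) := by
    intro P hP
    rw [hRdef] at hP
    obtain ⟨⟨k1, k2⟩, k3⟩ := hP
    have k4 : H0 < hF P.1 := by
      by_contra hcon
      push Not at hcon
      exact k3 (Or.inl ⟨hcon, lt_of_lt_of_le k2 (rp_le_one' _ τ hτ)⟩)
    have k5 : P.1 ≠ 0 := by
      intro h
      rw [h] at k4
      simp [hF] at k4
      linarith
    refine ⟨k1, k2, k4, k5, ?_⟩
    intro hF1
    obtain ⟨j, hj⟩ := hB P.1 x hx1 hx2 (hH4.trans k4.le) hF1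
    have k6 : κ * (hF P.1)^2 ≤ PiF P.1 := by
      refine le_trans ?_ hj
      exact le_mul_of_one_le_right (by positivity) (le_max_left _ _)
    refine ⟨k6, ?_⟩
    intro u v hu huv
    exact k3 (Or.inr ⟨k5, ⟨u, v, hu, huv⟩, k6, k2⟩)
  obtain ⟨σ, hσ⟩ : ∃ σ : (ℤ × ℤ × ℤ) × ℤ → Bool × Bool × Bool, ∀ P, P.1 ≠ 0 →
      x ∈ piece M P.1 (σ P) := by
    refine ⟨fun P => (decide (0 ≤ F2 P.1 x), decide (0 < F1 P.1 x), decide (0 < x)), ?_⟩
    intro P hP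
    have hx : sg (decide (0 < x)) * x = |x| := by
      by_cases h : 0 < x
      · simp [sg, h, abs_of_pos h]
      · simp [sg, h, abs_of_nonpos (not_lt.1 h)]
    refine ⟨by rw [hx]; exact hx1, by rw [hx]; exact hx2, ?_, ?_⟩
    · by_cases h : 0 ≤ F2 P.1 x
      · simp [sg, h]
      · simp [sg, h]
        linarith
    · have h2 := hcr P.1 hP
      by_cases h : 0 < F1 P.1 x
      · simp [sg, h]
      · simp [sg, h]
        exact lt_of_le_of_ne (not_lt.1 h) h2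
  have hcover : R ⊆ {P | P ∈ R ∧ c/4 ≤ |F1 P.1 x|} ∪
      ({P | P ∈ R ∧ ∃ m : ℕ, (1/2:ℝ)^(m+1) ≤ |F1 P.1 x| ∧ |F1 P.1 x| ≤ (1/2:ℝ)^m ∧
        (1/2:ℝ)^m ≤ c ∧ c0 ≤ hF P.1 * ((1/2:ℝ)^m)^2} ∪
      {P | P ∈ R ∧ P.1.1 ≠ 0 ∧ NoRoot P ∧ hF P.1 * (F1 P.1 x)^2 ≤ c0'}) := by
    intro P hP
    by_cases hbig : c/4 ≤ |F1 P.1 x|
    · exact Or.inl ⟨hP, hbig⟩
    · right
      push Not at hbig
      obtain ⟨k1, k2, k4, k5, k6⟩ := hR P hP
      obtain ⟨k7, k8⟩ := k6 (by linarith)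
      have hF1ne := hcr P.1 k5
      have hF1pos := abs_pos.2 hF1ne
      have hFpos : 0 < hF P.1 := by linarith
      have ha : P.1.1 ≠ 0 := by
        intro ha0
        have hF1v : F1 P.1 x = 2 * P.1.2.1 * x + P.1.2.2 := by
          simp only [F1, ha0]; push_cast; ring
        have hFvv : Fv P.1 x = P.1.2.1 * x^2 + P.1.2.2 * x := by
          simp only [Fv, ha0]; push_cast; ring
        by_cases hb0 : P.1.2.1 = 0
        · rw [hb0] at hF1v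
          have hF1c : F1 P.1 x = P.1.2.2 := by rw [hF1v]; push_cast; ring
          have hc0' : P.1.2.2 ≠ 0 := by
            intro h
            apply hF1ne
            rw [hF1c, h]; simp
          have : (1 : ℝ) ≤ |(P.1.2.2 : ℝ)| := by
            have := Int.one_le_abs hc0'
            exact_mod_cast this
          rw [← hF1c] at this
          linarith
        · -- discriminant
          have hsq : (F1 P.1 x)^2 = ((P.1.2.2^2 - 4 * P.1.2.1 * P.2 : ℤ) : ℝ) +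
              4 * P.1.2.1 * (Fv P.1 x + P.2) := by
            rw [hF1v, hFvv]; push_cast; ring
          have hbF : |(P.1.2.1 : ℝ)| ≤ hF P.1 :=
            (le_max_right _ _).trans (le_max_left _ _)
          have hsmall : hF P.1 * |Fv P.1 x + P.2| ≤ 1/100 := by
            have hPi1 := one_le_PiF' P.1
            have e1 : (PiF P.1)^(-(2*τ-1)) ≤ (PiF P.1)^(-1 : ℝ) :=
              Real.rpow_le_rpow_of_exponent_le hPi1 (by linarith)
            rw [Real.rpow_neg_one] at e1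
            have e2 : |Fv P.1 x + P.2| ≤ (PiF P.1)⁻¹ := k2.le.trans e1
            have e3 : (PiF P.1)⁻¹ ≤ (κ * (hF P.1)^2)⁻¹ := inv_anti₀ (by positivity) k7
            have e4 : hF P.1 * |Fv P.1 x + P.2| ≤ hF P.1 * (κ * (hF P.1)^2)⁻¹ :=
              mul_le_mul_of_nonneg_left (e2.trans e3) hFpos.le
            have e5 : hF P.1 * (κ * (hF P.1)^2)⁻¹ = (κ * hF P.1)⁻¹ := by
              field_simp
            have e6 : 100 ≤ κ * hF P.1 := by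
              have : 100/κ ≤ hF P.1 := hH5.trans k4.le
              rw [div_le_iff₀ hκ] at this
              linarith
            have e7 : (κ * hF P.1)⁻¹ ≤ 1/100 := by
              rw [one_div]
              exact inv_anti₀ (by norm_num) e6
            linarith
          have hmul : |4 * (P.1.2.1 : ℝ) * (Fv P.1 x + P.2)| ≤ 4/100 := by
            rw [abs_mul, abs_mul, abs_of_pos (by norm_num : (0:ℝ) < 4)]
            have := mul_le_mul_of_nonneg_right hbF (abs_nonneg (Fv P.1 x + P.2))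
            nlinarith
          have hlow := (abs_le.1 hmul).1
          have hup := (abs_le.1 hmul).2
          rcases lt_trichotomy (P.1.2.2^2 - 4 * P.1.2.1 * P.2) 0 with hD | hD | hD
          · have hD1 : ((P.1.2.2^2 - 4 * P.1.2.1 * P.2 : ℤ) : ℝ) ≤ -1 := by
              exact_mod_cast Int.le_sub_one_of_lt hD
            have := sq_nonneg (F1 P.1 x)
            linarith
          · apply k8 (2 * P.1.2.1) (-P.1.2.2) (by simpa using hb0)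
            rw [ha0]
            linear_combination (-2 * P.1.2.1^2) * hD
          · have hD1 : (1 : ℝ) ≤ ((P.1.2.2^2 - 4 * P.1.2.1 * P.2 : ℤ) : ℝ) := by
              exact_mod_cast hD
            have h9 : (F1 P.1 x)^2 ≤ (1/16)^2 := by
              rw [← sq_abs]
              exact pow_le_pow_left₀ (abs_nonneg _) (by linarith) 2
            norm_num at h9
            linarith
      obtain ⟨m, hm1, hm2⟩ := exists_nat_pow_near_of_lt_one hF1pos (by linarith : |F1 P.1 x| ≤ 1)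
        (by norm_num : (0:ℝ) < 1/2) (by norm_num)
      have hm3 : (1/2:ℝ)^m ≤ c := by
        rw [pow_succ] at hm1
        linarith
      by_cases hcase : c0 ≤ hF P.1 * ((1/2:ℝ)^m)^2
      · exact Or.inl ⟨hP, m, hm1.le, hm2, hm3, hcase⟩
      · right
        push Not at hcase
        refine ⟨hP, ha, k8, ?_⟩
        have h9 : (F1 P.1 x)^2 ≤ ((1/2:ℝ)^m)^2 := by
          rw [← sq_abs]
          exact pow_le_pow_left₀ (abs_nonneg _) hm2 2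
        have := mul_le_mul_of_nonneg_left h9 hFpos.le
        linarith
  have hinf2 := hRinf.mono hcover
  rw [Set.infinite_union, Set.infinite_union] at hinf2
  rcases hinf2 with h | h | h
  · left
    refine Set.infinite_of_injOn_mapsTo (f := fun P => (P, σ P)) ?_ ?_ h
    · intro P _ Q _ hPQ
      exact congrArg (fun i => i.1) hPQ
    · intro P hP
      obtain ⟨k1, k2, k4, k5, k6⟩ := hR P hP.1
      exact ⟨hσ P k5, k2, hP.2, hH1.trans k4.le⟩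
  · right; left
    have hm : ∀ P ∈ {P | P ∈ R ∧ ∃ m : ℕ, (1/2:ℝ)^(m+1) ≤ |F1 P.1 x| ∧ |F1 P.1 x| ≤ (1/2:ℝ)^m ∧
        (1/2:ℝ)^m ≤ c ∧ c0 ≤ hF P.1 * ((1/2:ℝ)^m)^2}, ∃ m : ℕ, (1/2:ℝ)^(m+1) ≤ |F1 P.1 x| ∧
        |F1 P.1 x| ≤ (1/2:ℝ)^m ∧ (1/2:ℝ)^m ≤ c ∧ c0 ≤ hF P.1 * ((1/2:ℝ)^m)^2 :=
      fun P hP => hP.2
    choose! m hm using hm
    refine Set.infinite_of_injOn_mapsTo (f := fun P => ((P, m P), σ P)) ?_ ?_ h
    · intro P _ Q _ hPQ
      exact congrArg (fun i => i.1.1) hPQ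
    · intro P hP
      obtain ⟨k1, k2, k4, k5, k6⟩ := hR P hP.1
      obtain ⟨m1, m2, m3, m4⟩ := hm P hP
      exact ⟨hσ P k5, k2, m1, m2, m3, m4, hH2.trans k4.le⟩
  · right; right
    refine Set.infinite_of_injOn_mapsTo (f := fun P => (P, σ P)) ?_ ?_ h
    · intro P _ Q _ hPQ
      exact congrArg (fun i => i.1) hPQ
    · intro P hP
      obtain ⟨k1, k2, k4, k5, k6⟩ := hR P hP.1
      exact ⟨⟨hP.2.1, hP.2.2.1, k1⟩, hσ P k5, k2, hP.2.2.2, hH3.trans k4.le⟩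


end YU432
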