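import Pool.Agent.Helper432.YU.Fac

open MeasureTheory Set
open scoped ENNReal

namespace YU432

/-- coefficient of `F` at position `j` (0: x^3, 1: x^2, 2: x) -/
def cf (F : ℤ × ℤ × ℤ) (j : Fin 3) : ℤ := if j = 0 then F.1 else if j = 1 then F.2.1 else F.2.2

/-- leading free coefficient when position `j` is frozen -/
def lead (F : ℤ × ℤ × ℤ) (j : Fin 3) : ℤ := if j = 0 then F.2.1 else F.1

theorem ab2_251 : |(2:ℝ)| = 2 := by norm_num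

theorem ab3_251 : |(3:ℝ)| = 3 := by norm_num

theorem ab4_251 : |(4:ℝ)| = 4 := by norm_num

theorem ab27_251 : |(27:ℝ)| = 27 := by norm_num

theorem ab12_251 : |(1/2:ℝ)| = 1/2 := by norm_num

theorem ab32_251 : |(3/2:ℝ)| = 3/2 := by norm_num

theorem int_zero251 {z : ℤ} (h : |(z:ℝ)| < 1) : z = 0 := by
  have h1 : |z| < 1 := by exact_mod_cast h
  exact Int.abs_lt_one_iff.1 h1

theorem tri0_251 (K h ρ x : ℝ) (hK : 1 ≤ K) (hh : 1 ≤ h) (hρ : 0 < ρ)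
    (hρ1 : ρ ≤ 1/2400) (r1 : K*ρ ≤ 1/2400) (b c d : ℤ) (hb : b ≠ 0)
    (hD : h * |(b:ℝ)*x^2 + c*x + d| ≤ K*ρ^2) (hD1 : |2*(b:ℝ)*x + c| ≤ K*ρ)
    (hb8 : |(b:ℝ)| ≤ 8*h) :
    ∃ u v w : ℤ, u ≠ 0 ∧ w ≠ 0 ∧ b = u^2*w ∧ h * |(b:ℝ)| * (x - v/u)^2 ≤ K*ρ^2 := by
  set Dx := (b:ℝ)*x^2 + c*x + d with hDx
  set Dp := 2*(b:ℝ)*x + c with hDp
  have hE : ((c^2 - 4*b*d : ℤ):ℝ) = Dp^2 - 4*b*Dx := by push_cast; rw [hDx,hDp]; ring
  have hbD : |(b:ℝ)| * |Dx| ≤ 8*(K*ρ^2) := by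
    calc |(b:ℝ)| *|Dx| ≤ 8*h*|Dx| := mul_le_mul_of_nonneg_right hb8 (abs_nonneg _)
      _ = 8*(h*|Dx|) := by ring
      _ ≤ _ := by linarith
  have hE1 : |((c^2 - 4*b*d : ℤ):ℝ)| < 1 := by
    rw [hE]
    have h1 : |Dp^2 - 4*b*Dx| ≤ |Dp|^2 + 4*(|(b:ℝ)| *|Dx|) := by
      refine (abs_sub _ _).trans (le_of_eq ?_)
      rw [abs_pow, abs_mul, abs_mul]
      norm_num
      ring
    have h2 : |Dp|^2 ≤ (K*ρ)^2 := pow_le_pow_left₀ (abs_nonneg _) hD1 2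
    have h3 : (K*ρ)^2 ≤ (1/2400)^2 := pow_le_pow_left₀ (by positivity) r1 2
    have h4 : K*ρ^2 ≤ 1/2400 * (1/2400) := by
      have : K*ρ^2 = (K*ρ)*ρ := by ring
      rw [this]
      exact mul_le_mul r1 hρ1 hρ.le (by norm_num)
    norm_num at h3 h4
    linarith
  have hE0 := int_zero251 hE1
  have hdisc : disc 0 b c d = 0 := by
    unfold disc
    linear_combination b^2 * hE0
  obtain ⟨u, v, e, f, hu, h1, h2, h3, h4⟩ := disc_zero_factor 0 b c d (Or.inr hb) hdisc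
  have he : e = 0 := by
    rcases mul_eq_zero.1 h1.symm with h | h
    · exact absurd (pow_eq_zero_iff (by norm_num) |>.1 h) hu
    · exact h
  subst he
  have hf : f ≠ 0 := by
    rintro rfl
    apply hb
    rw [h2]; ring
  have huR : (u:ℝ) ≠ 0 := by exact_mod_cast hu
  have hb2 : b = u^2*f := by rw [h2]; ring
  refine ⟨u, v, f, hu, hf, hb2, ?_⟩
  have h5 : Dx = b * (x - v/u)^2 := by
    rw [hDx, hb2, h3, h4]
    push_cast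
    field_simp
    ring
  have h6 : |Dx| = |(b:ℝ)| * (x - v/u)^2 := by
    rw [h5, abs_mul, abs_of_nonneg (sq_nonneg (x - v/u))]
  rw [mul_assoc, ← h6]
  exact hD

set_option maxHeartbeats 4000000 in
theorem tri1_251 (M K h ρ x : ℝ) (hM : 1 ≤ M) (hK : 1 ≤ K) (hh : 1 ≤ h) (hρ : 0 < ρ)
    (hx1 : 1/M ≤ |x|) (hx2 : |x| ≤ M)
    (hρ1 : ρ ≤ 1/2400) (r1 : K*ρ ≤ 1/2400) (r3 : K*M^2*ρ ≤ 1/2400) (r4 : K*M^3*ρ ≤ 1/2400)
    (a c d : ℤ) (ha : a ≠ 0)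
    (hD : h * |(a:ℝ)*x^3 + c*x + d| ≤ K*ρ^2) (hD1 : |3*(a:ℝ)*x^2 + c| ≤ K*ρ)
    (ha8 : |(a:ℝ)| ≤ 8*h) (s6 : K^2*M^3*(|(a:ℝ)| *ρ^2) ≤ 1/2400) :
    ∃ u v w : ℤ, u ≠ 0 ∧ w ≠ 0 ∧ a = u^2*w ∧ h * |(a:ℝ)| * (x - v/u)^2 ≤ K*M*ρ^2 := by
  set Dx := (a:ℝ)*x^3 + c*x + d with hDx
  set Dp := 3*(a:ℝ)*x^2 + c with hDp
  set A := |(a:ℝ)| with hA
  clear_value A Dx Dp
  have hA1 : 1 ≤ A := by
    rw [hA, ← Int.cast_abs]
    exact_mod_cast Int.one_le_abs ha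
  have hA0 : 0 < A := by linarith
  have hM0 : 0 < M := by linarith
  have hM2 : 1 ≤ M^2 := one_le_pow₀ hM
  have hM3 : 1 ≤ M^3 := one_le_pow₀ hM
  have hDx0 := abs_nonneg Dx
  have hDx1 : |Dx| ≤ K*ρ^2 := by
    have : |Dx| ≤ h*|Dx| := le_mul_of_one_le_left hDx0 hh
    linarith
  have hKρ2 : K*ρ^2 ≤ 1/2400 * (1/2400) := by
    have : K*ρ^2 = (K*ρ)*ρ := by ring
    rw [this]
    exact mul_le_mul r1 hρ1 hρ.le (by norm_num)
  have hDx2 : |Dx| ≤ 1 := by norm_num at hKρ2; linarith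
  have hAD : A * |Dx| ≤ 8*(K*ρ^2) := by
    calc A*|Dx| ≤ 8*h*|Dx| := mul_le_mul_of_nonneg_right ha8 hDx0
      _ = 8*(h*|Dx|) := by ring
      _ ≤ _ := by linarith
  have hx0 := abs_nonneg x
  have hxx2 : |x|^2 ≤ M^2 := pow_le_pow_left₀ hx0 hx2 2
  have hxx3 : |x|^3 ≤ M^3 := pow_le_pow_left₀ hx0 hx2 3
  have hc : |(c:ℝ)| ≤ 4*M^2*A := by
    have e1 : (c:ℝ) = Dp - 3*a*x^2 := by rw [hDp]; ring
    have h1 : |(c:ℝ)| ≤ |Dp| + 3*(A*|x|^2) := by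
      rw [e1]
      refine (abs_sub _ _).trans (le_of_eq ?_)
      rw [abs_mul, abs_mul, abs_pow, ab3_251, ← hA]
      ring
    have h2 : A*|x|^2 ≤ A*M^2 := mul_le_mul_of_nonneg_left hxx2 (by linarith)
    have h3 : 1 ≤ M^2*A := one_le_mul_of_one_le_of_one_le hM2 hA1
    nlinarith
  have hd : |(d:ℝ)| ≤ 6*M^3*A := by
    have e1 : (d:ℝ) = Dx - a*x^3 - c*x := by rw [hDx]; ring
    have h1 : |(d:ℝ)| ≤ |Dx| + A*|x|^3 + |(c:ℝ)| *|x| := by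
      rw [e1]
      refine (abs_sub _ _).trans ?_
      refine (add_le_add_left (abs_sub _ _) _).trans (le_of_eq ?_)
      rw [abs_mul, abs_mul, abs_pow, ← hA]
    have h2 : A*|x|^3 ≤ A*M^3 := mul_le_mul_of_nonneg_left hxx3 (by linarith)
    have h3 : 1 ≤ M^3*A := one_le_mul_of_one_le_of_one_le hM3 hA1
    have h4 : |(c:ℝ)| *|x| ≤ 4*M^2*A*M := mul_le_mul hc hx2 hx0 (by positivity)
    have h5 : 4*M^2*A*M = 4*(M^3*A) := by ring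
    nlinarith
  have hE : ((4*c^3 + 27*a*d^2 : ℤ):ℝ) = -(27*a*(a*x^3 + c*x - d))*Dx + (3*a*x^2+4*c)*Dp^2 := by
    push_cast; rw [hDx,hDp]; ring
  have hE1 : |((4*c^3 + 27*a*d^2 : ℤ):ℝ)| < 1 := by
    rw [hE]
    have h1 : |-(27*a*(a*x^3 + c*x - d))*Dx + (3*a*x^2+4*c)*Dp^2| ≤
        27*A*(A*|x|^3 + |(c:ℝ)| *|x| + |(d:ℝ)|)*|Dx| + (3*A*|x|^2 + 4*|(c:ℝ)|)*|Dp|^2 := by
      refine (abs_add_le _ _).trans (add_le_add ?_ ?_)
      · rw [abs_mul, abs_neg, abs_mul, abs_mul]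
        have h2 : |(a:ℝ)*x^3 + c*x - d| ≤ A*|x|^3 + |(c:ℝ)| *|x| + |(d:ℝ)| := by
          refine (abs_sub _ _).trans ?_
          refine (add_le_add_left (abs_add_le _ _) _).trans (le_of_eq ?_)
          rw [abs_mul, abs_mul, abs_pow, ← hA]
        have h3 : |(27:ℝ)| = 27 := by norm_num
        rw [h3, ← hA]
        gcongr
      · rw [abs_mul, abs_pow]
        have h2 : |3*(a:ℝ)*x^2 + 4*c| ≤ 3*A*|x|^2 + 4*|(c:ℝ)| := by
          refine (abs_add_le _ _).trans (le_of_eq ?_)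
          rw [abs_mul, abs_mul, abs_mul, abs_pow, ab3_251, ab4_251, ← hA]
        gcongr
    refine lt_of_le_of_lt h1 ?_
    have h2 : A*|x|^3 + |(c:ℝ)| *|x| + |(d:ℝ)| ≤ 11*(M^3*A) := by
      have h3 : A*|x|^3 ≤ A*M^3 := mul_le_mul_of_nonneg_left hxx3 (by linarith)
      have h4 : |(c:ℝ)| *|x| ≤ 4*M^2*A*M := mul_le_mul hc hx2 hx0 (by positivity)
      have h5 : 4*M^2*A*M = 4*(M^3*A) := by ring
      nlinarith
    have h3 : 3*A*|x|^2 + 4*|(c:ℝ)| ≤ 19*(M^2*A) := by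
      have h2 : A*|x|^2 ≤ A*M^2 := mul_le_mul_of_nonneg_left hxx2 (by linarith)
      nlinarith
    have h4 : 27*A*(A*|x|^3 + |(c:ℝ)| *|x| + |(d:ℝ)|)*|Dx| ≤ 2376*(K*M^3*(A*ρ^2)) := by
      calc 27*A*(A*|x|^3 + |(c:ℝ)| *|x| + |(d:ℝ)|)*|Dx| ≤ 27*A*(11*(M^3*A))*|Dx| := by gcongr
        _ = 297*M^3*A*(A*|Dx|) := by ring
        _ ≤ 297*M^3*A*(8*(K*ρ^2)) := by gcongr
        _ = 2376*(K*M^3*(A*ρ^2)) := by ring
    have h5 : (3*A*|x|^2 + 4*|(c:ℝ)|)*|Dp|^2 ≤ 19*(K^2*M^2*(A*ρ^2)) := by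
      calc (3*A*|x|^2 + 4*|(c:ℝ)|)*|Dp|^2 ≤ (19*(M^2*A))*(K*ρ)^2 := by gcongr
        _ = 19*(K^2*M^2*(A*ρ^2)) := by ring
    have h6 : K*M^3*(A*ρ^2) ≤ K^2*M^3*(A*ρ^2) := by
      have : K ≤ K^2 := by nlinarith
      gcongr
    have h7 : K^2*M^2*(A*ρ^2) ≤ K^2*M^3*(A*ρ^2) := by
      have : M^2 ≤ M^3 := pow_le_pow_right₀ hM (by norm_num)
      gcongr
    linarith
  have hE0 := int_zero251 hE1
  have hdisc : disc a 0 c d = 0 := by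
    unfold disc
    linear_combination (-a) * hE0
  obtain ⟨u, v, e, f, hu, h1, h2, h3, h4⟩ := disc_zero_factor a 0 c d (Or.inl ha) hdisc
  have he : e ≠ 0 := by
    rintro rfl
    apply ha
    rw [h1]; ring
  have huR : (u:ℝ) ≠ 0 := by exact_mod_cast hu
  have huf : u*f = 2*v*e := by
    have : u*(u*f - 2*v*e) = 0 := by linear_combination -h2
    rcases mul_eq_zero.1 this with h | h
    · exact absurd h hu
    · linarith
  have hfR : (f:ℝ) = 2*v*e/u := by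
    rw [eq_div_iff huR]
    have : ((u*f : ℤ):ℝ) = ((2*v*e : ℤ):ℝ) := by rw [huf]
    push_cast at this
    linarith
  refine ⟨u, v, e, hu, he, h1, ?_⟩
  have haR : (a:ℝ) = u^2*e := by rw [h1]; push_cast; ring
  have hcR : (c:ℝ) = v^2*e - 2*u*v*f := by rw [h3]; push_cast; ring
  have hdR : (d:ℝ) = v^2*f := by rw [h4]; push_cast; ring
  set θ : ℝ := v/u with hθ
  have h5 : Dx = a*(x-θ)^2*(x+2*θ) := by
    rw [hDx, haR, hcR, hdR, hfR, hθ]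
    field_simp
    ring
  have h6 : Dp = 3*a*(x-θ)*(x+θ) := by
    rw [hDp, haR, hcR, hfR, hθ]
    field_simp
    ring
  have h7 : |Dx| = A*(x-θ)^2*|x+2*θ| := by
    rw [h5, abs_mul, abs_mul, abs_of_nonneg (sq_nonneg (x-θ)), ← hA]
  have h8 : |Dp| = 3*A*|x-θ| *|x+θ| := by
    rw [h6, abs_mul, abs_mul, abs_mul, ab3_251, ← hA]
  have hMx : 1 ≤ M*|x| := by
    rw [div_le_iff₀ hM0] at hx1
    linarith
  by_cases hcase : M*|x-θ| ≤ 1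
  · have h9 : 3*|x| ≤ |x+2*θ| + 2*|x-θ| := by
      have : 3*x = (x+2*θ) + 2*(x-θ) := by ring
      calc 3*|x| = |3*x| := by rw [abs_mul, ab3_251]
        _ = |(x+2*θ) + 2*(x-θ)| := by rw [this]
        _ ≤ |x+2*θ| + |2*(x-θ)| := abs_add_le _ _
        _ = |x+2*θ| + 2*|x-θ| := by rw [abs_mul, ab2_251]
    have h10 : 1 ≤ M*|x+2*θ| := by nlinarith
    have h11 : h*A*(x-θ)^2*1 ≤ h*A*(x-θ)^2*(M*|x+2*θ|) :=
      mul_le_mul_of_nonneg_left h10 (by positivity)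
    calc h*A*(x-θ)^2 ≤ h*A*(x-θ)^2*(M*|x+2*θ|) := by linarith
      _ = M*(h*|Dx|) := by rw [h7]; ring
      _ ≤ M*(K*ρ^2) := mul_le_mul_of_nonneg_left hD hM0.le
      _ = K*M*ρ^2 := by ring
  · exfalso
    push Not at hcase
    have hxθ := abs_nonneg (x-θ)
    have hp := abs_nonneg (x+θ)
    have hq := abs_nonneg (x+2*θ)
    -- |x+θ| ≤ K M ρ
    have h9 : |x+θ| ≤ K*M*ρ := by
      have h10 : |x+θ| ≤ M*|Dp| := by
        rw [h8]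
        have : 1 ≤ 3*A*(M*|x-θ|) := by nlinarith
        calc |x+θ| = 1*|x+θ| := (one_mul _).symm
          _ ≤ (3*A*(M*|x-θ|))*|x+θ| := mul_le_mul_of_nonneg_right this hp
          _ = M*(3*A*|x-θ| *|x+θ|) := by ring
      calc |x+θ| ≤ M*|Dp| := h10
        _ ≤ M*(K*ρ) := mul_le_mul_of_nonneg_left hD1 hM0.le
        _ = K*M*ρ := by ring
    have h10 : |x+2*θ| ≤ K*M^2*ρ^2 := by
      have h11 : |x+2*θ| ≤ M^2*|Dx| := by
        rw [h7]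
        have h12 : 1 ≤ (M*|x-θ|)^2 := one_le_pow₀ hcase.le
        have h13 : 1 ≤ A*(M*|x-θ|)^2 := one_le_mul_of_one_le_of_one_le hA1 h12
        calc |x+2*θ| = 1*|x+2*θ| := (one_mul _).symm
          _ ≤ (A*(M*|x-θ|)^2)*|x+2*θ| := mul_le_mul_of_nonneg_right h13 hq
          _ = M^2*(A*(x-θ)^2*|x+2*θ|) := by rw [mul_pow, sq_abs]; ring
      calc |x+2*θ| ≤ M^2*|Dx| := h11
        _ ≤ M^2*(K*ρ^2) := mul_le_mul_of_nonneg_left hDx1 (by positivity)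
        _ = K*M^2*ρ^2 := by ring
    have h11 : |x| ≤ 2*|x+θ| + |x+2*θ| := by
      have : x = 2*(x+θ) - (x+2*θ) := by ring
      calc |x| = |2*(x+θ) - (x+2*θ)| := by rw [← this]
        _ ≤ |2*(x+θ)| + |x+2*θ| := abs_sub _ _
        _ = 2*|x+θ| + |x+2*θ| := by rw [abs_mul, ab2_251]
    have h12 : M*|x| ≤ 2*(K*M^2*ρ) + (K*M^3*ρ)*ρ := by
      calc M*|x| ≤ M*(2*(K*M*ρ) + K*M^2*ρ^2) := by
            apply mul_le_mul_of_nonneg_left _ hM0.le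
            linarith
        _ = 2*(K*M^2*ρ) + (K*M^3*ρ)*ρ := by ring
    have h13 : (K*M^3*ρ)*ρ ≤ 1/2400*(1/2400) := mul_le_mul r4 hρ1 hρ.le (by norm_num)
    norm_num at h13
    linarith

set_option maxHeartbeats 4000000 in
theorem tri2_251 (M K h ρ x : ℝ) (hM : 1 ≤ M) (hK : 1 ≤ K) (hh : 1 ≤ h) (hρ : 0 < ρ)
    (hx1 : 1/M ≤ |x|) (hx2 : |x| ≤ M)
    (hρ1 : ρ ≤ 1/2400) (r1 : K*ρ ≤ 1/2400) (r2 : K*M*ρ ≤ 1/2400)
    (r3 : K*M^2*ρ ≤ 1/2400) (r4 : K*M^3*ρ ≤ 1/2400)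
    (a b d : ℤ) (ha : a ≠ 0)
    (hD : h * |(a:ℝ)*x^3 + b*x^2 + d| ≤ K*ρ^2) (hD1 : |3*(a:ℝ)*x^2 + 2*b*x| ≤ K*ρ)
    (ha8 : |(a:ℝ)| ≤ 8*h) (s6 : K^2*M^3*(|(a:ℝ)| *ρ^2) ≤ 1/2400) :
    ∃ u v w : ℤ, u ≠ 0 ∧ w ≠ 0 ∧ a = u^2*w ∧ h * |(a:ℝ)| * (x - v/u)^2 ≤ K*M*ρ^2 := by
  set Dx := (a:ℝ)*x^3 + b*x^2 + d with hDx
  set A := |(a:ℝ)| with hA
  set S := 3*(a:ℝ)*x + 2*b with hS
  clear_value A Dx S
  have hA1 : 1 ≤ A := by
    rw [hA, ← Int.cast_abs]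
    exact_mod_cast Int.one_le_abs ha
  have hA0 : 0 < A := by linarith
  have hM0 : 0 < M := by linarith
  have hM3 : 1 ≤ M^3 := one_le_pow₀ hM
  have hDx0 := abs_nonneg Dx
  have hDx1 : |Dx| ≤ K*ρ^2 := by
    have : |Dx| ≤ h*|Dx| := le_mul_of_one_le_left hDx0 hh
    linarith
  have hAD : A * |Dx| ≤ 8*(K*ρ^2) := by
    calc A*|Dx| ≤ 8*h*|Dx| := mul_le_mul_of_nonneg_right ha8 hDx0
      _ = 8*(h*|Dx|) := by ring
      _ ≤ _ := by linarith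
  have hx0 := abs_nonneg x
  have hMx : 1 ≤ M*|x| := by
    rw [div_le_iff₀ hM0] at hx1
    linarith
  have hSx : |x| *|S| ≤ K*ρ := by
    have : 3*(a:ℝ)*x^2 + 2*b*x = x*S := by rw [hS]; ring
    rw [this, abs_mul] at hD1
    exact hD1
  have hSb : |S| ≤ K*M*ρ := by
    calc |S| = 1*|S| := (one_mul _).symm
      _ ≤ (M*|x|)*|S| := mul_le_mul_of_nonneg_right hMx (abs_nonneg _)
      _ = M*(|x| *|S|) := by ring
      _ ≤ M*(K*ρ) := mul_le_mul_of_nonneg_left hSx hM0.le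
      _ = K*M*ρ := by ring
  have hMA : 1 ≤ M*A := one_le_mul_of_one_le_of_one_le hM hA1
  have hax : |(a:ℝ)*x| ≤ M*A := by
    rw [abs_mul, ← hA, mul_comm M A]
    exact mul_le_mul_of_nonneg_left hx2 (by linarith)
  have hb : |(b:ℝ)| ≤ 2*(M*A) := by
    have e1 : 2*(b:ℝ) = S - 3*(a*x) := by rw [hS]; ring
    have h1 : 2*|(b:ℝ)| ≤ |S| + 3*|(a:ℝ)*x| := by
      calc 2*|(b:ℝ)| = |2*(b:ℝ)| := by rw [abs_mul, ab2_251]
        _ = |S - 3*(a*x)| := by rw [e1]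
        _ ≤ |S| + |3*((a:ℝ)*x)| := abs_sub _ _
        _ = |S| + 3*|(a:ℝ)*x| := by rw [abs_mul 3, ab3_251]
    linarith
  have h3ab : |3*(a:ℝ)*x - b| ≤ 5*(M*A) := by
    calc |3*(a:ℝ)*x - b| ≤ |3*(a:ℝ)*x| + |(b:ℝ)| := abs_sub _ _
      _ = 3*|(a:ℝ)*x| + |(b:ℝ)| := by rw [mul_assoc, abs_mul 3, ab3_251]
      _ ≤ 5*(M*A) := by linarith
  have hE : ((4*b^3 + 27*a^2*d : ℤ):ℝ) = 27*a^2*Dx - (3*a*x-b)*S^2 := by
    push_cast; rw [hDx,hS]; ring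
  have hE1 : |((4*b^3 + 27*a^2*d : ℤ):ℝ)| < 1 := by
    rw [hE]
    have h1 : |27*(a:ℝ)^2*Dx - (3*a*x-b)*S^2| ≤ 27*A^2*|Dx| + |3*(a:ℝ)*x-b| *|S|^2 := by
      refine (abs_sub _ _).trans (le_of_eq ?_)
      rw [abs_mul, abs_mul, abs_mul, abs_pow, abs_pow, ab27_251, ← hA]
    refine lt_of_le_of_lt h1 ?_
    have h4 : 27*A^2*|Dx| ≤ 216*(K*(A*ρ^2)) := by
      calc 27*A^2*|Dx| = 27*A*(A*|Dx|) := by ring
        _ ≤ 27*A*(8*(K*ρ^2)) := by gcongr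
        _ = 216*(K*(A*ρ^2)) := by ring
    have h5 : |3*(a:ℝ)*x-b| *|S|^2 ≤ 5*(K^2*M^3*(A*ρ^2)) := by
      calc |3*(a:ℝ)*x-b| *|S|^2 ≤ (5*(M*A))*(K*M*ρ)^2 := by gcongr
        _ = 5*(K^2*M^3*(A*ρ^2)) := by ring
    have h6 : K*(A*ρ^2) ≤ K^2*M^3*(A*ρ^2) := by
      have h7 : K ≤ K^2*M^3 := by nlinarith
      apply mul_le_mul_of_nonneg_right h7
      positivity
    linarith
  have hE0 := int_zero251 hE1
  have hdisc : disc a b 0 d = 0 := by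
    unfold disc
    linear_combination (-d) * hE0
  obtain ⟨u, v, e, f, hu, h1, h2, h3, h4⟩ := disc_zero_factor a b 0 d (Or.inl ha) hdisc
  have he : e ≠ 0 := by
    rintro rfl
    apply ha
    rw [h1]; ring
  have huR : (u:ℝ) ≠ 0 := by exact_mod_cast hu
  have hv : v ≠ 0 := by
    intro hv0
    rw [hv0] at h2 h4
    have hd0 : d = 0 := by rw [h4]; ring
    have hb0 : b = 0 := by
      rw [hd0] at hE0
      have : b^3 = 0 := by linarith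
      exact pow_eq_zero_iff (by norm_num) |>.1 this
    have h5 : |Dx| = A*|x|^3 := by
      rw [hDx, hb0, hd0]
      push_cast
      rw [zero_mul, add_zero, add_zero, abs_mul, abs_pow, ← hA]
    have h6 : 1 ≤ M^3*|Dx| := by
      rw [h5]
      have h7 : 1 ≤ (M*|x|)^3 := one_le_pow₀ hMx
      have h8 : 1 ≤ A*(M*|x|)^3 := one_le_mul_of_one_le_of_one_le hA1 h7
      calc 1 ≤ A*(M*|x|)^3 := h8
        _ = M^3*(A*|x|^3) := by ring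
    have h7 : M^3*|Dx| ≤ (K*M^3*ρ)*ρ := by
      calc M^3*|Dx| ≤ M^3*(K*ρ^2) := mul_le_mul_of_nonneg_left hDx1 (by positivity)
        _ = (K*M^3*ρ)*ρ := by ring
    have h13 : (K*M^3*ρ)*ρ ≤ 1/2400*(1/2400) := mul_le_mul r4 hρ1 hρ.le (by norm_num)
    norm_num at h13
    linarith
  have hvR : (v:ℝ) ≠ 0 := by exact_mod_cast hv
  have huf : v*e = 2*u*f := by
    have : v*(v*e - 2*u*f) = 0 := by linear_combination -h3
    rcases mul_eq_zero.1 this with h | h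
    · exact absurd h hv
    · linarith
  have hfR : (f:ℝ) = v*e/(2*u) := by
    rw [eq_div_iff (by positivity)]
    have : ((v*e : ℤ):ℝ) = ((2*u*f : ℤ):ℝ) := by rw [huf]
    push_cast at this
    linarith
  refine ⟨u, v, e, hu, he, h1, ?_⟩
  have haR : (a:ℝ) = u^2*e := by rw [h1]; push_cast; ring
  have hbR : (b:ℝ) = u^2*f - 2*u*v*e := by rw [h2]; push_cast; ring
  have hdR : (d:ℝ) = v^2*f := by rw [h4]; push_cast; ring
  set θ : ℝ := v/u with hθ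
  have h5 : Dx = a*(x-θ)^2*(x+θ/2) := by
    rw [hDx, haR, hbR, hdR, hfR, hθ]
    field_simp
    ring
  have h6 : S = 3*a*(x-θ) := by
    rw [hS, haR, hbR, hfR, hθ]
    field_simp
    ring
  have h7 : |Dx| = A*(x-θ)^2*|x+θ/2| := by
    rw [h5, abs_mul, abs_mul, abs_of_nonneg (sq_nonneg (x-θ)), ← hA]
  have h8 : |S| = 3*A*|x-θ| := by
    rw [h6, abs_mul, abs_mul, ab3_251, ← hA]
  have hxθ := abs_nonneg (x-θ)
  have h9 : M*|x-θ| ≤ 1/2400 := by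
    have h10 : |x-θ| ≤ |S| := by
      rw [h8]
      have : 1 ≤ 3*A := by linarith
      exact le_mul_of_one_le_left hxθ this
    calc M*|x-θ| ≤ M*(K*M*ρ) := mul_le_mul_of_nonneg_left (h10.trans hSb) hM0.le
      _ = K*M^2*ρ := by ring
      _ ≤ 1/2400 := r3
  have h10 : 3/2*|x| ≤ |x+θ/2| + 1/2*|x-θ| := by
    have : 3/2*x = (x+θ/2) + 1/2*(x-θ) := by ring
    calc 3/2*|x| = |3/2*x| := by rw [abs_mul, ab32_251]
      _ = |(x+θ/2) + 1/2*(x-θ)| := by rw [this]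
      _ ≤ |x+θ/2| + |1/2*(x-θ)| := abs_add_le _ _
      _ = |x+θ/2| + 1/2*|x-θ| := by rw [abs_mul, ab12_251]
  have h11 : 1 ≤ M*|x+θ/2| := by nlinarith
  have h12 : h*A*(x-θ)^2*1 ≤ h*A*(x-θ)^2*(M*|x+θ/2|) :=
    mul_le_mul_of_nonneg_left h11 (by positivity)
  calc h*A*(x-θ)^2 ≤ h*A*(x-θ)^2*(M*|x+θ/2|) := by linarith
    _ = M*(h*|Dx|) := by rw [h7]; ring
    _ ≤ M*(K*ρ^2) := mul_le_mul_of_nonneg_left hD hM0.le
    _ = K*M*ρ^2 := by ring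

theorem tri_zero (M K : ℝ) (hM : 1 ≤ M) (hK : 1 ≤ K) : ∃ c : ℝ, 0 < c ∧
    ∀ (D : (ℤ × ℤ × ℤ) × ℤ) (j : Fin 3) (h ρ x : ℝ), 1 ≤ h → 0 < ρ → ρ ≤ c → 1/M ≤ |x| → |x| ≤ M →
      cf D.1 j = 0 → |Fv D.1 x + D.2| ≤ K*ρ^2/h → |F1 D.1 x| ≤ K*ρ → lead D.1 j = 0 → D = 0 := by
  refine ⟨1/(2*K*M), by positivity, ?_⟩
  rintro ⟨⟨a, b, c⟩, d⟩ j h ρ x hh hρ hρc hx1 hx2 hcf hD hD1 hlead
  have hM0 : 0 < M := by linarith
  have hK0 : 0 < K := by linarith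
  have r2 : K*M*ρ ≤ 1/2 := by
    rw [le_div_iff₀ (by positivity)] at hρc
    linarith
  have r1 : K*ρ ≤ 1/2 := by
    have : K*ρ ≤ K*M*ρ := by nlinarith [mul_pos hK0 hρ]
    linarith
  have hρ2 : ρ ≤ 1/2 := by nlinarith
  have hMx : 1 ≤ M*|x| := by
    rw [div_le_iff₀ hM0] at hx1
    linarith
  have hDx : |Fv (a, b, c) x + d| < 1 := by
    refine lt_of_le_of_lt hD ?_
    have h1 : K*ρ^2/h ≤ K*ρ^2 := div_le_self (by positivity) hh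
    have h2 : K*ρ^2 = (K*ρ)*ρ := by ring
    have h3 : (K*ρ)*ρ ≤ 1/2*(1/2) := mul_le_mul r1 hρ2 hρ.le (by norm_num)
    norm_num at h3
    linarith
  unfold Fv at hDx
  unfold F1 at hD1
  simp only [cf, lead] at hcf hlead
  have lin : a = 0 → b = 0 → ((a, b, c), d) = (0 : (ℤ × ℤ × ℤ) × ℤ) := by
    rintro rfl rfl
    simp only [Int.cast_zero, mul_zero, zero_mul, zero_add] at hD1 hDx
    have hc : c = 0 := int_zero251 (by linarith)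
    subst hc
    simp only [Int.cast_zero, mul_zero, zero_mul, zero_add] at hDx
    have hd : d = 0 := int_zero251 hDx
    subst hd
    rfl
  fin_cases j
  · simp at hcf hlead
    exact lin hcf hlead
  · simp at hcf hlead
    exact lin hlead hcf
  · simp at hcf hlead
    subst hcf hlead
    simp only [Int.cast_zero, mul_zero, zero_mul, zero_add, add_zero] at hD1 hDx
    have hb : b = 0 := by
      apply int_zero251
      rw [abs_mul, abs_mul] at hD1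
      have h2 : |(2:ℝ)| = 2 := by norm_num
      rw [h2] at hD1
      have h3 := abs_nonneg (b:ℝ)
      have h4 : |(b:ℝ)| ≤ |(b:ℝ)| * (M*|x|) := le_mul_of_one_le_right h3 hMx
      have h5 : M*(2*|(b:ℝ)| *|x|) ≤ M*(K*ρ) := mul_le_mul_of_nonneg_left hD1 hM0.le
      have h6 : M*(2*|(b:ℝ)| *|x|) = 2*(|(b:ℝ)| * (M*|x|)) := by ring
      have h7 : M*(K*ρ) = K*M*ρ := by ring
      linarith
    subst hb
    simp only [Int.cast_zero, mul_zero, zero_mul, zero_add] at hDx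
    have hd : d = 0 := int_zero251 hDx
    subst hd
    rfl

theorem tri_deg (M K : ℝ) (hM : 1 ≤ M) (hK : 1 ≤ K) : ∃ c C : ℝ, 0 < c ∧ 1 ≤ C ∧
    ∀ (D : (ℤ × ℤ × ℤ) × ℤ) (j : Fin 3) (h ρ x : ℝ), 1 ≤ h → 0 < ρ → ρ ≤ c → 1/M ≤ |x| → |x| ≤ M →
      cf D.1 j = 0 → |Fv D.1 x + D.2| ≤ K*ρ^2/h → |F1 D.1 x| ≤ K*ρ → lead D.1 j ≠ 0 →
      |(lead D.1 j : ℝ)| ≤ 8 * h → |(lead D.1 j : ℝ)| * ρ^2 ≤ c →
      ∃ u v w : ℤ, u ≠ 0 ∧ w ≠ 0 ∧ lead D.1 j = u^2 * w ∧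
        (x - v/u)^2 ≤ C * ρ^2 / (h * |(lead D.1 j : ℝ)|) := by
  have hM0 : 0 < M := by linarith
  have hK0 : 0 < K := by linarith
  refine ⟨1/(2400*(K^2*M^3)), K*M, by positivity, one_le_mul_of_one_le_of_one_le hK hM, ?_⟩
  rintro ⟨⟨a, b, c⟩, d⟩ j h ρ x hh hρ hρc hx1 hx2 hcf hD hD1 hlead hl8 hlc
  have r6 : K^2*M^3*ρ ≤ 1/2400 := by
    rw [le_div_iff₀ (by positivity)] at hρc
    linarith
  have hKK : K ≤ K^2 := by nlinarith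
  have hM2 : 1 ≤ M^2 := one_le_pow₀ hM
  have hM3 : 1 ≤ M^3 := one_le_pow₀ hM
  have hM23 : M^2 ≤ M^3 := pow_le_pow_right₀ hM (by norm_num)
  have hM13 : M ≤ M^3 := by
    calc M = M^1 := (pow_one M).symm
      _ ≤ M^3 := pow_le_pow_right₀ hM (by norm_num)
  have r4 : K*M^3*ρ ≤ 1/2400 := by
    refine le_trans ?_ r6
    gcongr
  have r3 : K*M^2*ρ ≤ 1/2400 := by
    refine le_trans ?_ r4
    gcongr
  have r2 : K*M*ρ ≤ 1/2400 := by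
    refine le_trans ?_ r4
    gcongr
  have r1 : K*ρ ≤ 1/2400 := by
    refine le_trans ?_ r2
    have : K ≤ K*M := le_mul_of_one_le_right hK0.le hM
    gcongr
  have hρ1 : ρ ≤ 1/2400 := by
    refine le_trans ?_ r1
    exact le_mul_of_one_le_left hρ.le hK
  have hh0 : 0 < h := by linarith
  have hD' : h * |Fv (a, b, c) x + d| ≤ K*ρ^2 := by
    rw [le_div_iff₀ hh0] at hD
    linarith
  have s6 : K^2*M^3*(|(lead (a, b, c) j : ℝ)| *ρ^2) ≤ 1/2400 := by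
    have h1 : |(lead (a, b, c) j : ℝ)| *ρ^2 ≤ 1/(2400*(K^2*M^3)) := hlc
    rw [le_div_iff₀ (by positivity)] at h1
    linarith
  have fin : ∀ (l : ℤ), l ≠ 0 → (∃ u v w : ℤ, u ≠ 0 ∧ w ≠ 0 ∧ l = u^2*w ∧
      h * |(l:ℝ)| * (x - v/u)^2 ≤ K*M*ρ^2) → ∃ u v w : ℤ, u ≠ 0 ∧ w ≠ 0 ∧ l = u^2 * w ∧
        (x - v/u)^2 ≤ K*M * ρ^2 / (h * |(l : ℝ)|) := by
    rintro l hl ⟨u, v, w, hu, hw, h1, h2⟩
    refine ⟨u, v, w, hu, hw, h1, ?_⟩
    have hlR : 0 < |(l:ℝ)| := abs_pos.2 (by exact_mod_cast hl)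
    rw [le_div_iff₀ (by positivity)]
    linarith
  unfold Fv at hD'
  unfold F1 at hD1
  simp only [cf] at hcf
  fin_cases j
  · simp at hcf
    subst hcf
    change ∃ u v w : ℤ, u ≠ 0 ∧ w ≠ 0 ∧ b = u^2 * w ∧
        (x - v/u)^2 ≤ K*M * ρ^2 / (h * |(b : ℝ)|)
    simp only [lead] at hlead hl8 s6
    simp at hlead hl8 s6
    simp only [Int.cast_zero, mul_zero, zero_mul, zero_add] at hD' hD1
    obtain ⟨u, v, w, hu, hw, h1, h2⟩ := tri0_251 K h ρ x hK hh hρ hρ1 r1 b c d hlead hD' hD1 hl8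
    refine fin b hlead ⟨u, v, w, hu, hw, h1, h2.trans ?_⟩
    have : K ≤ K*M := le_mul_of_one_le_right hK0.le hM
    gcongr
  · simp at hcf
    subst hcf
    change ∃ u v w : ℤ, u ≠ 0 ∧ w ≠ 0 ∧ a = u^2 * w ∧
        (x - v/u)^2 ≤ K*M * ρ^2 / (h * |(a : ℝ)|)
    simp only [lead] at hlead hl8 s6
    simp at hlead hl8 s6
    simp only [Int.cast_zero, mul_zero, zero_mul, add_zero] at hD' hD1
    exact fin a hlead (tri1_251 M K h ρ x hM hK hh hρ hx1 hx2 hρ1 r1 r3 r4 a c d hlead hD' hD1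
      hl8 (by linarith))
  · simp at hcf
    subst hcf
    change ∃ u v w : ℤ, u ≠ 0 ∧ w ≠ 0 ∧ a = u^2 * w ∧
        (x - v/u)^2 ≤ K*M * ρ^2 / (h * |(a : ℝ)|)
    simp only [lead] at hlead hl8 s6
    simp at hlead hl8 s6
    simp only [Int.cast_zero, mul_zero, zero_mul, add_zero] at hD' hD1
    exact fin a hlead (tri2_251 M K h ρ x hM hK hh hρ hx1 hx2 hρ1 r1 r2 r3 r4 a b d hlead hD' hD1
      hl8 (by linarith))


end YU432
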